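import Pool.Agent.T2h95.OC.Stm

set_option autoImplicit false

namespace Pool.Agent.T2h95.OC

open MeasureTheory Set Filter Topology

theorem dc_ico (ν : Measure ℝ) [IsProbabilityMeasure ν] [NullSingletonClass ν] {ε : ℝ} {q : ℝ → ℝ}
    (hε : 0 < ε) (hε2 : ε < 1 / 2) (hq : QF ν ε q) {u v : ℝ} (hu : u ∈ Icc (0 : ℝ) 1)
    (hv : v ∈ Icc (0 : ℝ) 1) (huv : u < v) :
    ν (Ico (q u) (q v)) = ENNReal.ofReal ((1 - 2 * ε) * (v - u)) := by
  have h1 : Ico (q u) (q v) = Iio (q v) \ Iio (q u) := by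
    ext t
    simp only [mem_Ico, Set.mem_sdiff, mem_Iio, not_lt]
    exact and_comm
  have hlt : q u < q v := hq.mono hu hv huv
  have e1 : ∀ w, ν (Iio w) = ν (Iic w) := fun w => measure_congr Iio_ae_eq_Iic
  rw [h1, measure_sdiff (Iio_subset_Iio hlt.le) measurableSet_Iio.nullMeasurableSet
    (measure_ne_top _ _), e1, e1, hq.lvl v hv, hq.lvl u hu,
    ← ENNReal.ofReal_sub _ (by have := hu.1; nlinarith)]
  congr 1
  ring

theorem t_DC (h1 : S_DC1) (h2 : S_DC2) (h3 : S_MOD) : S_DC := by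
  intro ν _ _ τ hτc hτ0 hWP ε q hε hε2 hq
  obtain ⟨δ, hδ0, hδlim, hδ⟩ := h3 q hq.cont
  obtain ⟨ω, hω0, hωlim, hω⟩ := h3 (fun u => τ (q u)) (hτc.comp hq.cont)
  obtain ⟨η, hη, hηle⟩ : ∃ η : ℝ, 0 < η ∧ ∀ u ∈ Icc (0 : ℝ) 1, η ≤ τ (q u) := by
    obtain ⟨u₀, hu₀, hmin⟩ := (isCompact_Icc (a := (0 : ℝ)) (b := 1)).exists_isMinOn
      ⟨0, by norm_num⟩ (hτc.comp hq.cont).continuousOn
    exact ⟨τ (q u₀), hτ0 _, fun u hu => hmin hu⟩
  refine ⟨fun N => (1 + δ N) * (1 + ω N / η) + (δ N ^ 2 + δ N) / η, ?_, ?_, ?_⟩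
  · have := ((hδlim.const_add 1).mul ((hωlim.div_const η).const_add 1)).add
      (((hδlim.pow 2).add hδlim).div_const η)
    simpa using this
  · intro N
    have := hδ0 N
    have := hω0 N
    positivity
  · intro N hN g
    have hNR : (0 : ℝ) < N := by exact_mod_cast hN
    have hδN := hδ0 N
    have hωN := hω0 N
    set x : ℕ → ℝ := fun k => xq q N k with hxdef
    have hu : ∀ k : ℕ, k ≤ N → ((k : ℝ) / N) ∈ Icc (0 : ℝ) 1 := by
      intro k hk
      refine ⟨by positivity, ?_⟩
      rw [div_le_one hNR]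
      exact_mod_cast hk
    have hlt : ∀ k : ℕ, ((k : ℝ) / N) < (((k + 1 : ℕ) : ℝ) / N) := by
      intro k
      rw [div_lt_div_iff_of_pos_right hNR]
      push_cast
      linarith
    have hx : ∀ k, k < N → x k < x (k + 1) := by
      intro k hk
      exact hq.mono (hu k hk.le) (hu (k + 1) hk) (hlt k)
    set p : ℝ := (1 - 2 * ε) / N with hp
    have hp0 : 0 < p := div_pos (by linarith) hNR
    have hν : ∀ k, k < N → ν (Ico (x k) (x (k + 1))) = ENNReal.ofReal p := by
      intro k hk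
      have := dc_ico ν hε hε2 hq (hu k hk.le) (hu (k + 1) hk) (hlt k)
      simp only [hxdef, xq]
      rw [this]
      congr 1
      rw [hp]
      push_cast
      field_simp
      ring
    -- oscillation of q and tau
    have hdist : ∀ k : ℕ, |(((k + 1 : ℕ) : ℝ) / N) - ((k : ℝ) / N)| ≤ 1 / (N : ℝ) := by
      intro k
      have : (((k + 1 : ℕ) : ℝ) / N) - ((k : ℝ) / N) = 1 / N := by push_cast; field_simp; ring
      rw [this, abs_of_pos (by positivity)]
    have hDx : ∀ k, k < N → x (k + 1) - x k ≤ δ N := by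
      intro k hk
      have := hδ N hN _ (hu (k + 1) hk) _ (hu k hk.le) (hdist k)
      exact (le_abs_self _).trans this
    have hτx : ∀ k, k ≤ N → η ≤ τ (x k) := fun k hk => hηle _ (hu k hk)
    have hτt : ∀ k, k < N → ∀ t ∈ Ico (x k) (x (k + 1)), τ t ≤ (1 + ω N / η) * τ (x k) := by
      intro k hk t ht
      obtain ⟨u, hu1, rfl⟩ := intermediate_value_Icc (hlt k).le hq.cont.continuousOn
        (show t ∈ Icc (q ((k : ℝ) / N)) (q (((k + 1 : ℕ) : ℝ) / N)) from ⟨ht.1, ht.2.le⟩)
      have hk1 := hu k hk.le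
      have hk2 := hu (k + 1) hk
      have hu01 : u ∈ Icc (0 : ℝ) 1 := ⟨hk1.1.trans hu1.1, hu1.2.trans hk2.2⟩
      have hd : |u - (k : ℝ) / N| ≤ 1 / (N : ℝ) := by
        rw [abs_of_nonneg (by linarith [hu1.1])]
        have := hdist k
        rw [abs_of_nonneg (by linarith [(hlt k)])] at this
        linarith [hu1.2]
      have h4 := hω N hN u hu01 _ hk1 hd
      have h5 : τ (q u) - τ (q ((k : ℝ) / N)) ≤ ω N := (le_abs_self _).trans h4
      have h6 : η ≤ τ (x k) := hτx k hk.le
      have h7 : ω N ≤ ω N / η * τ (x k) := by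
        rw [div_mul_eq_mul_div, le_div_iff₀ hη]
        exact mul_le_mul_of_nonneg_left h6 hωN.le
      have h8 : τ (x k) = τ (q ((k : ℝ) / N)) := rfl
      rw [add_mul, one_mul]
      rw [← h8] at h5
      linarith
    obtain ⟨G, hGc, hGb, hG1, hG2, hG3⟩ := h2 ν τ hτc (fun t => (hτ0 t).le) hWP N x g hN
      (fun k hk => hx k (by omega))
    set E : ℝ := ∑ k ∈ Finset.range (N - 1), τ (x k) * ((g (k + 1) - g k) / (x (k + 1) - x k)) ^ 2 with hE
    have hE0 : 0 ≤ E := Finset.sum_nonneg fun k _ => mul_nonneg (hτ0 _).le (sq_nonneg _)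
    have hV : ∫ t, G t ^ 2 ∂ν - (∫ t, G t ∂ν) ^ 2 ≤ p * (1 + ω N / η) * E := by
      refine hG3.trans ?_
      rw [hE, Finset.mul_sum]
      refine Finset.sum_le_sum fun k hk => ?_
      rw [Finset.mem_range] at hk
      have hkN : k < N := by omega
      have h4 : ∫ t in Ico (x k) (x (k + 1)), τ t ∂ν ≤ p * ((1 + ω N / η) * τ (x k)) := by
        have hreal : ν.real (Ico (x k) (x (k + 1))) = p := by
          rw [Measure.real, hν k hkN, ENNReal.toReal_ofReal hp0.le]
        have e1 : ∫ t in Ico (x k) (x (k + 1)), (1 + ω N / η) * τ (x k) ∂ν =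
            p * ((1 + ω N / η) * τ (x k)) := by
          rw [setIntegral_const, hreal, smul_eq_mul]
        rw [← e1]
        refine setIntegral_mono_on ?_ (integrable_const _) measurableSet_Ico (hτt k hkN)
        refine Integrable.mono' (integrable_const ((1 + ω N / η) * τ (x k)))
          hτc.aestronglyMeasurable ?_
        rw [ae_restrict_iff' measurableSet_Ico]
        refine ae_of_all _ fun t ht => ?_
        rw [Real.norm_of_nonneg (hτ0 t).le]
        exact hτt k hkN t ht
      calc ((g (k + 1) - g k) / (x (k + 1) - x k)) ^ 2 * ∫ t in Ico (x k) (x (k + 1)), τ t ∂ν ≤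
          ((g (k + 1) - g k) / (x (k + 1) - x k)) ^ 2 * (p * ((1 + ω N / η) * τ (x k))) :=
            mul_le_mul_of_nonneg_left h4 (sq_nonneg _)
        _ = _ := by ring
    have hmain := h1 ν N x g (fun k => if k + 1 < N then |g (k + 1) - g k| else 0) G p
      (p * (1 + ω N / η) * E) (δ N) hN hx hp0 hδN hν hGc hGb ?_ hV
    · have hsum : ∑ k ∈ Finset.range N, (if k + 1 < N then |g (k + 1) - g k| else 0) ^ 2 ≤
          δ N ^ 2 / η * E := by
        obtain ⟨M, rfl⟩ : ∃ M, N = M + 1 := ⟨N - 1, by omega⟩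
        rw [Finset.sum_range_succ, if_neg (by omega), hE, Finset.mul_sum]
        have : M + 1 - 1 = M := by omega
        rw [this]
        have h0 : ((0 : ℝ)) ^ 2 = 0 := by norm_num
        rw [h0, add_zero]
        refine Finset.sum_le_sum fun k hk => ?_
        rw [Finset.mem_range] at hk
        rw [if_pos (by omega), sq_abs]
        have hkN : k < M + 1 := by omega
        have hD := hDx k hkN
        have hD0 : 0 < x (k + 1) - x k := by linarith [hx k hkN]
        have h4 : (g (k + 1) - g k) ^ 2 = ((g (k + 1) - g k) / (x (k + 1) - x k)) ^ 2 *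
            (x (k + 1) - x k) ^ 2 := by
          rw [div_pow, div_mul_cancel₀]
          positivity
        have h5 : (x (k + 1) - x k) ^ 2 ≤ δ (M + 1) ^ 2 := pow_le_pow_left₀ hD0.le hD 2
        have h6 : 1 ≤ τ (x k) / η := by rw [one_le_div hη]; exact hτx k hkN.le
        rw [h4]
        calc ((g (k + 1) - g k) / (x (k + 1) - x k)) ^ 2 * (x (k + 1) - x k) ^ 2 ≤
            ((g (k + 1) - g k) / (x (k + 1) - x k)) ^ 2 * δ (M + 1) ^ 2 :=
              mul_le_mul_of_nonneg_left h5 (sq_nonneg _)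
          _ = (((g (k + 1) - g k) / (x (k + 1) - x k)) ^ 2 * δ (M + 1) ^ 2) * 1 := by ring
          _ ≤ (((g (k + 1) - g k) / (x (k + 1) - x k)) ^ 2 * δ (M + 1) ^ 2) * (τ (x k) / η) :=
              mul_le_mul_of_nonneg_left h6 (by positivity)
          _ = _ := by ring
      have hEN : EN N (fun k => ((1 + δ N) * (1 + ω N / η) + (δ N ^ 2 + δ N) / η) * τ (xq q N k) /
          (xq q N (k + 1) - xq q N k) ^ 2) g =
          ((1 + δ N) * (1 + ω N / η) + (δ N ^ 2 + δ N) / η) * E := by
        rw [EN, hE, Finset.mul_sum]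
        refine Finset.sum_congr rfl fun k _ => ?_
        simp only [hxdef]
        rw [div_pow]
        ring
      rw [hEN]
      refine hmain.trans ?_
      have e1 : (1 + δ N) * (p * (1 + ω N / η) * E) / p = (1 + δ N) * (1 + ω N / η) * E := by
        field_simp
      have e2 : (1 + 1 / δ N) * (δ N ^ 2 / η * E) = (δ N ^ 2 + δ N) / η * E := by
        field_simp
      rw [e1]
      have h8 : 0 ≤ 1 + 1 / δ N := by positivity
      have h9 := mul_le_mul_of_nonneg_left hsum h8
      rw [e2] at h9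
      rw [add_mul]
      linarith
    · intro k hk t ht
      by_cases hk1 : k + 1 < N
      · rw [if_pos hk1]
        exact hG1 k hk1 t ht
      · rw [if_neg hk1]
        have hkN : k = N - 1 := by omega
        have hGt : G t = g k := by
          rw [hkN]
          refine hG2 t ?_
          rw [← hkN]
          exact ht.1
        rw [hGt, sub_self, abs_zero]

end Pool.Agent.T2h95.OC
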