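import Pool.Agent.T2h95.OC.Stm

set_option autoImplicit false

namespace Pool.Agent.T2h95.OC

open MeasureTheory Set Filter Topology

theorem dc1_mono {N : ℕ} {x : ℕ → ℝ} (hx : ∀ k, k < N → x k < x (k + 1)) :
    ∀ n, n ≤ N → x 0 ≤ x n := by
  intro n
  induction n with
  | zero => intro _; exact le_rfl
  | succ n ih =>
    intro hn
    exact (ih (by omega)).trans (hx n (by omega)).le

theorem dc1_sum (ν : Measure ℝ) {N : ℕ} {x : ℕ → ℝ} (hx : ∀ k, k < N → x k < x (k + 1))
    {F : ℝ → ℝ} (hF : Integrable F ν) :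
    ∀ n, n ≤ N → ∑ k ∈ Finset.range n, ∫ t in Ico (x k) (x (k + 1)), F t ∂ν =
      ∫ t in Ico (x 0) (x n), F t ∂ν := by
  intro n
  induction n with
  | zero => intro _; simp
  | succ n ih =>
    intro hn
    rw [Finset.sum_range_succ, ih (by omega),
      ← setIntegral_union (Set.disjoint_left.2 fun t ht ht' => absurd ht.2 (not_lt.2 ht'.1))
        measurableSet_Ico hF.integrableOn hF.integrableOn,
      Ico_union_Ico_eq_Ico (dc1_mono hx n (by omega)) (hx n (by omega)).le]

theorem t_DC1 : S_DC1 := by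
  intro ν _ N x g e G p V s hN hx hp hs hν hGc hGb he hV
  obtain ⟨B, hB⟩ := hGb
  have hGm : AEStronglyMeasurable G ν := hGc.aestronglyMeasurable
  have hGi : Integrable G ν :=
    Integrable.of_bound hGm B (ae_of_all _ fun t => by rw [Real.norm_eq_abs]; exact hB t)
  have hG2i : Integrable (fun t => G t ^ 2) ν :=
    Integrable.of_bound (hGc.pow 2).aestronglyMeasurable (B ^ 2) (ae_of_all _ fun t => by
      rw [Real.norm_eq_abs, abs_pow]
      exact pow_le_pow_left₀ (abs_nonneg _) (hB t) 2)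
  set c : ℝ := ∫ t, G t ∂ν with hc
  have hFi : Integrable (fun t => (G t - c) ^ 2) ν := by
    have : (fun t => (G t - c) ^ 2) = fun t => G t ^ 2 - 2 * c * G t + c ^ 2 := by
      funext t; ring
    rw [this]
    exact (hG2i.sub (hGi.const_mul _)).add (integrable_const _)
  have hFint : ∫ t, (G t - c) ^ 2 ∂ν = ∫ t, G t ^ 2 ∂ν - c ^ 2 := by
    have : (fun t => (G t - c) ^ 2) = fun t => G t ^ 2 - 2 * c * G t + c ^ 2 := by
      funext t; ring
    have i1 : Integrable (fun t => 2 * c * G t) ν := hGi.const_mul _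
    have i2 : Integrable (fun t => G t ^ 2 - 2 * c * G t) ν := hG2i.sub i1
    rw [this, integral_add i2 (integrable_const _),
      integral_sub hG2i i1, integral_const_mul, ← hc, integral_const]
    simp only [probReal_univ, one_smul]
    ring
  have hNR : (0 : ℝ) < N := by exact_mod_cast hN
  -- step 1
  have h1 : VN N g ≤ ∑ k ∈ Finset.range N, (g k - c) ^ 2 := by
    have e1 : ∑ k ∈ Finset.range N, (g k - c) ^ 2 =
        ∑ k ∈ Finset.range N, g k ^ 2 - 2 * c * ∑ k ∈ Finset.range N, g k + N * c ^ 2 := by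
      have : ∀ k, (g k - c) ^ 2 = g k ^ 2 - 2 * c * g k + c ^ 2 := fun k => by ring
      simp only [this, Finset.sum_add_distrib, Finset.sum_sub_distrib, ← Finset.mul_sum,
        Finset.sum_const, Finset.card_range, nsmul_eq_mul]
    rw [e1, VN]
    set S := ∑ k ∈ Finset.range N, g k
    have : 0 ≤ (S - N * c) ^ 2 / N := by positivity
    have e2 : (S - N * c) ^ 2 / N = S ^ 2 / N - 2 * c * S + N * c ^ 2 := by
      field_simp
      ring
    linarith
  -- step 2
  have h2 : ∀ k ∈ Finset.range N, p * (g k - c) ^ 2 ≤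
      (1 + s) * ∫ t in Ico (x k) (x (k + 1)), (G t - c) ^ 2 ∂ν + (1 + 1 / s) * (p * e k ^ 2) := by
    intro k hk
    rw [Finset.mem_range] at hk
    have hreal : ν.real (Ico (x k) (x (k + 1))) = p := by
      rw [Measure.real, hν k hk, ENNReal.toReal_ofReal hp.le]
    have e1 : ∫ t in Ico (x k) (x (k + 1)), (g k - c) ^ 2 ∂ν = p * (g k - c) ^ 2 := by
      rw [setIntegral_const, hreal, smul_eq_mul]
    have e2 : ∫ t in Ico (x k) (x (k + 1)), ((1 + s) * (G t - c) ^ 2 + (1 + 1 / s) * e k ^ 2) ∂ν =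
        (1 + s) * ∫ t in Ico (x k) (x (k + 1)), (G t - c) ^ 2 ∂ν + (1 + 1 / s) * (p * e k ^ 2) := by
      rw [integral_add (hFi.integrableOn.const_mul _) (integrable_const _), integral_const_mul,
        setIntegral_const, hreal, smul_eq_mul]
      ring
    rw [← e1, ← e2]
    refine setIntegral_mono_on (integrable_const _) ((hFi.integrableOn.const_mul _).add
      (integrable_const _)) measurableSet_Ico ?_
    intro t ht
    have h3 := he k hk t ht
    have h4 : (G t - g k) ^ 2 ≤ e k ^ 2 := by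
      rw [← sq_abs (G t - g k)]
      exact pow_le_pow_left₀ (abs_nonneg _) h3 2
    have h5 : (g k - c) ^ 2 ≤ (1 + s) * (G t - c) ^ 2 + (1 + 1 / s) * (G t - g k) ^ 2 := by
      have h6 : 0 ≤ (s * (G t - c) + (G t - g k)) ^ 2 / s := by positivity
      have h7 : (s * (G t - c) + (G t - g k)) ^ 2 / s =
          s * (G t - c) ^ 2 + 2 * (G t - c) * (G t - g k) + 1 / s * (G t - g k) ^ 2 := by
        field_simp
        ring
      nlinarith
    have h8 : 0 ≤ 1 + 1 / s := by positivity
    have h9 := mul_le_mul_of_nonneg_left h4 h8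
    linarith
  have h3 := Finset.sum_le_sum h2
  rw [← Finset.mul_sum, Finset.sum_add_distrib, ← Finset.mul_sum, ← Finset.mul_sum, ← Finset.mul_sum,
    dc1_sum ν hx hFi N le_rfl] at h3
  have h4 : ∫ t in Ico (x 0) (x N), (G t - c) ^ 2 ∂ν ≤ V := by
    refine (setIntegral_le_integral hFi (ae_of_all _ fun t => sq_nonneg _)).trans ?_
    rw [hFint]
    exact hV
  have h5 : p * ∑ k ∈ Finset.range N, (g k - c) ^ 2 ≤
      (1 + s) * V + (1 + 1 / s) * (p * ∑ k ∈ Finset.range N, e k ^ 2) := by
    refine h3.trans (add_le_add_left (mul_le_mul_of_nonneg_left h4 (by positivity)) _)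
  have h6 : ∑ k ∈ Finset.range N, (g k - c) ^ 2 ≤
      (1 + s) * V / p + (1 + 1 / s) * ∑ k ∈ Finset.range N, e k ^ 2 := by
    have e1 : p * ((1 + s) * V / p + (1 + 1 / s) * ∑ k ∈ Finset.range N, e k ^ 2) =
        (1 + s) * V + (1 + 1 / s) * (p * ∑ k ∈ Finset.range N, e k ^ 2) := by
      field_simp
    refine le_of_mul_le_mul_left ?_ hp
    rw [e1]
    exact h5
  exact h1.trans h6

end Pool.Agent.T2h95.OC
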