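import Pool.Agent.T2h95.OC.Stm

/-!
Task DC2 of project OC (helper33).
-/

set_option autoImplicit false

namespace Pool.Agent.T2h95.OC

open MeasureTheory Set Filter Topology

namespace DC2aux

/-- clamping -/
noncomputable def cl (p q t : ℝ) : ℝ := min (max t p) q

lemma cl_cont (p q : ℝ) : Continuous (cl p q) := by unfold cl; fun_prop

lemma cl_le {p q t : ℝ} (hpq : p ≤ q) (ht : t ≤ p) : cl p q t = p := by
  rw [cl, max_eq_right ht, min_eq_left hpq]

lemma cl_mid {p q t : ℝ} (h1 : p ≤ t) (h2 : t ≤ q) : cl p q t = t := by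
  rw [cl, max_eq_left h1, min_eq_left h2]

lemma cl_ge {p q t : ℝ} (hpq : p ≤ q) (ht : q ≤ t) : cl p q t = q := by
  rw [cl, max_eq_left (hpq.trans ht), min_eq_right ht]

lemma cl_mem {p q t : ℝ} (hpq : p ≤ q) : p ≤ cl p q t ∧ cl p q t ≤ q :=
  ⟨le_min (le_max_right _ _) hpq, min_le_right _ _⟩

/-- the indicator -/
noncomputable def ind (p q : ℝ) : ℝ → ℝ := indicator (Ico p q) fun _ => 1

lemma cl_deriv {p q : ℝ} (hpq : p ≤ q) (t : ℝ) :
    HasDerivWithinAt (cl p q) (ind p q t) (Ioi t) t := by
  by_cases h1 : t < p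
  · have hi : ind p q t = 0 := by
      rw [ind, indicator_of_notMem]; exact fun h => absurd h.1 (not_le.2 h1)
    rw [hi]
    have he : cl p q =ᶠ[𝓝[>] t] fun _ => p := by
      filter_upwards [mem_nhdsWithin_of_mem_nhds (Iio_mem_nhds h1)] with s hs
      exact cl_le hpq (le_of_lt hs)
    exact (hasDerivWithinAt_const t (Ioi t) p).congr_of_eventuallyEq he (cl_le hpq h1.le)
  · push Not at h1
    by_cases h2 : t < q
    · have hi : ind p q t = 1 := by rw [ind, indicator_of_mem]; exact ⟨h1, h2⟩
      rw [hi]
      have he : cl p q =ᶠ[𝓝[>] t] fun s => s := by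
        filter_upwards [mem_nhdsWithin_of_mem_nhds (Iio_mem_nhds h2), self_mem_nhdsWithin]
          with s hs hs'
        exact cl_mid (h1.trans (le_of_lt hs')) (le_of_lt hs)
      exact (hasDerivWithinAt_id t (Ioi t)).congr_of_eventuallyEq he (cl_mid h1 h2.le)
    · push Not at h2
      have hi : ind p q t = 0 := by
        rw [ind, indicator_of_notMem]; exact fun h => absurd h.2 (not_lt.2 h2)
      rw [hi]
      have he : cl p q =ᶠ[𝓝[>] t] fun _ => q := by
        filter_upwards [self_mem_nhdsWithin] with s hs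
        exact cl_ge hpq (h2.trans (le_of_lt hs))
      exact (hasDerivWithinAt_const t (Ioi t) q).congr_of_eventuallyEq he (cl_ge hpq h2)

lemma ind_right {p q : ℝ} (t : ℝ) : ContinuousWithinAt (ind p q) (Ici t) t := by
  by_cases h1 : t < p
  · have he : ind p q =ᶠ[𝓝[≥] t] fun _ => 0 := by
      filter_upwards [mem_nhdsWithin_of_mem_nhds (Iio_mem_nhds h1)] with s hs
      rw [ind, indicator_of_notMem]; exact fun h => absurd h.1 (not_le.2 hs)
    refine continuousWithinAt_const.congr_of_eventuallyEq he ?_
    rw [ind, indicator_of_notMem]; exact fun h => absurd h.1 (not_le.2 h1)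
  · push Not at h1
    by_cases h2 : t < q
    · have he : ind p q =ᶠ[𝓝[≥] t] fun _ => 1 := by
        filter_upwards [mem_nhdsWithin_of_mem_nhds (Iio_mem_nhds h2), self_mem_nhdsWithin]
          with s hs hs'
        rw [ind, indicator_of_mem]; exact ⟨h1.trans hs', hs⟩
      refine continuousWithinAt_const.congr_of_eventuallyEq he ?_
      rw [ind, indicator_of_mem]; exact ⟨h1, h2⟩
    · push Not at h2
      have he : ind p q =ᶠ[𝓝[≥] t] fun _ => 0 := by
        filter_upwards [self_mem_nhdsWithin] with s hs
        rw [ind, indicator_of_notMem]; exact fun h => absurd h.2 (not_lt.2 (h2.trans hs))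
      refine continuousWithinAt_const.congr_of_eventuallyEq he ?_
      rw [ind, indicator_of_notMem]; exact fun h => absurd h.2 (not_lt.2 h2)

lemma ind_meas (p q : ℝ) : Measurable (ind p q) := measurable_const.indicator measurableSet_Ico

lemma ind_abs (p q t : ℝ) : |ind p q t| ≤ 1 := by
  by_cases h : t ∈ Ico p q
  · rw [ind, indicator_of_mem h]; simp
  · rw [ind, indicator_of_notMem h]; simp

end DC2aux

open DC2aux

theorem t_DC2 (hEXT : S_EXT) : S_DC2 := by
  intro ν _ τ hτ hτ0 hWP N x g hN hx
  have hxm : ∀ i j, i ≤ j → j < N → x i ≤ x j := by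
    intro i j hij
    induction j, hij using Nat.le_induction with
    | base => intro _; exact le_rfl
    | succ j hij ih =>
      intro hj
      exact (ih (by omega)).trans (hx j hj).le
  set d : ℕ → ℝ := fun k => (g (k + 1) - g k) / (x (k + 1) - x k) with hd
  have hdx : ∀ k, k + 1 < N → d k * (x (k + 1) - x k) = g (k + 1) - g k := by
    intro k hk
    have := hx k hk
    rw [hd]
    exact div_mul_cancel₀ _ (by linarith)
  set D : ℝ → ℝ := fun t => ∑ k ∈ Finset.range (N - 1), d k * ind (x k) (x (k + 1)) t with hD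
  set G : ℝ → ℝ := fun t => g 0 + ∑ k ∈ Finset.range (N - 1),
    d k * (cl (x k) (x (k + 1)) t - x k) with hG
  have hle : ∀ k ∈ Finset.range (N - 1), x k ≤ x (k + 1) := by
    intro k hk
    exact (hx k (by have := Finset.mem_range.1 hk; omega)).le
  have hGc : Continuous G := by
    refine continuous_const.add (continuous_finsetSum _ fun k _ => ?_)
    exact continuous_const.mul ((cl_cont _ _).sub continuous_const)
  -- partial sums
  have hfull : ∀ K, K < N → ∀ t, x K ≤ t →
      ∑ k ∈ Finset.range K, d k * (cl (x k) (x (k + 1)) t - x k) = g K - g 0 := by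
    intro K
    induction K with
    | zero => intro _ t _; simp
    | succ K ih =>
      intro hK t ht
      rw [Finset.sum_range_succ, ih (by omega) t ((hx K hK).le.trans ht),
        cl_ge (hx K hK).le ht, hdx K hK]
      ring
  have hGmid : ∀ k, k + 1 < N → ∀ t, x k ≤ t → t ≤ x (k + 1) → G t = g k + d k * (t - x k) := by
    intro k hk t h1 h2
    have hsplit : ∑ j ∈ Finset.range (N - 1), d j * (cl (x j) (x (j + 1)) t - x j) =
        ∑ j ∈ Finset.range k, d j * (cl (x j) (x (j + 1)) t - x j) +
          (d k * (cl (x k) (x (k + 1)) t - x k) +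
          ∑ j ∈ Finset.Ico (k + 1) (N - 1), d j * (cl (x j) (x (j + 1)) t - x j)) := by
      rw [← Finset.sum_range_add_sum_Ico _ (show k ≤ N - 1 by omega),
        Finset.sum_eq_sum_Ico_succ_bot (show k < N - 1 by omega)]
    have hz : ∑ j ∈ Finset.Ico (k + 1) (N - 1), d j * (cl (x j) (x (j + 1)) t - x j) = 0 := by
      refine Finset.sum_eq_zero fun j hj => ?_
      have hj' := Finset.mem_Ico.1 hj
      have h3 : t ≤ x j := h2.trans (hxm _ _ hj'.1 (by omega))
      rw [cl_le (hx j (by omega)).le h3]
      ring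
    simp only [hG]
    rw [hsplit, hz, hfull k (by omega) t h1, cl_mid h1 h2]
    ring
  have hGend : ∀ t, x (N - 1) ≤ t → G t = g (N - 1) := by
    intro t ht
    simp only [hG]
    rw [hfull (N - 1) (by omega) t ht]
    ring
  have hG0 : G (x 0) = g 0 := by
    simp only [hG]
    rw [Finset.sum_eq_zero, add_zero]
    intro k hk
    have hk' := Finset.mem_range.1 hk
    rw [cl_le (hle k hk) (hxm 0 k (Nat.zero_le _) (by omega))]
    ring
  -- bound of D
  set B : ℝ := ∑ k ∈ Finset.range (N - 1), |d k| with hB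
  have hDB : ∀ t, |D t| ≤ B := by
    intro t
    refine (Finset.abs_sum_le_sum_abs _ _).trans (Finset.sum_le_sum fun k _ => ?_)
    rw [abs_mul]
    exact mul_le_of_le_one_right (abs_nonneg _) (ind_abs _ _ _)
  have hDm : Measurable D := by
    refine Finset.measurable_fun_sum _ fun k _ => ?_
    exact (ind_meas _ _).const_mul _
  have hD0 : ∀ t, t < x 0 ∨ x (N - 1) < t → D t = 0 := by
    intro t ht
    refine Finset.sum_eq_zero fun k hk => ?_
    have hk' := Finset.mem_range.1 hk
    rw [ind, indicator_of_notMem, mul_zero]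
    rintro ⟨h1, h2⟩
    rcases ht with ht | ht
    · have := hxm 0 k (Nat.zero_le _) (by omega)
      linarith
    · have := hxm (k + 1) (N - 1) (by omega) (by omega)
      linarith
  have hDr : ∀ t, ContinuousWithinAt D (Ici t) t := by
    intro t
    have : ContinuousWithinAt (fun s => ∑ k ∈ Finset.range (N - 1),
        d k * ind (x k) (x (k + 1)) s) (Ici t) t := by
      refine tendsto_finsetSum _ fun k _ => ?_
      exact (ind_right t).const_mul (d k) |> fun h => h
    exact this
  have hab : x 0 ≤ x (N - 1) := hxm 0 (N - 1) (Nat.zero_le _) (by omega)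
  have hE := hEXT ν τ hτ hτ0 hWP D (x 0) (x (N - 1)) B hab hDm hDB hD0 hDr
  -- the primitive
  have hDi : ∀ a b : ℝ, IntervalIntegrable D volume a b := by
    intro a b
    have h1 : IntegrableOn D (uIcc a b) volume := by
      refine Measure.integrableOn_of_bounded (M := B) ?_ hDm.aestronglyMeasurable ?_
      · exact (isCompact_uIcc.measure_lt_top).ne
      · exact ae_of_all _ fun t => by rw [Real.norm_eq_abs]; exact hDB t
    exact h1.intervalIntegrable
  have hGd : ∀ t, HasDerivWithinAt G (D t) (Ioi t) t := by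
    intro t
    have h1 : HasDerivWithinAt (fun s => ∑ k ∈ Finset.range (N - 1),
        d k * (cl (x k) (x (k + 1)) s - x k))
        (∑ k ∈ Finset.range (N - 1), d k * ind (x k) (x (k + 1)) t) (Ioi t) t := by
      refine HasDerivWithinAt.fun_sum fun k hk => ?_
      exact ((cl_deriv (hle k hk) t).sub_const _).const_mul _
    exact h1.const_add (g 0)
  have hprim : ∀ t, ∫ s in (x 0)..t, D s = G t - g 0 := by
    intro t
    rw [← hG0]
    exact intervalIntegral.integral_eq_sub_of_hasDeriv_right hGc.continuousOn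
      (fun s _ => hGd s) (hDi _ _)
  simp only [hprim] at hE
  -- G is bounded
  have hGB : ∀ t, |G t| ≤ |g 0| + ∑ k ∈ Finset.range (N - 1), |d k| * (x (k + 1) - x k) := by
    intro t
    refine (abs_add_le _ _).trans (add_le_add le_rfl ?_)
    refine (Finset.abs_sum_le_sum_abs _ _).trans (Finset.sum_le_sum fun k hk => ?_)
    rw [abs_mul]
    refine mul_le_mul_of_nonneg_left ?_ (abs_nonneg _)
    have := cl_mem (t := t) (hle k hk)
    rw [abs_le]; constructor <;> linarith [this.1, this.2]
  have hGi : Integrable G ν := by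
    refine Integrable.of_bound hGc.aestronglyMeasurable
      (|g 0| + ∑ k ∈ Finset.range (N - 1), |d k| * (x (k + 1) - x k)) ?_
    exact ae_of_all _ fun t => by rw [Real.norm_eq_abs]; exact hGB t
  have hG2i : Integrable (fun t => G t ^ 2) ν := by
    refine Integrable.of_bound (hGc.pow 2).aestronglyMeasurable
      ((|g 0| + ∑ k ∈ Finset.range (N - 1), |d k| * (x (k + 1) - x k)) ^ 2) ?_
    refine ae_of_all _ fun t => ?_
    rw [norm_pow, Real.norm_eq_abs]
    exact pow_le_pow_left₀ (abs_nonneg _) (hGB t) 2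
  have hvar : ∫ t, (G t - g 0) ^ 2 ∂ν - (∫ t, (G t - g 0) ∂ν) ^ 2 =
      ∫ t, G t ^ 2 ∂ν - (∫ t, G t ∂ν) ^ 2 := by
    have h1 : ∫ t, (G t - g 0) ∂ν = ∫ t, G t ∂ν - g 0 := by
      rw [integral_sub hGi (integrable_const _)]; simp
    have h2 : ∫ t, (G t - g 0) ^ 2 ∂ν = ∫ t, G t ^ 2 ∂ν - 2 * g 0 * ∫ t, G t ∂ν + g 0 ^ 2 := by
      have h3 : ∀ t, (G t - g 0) ^ 2 = (G t ^ 2 - 2 * g 0 * G t) + g 0 ^ 2 := fun t => by ring
      simp only [h3]
      have h4 : Integrable (fun t => G t ^ 2 - 2 * g 0 * G t) ν := hG2i.sub (hGi.const_mul _)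
      rw [integral_add h4 (integrable_const _),
        integral_sub hG2i (hGi.const_mul _), integral_const_mul]
      simp
    rw [h1, h2]; ring
  rw [hvar] at hE
  -- the energy
  have hD2 : ∀ t, τ t * D t ^ 2 = ∑ k ∈ Finset.range (N - 1),
      d k ^ 2 * indicator (Ico (x k) (x (k + 1))) τ t := by
    intro t
    by_cases hex : ∃ k ∈ Finset.range (N - 1), t ∈ Ico (x k) (x (k + 1))
    · obtain ⟨k, hk, ht⟩ := hex
      have hother : ∀ j ∈ Finset.range (N - 1), j ≠ k → t ∉ Ico (x j) (x (j + 1)) := by
        intro j hj hjk htj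
        have hj' := Finset.mem_range.1 hj
        have hk' := Finset.mem_range.1 hk
        rcases lt_or_gt_of_ne hjk with h | h
        · have := hxm (j + 1) k (by omega) (by omega)
          linarith [ht.1, htj.2]
        · have := hxm (k + 1) j (by omega) (by omega)
          linarith [htj.1, ht.2]
      have h1 : D t = d k := by
        simp only [hD]
        rw [Finset.sum_eq_single k]
        · rw [ind, indicator_of_mem ht, mul_one]
        · intro j hj hjk
          rw [ind, indicator_of_notMem (hother j hj hjk), mul_zero]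
        · intro h; exact absurd hk h
      rw [h1, Finset.sum_eq_single k]
      · rw [indicator_of_mem ht]; ring
      · intro j hj hjk
        rw [indicator_of_notMem (hother j hj hjk), mul_zero]
      · intro h; exact absurd hk h
    · push Not at hex
      have h1 : D t = 0 := by
        simp only [hD]
        refine Finset.sum_eq_zero fun k hk => ?_
        rw [ind, indicator_of_notMem (hex k hk), mul_zero]
      rw [h1, Finset.sum_eq_zero]
      · ring
      · intro k hk
        rw [indicator_of_notMem (hex k hk), mul_zero]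
  have hτi : ∀ k, IntegrableOn τ (Ico (x k) (x (k + 1))) ν := by
    intro k
    exact (hτ.continuousOn.integrableOn_Icc (a := x k) (b := x (k + 1))).mono_set
      Ico_subset_Icc_self
  have hen : ∫ t, τ t * D t ^ 2 ∂ν = ∑ k ∈ Finset.range (N - 1),
      ((g (k + 1) - g k) / (x (k + 1) - x k)) ^ 2 * ∫ t in Ico (x k) (x (k + 1)), τ t ∂ν := by
    simp only [hD2]
    rw [integral_finsetSum]
    · refine Finset.sum_congr rfl fun k _ => ?_
      rw [integral_const_mul, integral_indicator measurableSet_Ico]
    · intro k _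
      exact ((hτi k).integrable_indicator measurableSet_Ico).const_mul _
  rw [hen] at hE
  refine ⟨G, hGc, ⟨_, hGB⟩, ?_, hGend, hE⟩
  intro k hk t ht
  rw [hGmid k hk t ht.1 ht.2.le, add_sub_cancel_left, ← hdx k hk, abs_mul, abs_mul]
  refine mul_le_mul_of_nonneg_left ?_ (abs_nonneg _)
  rw [abs_of_nonneg (by linarith [ht.1]), abs_of_nonneg (by linarith [hx k hk])]
  linarith [ht.2]

end Pool.Agent.T2h95.OC
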