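import Pool.Agent.T2h95.OC.Stm

set_option autoImplicit false

namespace Pool.Agent.T2h95.OC

open MeasureTheory Set Filter Topology
open scoped ENNReal
open Pool.Agent.R972.OP (WC)

theorem t_DG (h1 : S_DG1) (h2 : S_DG2) : S_DG := by
  intro N w hw hP
  rcases Nat.lt_or_ge N 2 with hN | hN
  · refine ⟨fun _ => 0, fun _ => 0, 0, ⟨fun k hk => by omega, fun k hk => by omega, fun j hj => ?_⟩,
      fun k hk => by omega⟩
    rw [if_neg (by omega), if_neg (by omega)]
  · obtain ⟨lam, G, hlam, hmono, hex, heq, hle⟩ := h1 N w hN hw
    obtain ⟨m, hm⟩ := h2 N w G lam hN hw hlam hmono hex heq hle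
    refine ⟨G, fun k => w k / lam, m, hm, fun k hk => ?_⟩
    have hE : 0 < EN N w G := by
      obtain ⟨k, hk, hlt⟩ := hex
      unfold EN
      refine Finset.sum_pos' (fun j hj => ?_) ⟨k, Finset.mem_range.mpr (by omega), ?_⟩
      · have := (hw j (by have := Finset.mem_range.mp hj; omega)).le
        positivity
      · have h3 := hw k hk
        have h4 : 0 < G (k + 1) - G k := by linarith
        positivity
    have hV := hP G
    have hV0 : 0 < VN N G := by
      rw [heq] at hE
      exact (mul_pos_iff_of_pos_left hlam).mp hE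
    have h5 : 1 ≤ lam := by
      rw [heq] at hV
      by_contra h
      push Not at h
      nlinarith
    exact div_le_self (hw k hk).le h5

end Pool.Agent.T2h95.OC
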