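import Pool.Agent.T2h95.OC.Stm

/-!
Task DG2 of project OC (helper33).
-/

set_option autoImplicit false

namespace Pool.Agent.T2h95.OC

open Pool.Agent.R972.OP (WC)

namespace DG2aux

lemma lin_zero {a q : ℝ} (hq : 0 ≤ q) (h : ∀ t : ℝ, 0 ≤ 2 * t * a + t ^ 2 * q) : a = 0 := by
  by_contra ha
  have h1 := h (-a / (q + 1))
  have h2 : 2 * (-a / (q + 1)) * a + (-a / (q + 1)) ^ 2 * q = -(a ^ 2 * (q + 2)) / (q + 1) ^ 2 := by
    field_simp
    ring
  rw [h2] at h1
  have h3 : 0 < a ^ 2 * (q + 2) := mul_pos (by positivity) (by linarith)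
  have h4 : -(a ^ 2 * (q + 2)) / (q + 1) ^ 2 < 0 := div_neg_of_neg_of_pos (by linarith) (by positivity)
  linarith

lemma EN_add (N : ℕ) (w G h : ℕ → ℝ) (t : ℝ) :
    EN N w (fun k => G k + t * h k) = EN N w G +
      2 * t * (∑ k ∈ Finset.range (N - 1), w k * (G (k + 1) - G k) * (h (k + 1) - h k)) +
      t ^ 2 * EN N w h := by
  simp only [EN, Finset.mul_sum, ← Finset.sum_add_distrib]
  refine Finset.sum_congr rfl fun k _ => ?_
  ring

lemma VN_add (N : ℕ) (G h : ℕ → ℝ) (t : ℝ) :
    VN N (fun k => G k + t * h k) = VN N G +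
      2 * t * (∑ k ∈ Finset.range N, G k * h k -
        (∑ k ∈ Finset.range N, G k) * (∑ k ∈ Finset.range N, h k) / N) + t ^ 2 * VN N h := by
  have h1 : ∑ k ∈ Finset.range N, (G k + t * h k) ^ 2 = ∑ k ∈ Finset.range N, G k ^ 2 +
      2 * t * ∑ k ∈ Finset.range N, G k * h k + t ^ 2 * ∑ k ∈ Finset.range N, h k ^ 2 := by
    simp only [Finset.mul_sum, ← Finset.sum_add_distrib]
    refine Finset.sum_congr rfl fun k _ => ?_
    ring
  have h2 : ∑ k ∈ Finset.range N, (G k + t * h k) = ∑ k ∈ Finset.range N, G k +
      t * ∑ k ∈ Finset.range N, h k := by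
    simp only [Finset.mul_sum, ← Finset.sum_add_distrib]
  simp only [VN, h1, h2]
  ring

end DG2aux

open DG2aux

theorem t_DG2 : S_DG2 := by
  intro N w G lam hN hw hlam hmono hne hEN hmin
  -- Euler-Lagrange
  have hEL : ∀ h : ℕ → ℝ,
      ∑ k ∈ Finset.range (N - 1), w k * (G (k + 1) - G k) * (h (k + 1) - h k) =
        lam * (∑ k ∈ Finset.range N, G k * h k -
          (∑ k ∈ Finset.range N, G k) * (∑ k ∈ Finset.range N, h k) / N) := by
    intro h
    have h1 : ∀ t : ℝ, 0 ≤ 2 * t *
        (∑ k ∈ Finset.range (N - 1), w k * (G (k + 1) - G k) * (h (k + 1) - h k) -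
          lam * (∑ k ∈ Finset.range N, G k * h k -
          (∑ k ∈ Finset.range N, G k) * (∑ k ∈ Finset.range N, h k) / N)) +
        t ^ 2 * (EN N w h - lam * VN N h) := by
      intro t
      have h2 := hmin (fun k => G k + t * h k)
      rw [EN_add, VN_add, hEN] at h2
      linarith
    have h3 := lin_zero (sub_nonneg.2 (hmin h)) h1
    linarith
  set m := (∑ k ∈ Finset.range N, G k) / N with hm
  have hNpos : (0 : ℝ) < N := by exact_mod_cast (by omega : 0 < N)
  have hEQ : ∀ j, j < N → (if j + 1 < N then w j / lam * (G (j + 1) - G j) else 0) -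
      (if 0 < j then w (j - 1) / lam * (G j - G (j - 1)) else 0) = m - G j := by
    intro j hj
    have h1 := hEL (fun k => if k = j then 1 else 0)
    have h2 : ∑ k ∈ Finset.range N, G k * (if k = j then (1 : ℝ) else 0) = G j := by
      rw [Finset.sum_eq_single j]
      · simp
      · intro b _ hb; simp [hb]
      · intro h; exact absurd (Finset.mem_range.2 hj) h
    have h3 : ∑ k ∈ Finset.range N, (if k = j then (1 : ℝ) else 0) = 1 := by
      rw [Finset.sum_eq_single j]
      · simp
      · intro b _ hb; simp [hb]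
      · intro h; exact absurd (Finset.mem_range.2 hj) h
    have h4 : ∑ k ∈ Finset.range (N - 1), w k * (G (k + 1) - G k) *
        ((if k + 1 = j then (1 : ℝ) else 0) - (if k = j then (1 : ℝ) else 0)) =
        (if 0 < j then w (j - 1) * (G j - G (j - 1)) else 0) -
        (if j + 1 < N then w j * (G (j + 1) - G j) else 0) := by
      simp only [mul_sub, Finset.sum_sub_distrib]
      congr 1
      · by_cases h0 : 0 < j
        · rw [if_pos h0, Finset.sum_eq_single (j - 1)]
          · rw [if_pos (by omega), show j - 1 + 1 = j by omega]; ring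
          · intro b _ hb
            rw [if_neg (by omega)]; ring
          · intro h
            exact absurd (Finset.mem_range.2 (by omega)) h
        · rw [if_neg h0]
          refine Finset.sum_eq_zero fun b _ => ?_
          rw [if_neg (by omega)]; ring
      · by_cases h0 : j + 1 < N
        · rw [if_pos h0, Finset.sum_eq_single j]
          · rw [if_pos rfl]; ring
          · intro b _ hb
            rw [if_neg hb]; ring
          · intro h
            exact absurd (Finset.mem_range.2 (by omega)) h
        · rw [if_neg h0]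
          refine Finset.sum_eq_zero fun b hb => ?_
          rw [if_neg (by have := Finset.mem_range.1 hb; omega)]; ring
    simp only [h2, h3] at h1
    rw [h4, mul_one] at h1
    have h5 : (if j + 1 < N then w j / lam * (G (j + 1) - G j) else 0) =
        (if j + 1 < N then w j * (G (j + 1) - G j) else 0) / lam := by
      split_ifs
      · ring
      · simp
    have h6 : (if 0 < j then w (j - 1) / lam * (G j - G (j - 1)) else 0) =
        (if 0 < j then w (j - 1) * (G j - G (j - 1)) else 0) / lam := by
      split_ifs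
      · ring
      · simp
    rw [h5, h6, ← sub_div, div_eq_iff hlam.ne']
    linarith
  -- telescoping
  have hS : ∀ k, k + 1 < N → w k / lam * (G (k + 1) - G k) =
      ∑ j ∈ Finset.range (k + 1), (m - G j) := by
    intro k
    induction k with
    | zero =>
      intro hk
      have := hEQ 0 (by omega)
      rw [if_pos hk, if_neg (lt_irrefl 0), sub_zero] at this
      rw [Finset.sum_range_one]
      exact this
    | succ k ih =>
      intro hk
      have h1 := ih (by omega)
      have h2 := hEQ (k + 1) (by omega)
      rw [if_pos hk, if_pos (Nat.succ_pos k), Nat.add_sub_cancel] at h2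
      rw [Finset.sum_range_succ, ← h1, ← h2]
      ring
  have hsum : ∑ j ∈ Finset.range N, (m - G j) = 0 := by
    rw [Finset.sum_sub_distrib, Finset.sum_const, Finset.card_range, nsmul_eq_mul, hm,
      mul_div_cancel₀ _ hNpos.ne', sub_self]
  have hG : ∀ i j, i ≤ j → j < N → G i ≤ G j := by
    intro i j hij
    induction j, hij using Nat.le_induction with
    | base => intro _; exact le_rfl
    | succ j hij ih =>
      intro hj
      exact (ih (by omega)).trans (hmono j hj)
  obtain ⟨k0, hk0, hk0'⟩ := hne
  have hpos : ∀ k, k + 1 < N → 0 < ∑ j ∈ Finset.range (k + 1), (m - G j) := by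
    intro k hk
    by_cases ha : 0 ≤ m - G k
    · have h1 : ∀ j ∈ Finset.range (k + 1), 0 ≤ m - G j := by
        intro j hj
        have := hG j k (by have := Finset.mem_range.1 hj; omega) (by omega)
        linarith
      have h2 : 0 ≤ ∑ j ∈ Finset.range (k + 1), (m - G j) := Finset.sum_nonneg h1
      refine lt_of_le_of_ne h2 fun h3 => ?_
      have h4 := (Finset.sum_eq_zero_iff_of_nonneg h1).1 h3.symm 0 (by simp)
      -- all terms nonpositive, sum zero
      have h5 : ∀ j ∈ Finset.range N, m - G j ≤ 0 := by
        intro j hj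
        have := hG 0 j (Nat.zero_le _) (Finset.mem_range.1 hj)
        linarith
      have h6 := (Finset.sum_eq_zero_iff_of_nonpos h5).1 hsum
      have h7 := h6 k0 (Finset.mem_range.2 (by omega))
      have h8 := h6 (k0 + 1) (Finset.mem_range.2 (by omega))
      linarith
    · push Not at ha
      have h1 : ∑ j ∈ Finset.range N, (m - G j) = ∑ j ∈ Finset.range (k + 1), (m - G j) +
          ∑ j ∈ Finset.Ico (k + 1) N, (m - G j) := by
        rw [Finset.sum_range_add_sum_Ico _ (by omega)]
      have h2 : ∑ j ∈ Finset.Ico (k + 1) N, (m - G j) < 0 := by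
        refine Finset.sum_neg ?_ ⟨k + 1, Finset.mem_Ico.2 ⟨le_rfl, hk⟩⟩
        intro j hj
        have hj' := Finset.mem_Ico.1 hj
        have := hG k j (by omega) hj'.2
        linarith
      linarith
  refine ⟨m, ⟨?_, ?_, hEQ⟩⟩
  · intro k hk
    have h1 := hpos k hk
    rw [← hS k hk] at h1
    have h2 : 0 < w k / lam := div_pos (hw k hk) hlam
    have h3 : 0 < G (k + 1) - G k := (pos_iff_pos_of_mul_pos h1).1 h2
    linarith
  · intro k hk
    exact (div_pos (hw k hk) hlam).le

end Pool.Agent.T2h95.OC
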