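import Pool.Agent.T2h95.OC.Stm

/-!
# The inequality at level `ε` (task EPS of project OC)
-/

set_option autoImplicit false

namespace Pool.Agent.T2h95.OC

open MeasureTheory Set Filter Topology
open scoped ENNReal
open Pool.Agent.R972.OP (mv cfg QQ OPp lp adj pd WC S_LAT S_RS S_ADJ S_UPC S_SYM)

theorem wp_add (ν : Measure ℝ) [IsProbabilityMeasure ν] (τ : ℝ → ℝ) (hτ : Continuous τ)
    (hW : WP ν τ) (η : ℝ) (hη : 0 < η) : WP ν fun x => τ x + η := by
  intro g hg hs
  refine (hW g hg hs).trans ?_
  have hd : Continuous (deriv g) := hg.continuous_deriv le_rfl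
  have i1 : Integrable (fun x => τ x * deriv g x ^ 2) ν := by
    refine Continuous.integrable_of_hasCompactSupport (hτ.mul (hd.pow 2)) ?_
    refine HasCompactSupport.intro hs.isCompact fun x hx => ?_
    have : deriv g x = 0 := image_eq_zero_of_notMem_tsupport hx
    rw [this]; simp
  have i2 : Integrable (fun x => (τ x + η) * deriv g x ^ 2) ν := by
    refine Continuous.integrable_of_hasCompactSupport ((hτ.add continuous_const).mul (hd.pow 2)) ?_
    refine HasCompactSupport.intro hs.isCompact fun x hx => ?_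
    have : deriv g x = 0 := image_eq_zero_of_notMem_tsupport hx
    rw [this]; simp
  refine integral_mono i1 i2 fun x => ?_
  have := sq_nonneg (deriv g x)
  simp only
  nlinarith

theorem t_EPS (hDG : S_DG) (hDC : S_DC) (hLIM : S_LIM) (hPUSH : S_PUSH) : S_EPS := by
  intro ν _ _ τ hτ hτ0 hW ε q hε hε2 hq n R f hf
  set S : Set (Fin n → ℝ) := CR R ∩ Bx n (q 0) (q 1) with hS
  set R' : Fin n → Fin n → Prop := fun a b => R a b ∧ a ≠ b with hR'
  have hCR : CR R' = CR R := by
    ext x
    simp only [CR, mem_ofPred_eq, hR']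
    constructor
    · intro h i j hij
      by_cases e : i = j
      · rw [e]
      · exact h i j ⟨hij, e⟩
    · intro h i j hij
      exact h i j hij.1
  have hirr : ∀ a, ¬ R' a a := fun a h => h.2 rfl
  have hpush := hPUSH ν ε q hε hε2 hq n R'
  rw [hCR, ← hS] at hpush
  set c : ℝ := ((1 - 2 * ε)⁻¹) ^ n with hc
  have hcpos : 0 < c := pow_pos (inv_pos.2 (by linarith)) n
  have hpdc : ∀ a, Continuous fun x => pd f a x := fun a =>
    (hf.continuous_fderiv one_ne_zero).clm_apply continuous_const
  have hbox : ∀ G : (Fin n → ℝ) → ℝ, Continuous G → IntegrableOn G S (pw n ν) := by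
    intro G hG
    have h1 : IntegrableOn G (Icc (fun _ => q 0) fun _ => q 1) (pw n ν) :=
      hG.continuousOn.integrableOn_compact isCompact_Icc
    refine h1.mono_set fun x hx => ?_
    exact ⟨fun i => (hx.2 i).1, fun i => (hx.2 i).2⟩
  set P : ℝ := (pw n ν S).toReal with hP
  set I2 : ℝ := ∫ x in S, f x ^ 2 ∂pw n ν with hI2
  set I1 : ℝ := ∫ x in S, f x ∂pw n ν with hI1
  set D : ℝ := ∫ x in S, ∑ a, τ (x a) * pd f a x ^ 2 ∂pw n ν with hD
  set E : ℝ := ∫ x in S, ∑ a, pd f a x ^ 2 ∂pw n ν with hE
  have hP0 : 0 ≤ P := ENNReal.toReal_nonneg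
  have hE0 : 0 ≤ E := integral_nonneg fun x => Finset.sum_nonneg fun a _ => sq_nonneg _
  have hvol : (volume (OPp R')).toReal = c * P := by
    have h1 := hpush (fun _ => 1) continuous_const
    simpa [Measure.real] using h1
  have key : ∀ η : ℝ, 0 < η → P * I2 - I1 ^ 2 ≤ P * (D + η * E) := by
    intro η hη
    have hτ' : Continuous fun x => τ x + η := hτ.add continuous_const
    have hpos : ∀ x, 0 < τ x + η := fun x => by have := hτ0 x; linarith
    obtain ⟨θ, hθ1, hθ0, hθ⟩ := hDC ν (fun x => τ x + η) hτ' hpos (wp_add ν τ hτ hW η hη) ε q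
      hε hε2 hq
    have hlim := hLIM n R' q (fun x => τ x + η) θ f hirr hq.cont hq.mono hτ'
      (fun x => (hpos x).le) hθ1 hθ0 ?_ hf
    · have e2 := hpush (fun x => f x ^ 2) (hf.continuous.pow 2)
      have e1 := hpush (fun x => f x) hf.continuous
      have e3 := hpush (fun x => ∑ a, (τ (x a) + η) * pd f a x ^ 2)
        (continuous_finsetSum _ fun a _ =>
          ((hτ.comp (continuous_apply a)).add continuous_const).mul ((hpdc a).pow 2))
      have e4 : ∫ x in S, ∑ a, (τ (x a) + η) * pd f a x ^ 2 ∂pw n ν = D + η * E := by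
        rw [hD, hE, ← integral_const_mul, ← integral_add]
        · refine integral_congr_ae (Eventually.of_forall fun x => ?_)
          simp only [add_mul, Finset.sum_add_distrib, Finset.mul_sum]
        · exact hbox _ (continuous_finsetSum _ fun a _ =>
            (hτ.comp (continuous_apply a)).mul ((hpdc a).pow 2))
        · exact (hbox _ (continuous_finsetSum _ fun a _ => (hpdc a).pow 2)).const_mul η
      simp only at e1 e2 e3 hlim
      rw [hvol, e1, e2, e3, e4] at hlim
      have hc2 : 0 < c ^ 2 := pow_pos hcpos 2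
      have : c ^ 2 * (P * I2 - I1 ^ 2) ≤ c ^ 2 * (P * (D + η * E)) := by
        nlinarith [hlim]
      exact le_of_mul_le_mul_left this hc2
    · intro N hN
      refine hDG N (fun k => θ N * (τ (xq q N k) + η) / (xq q N (k + 1) - xq q N k) ^ 2) ?_ (hθ N hN)
      intro k hk
      have hNpos : (0 : ℝ) < N := by exact_mod_cast hN
      have hlt : xq q N k < xq q N (k + 1) := by
        refine hq.mono ?_ ?_ ?_
        · refine ⟨by positivity, ?_⟩
          rw [div_le_one hNpos]; exact_mod_cast (by omega : k ≤ N)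
        · refine ⟨by positivity, ?_⟩
          rw [div_le_one hNpos]; exact_mod_cast (by omega : k + 1 ≤ N)
        · refine div_lt_div_of_pos_right ?_ hNpos
          push_cast; linarith
      have h1 : 0 < (xq q N (k + 1) - xq q N k) ^ 2 := pow_pos (sub_pos.2 hlt) 2
      exact div_pos (mul_pos (hθ0 N) (hpos _)) h1
  refine le_of_forall_pos_le_add fun δ hδ => ?_
  have hPE : 0 ≤ P * E := mul_nonneg hP0 hE0
  have hη : 0 < δ / (P * E + 1) := by positivity
  have h1 := key _ hη
  have h2 : δ / (P * E + 1) * (P * E) ≤ δ := by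
    rw [div_mul_eq_mul_div, div_le_iff₀ (by linarith)]
    nlinarith
  nlinarith [h1, h2]

end Pool.Agent.T2h95.OC
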