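import Pool.Agent.T2h95.OC.Stm

set_option autoImplicit false

namespace Pool.Agent.T2h95.OC

open MeasureTheory Set Filter Topology
open scoped ENNReal

namespace Exh

lemma meas_Bx (n : ℕ) (a b : ℝ) : MeasurableSet (Bx n a b) := by
  have : Bx n a b = Set.univ.pi fun _ : Fin n => Icc a b := by
    ext x
    exact ⟨fun h i _ => h i, fun h i => h i (Set.mem_univ i)⟩
  rw [this]
  exact MeasurableSet.univ_pi fun _ => measurableSet_Icc

lemma tail {ν : Measure ℝ} [IsProbabilityMeasure ν] {ε : ℝ} {q : ℝ → ℝ} (hε : 0 ≤ ε) (hε1 : ε ≤ 1)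
    (h : QF ν ε q) : ν (Icc (q 0) (q 1))ᶜ ≤ ENNReal.ofReal (2 * ε) := by
  have e0 : ν (Iic (q 0)) = ENNReal.ofReal ε := by
    rw [h.lvl 0 (by simp)]
    congr 1
    ring
  have e1 : ν (Ioi (q 1)) = ENNReal.ofReal ε := by
    have h1 : ν (Iic (q 1)) = ENNReal.ofReal (1 - ε) := by
      rw [h.lvl 1 (by simp)]
      congr 1
      ring
    have h2 : ν (Iic (q 1))ᶜ = 1 - ν (Iic (q 1)) := prob_compl_eq_one_sub measurableSet_Iic
    rw [compl_Iic, h1] at h2
    rw [h2, ← ENNReal.ofReal_one, ← ENNReal.ofReal_sub _ (by linarith)]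
    congr 1
    ring
  have hsub : (Icc (q 0) (q 1))ᶜ ⊆ Iic (q 0) ∪ Ioi (q 1) := by
    intro x hx
    by_cases h1 : x ≤ q 0
    · exact Or.inl h1
    · right
      by_contra h2
      exact hx ⟨(not_le.mp h1).le, not_lt.mp h2⟩
  calc ν (Icc (q 0) (q 1))ᶜ ≤ ν (Iic (q 0) ∪ Ioi (q 1)) := measure_mono hsub
    _ ≤ ν (Iic (q 0)) + ν (Ioi (q 1)) := measure_union_le _ _
    _ = ENNReal.ofReal (2 * ε) := by
      rw [e0, e1, ← ENNReal.ofReal_add hε hε]
      congr 1
      ring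

lemma compl_le {ν : Measure ℝ} [IsProbabilityMeasure ν] (n : ℕ) (a b : ℝ) :
    pw n ν (Bx n a b)ᶜ ≤ n * ν (Icc a b)ᶜ := by
  have hsub : (Bx n a b)ᶜ ⊆ ⋃ i : Fin n, (fun x : Fin n → ℝ => x i) ⁻¹' (Icc a b)ᶜ := by
    intro x hx
    simp only [Bx, mem_compl_iff, mem_ofPred_eq, not_forall] at hx
    obtain ⟨i, hi⟩ := hx
    exact mem_iUnion.mpr ⟨i, hi⟩
  calc pw n ν (Bx n a b)ᶜ ≤ pw n ν (⋃ i : Fin n, (fun x : Fin n → ℝ => x i) ⁻¹' (Icc a b)ᶜ) := measure_mono hsub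
    _ ≤ ∑ i : Fin n, pw n ν ((fun x : Fin n → ℝ => x i) ⁻¹' (Icc a b)ᶜ) := measure_iUnion_fintype_le _ _
    _ = ∑ i : Fin n, ν (Icc a b)ᶜ := by
      refine Finset.sum_congr rfl fun i _ => ?_
      exact (measurePreserving_eval (fun _ : Fin n => ν) i).measure_preimage
        measurableSet_Icc.compl.nullMeasurableSet
    _ = n * ν (Icc a b)ᶜ := by simp

end Exh

open Exh in
theorem t_EXH : S_EXH := by
  intro ν _ q hq n R h hh
  have h1 : ∀ m : ℕ, ∫ x in CR R ∩ Bx n (q m 0) (q m 1), h x ∂pw n ν =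
      ∫ x in CR R, h x ∂pw n ν - ∫ x in (Bx n (q m 0) (q m 1))ᶜ, h x ∂((pw n ν).restrict (CR R)) := by
    intro m
    have e1 := integral_inter_add_sdiff (meas_Bx n (q m 0) (q m 1)) hh
    have e2 : ∫ x in (Bx n (q m 0) (q m 1))ᶜ, h x ∂((pw n ν).restrict (CR R)) =
        ∫ x in CR R \ Bx n (q m 0) (q m 1), h x ∂pw n ν := by
      rw [Measure.restrict_restrict (meas_Bx _ _ _).compl, inter_comm, sdiff_eq]
    rw [e2]
    linarith
  have h2 : Tendsto (fun m => ∫ x in (Bx n (q m 0) (q m 1))ᶜ, h x ∂((pw n ν).restrict (CR R))) atTop (𝓝 0) := by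
    refine Integrable.tendsto_setIntegral_nhds_zero hh ?_
    have hb : ∀ m : ℕ, ((pw n ν).restrict (CR R)) (Bx n (q m 0) (q m 1))ᶜ ≤
        ENNReal.ofReal (n * (2 * (1 / ((m : ℝ) + 3)))) := by
      intro m
      have hm : (0 : ℝ) < (m : ℝ) + 3 := by positivity
      calc ((pw n ν).restrict (CR R)) (Bx n (q m 0) (q m 1))ᶜ ≤ pw n ν (Bx n (q m 0) (q m 1))ᶜ :=
            Measure.restrict_apply_le _ _
        _ ≤ n * ν (Icc (q m 0) (q m 1))ᶜ := compl_le _ _ _
        _ ≤ n * ENNReal.ofReal (2 * (1 / ((m : ℝ) + 3))) := by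
          gcongr
          refine tail (by positivity) ?_ (hq m)
          rw [div_le_one hm]
          have : (0 : ℝ) ≤ m := Nat.cast_nonneg m
          linarith
        _ = ENNReal.ofReal (n * (2 * (1 / ((m : ℝ) + 3)))) := by
          rw [ENNReal.ofReal_mul (p := (n : ℝ)) (by positivity), ENNReal.ofReal_natCast]
    refine tendsto_of_tendsto_of_tendsto_of_le_of_le tendsto_const_nhds ?_ (fun _ => bot_le) hb
    have h3 : Tendsto (fun m : ℕ => (n : ℝ) * (2 * (1 / ((m : ℝ) + 3)))) atTop (𝓝 (n * (2 * 0))) := by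
      refine Tendsto.const_mul _ (Tendsto.const_mul _ ?_)
      refine Tendsto.div_atTop tendsto_const_nhds ?_
      exact tendsto_atTop_add_const_right _ _ tendsto_natCast_atTop_atTop
    have h4 := ENNReal.tendsto_ofReal h3
    simpa using h4
  have h5 := (tendsto_const_nhds (x := ∫ x in CR R, h x ∂pw n ν) (f := atTop)).sub h2
  rw [sub_zero] at h5
  refine h5.congr fun m => (h1 m).symm

end Pool.Agent.T2h95.OC
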