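import Pool.Agent.T2h95.OC.Stm

/-!
# Project OC, task EXT: the weighted Poincare inequality for right-continuous derivatives
-/

set_option autoImplicit false

namespace Pool.Agent.T2h95.OC

open MeasureTheory Set Filter Topology
open scoped ENNReal Interval

theorem t_EXT : S_EXT := by
  intro ν _ τ hτ hτ0 hWP D a b B hab hDm hDB hD0 hDr
  have hB : 0 ≤ B := (abs_nonneg _).trans (hDB 0)
  have hDi : ∀ s t, IntervalIntegrable D volume s t := by
    intro s t
    refine (intervalIntegrable_const (c := B)).mono_fun hDm.aestronglyMeasurable ?_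
    refine Eventually.of_forall fun x => ?_
    show ‖D x‖ ≤ ‖B‖
    rw [Real.norm_eq_abs, Real.norm_eq_abs, abs_of_nonneg hB]
    exact hDB x
  set G : ℝ → ℝ := fun t => ∫ s in a..t, D s with hG
  have hGc : Continuous G := intervalIntegral.continuous_primitive (fun s t => hDi s t) a
  set δ : ℕ → ℝ := fun m => 1 / ((m : ℝ) + 1) with hδdef
  have hδ0 : ∀ m, 0 < δ m := fun m => by
    show (0 : ℝ) < 1 / ((m : ℝ) + 1)
    positivity
  have hδ1 : ∀ m, δ m ≤ 1 := fun m => by
    show 1 / ((m : ℝ) + 1) ≤ 1
    rw [div_le_one (by positivity)]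
    have : (0 : ℝ) ≤ m := Nat.cast_nonneg m
    linarith
  have hδt : Tendsto δ atTop (𝓝 0) := tendsto_one_div_add_atTop_nhds_zero_nat
  have hGd : ∀ t s, G s - G t = ∫ x in t..s, D x := fun t s =>
    intervalIntegral.integral_interval_sub_left (hDi _ _) (hDi _ _)
  set E : ℕ → ℝ → ℝ := fun m t => (G (t + δ m) - G t) / δ m with hE
  have hEc : ∀ m, Continuous (E m) := fun m =>
    ((hGc.comp (continuous_id.add continuous_const)).sub hGc).div_const _
  have hEB : ∀ m t, |E m t| ≤ B := by
    intro m t
    show |(G (t + δ m) - G t) / δ m| ≤ B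
    rw [abs_div, abs_of_pos (hδ0 m), div_le_iff₀ (hδ0 m), hGd]
    have h1 := intervalIntegral.norm_integral_le_of_norm_le_const (a := t) (b := t + δ m) (f := D)
      (C := B) fun x _ => by
        rw [Real.norm_eq_abs]
        exact hDB x
    rw [Real.norm_eq_abs, add_sub_cancel_left, abs_of_pos (hδ0 m)] at h1
    exact h1
  have hE0 : ∀ m t, t ∉ Icc (a - 1) b → E m t = 0 := by
    intro m t ht
    have h1 : ∫ x in t..(t + δ m), D x = 0 := by
      rw [intervalIntegral.integral_congr (g := fun _ => (0 : ℝ))]
      · simp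
      · intro x hx
        rw [uIcc_of_le (by linarith [hδ0 m])] at hx
        refine hD0 x ?_
        by_contra hcon
        push Not at hcon
        exact ht ⟨by linarith [hx.2, hδ1 m, hcon.1], by linarith [hx.1, hcon.2]⟩
    show (G (t + δ m) - G t) / δ m = 0
    rw [hGd, h1, zero_div]
  have hEt : ∀ t, Tendsto (fun m => E m t) atTop (𝓝 (D t)) := by
    intro t
    have h1 : HasDerivWithinAt G (D t) (Ici t) t :=
      intervalIntegral.integral_hasDerivWithinAt_right (t := Ioi t) (hDi a t)
        (hDm.stronglyMeasurable.stronglyMeasurableAtFilter)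
        ((hDr t).mono Ioi_subset_Ici_self)
    rw [hasDerivWithinAt_iff_tendsto_slope] at h1
    have h2 : Tendsto (fun m => t + δ m) atTop (𝓝[Ici t \ {t}] t) := by
      rw [tendsto_nhdsWithin_iff]
      refine ⟨?_, Eventually.of_forall fun m => ⟨?_, ?_⟩⟩
      · simpa using hδt.const_add t
      · show t ≤ t + δ m
        linarith [hδ0 m]
      · show t + δ m ≠ t
        have := hδ0 m
        intro h
        linarith
    have h3 := h1.comp h2
    refine h3.congr fun m => ?_
    show slope G t (t + δ m) = (G (t + δ m) - G t) / δ m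
    rw [slope_def_field, add_sub_cancel_left]
  set H : ℕ → ℝ → ℝ := fun m t => ∫ s in a..t, E m s with hH
  have hHd : ∀ m t, HasDerivAt (H m) (E m t) t := fun m t =>
    ((hEc m).integral_hasStrictDerivAt a t).hasDerivAt
  have hHderiv : ∀ m, deriv (H m) = E m := fun m => funext fun t => (hHd m t).deriv
  have hHc : ∀ m, Continuous (H m) := fun m =>
    continuous_iff_continuousAt.2 fun t => (hHd m t).continuousAt
  have hsupp : ∀ m, HasCompactSupport (E m) := by
    intro m
    refine HasCompactSupport.intro (isCompact_Icc (a := a - 1) (b := b)) fun t ht => hE0 m t ht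
  have hCD : ∀ m, ContDiff ℝ 1 (H m) := by
    intro m
    rw [contDiff_one_iff_deriv, hHderiv]
    exact ⟨fun t => (hHd m t).differentiableAt, hEc m⟩
  have hHB : ∀ m t, |H m t| ≤ B * (b - a + 1) := by
    intro m t
    have hi : Integrable (E m) := (hEc m).integrable_of_hasCompactSupport (hsupp m)
    have h1 : |H m t| ≤ ∫ x in Ι a t, ‖E m x‖ := by
      have := intervalIntegral.norm_integral_le_integral_norm_uIoc (a := a) (b := t) (f := E m)
        (μ := volume)
      rwa [Real.norm_eq_abs] at this
    have h2 : ∫ x in Ι a t, ‖E m x‖ ≤ ∫ x, ‖E m x‖ :=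
      setIntegral_le_integral hi.norm (Eventually.of_forall fun x => norm_nonneg _)
    have h3 : ∫ x, ‖E m x‖ ≤ ∫ x, (Icc (a - 1) b).indicator (fun _ => B) x := by
      refine integral_mono hi.norm ?_ fun x => ?_
      · rw [integrable_indicator_iff measurableSet_Icc]
        exact integrableOn_const (by simp) (by simp)
      · by_cases hx : x ∈ Icc (a - 1) b
        · rw [indicator_of_mem hx, Real.norm_eq_abs]
          exact hEB m x
        · rw [indicator_of_notMem hx]
          show ‖E m x‖ ≤ 0
          rw [hE0 m x hx, norm_zero]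
    have h4 : ∫ x, (Icc (a - 1) b).indicator (fun _ => B) x = B * (b - a + 1) := by
      rw [integral_indicator measurableSet_Icc, setIntegral_const, Real.volume_real_Icc_of_le
        (by linarith), smul_eq_mul]
      ring
    linarith
  have hHt : ∀ t, Tendsto (fun m => H m t) atTop (𝓝 (G t)) := by
    intro t
    refine intervalIntegral.tendsto_integral_filter_of_dominated_convergence (fun _ => B)
      (Eventually.of_forall fun m => (hEc m).aestronglyMeasurable)
      (Eventually.of_forall fun m => Eventually.of_forall fun x _ => ?_)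
      intervalIntegrable_const (Eventually.of_forall fun x _ => hEt x)
    rw [Real.norm_eq_abs]
    exact hEB m x
  -- the bound of `τ`
  obtain ⟨T, hT⟩ := (isCompact_Icc (a := a - 1) (b := b)).exists_bound_of_continuousOn hτ.continuousOn
  have hT' : ∀ m t, ‖τ t * E m t ^ 2‖ ≤ |T| * B ^ 2 := by
    intro m t
    by_cases ht : t ∈ Icc (a - 1) b
    · rw [norm_mul, norm_pow]
      refine mul_le_mul ((hT t ht).trans (le_abs_self T)) ?_ (by positivity) (abs_nonneg T)
      exact pow_le_pow_left₀ (norm_nonneg _) (by rw [Real.norm_eq_abs]; exact hEB m t) 2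
    · rw [hE0 m t ht]
      simp only [ne_eq, OfNat.ofNat_ne_zero, not_false_eq_true, zero_pow, mul_zero, norm_zero]
      positivity
  have key : ∀ m, ∫ t, H m t ^ 2 ∂ν - (∫ t, H m t ∂ν) ^ 2 ≤ ∫ t, τ t * E m t ^ 2 ∂ν := by
    intro m
    have h1 := hWP (H m) (hCD m) (by rw [hHderiv]; exact hsupp m)
    rwa [hHderiv] at h1
  have l1 : Tendsto (fun m => ∫ t, H m t ^ 2 ∂ν) atTop (𝓝 (∫ t, G t ^ 2 ∂ν)) := by
    refine tendsto_integral_of_dominated_convergence (fun _ => (B * (b - a + 1)) ^ 2)
      (fun m => ((hHc m).pow 2).aestronglyMeasurable) (integrable_const _)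
      (fun m => Eventually.of_forall fun t => ?_)
      (Eventually.of_forall fun t => (hHt t).pow 2)
    rw [norm_pow, Real.norm_eq_abs]
    exact pow_le_pow_left₀ (abs_nonneg _) (hHB m t) 2
  have l2 : Tendsto (fun m => ∫ t, H m t ∂ν) atTop (𝓝 (∫ t, G t ∂ν)) := by
    refine tendsto_integral_of_dominated_convergence (fun _ => B * (b - a + 1))
      (fun m => (hHc m).aestronglyMeasurable) (integrable_const _)
      (fun m => Eventually.of_forall fun t => ?_) (Eventually.of_forall fun t => hHt t)
    rw [Real.norm_eq_abs]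
    exact hHB m t
  have l3 : Tendsto (fun m => ∫ t, τ t * E m t ^ 2 ∂ν) atTop (𝓝 (∫ t, τ t * D t ^ 2 ∂ν)) := by
    refine tendsto_integral_of_dominated_convergence (fun _ => |T| * B ^ 2)
      (fun m => (hτ.mul ((hEc m).pow 2)).aestronglyMeasurable) (integrable_const _)
      (fun m => Eventually.of_forall fun t => hT' m t)
      (Eventually.of_forall fun t => ((hEt t).pow 2).const_mul _)
  exact le_of_tendsto_of_tendsto' (l1.sub (l2.pow 2)) l3 key

end Pool.Agent.T2h95.OC
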