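import Pool.Agent.T2h95.OC.Stm

/-! Project OC, task FIN1: the theorem in Euclidean space. -/

set_option autoImplicit false

namespace Pool.Agent.T2h95.OC

open MeasureTheory Set Filter Topology
open scoped ENNReal
open Pool.Agent.R972.OP (mv cfg QQ OPp lp adj pd WC S_LAT S_RS S_ADJ S_UPC S_SYM)

namespace FIN1

theorem contDiff_toLp {n : ℕ} {f : Eu n → ℝ} (hf : ContDiff ℝ 1 f) :
    ContDiff ℝ 1 fun x : Fin n → ℝ => f (WithLp.toLp 2 x) :=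
  hf.comp (PiLp.continuousLinearEquiv 2 ℝ (fun _ : Fin n => ℝ)).symm.contDiff

theorem pd_toLp {n : ℕ} {f : Eu n → ℝ} (hf : ContDiff ℝ 1 f) (a : Fin n) (x : Fin n → ℝ) :
    pd (fun x : Fin n → ℝ => f (WithLp.toLp 2 x)) a x =
      fderiv ℝ f (WithLp.toLp 2 x) (EuclideanSpace.single a 1) := by
  have h1 : HasFDerivAt f (fderiv ℝ f (WithLp.toLp 2 x)) (WithLp.toLp 2 x) :=
    (hf.differentiable one_ne_zero _).hasFDerivAt
  have h2 : HasFDerivAt (fun x : Fin n → ℝ => f (WithLp.toLp 2 x))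
      ((fderiv ℝ f (WithLp.toLp 2 x)).comp
        ((PiLp.continuousLinearEquiv 2 ℝ (fun _ : Fin n => ℝ)).symm : (Fin n → ℝ) →L[ℝ] Eu n)) x :=
    HasFDerivAt.comp (f := fun x : Fin n → ℝ => (WithLp.toLp 2 x : Eu n)) x h1
      ((PiLp.continuousLinearEquiv 2 ℝ (fun _ : Fin n => ℝ)).symm.hasFDerivAt)
  unfold pd
  rw [h2.fderiv]
  rfl

end FIN1

/-- **FIN1** -/
theorem t_FIN1 (hM : S_MAIN) (hO : S_OCI) : S_FIN1 := by
  intro ν _ _ τ hτ hτ0 hWP n R hC f hf hL hI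
  obtain ⟨hP, hG⟩ := hO n ν R hC
  have hp0 : 0 < (pw n ν (CR R)).toReal := ENNReal.toReal_pos hC (measure_ne_top _ _)
  set p := (pw n ν (CR R)).toReal with hp
  have h1 : IntegrableOn (fun x => f (WithLp.toLp 2 x)) (CR R) (pw n ν) :=
    (hG f).1.1 (hL.integrable one_le_two)
  have h2 : IntegrableOn (fun x => f (WithLp.toLp 2 x) ^ 2) (CR R) (pw n ν) :=
    (hG fun x => f x ^ 2).1.1 hL.integrable_sq
  have h3 : IntegrableOn (fun x : Fin n → ℝ => ∑ a, τ (x a) *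
      pd (fun x : Fin n → ℝ => f (WithLp.toLp 2 x)) a x ^ 2) (CR R) (pw n ν) := by
    have h4 := (hG _).1.1 hI
    simpa only [FIN1.pd_toLp hf] using h4
  have h5 := hM ν τ hτ hτ0 hWP n R (fun x => f (WithLp.toLp 2 x)) (FIN1.contDiff_toLp hf) h1 h2 h3
  rw [ProbabilityTheory.variance_eq_sub hL]
  have h6 : ∫ x, (f ^ 2) x ∂(oc ν R) = p⁻¹ * ∫ x in CR R, f (WithLp.toLp 2 x) ^ 2 ∂pw n ν :=
    (hG fun x => f x ^ 2).2
  have h7 : ∫ x, f x ∂(oc ν R) = p⁻¹ * ∫ x in CR R, f (WithLp.toLp 2 x) ∂pw n ν := (hG f).2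
  have h8 : ∫ x : Eu n, ∑ a, τ (x a) * fderiv ℝ f x (EuclideanSpace.single a 1) ^ 2 ∂(oc ν R) =
      p⁻¹ * ∫ x in CR R, ∑ a, τ (x a) *
        pd (fun x : Fin n → ℝ => f (WithLp.toLp 2 x)) a x ^ 2 ∂pw n ν := by
    rw [(hG _).2]
    simp only [FIN1.pd_toLp hf]
  rw [h6, h7, h8]
  have h9 := mul_le_mul_of_nonneg_left h5 (sq_nonneg p⁻¹)
  have e1 : p⁻¹ ^ 2 * (p * (∫ x in CR R, f (WithLp.toLp 2 x) ^ 2 ∂pw n ν) -
      (∫ x in CR R, f (WithLp.toLp 2 x) ∂pw n ν) ^ 2) =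
      p⁻¹ * (∫ x in CR R, f (WithLp.toLp 2 x) ^ 2 ∂pw n ν) -
      (p⁻¹ * ∫ x in CR R, f (WithLp.toLp 2 x) ∂pw n ν) ^ 2 := by
    field_simp
  have e2 : p⁻¹ ^ 2 * (p * ∫ x in CR R, ∑ a, τ (x a) *
      pd (fun x : Fin n → ℝ => f (WithLp.toLp 2 x)) a x ^ 2 ∂pw n ν) =
      p⁻¹ * ∫ x in CR R, ∑ a, τ (x a) *
        pd (fun x : Fin n → ℝ => f (WithLp.toLp 2 x)) a x ^ 2 ∂pw n ν := by
    field_simp
  rw [e1, e2] at h9
  exact h9

end Pool.Agent.T2h95.OC
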