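import Pool.Agent.T2h95.OC.Stm

/-!
# Project OC, task HAR: the weighted Poincare inequality from Hardy's inequality
-/

set_option autoImplicit false

namespace Pool.Agent.T2h95.OC

open MeasureTheory Set Filter Topology
open scoped ENNReal Interval

theorem har_law_prob {ρ : ℝ → ℝ} (h1 : ∫⁻ x, ENNReal.ofReal (ρ x) = 1) :
    IsProbabilityMeasure (law ρ) := by
  constructor
  unfold law
  rw [withDensity_apply _ MeasurableSet.univ, Measure.restrict_univ, h1]

theorem t_HAR : S_HAR := by
  intro ρ θ m hρ0 hρm hρ1 hθ hθ0 hR hL g hg hgs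
  have hprob : IsProbabilityMeasure (law ρ) := har_law_prob hρ1
  set ν := law ρ with hν
  have hrm : Measurable fun x => ENNReal.ofReal (ρ x) := hρm.ennreal_ofReal
  have hρi : Integrable ρ := by
    refine ⟨hρm.aestronglyMeasurable, ?_⟩
    rw [hasFiniteIntegral_iff_ofReal (Eventually.of_forall hρ0), hρ1]
    exact ENNReal.one_lt_top
  have hlaw : ∀ F : ℝ → ℝ≥0∞, Measurable F →
      ∫⁻ x, F x ∂ν = ∫⁻ x, F x * ENNReal.ofReal (ρ x) := by
    intro F hF
    rw [hν, law, lintegral_withDensity_eq_lintegral_mul _ hrm hF]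
    refine lintegral_congr fun x => ?_
    rw [Pi.mul_apply, mul_comm]
  -- the function
  set g' : ℝ → ℝ := deriv g with hg'
  have hg'c : Continuous g' := hg.continuous_deriv le_rfl
  have hgd : ∀ x, HasDerivAt g (g' x) x := fun x => (hg.differentiable (by norm_num) x).hasDerivAt
  have hgc : Continuous g := hg.continuous
  set G : ℝ → ℝ := fun x => g x - g m with hG
  have hGc : Continuous G := hgc.sub continuous_const
  have hGd : ∀ x, HasDerivAt G (g' x) x := fun x => (hgd x).sub_const _
  have hGm : G m = 0 := sub_self _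
  have hg'i : Integrable g' := hg'c.integrable_of_hasCompactSupport hgs
  set K : ℝ := ∫ x, ‖g' x‖ with hK
  have hGK : ∀ x, |G x| ≤ K := by
    intro x
    have h1 : ∫ y in m..x, g' y = G x - G m :=
      intervalIntegral.integral_eq_sub_of_hasDerivAt (fun y _ => hGd y)
        (hg'c.intervalIntegrable _ _)
    rw [hGm, sub_zero] at h1
    rw [← h1, ← Real.norm_eq_abs]
    exact (intervalIntegral.norm_integral_le_integral_norm_uIoc).trans
      (setIntegral_le_integral hg'i.norm (Eventually.of_forall fun x => norm_nonneg _))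
  have hK0 : 0 ≤ K := (abs_nonneg _).trans (hGK m)
  set f : ℝ → ℝ := fun y => 2 * G y * g' y with hf
  have hfc : Continuous f := (continuous_const.mul hGc).mul hg'c
  -- Claim 1
  have c1 : ∀ x, ENNReal.ofReal (G x ^ 2) ≤ ∫⁻ y in Ι m x, ENNReal.ofReal ‖f y‖ := by
    intro x
    have h1 : ∫ y in m..x, f y = G x ^ 2 - G m ^ 2 := by
      refine intervalIntegral.integral_eq_sub_of_hasDerivAt (f := fun y => G y ^ 2) (fun y _ => ?_)
        (hfc.intervalIntegrable _ _)
      have h2 : HasDerivAt (fun y => G y ^ 2) _ y := (hGd y).fun_pow 2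
      refine h2.congr_deriv ?_
      show _ = 2 * G y * g' y
      norm_num
    rw [hGm] at h1
    have h2 : G x ^ 2 ≤ ∫ y in Ι m x, ‖f y‖ := by
      have h3 := intervalIntegral.norm_integral_le_integral_norm_uIoc (a := m) (b := x) (f := f)
        (μ := volume)
      rw [h1, Real.norm_eq_abs] at h3
      refine le_trans (le_trans (le_of_eq (by ring)) (le_abs_self _)) h3
    have hfi : IntegrableOn f (Ι m x) := (hfc.intervalIntegrable m x).def'
    rw [← ofReal_integral_eq_lintegral_ofReal hfi.norm (Eventually.of_forall fun y => norm_nonneg _)]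
    exact ENNReal.ofReal_le_ofReal h2
  -- Tonelli
  set S : Set (ℝ × ℝ) := {p | (m < p.2 ∧ p.2 ≤ p.1) ∨ (p.1 < p.2 ∧ p.2 ≤ m)} with hS
  have hSm : MeasurableSet S := by
    refine MeasurableSet.union ?_ ?_
    · exact (measurableSet_lt measurable_const measurable_snd).inter
        (measurableSet_le measurable_snd measurable_fst)
    · exact (measurableSet_lt measurable_fst measurable_snd).inter
        (measurableSet_le measurable_snd measurable_const)
  have hkm : Measurable fun y => ENNReal.ofReal ‖f y‖ := hfc.norm.measurable.ennreal_ofReal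
  have c2 : ∫⁻ x, ENNReal.ofReal (G x ^ 2) * ENNReal.ofReal (ρ x) ≤
      ∫⁻ y, ENNReal.ofReal ‖f y‖ * ∫⁻ x in {x | (x, y) ∈ S}, ENNReal.ofReal (ρ x) := by
    calc ∫⁻ x, ENNReal.ofReal (G x ^ 2) * ENNReal.ofReal (ρ x)
        ≤ ∫⁻ x, ∫⁻ y, S.indicator (fun p => ENNReal.ofReal ‖f p.2‖ * ENNReal.ofReal (ρ p.1))
            (x, y) := by
          refine lintegral_mono fun x => ?_
          refine (mul_le_mul_left (c1 x) _).trans (le_of_eq ?_)
          rw [← lintegral_mul_const _ hkm, ← lintegral_indicator measurableSet_uIoc]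
          refine lintegral_congr fun y => ?_
          by_cases hy : y ∈ Ι m x
          · rw [indicator_of_mem hy, indicator_of_mem (show (x, y) ∈ S from mem_uIoc.1 hy)]
          · rw [indicator_of_notMem hy,
              indicator_of_notMem (show (x, y) ∉ S from fun h => hy (mem_uIoc.2 h))]
      _ = ∫⁻ y, ∫⁻ x, S.indicator (fun p => ENNReal.ofReal ‖f p.2‖ * ENNReal.ofReal (ρ p.1))
            (x, y) := by
          refine lintegral_lintegral_swap ?_
          refine Measurable.aemeasurable ?_
          exact ((hkm.comp measurable_snd).mul (hrm.comp measurable_fst)).indicator hSm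
      _ = _ := by
          refine lintegral_congr fun y => ?_
          have hSy : MeasurableSet {x | (x, y) ∈ S} := measurable_prodMk_right hSm
          rw [← lintegral_const_mul _ hrm, ← lintegral_indicator hSy]
          refine lintegral_congr fun x => ?_
          by_cases hx : (x, y) ∈ S
          · rw [indicator_of_mem hx, indicator_of_mem (show x ∈ {x | (x, y) ∈ S} from hx)]
          · rw [indicator_of_notMem hx, indicator_of_notMem (show x ∉ {x | (x, y) ∈ S} from hx)]
  -- the tails
  have c3 : ∀ y, ∫⁻ x in {x | (x, y) ∈ S}, ENNReal.ofReal (ρ x) ≤ ENNReal.ofReal (θ y * ρ y) := by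
    intro y
    rcases le_or_gt y m with hy | hy
    · have e : {x | (x, y) ∈ S} = Iio y := by
        ext x
        constructor
        · rintro (⟨h1, h2⟩ | ⟨h1, h2⟩)
          · exact absurd hy (not_le.2 h1)
          · exact h1
        · intro h1
          exact Or.inr ⟨h1, hy⟩
      rw [e, ← ofReal_integral_eq_lintegral_ofReal hρi.integrableOn (Eventually.of_forall hρ0)]
      exact ENNReal.ofReal_le_ofReal (hL y hy)
    · have e : {x | (x, y) ∈ S} = Ici y := by
        ext x
        constructor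
        · rintro (⟨h1, h2⟩ | ⟨h1, h2⟩)
          · exact h2
          · exact absurd h2 (not_le.2 hy)
        · intro h1
          exact Or.inl ⟨hy, h1⟩
      rw [e, ← ofReal_integral_eq_lintegral_ofReal hρi.integrableOn (Eventually.of_forall hρ0),
        integral_Ici_eq_integral_Ioi]
      exact ENNReal.ofReal_le_ofReal (hR y hy.le)
  -- together
  have hq2 : Continuous fun x => θ x ^ 2 * g' x ^ 2 := (hθ.pow 2).mul (hg'c.pow 2)
  have c4 : ∫⁻ x, ENNReal.ofReal (G x ^ 2) ∂ν ≤
      ∫⁻ x, ENNReal.ofReal (1 / 2 * G x ^ 2 + 2 * (θ x ^ 2 * g' x ^ 2)) ∂ν := by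
    have hm1 : Measurable fun x => ENNReal.ofReal (G x ^ 2) := (hGc.pow 2).measurable.ennreal_ofReal
    have hm2 : Measurable fun x => ENNReal.ofReal (1 / 2 * G x ^ 2 + 2 * (θ x ^ 2 * g' x ^ 2)) :=
      ((continuous_const.mul (hGc.pow 2)).add (continuous_const.mul hq2)).measurable.ennreal_ofReal
    rw [hlaw _ hm1, hlaw _ hm2]
    refine c2.trans (lintegral_mono fun y => ?_)
    refine (mul_le_mul_right (c3 y) _).trans ?_
    rw [← ENNReal.ofReal_mul (norm_nonneg _), ← ENNReal.ofReal_mul (by positivity)]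
    refine ENNReal.ofReal_le_ofReal ?_
    have h1 : ‖f y‖ = 2 * (|G y| * |g' y|) := by
      show ‖2 * G y * g' y‖ = _
      rw [Real.norm_eq_abs, abs_mul, abs_mul, abs_of_pos (by norm_num : (0 : ℝ) < 2)]
      ring
    rw [h1]
    have h2 : 2 * (|G y| * |g' y|) * θ y ≤ 1 / 2 * G y ^ 2 + 2 * (θ y ^ 2 * g' y ^ 2) := by
      have h3 := sq_nonneg (|G y| - 2 * θ y * |g' y|)
      rw [← sq_abs (G y), ← sq_abs (g' y)]
      nlinarith
    calc 2 * (|G y| * |g' y|) * (θ y * ρ y) = 2 * (|G y| * |g' y|) * θ y * ρ y := by ring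
      _ ≤ _ := mul_le_mul_of_nonneg_right h2 (hρ0 y)
  have i1 : Integrable (fun x => G x ^ 2) ν := by
    refine Integrable.of_bound (hGc.pow 2).aestronglyMeasurable (K ^ 2)
      (Eventually.of_forall fun x => ?_)
    rw [norm_pow, Real.norm_eq_abs]
    exact pow_le_pow_left₀ (abs_nonneg _) (hGK x) 2
  have i2 : Integrable (fun x => θ x ^ 2 * g' x ^ 2) ν := by
    refine hq2.integrable_of_hasCompactSupport ?_
    have h1 : HasCompactSupport fun x => g' x ^ 2 := by
      have := hgs.comp_left (g := fun z : ℝ => z ^ 2) (by norm_num)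
      exact this
    exact h1.mul_left
  have i3 : Integrable G ν := by
    refine Integrable.of_bound hGc.aestronglyMeasurable K (Eventually.of_forall fun x => ?_)
    rw [Real.norm_eq_abs]
    exact hGK x
  have c5 : ∫ x, G x ^ 2 ∂ν ≤ ∫ x, (1 / 2 * G x ^ 2 + 2 * (θ x ^ 2 * g' x ^ 2)) ∂ν := by
    have j : Integrable (fun x => 1 / 2 * G x ^ 2 + 2 * (θ x ^ 2 * g' x ^ 2)) ν :=
      (i1.const_mul _).add (i2.const_mul _)
    rw [← ofReal_integral_eq_lintegral_ofReal i1 (Eventually.of_forall fun x => sq_nonneg _),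
      ← ofReal_integral_eq_lintegral_ofReal j (Eventually.of_forall fun x => by positivity)] at c4
    exact (ENNReal.ofReal_le_ofReal_iff (integral_nonneg fun x => by positivity)).1 c4
  rw [integral_add (i1.const_mul _) (i2.const_mul _), integral_const_mul, integral_const_mul] at c5
  have c6 : ∫ x, G x ^ 2 ∂ν ≤ 4 * ∫ x, θ x ^ 2 * g' x ^ 2 ∂ν := by linarith
  -- the variance
  have e1 : ∫ x, g x ∂ν = (∫ x, G x ∂ν) + g m := by
    have h1 : ∀ x, g x = G x + g m := fun x => by
      show g x = g x - g m + g m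
      ring
    rw [integral_congr_ae (Eventually.of_forall h1), integral_add i3 (integrable_const _),
      integral_const]
    simp
  have e2 : ∫ x, g x ^ 2 ∂ν = (∫ x, G x ^ 2 ∂ν) + 2 * g m * (∫ x, G x ∂ν) + g m ^ 2 := by
    have h1 : ∀ x, g x ^ 2 = (G x ^ 2 + 2 * g m * G x) + g m ^ 2 := fun x => by
      show g x ^ 2 = ((g x - g m) ^ 2 + 2 * g m * (g x - g m)) + g m ^ 2
      ring
    have j1 : Integrable (fun x => G x ^ 2 + 2 * g m * G x) ν := i1.add (i3.const_mul _)
    rw [integral_congr_ae (Eventually.of_forall h1), integral_add j1 (integrable_const _),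
      integral_add i1 (i3.const_mul _), integral_const_mul, integral_const]
    simp
  have e3 : ∫ x, 4 * θ x ^ 2 * g' x ^ 2 ∂ν = 4 * ∫ x, θ x ^ 2 * g' x ^ 2 ∂ν := by
    rw [← integral_const_mul]
    refine integral_congr_ae (Eventually.of_forall fun x => ?_)
    show 4 * θ x ^ 2 * g' x ^ 2 = 4 * (θ x ^ 2 * g' x ^ 2)
    ring
  show ∫ x, g x ^ 2 ∂ν - (∫ x, g x ∂ν) ^ 2 ≤ ∫ x, 4 * θ x ^ 2 * g' x ^ 2 ∂ν
  rw [e1, e2, e3]
  nlinarith [sq_nonneg (∫ x, G x ∂ν)]

end Pool.Agent.T2h95.OC
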