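import Pool.Agent.T2h95.OC.Stm

/-!
# Task LC (helper21)
-/

set_option autoImplicit false

namespace Pool.Agent.T2h95.OC

open MeasureTheory Set Filter Topology
open scoped ENNReal

theorem t_LC (h1 : S_HAR) (h2 : S_MED) (h3 : S_MIL) (h4 : S_MAXD) (h5 : S_MM2) (h6 : S_VLB) :
    S_LC := by
  intro ρ hρ
  obtain ⟨m, hm0, hR, hL⟩ := h2 ρ hρ
  obtain ⟨hmR, hmL⟩ := h3 ρ m hρ hm0 hR hL
  have hmax := h4 ρ m hρ hm0 hR hL
  have hmem := h5 ρ hρ ⟨m, hm0⟩
  have hv := h6 ρ (2 * ρ m) hρ.nonneg hρ.meas hρ.one (by positivity) hmax hmem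
  have hw := h1 ρ (fun _ => 1 / (2 * ρ m)) m hρ.nonneg hρ.meas hρ.one continuous_const
    (fun _ => by positivity) hmR hmL
  refine ⟨⟨?_⟩, ?_, hmem, ?_⟩
  · rw [law, withDensity_apply _ MeasurableSet.univ, Measure.restrict_univ]
    exact hρ.one
  · exact ⟨fun x => (withDensity_absolutelyContinuous _ _) (measure_singleton x)⟩
  · intro g hg hgc
    refine (hw g hg hgc).trans ?_
    rw [integral_const_mul, integral_const_mul]
    apply mul_le_mul_of_nonneg_right _ (integral_nonneg fun x => sq_nonneg _)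
    have e1 : 4 * (1 / (2 * ρ m)) ^ 2 = 48 * (1 / (12 * (2 * ρ m) ^ 2)) := by
      field_simp
      norm_num
    rw [e1]
    linarith

end Pool.Agent.T2h95.OC
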