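import Pool.Agent.T2h95.OC.Stm

/-!
# OC-LIM: assembly of the limit, in quantile coordinates
-/

set_option autoImplicit false

namespace Pool.Agent.T2h95.OC

open MeasureTheory Set Filter Topology
open Pool.Agent.R972.OP (mv cfg QQ OPp lp adj pd WC S_LAT S_RS S_ADJ S_UPC S_SYM)

theorem lim_mem_cfg {n N : ℕ} {R : Fin n → Fin n → Prop} {g : Fin n → ℕ} (h : g ∈ cfg N R) :
    ∀ a, g a < N := by
  classical
  unfold cfg at h
  rw [Finset.mem_filter, Fintype.mem_piFinset] at h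
  exact fun a => Finset.mem_range.mp (h.1 a)

theorem lim_xq_lt {q : ℝ → ℝ} (hq : StrictMonoOn q (Icc 0 1)) {N k : ℕ} (h : k + 1 < N) :
    xq q N k < xq q N (k + 1) := by
  have hN : (0 : ℝ) < N := by
    have : 0 < N := by omega
    exact_mod_cast this
  have h1 : ((k + 1 : ℕ) : ℝ) ≤ N := by exact_mod_cast h.le
  have h0 : (k : ℝ) < ((k + 1 : ℕ) : ℝ) := by push_cast; linarith
  unfold xq
  apply hq
  · constructor
    · positivity
    · rw [div_le_one hN]
      linarith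
  · constructor
    · positivity
    · rw [div_le_one hN]
      exact h1
  · exact div_lt_div_of_pos_right h0 hN

theorem t_LIM (h1 : S_LAT) (h2 : S_RS) (h3 : S_ADJ) (h4 : S_UPC) (h5 : S_UPQ) : S_LIM := by
  classical
  intro n R q τ θ f hR hq hqm hτ hτ0 hθ hθ0 hW hf
  obtain ⟨err, C, herr, hC, hbd⟩ := h5 n f q τ hf hq hqm hτ hτ0
  have hcf : Continuous f := hf.continuous
  have hcQ : Continuous (fun u : Fin n → ℝ => fun a => q (u a)) :=
    continuous_pi fun a => hq.comp (continuous_apply a)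
  have hcpd : ∀ a, Continuous (pd f a) := by
    intro a
    unfold pd
    exact (hf.continuous_fderiv (by norm_num)).clm_apply continuous_const
  have hcG : Continuous (fun u : Fin n → ℝ =>
      ∑ a, τ (q (u a)) * pd f a (fun b => q (u b)) ^ 2) :=
    continuous_finsetSum _ fun a _ =>
      (hτ.comp (hq.comp (continuous_apply a))).mul (((hcpd a).comp hcQ).pow 2)
  have t1 := h2 n R hR (fun _ => (1 : ℝ)) continuous_const
  have tf := h2 n R hR (fun u => f fun a => q (u a)) (hcf.comp hcQ)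
  have tf2 := h2 n R hR (fun u => f (fun a => q (u a)) ^ 2) ((hcf.comp hcQ).pow 2)
  have tG := h2 n R hR _ hcG
  have tA := h3 n R
  have hvol : (∫ _x in OPp R, (1 : ℝ)) = (volume (OPp R)).toReal := by
    rw [setIntegral_const]
    simp [Measure.real]
  rw [hvol] at t1
  -- the limits of both sides
  have tL := (t1.mul tf2).sub (tf.pow 2)
  have tR := t1.mul ((hθ.mul (((tG.const_mul 2).add (herr.mul t1)).add
    (tA.const_mul C))).const_mul (1 / 2 : ℝ))
  have hlim : (volume (OPp R)).toReal * (1 / 2 * (1 * (2 *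
      (∫ u in OPp R, ∑ a, τ (q (u a)) * pd f a (fun b => q (u b)) ^ 2) +
        0 * (volume (OPp R)).toReal + C * 0))) =
      (volume (OPp R)).toReal *
        ∫ u in OPp R, ∑ a, τ (q (u a)) * pd f a (fun b => q (u b)) ^ 2 := by ring
  rw [hlim] at tR
  refine le_of_tendsto_of_tendsto tL tR ?_
  filter_upwards [eventually_gt_atTop 0] with N hN
  have hN0 : (0 : ℝ) < N := by exact_mod_cast hN
  have hNn : (0 : ℝ) < (N : ℝ) ^ n := by positivity
  obtain ⟨W, c, m, wc, hc⟩ := hW N hN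
  have hc' : ∀ k, k + 1 < N → 0 ≤ c k ∧
      c k * (xq q N (k + 1) - xq q N k) ^ 2 ≤ θ N * τ (xq q N k) := by
    intro k hk
    refine ⟨wc.nonneg k hk, ?_⟩
    have h6 := lim_xq_lt hqm hk
    have h7 : 0 < (xq q N (k + 1) - xq q N k) ^ 2 := by
      have : 0 < xq q N (k + 1) - xq q N k := by linarith
      positivity
    have h8 := hc k hk
    rwa [le_div_iff₀ h7] at h8
  have hlat := h1 n N R _ _ _ wc (fun g => f (xg q N g))
  set E : (Fin n → ℕ) → ℝ := fun g => ∑ a, τ (xg q N g a) * pd f a (xg q N g) ^ 2 with hE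
  have hQ : ∀ g ∈ cfg N R, QQ N R c (fun g => f (xg q N g)) g ≤
      θ N * (2 * E g + err N) + θ N * C * (adj g : ℝ) := by
    intro g hg
    have hlt := lim_mem_cfg hg
    obtain ⟨hb1, hb2⟩ := hbd N g c (θ N) hN hlt (hθ0 N).le hc'
    refine (h4 n N R c (fun g => f (xg q N g)) wc.nonneg g hg).trans ?_
    apply add_le_add hb1
    calc _ ≤ (Finset.univ.filter (fun p : Fin n × Fin n => g p.2 = g p.1 + 1)).card • (θ N * C) := by
          apply Finset.sum_le_card_nsmul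
          intro p hp
          rw [Finset.mem_filter] at hp
          exact hb2 p.1 p.2 hp.2
      _ = θ N * C * (adj g : ℝ) := by
          rw [nsmul_eq_mul, mul_comm]
          rfl
  have hsum : ∑ g ∈ cfg N R, QQ N R c (fun g => f (xg q N g)) g ≤
      θ N * (2 * (∑ g ∈ cfg N R, E g) + (cfg N R).card * err N +
        C * ∑ g ∈ cfg N R, (adj g : ℝ)) := by
    refine (Finset.sum_le_sum hQ).trans (le_of_eq ?_)
    rw [Finset.sum_add_distrib, ← Finset.mul_sum, ← Finset.mul_sum, Finset.sum_add_distrib,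
      Finset.sum_const, nsmul_eq_mul, ← Finset.mul_sum]
    ring
  have hfin : ((cfg N R).card : ℝ) * ∑ g ∈ cfg N R, f (xg q N g) ^ 2 -
      (∑ g ∈ cfg N R, f (xg q N g)) ^ 2 ≤ (cfg N R).card * (1 / 2 * (θ N * (2 *
        (∑ g ∈ cfg N R, E g) +
        (cfg N R).card * err N + C * ∑ g ∈ cfg N R, (adj g : ℝ)))) := by
    refine hlat.trans ?_
    apply mul_le_mul_of_nonneg_left _ (Nat.cast_nonneg _)
    exact mul_le_mul_of_nonneg_left hsum (by norm_num)
  have hcard1 : (∑ _g ∈ cfg N R, (1 : ℝ)) = (cfg N R).card := by simp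
  show (∑ _g ∈ cfg N R, (1 : ℝ)) / (N : ℝ) ^ n * ((∑ g ∈ cfg N R, f (xg q N g) ^ 2) / (N : ℝ) ^ n) -
      ((∑ g ∈ cfg N R, f (xg q N g)) / (N : ℝ) ^ n) ^ 2 ≤
    (∑ _g ∈ cfg N R, (1 : ℝ)) / (N : ℝ) ^ n * (1 / 2 * (θ N * (2 *
      ((∑ g ∈ cfg N R, E g) / (N : ℝ) ^ n) +
      err N * ((∑ _g ∈ cfg N R, (1 : ℝ)) / (N : ℝ) ^ n) +
        C * ((∑ g ∈ cfg N R, (adj g : ℝ)) / (N : ℝ) ^ n))))
  rw [hcard1]
  have hl : ((cfg N R).card : ℝ) / (N : ℝ) ^ n * ((∑ g ∈ cfg N R, f (xg q N g) ^ 2) / (N : ℝ) ^ n) -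
      ((∑ g ∈ cfg N R, f (xg q N g)) / (N : ℝ) ^ n) ^ 2 =
      (((cfg N R).card : ℝ) * ∑ g ∈ cfg N R, f (xg q N g) ^ 2 -
      (∑ g ∈ cfg N R, f (xg q N g)) ^ 2) / ((N : ℝ) ^ n) ^ 2 := by
    field_simp
  have hr : ((cfg N R).card : ℝ) / (N : ℝ) ^ n * (1 / 2 * (θ N * (2 *
      ((∑ g ∈ cfg N R, E g) / (N : ℝ) ^ n) +
      err N * (((cfg N R).card : ℝ) / (N : ℝ) ^ n) +
        C * ((∑ g ∈ cfg N R, (adj g : ℝ)) / (N : ℝ) ^ n)))) =
      ((cfg N R).card * (1 / 2 * (θ N * (2 * (∑ g ∈ cfg N R, E g) +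
        (cfg N R).card * err N + C * ∑ g ∈ cfg N R, (adj g : ℝ))))) / ((N : ℝ) ^ n) ^ 2 := by
    field_simp
  rw [hl, hr]
  exact div_le_div_of_nonneg_right hfin (by positivity)

end Pool.Agent.T2h95.OC
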