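import Pool.Agent.T2h95.OC.Stm

/-!
# The inequality on the cone (task MAIN of project OC)
-/

set_option autoImplicit false

namespace Pool.Agent.T2h95.OC

open MeasureTheory Set Filter Topology
open scoped ENNReal
open Pool.Agent.R972.OP (mv cfg QQ OPp lp adj pd WC S_LAT S_RS S_ADJ S_UPC S_SYM)

theorem t_MAIN (hQFE : S_QFE) (hEPS : S_EPS) (hEXH : S_EXH) : S_MAIN := by
  intro ν _ _ τ hτ hτ0 hW n R f hf i1 i2 i3
  have hε0 : ∀ m : ℕ, 0 < 1 / ((m : ℝ) + 3) := fun m => by positivity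
  have hε1 : ∀ m : ℕ, 1 / ((m : ℝ) + 3) < 1 / 2 := fun m => by
    refine one_div_lt_one_div_of_lt (by norm_num) ?_
    have : (0 : ℝ) ≤ m := m.cast_nonneg
    linarith
  choose q hq using fun m : ℕ => hQFE ν τ hW (1 / ((m : ℝ) + 3)) (hε0 m) (hε1 m)
  have hin := fun m : ℕ => hEPS ν τ hτ hτ0 hW (1 / ((m : ℝ) + 3)) (q m) (hε0 m) (hε1 m) (hq m) n R f hf
  have t1 := hEXH ν q hq n R f i1
  have t2 := hEXH ν q hq n R (fun x => f x ^ 2) i2
  have t3 := hEXH ν q hq n R (fun x => ∑ a, τ (x a) * pd f a x ^ 2) i3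
  have t0 := hEXH ν q hq n R (fun _ => 1) (integrable_const _).integrableOn
  simp only [setIntegral_const, smul_eq_mul, mul_one, Measure.real] at t0
  exact le_of_tendsto_of_tendsto' ((t0.mul t2).sub (t1.pow 2)) (t0.mul t3) hin

end Pool.Agent.T2h95.OC
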