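import Pool.Agent.T2h95.OC.Stm

set_option autoImplicit false

namespace Pool.Agent.T2h95.OC

open MeasureTheory Set Filter Topology

theorem med_int {ρ : ℝ → ℝ} (h : LCD ρ) : Integrable ρ := by
  refine ⟨h.meas.aestronglyMeasurable, ?_⟩
  rw [hasFiniteIntegral_iff_ofReal (ae_of_all _ h.nonneg), h.one]
  exact ENNReal.one_lt_top

theorem med_one {ρ : ℝ → ℝ} (h : LCD ρ) : ∫ x, ρ x = 1 := by
  rw [integral_eq_lintegral_of_nonneg_ae (ae_of_all _ h.nonneg) h.meas.aestronglyMeasurable, h.one]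
  simp

theorem t_MED : S_MED := by
  intro ρ h
  have hint := med_int h
  have hone := med_one h
  have hF : ∀ x : ℝ, ∫ y in Iic x, ρ y = (∫ y in Iic (0 : ℝ), ρ y) + ∫ y in (0 : ℝ)..x, ρ y := by
    intro x
    have := intervalIntegral.integral_Iic_sub_Iic (f := ρ) (μ := volume) (a := 0) (b := x)
      hint.integrableOn hint.integrableOn
    linarith
  have hcont : Continuous fun x : ℝ => ∫ y in (0 : ℝ)..x, ρ y :=
    intervalIntegral.continuous_primitive (fun a b => hint.intervalIntegrable) 0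
  have hsplit : ∀ x : ℝ, (∫ y in Iic x, ρ y) + ∫ y in Ioi x, ρ y = 1 := by
    intro x
    rw [← hone, ← integral_add_compl (measurableSet_Iic (a := x)) hint, compl_Iic]
  have hsum := hsplit 0
  -- limits
  have hlim1 : Tendsto (fun x : ℝ => ∫ y in (0 : ℝ)..x, ρ y) atTop (𝓝 (∫ y in Ioi (0 : ℝ), ρ y)) :=
    intervalIntegral_tendsto_integral_Ioi 0 hint.integrableOn tendsto_id
  have hlim2 : Tendsto (fun x : ℝ => ∫ y in x..(0 : ℝ), ρ y) atBot (𝓝 (∫ y in Iic (0 : ℝ), ρ y)) :=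
    intervalIntegral_tendsto_integral_Iic 0 hint.integrableOn tendsto_id
  set R : ℝ := ∫ y in Ioi (0 : ℝ), ρ y with hR
  set L : ℝ := ∫ y in Iic (0 : ℝ), ρ y with hL
  obtain ⟨b, hb⟩ : ∃ b : ℝ, R - 1 / 2 ≤ ∫ y in (0 : ℝ)..b, ρ y := by
    have := hlim1.eventually (eventually_ge_nhds (show R - 1 / 2 < R by linarith))
    exact this.exists
  obtain ⟨a, ha⟩ : ∃ a : ℝ, ∫ y in (0 : ℝ)..a, ρ y ≤ R - 1 / 2 := by
    have := hlim2.eventually (eventually_ge_nhds (show L - 1 / 2 < L by linarith))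
    obtain ⟨a, ha⟩ := this.exists
    refine ⟨a, ?_⟩
    rw [intervalIntegral.integral_symm]
    linarith
  obtain ⟨m, hm⟩ := mem_range_of_exists_le_of_exists_ge hcont ⟨a, ha⟩ ⟨b, hb⟩
  simp only at hm
  have h1 : ∫ y in Iic m, ρ y = 1 / 2 := by rw [hF m, hm]; linarith
  have h2 : ∫ y in Ioi m, ρ y = 1 / 2 := by have := hsplit m; linarith
  have h3 : ∫ y in Iio m, ρ y = 1 / 2 := by rw [← integral_Iic_eq_integral_Iio, h1]
  refine ⟨m, ?_, h2, h3⟩
  by_contra hneg
  have h0 : ρ m = 0 := le_antisymm (not_lt.1 hneg) (h.nonneg m)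
  obtain ⟨y, hy, hy0⟩ : ∃ y, m < y ∧ 0 < ρ y := by
    by_contra hcon
    push Not at hcon
    have : ∫ y in Ioi m, ρ y = 0 := by
      refine setIntegral_eq_zero_of_forall_eq_zero ?_
      intro y hy
      exact le_antisymm (hcon y hy) (h.nonneg y)
    rw [this] at h2
    norm_num at h2
  obtain ⟨x, hx, hx0⟩ : ∃ x, x < m ∧ 0 < ρ x := by
    by_contra hcon
    push Not at hcon
    have : ∫ y in Iio m, ρ y = 0 := by
      refine setIntegral_eq_zero_of_forall_eq_zero ?_
      intro y hy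
      exact le_antisymm (hcon y hy) (h.nonneg y)
    rw [this] at h3
    norm_num at h3
  have hyx : 0 < y - x := by linarith
  have htm : (m - x) / (y - x) * (y - x) = m - x := div_mul_cancel₀ _ hyx.ne'
  have l1 := h.logc x y ((m - x) / (y - x)) (div_pos (by linarith) hyx)
    (by rw [div_lt_one hyx]; linarith)
  have e1 : (1 - (m - x) / (y - x)) * x + (m - x) / (y - x) * y = m := by linarith
  rw [e1, h0] at l1
  have : 0 < ρ x ^ (1 - (m - x) / (y - x)) * ρ y ^ ((m - x) / (y - x)) := by positivity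
  linarith

end Pool.Agent.T2h95.OC
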