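import Pool.Agent.T2h95.OC.Stm

set_option autoImplicit false

namespace Pool.Agent.T2h95.OC

open MeasureTheory Set Filter Topology

theorem LCD.integrable' {ρ : ℝ → ℝ} (h : LCD ρ) : Integrable ρ := by
  refine ⟨h.meas.aestronglyMeasurable, ?_⟩
  rw [hasFiniteIntegral_iff_ofReal (ae_of_all _ h.nonneg), h.one]
  exact ENNReal.one_lt_top

theorem LCD.integral_one {ρ : ℝ → ℝ} (h : LCD ρ) : ∫ x, ρ x = 1 := by
  rw [integral_eq_lintegral_of_nonneg_ae (ae_of_all _ h.nonneg) h.meas.aestronglyMeasurable, h.one]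
  simp

/-- four points -/
theorem LCD.four {ρ : ℝ → ℝ} (h : LCD ρ) {a b x y : ℝ} (hax : a ≤ x) (hxb : x ≤ b)
    (hs : x + y = a + b) : ρ a * ρ b ≤ ρ x * ρ y := by
  rcases eq_or_lt_of_le hax with h1 | h1
  · have : y = b := by linarith
    rw [this, h1]
  rcases eq_or_lt_of_le hxb with h2 | h2
  · have : y = a := by linarith
    rw [this, h2, mul_comm]
  have hab : 0 < b - a := by linarith
  set t : ℝ := (x - a) / (b - a) with ht
  have ht0 : 0 < t := div_pos (by linarith) hab
  have ht1 : t < 1 := by rw [ht, div_lt_one hab]; linarith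
  have htm : t * (b - a) = x - a := div_mul_cancel₀ _ hab.ne'
  have e1 : (1 - t) * a + t * b = x := by linarith
  have e2 : (1 - (1 - t)) * a + (1 - t) * b = y := by linarith
  have l1 := h.logc a b t ht0 ht1
  have l2 := h.logc a b (1 - t) (by linarith) (by linarith)
  rw [e1] at l1
  rw [e2] at l2
  have ha := h.nonneg a
  have hb := h.nonneg b
  have l3 := mul_le_mul l1 l2 (by positivity) (h.nonneg x)
  refine le_trans (le_of_eq ?_) l3
  have q1 : ρ a ^ (1 - t) * ρ a ^ (1 - (1 - t)) = ρ a := by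
    rw [← Real.rpow_add_of_nonneg ha (by linarith) (by linarith)]
    have : (1 - t) + (1 - (1 - t)) = 1 := by ring
    rw [this, Real.rpow_one]
  have q2 : ρ b ^ t * ρ b ^ (1 - t) = ρ b := by
    rw [← Real.rpow_add_of_nonneg hb (by linarith) (by linarith)]
    have : t + (1 - t) = 1 := by ring
    rw [this, Real.rpow_one]
  calc ρ a * ρ b = (ρ a ^ (1 - t) * ρ a ^ (1 - (1 - t))) * (ρ b ^ t * ρ b ^ (1 - t)) := by rw [q1, q2]
    _ = _ := by ring

theorem shift_Ioi (ρ : ℝ → ℝ) (x m : ℝ) :
    ∫ y in Ioi x, ρ (y - (x - m)) = ∫ y in Ioi m, ρ y := by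
  rw [← integral_indicator measurableSet_Ioi, ← integral_indicator measurableSet_Ioi]
  rw [← integral_sub_right_eq_self (fun y => (Ioi m).indicator (fun y => ρ y) y) (x - m)]
  refine integral_congr_ae (ae_of_all _ fun y => ?_)
  simp only [Set.indicator_apply, Set.mem_Ioi]
  by_cases hy : x < y
  · rw [if_pos hy, if_pos (by linarith)]
  · rw [if_neg hy, if_neg (by linarith)]

theorem shift_Iio (ρ : ℝ → ℝ) (x m : ℝ) :
    ∫ y in Iio x, ρ (y - (x - m)) = ∫ y in Iio m, ρ y := by
  rw [← integral_indicator measurableSet_Iio, ← integral_indicator measurableSet_Iio]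
  rw [← integral_sub_right_eq_self (fun y => (Iio m).indicator (fun y => ρ y) y) (x - m)]
  refine integral_congr_ae (ae_of_all _ fun y => ?_)
  simp only [Set.indicator_apply, Set.mem_Iio]
  by_cases hy : y < x
  · rw [if_pos hy, if_pos (by linarith)]
  · rw [if_neg hy, if_neg (by linarith)]

theorem t_MIL : S_MIL := by
  intro ρ m h hm hR hL
  have hint := h.integrable'
  have hfin : ∀ x I : ℝ, ρ m * I ≤ ρ x * (1 / 2) → I ≤ 1 / (2 * ρ m) * ρ x := by
    intro x I hI
    have : 1 / (2 * ρ m) * ρ x = (ρ x * (1 / 2)) / ρ m := by field_simp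
    rw [this, le_div_iff₀ hm, mul_comm]
    exact hI
  constructor
  · intro x hx
    apply hfin
    rw [← hR, ← integral_const_mul, ← shift_Ioi ρ x m, ← integral_const_mul]
    refine setIntegral_mono_on (hint.integrableOn.const_mul _)
      ((hint.comp_sub_right (x - m)).integrableOn.const_mul _) measurableSet_Ioi ?_
    intro y hy
    rw [Set.mem_Ioi] at hy
    exact h.four hx hy.le (by ring)
  · intro x hx
    apply hfin
    rw [← hL, ← integral_const_mul, ← shift_Iio ρ x m, ← integral_const_mul]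
    refine setIntegral_mono_on (hint.integrableOn.const_mul _)
      ((hint.comp_sub_right (x - m)).integrableOn.const_mul _) measurableSet_Iio ?_
    intro y hy
    rw [Set.mem_Iio] at hy
    rw [mul_comm (ρ m)]
    exact h.four hy.le hx (by ring)

end Pool.Agent.T2h95.OC
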