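import Pool.Agent.T2h95.OC.Stm

set_option autoImplicit false

namespace Pool.Agent.T2h95.OC

open MeasureTheory Set Filter Topology

theorem mm_int {ρ : ℝ → ℝ} (h : LCD ρ) : Integrable ρ := by
  refine ⟨h.meas.aestronglyMeasurable, ?_⟩
  rw [hasFiniteIntegral_iff_ofReal (ae_of_all _ h.nonneg), h.one]
  exact ENNReal.one_lt_top

/-- exponential decay to the right -/
theorem mm_decay {ρ : ℝ → ℝ} (h : LCD ρ) {m : ℝ} (hm : 0 < ρ m) :
    ∃ y c : ℝ, m < y ∧ 0 < c ∧ ∀ x, y < x → ρ x ≤ ρ m * Real.exp (-(c * (x - m))) := by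
  obtain ⟨y, hy, hlt⟩ : ∃ y, m < y ∧ ρ y < ρ m := by
    by_contra hcon
    push Not at hcon
    have h1 : IntegrableOn (fun _ : ℝ => ρ m) (Ioi m) := by
      refine Integrable.mono' (mm_int h).integrableOn aestronglyMeasurable_const ?_
      rw [ae_restrict_iff' measurableSet_Ioi]
      refine ae_of_all _ fun y hy => ?_
      rw [Real.norm_of_nonneg hm.le]
      exact hcon y hy
    rw [integrableOn_const_iff] at h1
    rcases h1 with h1 | h1
    · exact hm.ne' (by simpa using h1)
    · rw [Real.volume_Ioi] at h1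
      exact lt_irrefl _ h1
  set A : ℝ := max (ρ y / ρ m) (1 / 2) with hA
  have hA0 : 0 < A := lt_of_lt_of_le (by norm_num) (le_max_right _ _)
  have hA1 : A < 1 := max_lt ((div_lt_one hm).2 hlt) (by norm_num)
  have hlogA : Real.log A < 0 := Real.log_neg hA0 hA1
  have hym : 0 < y - m := by linarith
  refine ⟨y, -Real.log A / (y - m), hy, div_pos (by linarith) hym, ?_⟩
  intro x hx
  have hxm : 0 < x - m := by linarith
  set t : ℝ := (y - m) / (x - m) with ht
  have ht0 : 0 < t := div_pos hym hxm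
  have ht1 : t < 1 := by rw [ht, div_lt_one hxm]; linarith
  have htm : t * (x - m) = y - m := div_mul_cancel₀ _ hxm.ne'
  have l1 := h.logc m x t ht0 ht1
  have e1 : (1 - t) * m + t * x = y := by linarith
  rw [e1] at l1
  have hx0 := h.nonneg x
  have l2 : ρ y ≤ A * ρ m := by
    have : ρ y / ρ m ≤ A := le_max_left _ _
    rwa [div_le_iff₀ hm] at this
  have l3 : ρ m ^ (1 - t) * ρ x ^ t ≤ A * (ρ m ^ (1 - t) * ρ m ^ t) := by
    refine (l1.trans l2).trans (le_of_eq ?_)
    rw [← Real.rpow_add hm]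
    have : 1 - t + t = 1 := by ring
    rw [this, Real.rpow_one]
  have hmt : 0 < ρ m ^ (1 - t) := by positivity
  have l4 : ρ x ^ t ≤ A * ρ m ^ t := by
    have : ρ m ^ (1 - t) * ρ x ^ t ≤ ρ m ^ (1 - t) * (A * ρ m ^ t) := by
      refine l3.trans (le_of_eq ?_); ring
    exact le_of_mul_le_mul_left this hmt
  have l5 : (ρ x ^ t) ^ (1 / t) ≤ (A * ρ m ^ t) ^ (1 / t) :=
    Real.rpow_le_rpow (by positivity) l4 (by positivity)
  have htt : t * (1 / t) = 1 := by field_simp
  rw [← Real.rpow_mul hx0, htt, Real.rpow_one, Real.mul_rpow hA0.le (by positivity),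
    ← Real.rpow_mul hm.le, htt, Real.rpow_one] at l5
  refine l5.trans (le_of_eq ?_)
  rw [mul_comm, Real.rpow_def_of_pos hA0]
  congr 2
  have : 1 / t = (x - m) / (y - m) := by rw [ht]; field_simp
  rw [this]
  field_simp

theorem mm_right {ρ : ℝ → ℝ} (h : LCD ρ) {m : ℝ} (hm : 0 < ρ m) :
    IntegrableOn (fun x => x ^ 2 * ρ x) (Ioi 0) := by
  obtain ⟨y, c, hy, hc, hdec⟩ := mm_decay h hm
  have hint := mm_int h
  set Y : ℝ := max y 0 with hY
  have hY0 : 0 ≤ Y := le_max_right _ _
  have hyY : y ≤ Y := le_max_left _ _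
  have hmeas : AEStronglyMeasurable (fun x : ℝ => x ^ 2 * ρ x) volume :=
    ((measurable_id.pow_const 2).mul h.meas).aestronglyMeasurable
  have h1 : IntegrableOn (fun x => x ^ 2 * ρ x) (Ioc 0 Y) := by
    refine Integrable.mono' ((hint.const_mul (Y ^ 2)).integrableOn) hmeas.restrict ?_
    rw [ae_restrict_iff' measurableSet_Ioc]
    refine ae_of_all _ fun x hx => ?_
    rw [Real.norm_of_nonneg (mul_nonneg (sq_nonneg _) (h.nonneg x))]
    refine mul_le_mul_of_nonneg_right ?_ (h.nonneg x)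
    exact pow_le_pow_left₀ hx.1.le hx.2 2
  have h2 : IntegrableOn (fun x => x ^ 2 * ρ x) (Ioi Y) := by
    have hexp := (exp_neg_integrableOn_Ioi Y (b := c / 2) (by positivity)).const_mul
      (8 / c ^ 2 * (ρ m * Real.exp (c * m)))
    refine Integrable.mono' hexp hmeas.restrict ?_
    rw [ae_restrict_iff' measurableSet_Ioi]
    refine ae_of_all _ fun x hx => ?_
    rw [Set.mem_Ioi] at hx
    have hx0 : 0 ≤ x := by linarith
    rw [Real.norm_of_nonneg (mul_nonneg (sq_nonneg _) (h.nonneg x))]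
    have q1 : x ^ 2 ≤ 8 / c ^ 2 * Real.exp (c / 2 * x) := by
      have h3 : (c / 2 * x) ^ 2 / 2 ≤ Real.exp (c / 2 * x) := by
        have := Real.quadratic_le_exp_of_nonneg (x := c / 2 * x) (by positivity)
        have h4 : 0 ≤ c / 2 * x := by positivity
        linarith
      have h5 : x ^ 2 = 8 / c ^ 2 * ((c / 2 * x) ^ 2 / 2) := by field_simp; ring
      rw [h5]
      exact mul_le_mul_of_nonneg_left h3 (by positivity)
    have q2 := hdec x (by linarith)
    calc x ^ 2 * ρ x ≤ (8 / c ^ 2 * Real.exp (c / 2 * x)) * (ρ m * Real.exp (-(c * (x - m)))) :=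
          mul_le_mul q1 q2 (h.nonneg x) (by positivity)
      _ = 8 / c ^ 2 * (ρ m * (Real.exp (c / 2 * x) * Real.exp (-(c * (x - m))))) := by ring
      _ = 8 / c ^ 2 * (ρ m * (Real.exp (c * m) * Real.exp (-(c / 2) * x))) := by
          rw [← Real.exp_add, ← Real.exp_add]
          congr 3; ring
      _ = _ := by ring
  have := h1.union h2
  rwa [Ioc_union_Ioi_eq_Ioi hY0] at this

theorem mm_neg {ρ : ℝ → ℝ} (h : LCD ρ) : LCD fun x => ρ (-x) := by
  refine ⟨fun x => h.nonneg _, h.meas.comp measurable_neg, ?_, ?_⟩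
  · intro x y t ht0 ht1
    have := h.logc (-x) (-y) t ht0 ht1
    have e : (1 - t) * -x + t * -y = -((1 - t) * x + t * y) := by ring
    rwa [e] at this
  · rw [← h.one]
    exact lintegral_neg_eq_self (μ := volume) (f := fun x => ENNReal.ofReal (ρ x))

theorem t_MM2 : S_MM2 := by
  intro ρ h ⟨m, hm⟩
  have hR := mm_right h hm
  have hL' := mm_right (ρ := fun x => ρ (-x)) (mm_neg h) (m := -m) (by simpa using hm)
  have hL : IntegrableOn (fun x => x ^ 2 * ρ x) (Iio 0) := by
    rw [← integrable_indicator_iff measurableSet_Ioi] at hL'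
    rw [← integrable_indicator_iff measurableSet_Iio]
    refine (hL'.comp_neg).congr (ae_of_all _ fun x => ?_)
    simp only [Set.indicator_apply, Set.mem_Ioi, Set.mem_Iio, neg_neg, neg_sq]
    by_cases hx : x < 0
    · rw [if_pos hx, if_pos (by linarith)]
    · rw [if_neg hx, if_neg (by linarith)]
  have hL2 : IntegrableOn (fun x => x ^ 2 * ρ x) (Iic 0) := by
    rw [integrableOn_Iic_iff_integrableOn_Iio]
    exact hL
  have hall : Integrable (fun x => x ^ 2 * ρ x) := by
    have := hL2.union hR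
    rwa [Iic_union_Ioi, integrableOn_univ] at this
  refine (memLp_two_iff_integrable_sq (f := fun x : ℝ => x) measurable_id.aestronglyMeasurable).2 ?_
  rw [law, integrable_withDensity_iff h.meas.ennreal_ofReal (ae_of_all _ fun x => ENNReal.ofReal_lt_top)]
  refine hall.congr (ae_of_all _ fun x => ?_)
  simp only [ENNReal.toReal_ofReal (h.nonneg x)]

end Pool.Agent.T2h95.OC
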