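import Pool.Agent.T2h95.OC.Stm

/-!
# Project OC, task MOD: moduli of continuity
-/

set_option autoImplicit false

namespace Pool.Agent.T2h95.OC

open MeasureTheory Set Filter Topology

theorem t_MOD : S_MOD := by
  intro φ hφ
  have huc : UniformContinuousOn φ (Icc 0 1) :=
    isCompact_Icc.uniformContinuousOn_of_continuous hφ.continuousOn
  obtain ⟨B, hB⟩ := isCompact_Icc.exists_bound_of_continuousOn (hφ.continuousOn (s := Icc (0 : ℝ) 1))
  have hB' : ∀ u ∈ Icc (0 : ℝ) 1, |φ u| ≤ B := fun u hu => by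
    have := hB u hu
    rwa [Real.norm_eq_abs] at this
  set S : ℕ → Set ℝ := fun N => {z | ∃ u ∈ Icc (0 : ℝ) 1, ∃ v ∈ Icc (0 : ℝ) 1,
    |u - v| ≤ 1 / (N : ℝ) ∧ z = |φ u - φ v|} with hS
  have h0 : ∀ N, (0 : ℝ) ∈ S N := fun N => ⟨0, by simp, 0, by simp, by simp, by simp⟩
  have hbdd : ∀ N, BddAbove (S N) := by
    intro N
    refine ⟨2 * B, ?_⟩
    rintro z ⟨u, hu, v, hv, -, rfl⟩
    have h1 := hB' u hu
    have h2 := hB' v hv
    have h3 := abs_sub (φ u) (φ v)
    linarith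
  have hnn : ∀ N, 0 ≤ sSup (S N) := fun N => le_csSup (hbdd N) (h0 N)
  refine ⟨fun N => 1 / ((N : ℝ) + 1) + sSup (S N), fun N => ?_, ?_, ?_⟩
  · have h1 : (0 : ℝ) < 1 / ((N : ℝ) + 1) := by positivity
    have h2 := hnn N
    show 0 < 1 / ((N : ℝ) + 1) + sSup (S N)
    linarith
  · have ht : Tendsto (fun N => sSup (S N)) atTop (𝓝 0) := by
      rw [Metric.tendsto_atTop]
      intro ε hε
      rw [Metric.uniformContinuousOn_iff] at huc
      obtain ⟨η, hη, h⟩ := huc (ε / 2) (by positivity)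
      obtain ⟨N0, hN0⟩ := exists_nat_gt (1 / η)
      refine ⟨N0, fun N hN => ?_⟩
      rw [Real.dist_eq, sub_zero, abs_of_nonneg (hnn N)]
      have hNη : 1 / (N : ℝ) < η := by
        have h1 : 1 / η < N := hN0.trans_le (by exact_mod_cast hN)
        have h2 : (0 : ℝ) < N := lt_trans (by positivity) h1
        rw [div_lt_iff₀ h2]
        rw [div_lt_iff₀ hη] at h1
        linarith
      have h3 : sSup (S N) ≤ ε / 2 := by
        refine csSup_le ⟨0, h0 N⟩ ?_
        rintro z ⟨u, hu, v, hv, huv, rfl⟩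
        have h4 := h u hu v hv (by
          rw [Real.dist_eq]
          exact huv.trans_lt hNη)
        rw [Real.dist_eq] at h4
        exact h4.le
      linarith
    have h1 := tendsto_one_div_add_atTop_nhds_zero_nat (𝕜 := ℝ)
    have h2 := h1.add ht
    simpa using h2
  · intro N hN u hu v hv huv
    have h1 : |φ u - φ v| ≤ sSup (S N) := le_csSup (hbdd N) ⟨u, hu, v, hv, huv, rfl⟩
    have h2 : (0 : ℝ) < 1 / ((N : ℝ) + 1) := by positivity
    show |φ u - φ v| ≤ 1 / ((N : ℝ) + 1) + sSup (S N)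
    linarith

end Pool.Agent.T2h95.OC
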