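import Pool.Agent.T2h95.OC.Stm

set_option autoImplicit false

namespace Pool.Agent.T2h95.OC

open MeasureTheory Set Filter Topology
open scoped ENNReal

theorem t_NRM : S_NRM := by
  intro n L
  set v : Eu n := (InnerProductSpace.toDual ℝ (Eu n)).symm L with hv
  have h1 : ‖v‖ = ‖L‖ := LinearIsometryEquiv.norm_map _ _
  rw [← h1, EuclideanSpace.real_norm_sq_eq]
  refine Finset.sum_congr rfl fun a _ => ?_
  have h2 : L (EuclideanSpace.single a 1) = v a := by
    have h3 : inner ℝ v (EuclideanSpace.single a (1 : ℝ)) = L (EuclideanSpace.single a 1) := by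
      rw [hv, InnerProductSpace.toDual_symm_apply]
    rw [← h3, EuclideanSpace.inner_single_right]
    simp
  rw [h2]

end Pool.Agent.T2h95.OC
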