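import Pool.Agent.T2h95.OC.Stm

set_option autoImplicit false

namespace Pool.Agent.T2h95.OC

open MeasureTheory Set Filter Topology
open scoped ENNReal

theorem t_OCI : S_OCI := by
  intro n ν _ R hne
  have hpre : (MeasurableEquiv.toLp 2 (Fin n → ℝ)) ⁻¹' {x : Eu n | ∀ i j, R i j → x i ≤ x j} = CR R := rfl
  have hmeas : (Measure.map (WithLp.toLp 2) (pw n ν) : Measure (Eu n)) {x : Eu n | ∀ i j, R i j → x i ≤ x j} =
      pw n ν (CR R) := by
    rw [← hpre, ← MeasurableEquiv.coe_toLp, MeasurableEquiv.map_apply]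
  have hprob : IsProbabilityMeasure (Measure.map (WithLp.toLp 2) (pw n ν) : Measure (Eu n)) := by
    rw [← MeasurableEquiv.coe_toLp]
    exact Measure.isProbabilityMeasure_map (MeasurableEquiv.measurable _).aemeasurable
  have hne' : (Measure.map (WithLp.toLp 2) (pw n ν) : Measure (Eu n)) {x : Eu n | ∀ i j, R i j → x i ≤ x j} ≠ 0 := by
    rw [hmeas]; exact hne
  refine ⟨ProbabilityTheory.cond_isProbabilityMeasure hne', fun G => ⟨?_, ?_⟩⟩
  · unfold oc ProbabilityTheory.cond
    rw [integrable_smul_measure (ENNReal.inv_ne_zero.mpr (by rw [hmeas]; exact measure_ne_top _ _))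
      (ENNReal.inv_ne_top.mpr hne'), ← MeasurableEquiv.coe_toLp]
    exact (MeasurableEquiv.measurableEmbedding _).integrableOn_map_iff
  · unfold oc ProbabilityTheory.cond
    rw [integral_smul_measure, hmeas, ENNReal.toReal_inv, smul_eq_mul, ← MeasurableEquiv.coe_toLp,
      setIntegral_map_equiv, hpre]

end Pool.Agent.T2h95.OC
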