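import Pool.Agent.T2h95.OC.Stm

/-!
Task POS of project OC (helper33).
-/

set_option autoImplicit false

namespace Pool.Agent.T2h95.OC

open MeasureTheory Set Filter Topology

namespace POSaux

/-- the chamber of a permutation -/
def K {n : ℕ} (σ : Equiv.Perm (Fin n)) : Set (Fin n → ℝ) := {x | Monotone (x ∘ σ)}

lemma K_meas {n : ℕ} (ν : Measure ℝ) [IsProbabilityMeasure ν] (σ : Equiv.Perm (Fin n)) :
    pw n ν (K σ) = pw n ν (K 1) := by
  have hmp := measurePreserving_piCongrLeft (fun _ : Fin n => ν) σ.symm
  have h1 : (MeasurableEquiv.piCongrLeft (fun _ : Fin n => ℝ) σ.symm) ⁻¹' (K 1) = K σ := by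
    ext x
    have h2 : MeasurableEquiv.piCongrLeft (fun _ : Fin n => ℝ) σ.symm x = x ∘ σ := by
      funext i
      have := Equiv.piCongrLeft_apply_apply (fun _ : Fin n => ℝ) σ.symm x (σ i)
      rw [Equiv.symm_apply_apply] at this
      exact this
    rw [mem_preimage, h2]
    rfl
  rw [← h1]
  exact hmp.measure_preimage_equiv _

lemma cover {n : ℕ} : (⋃ σ : Equiv.Perm (Fin n), K σ) = univ := by
  ext x
  simp only [mem_iUnion, mem_univ, iff_true]
  exact ⟨Tuple.sort x, Tuple.monotone_sort x⟩

lemma linext_gen (α : Type) [PartialOrder α] [Fintype α] (n : ℕ) (h : Fintype.card α = n) :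
    ∃ e : Fin n ≃ α, ∀ a b : α, a ≤ b → e.symm a ≤ e.symm b := by
  letI : Fintype (LinearExtension α) := inferInstanceAs (Fintype α)
  have hc : Fintype.card (LinearExtension α) = n := h
  let e := Fintype.orderIsoFinOfCardEq (LinearExtension α) hc
  refine ⟨e.toEquiv, fun a b hab => ?_⟩
  have h1 : toLinearExtension a ≤ toLinearExtension b := toLinearExtension.monotone hab
  exact e.symm.monotone h1

/-- a copy of `Fin n` without order -/
def Cp (n : ℕ) : Type := Fin n

lemma linext {n : ℕ} (R : Fin n → Fin n → Prop) (ha : ∀ a b, R a b → R b a → a = b)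
    (ht : ∀ a b c, R a b → R b c → R a c) :
    ∃ e : Equiv.Perm (Fin n), ∀ a b, R a b → e.symm a ≤ e.symm b := by
  letI : PartialOrder (Cp n) :=
    { le := fun a b => a = b ∨ R a b
      le_refl := fun a => Or.inl rfl
      le_trans := by
        rintro a b c (rfl | h1) (rfl | h2)
        · exact Or.inl rfl
        · exact Or.inr h2
        · exact Or.inr h1
        · exact Or.inr (ht a b c h1 h2)
      le_antisymm := by
        rintro a b (rfl | h1) (h2 | h2)
        · rfl
        · rfl
        · exact h2.symm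
        · exact ha a b h1 h2 }
  letI : Fintype (Cp n) := inferInstanceAs (Fintype (Fin n))
  obtain ⟨e, he⟩ := linext_gen (Cp n) n (Fintype.card_fin n)
  exact ⟨e, fun a b hab => he a b (Or.inr hab)⟩

end POSaux

open POSaux

theorem t_POS : S_POS := by
  intro n ν _ R ha ht h0
  obtain ⟨e, he⟩ := linext R ha ht
  have h1 : K e ⊆ CR R := by
    intro x hx i j hij
    have := hx (he i j hij)
    simpa using this
  have h2 : pw n ν (K e) = 0 := measure_mono_null h1 h0
  have h3 : ∀ σ : Equiv.Perm (Fin n), pw n ν (K σ) = 0 := fun σ => by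
    rw [K_meas, ← K_meas ν e, h2]
  have h4 : pw n ν univ = 0 := by
    rw [← cover]
    exact measure_iUnion_null h3
  rw [measure_univ] at h4
  exact one_ne_zero h4

end Pool.Agent.T2h95.OC
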