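import Pool.Agent.T2h95.OC.Stm

/-!
# Project OC, task PUSH: quantile coordinates on the cone
-/

set_option autoImplicit false

namespace Pool.Agent.T2h95.OC

open MeasureTheory Set Filter Topology
open scoped ENNReal
open Pool.Agent.R972.OP (OPp)

theorem push_closed {n : ℕ} (R : Fin n → Fin n → Prop) : IsClosed (CR R) := by
  have e : CR R = ⋂ (i : Fin n) (j : Fin n) (_ : R i j), {x : Fin n → ℝ | x i ≤ x j} := by
    ext x
    simp only [CR, mem_ofPred_eq, mem_iInter]
  rw [e]
  exact isClosed_iInter fun i => isClosed_iInter fun j => isClosed_iInter fun _ =>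
    isClosed_le (continuous_apply i) (continuous_apply j)

theorem push_box {n : ℕ} (a b : ℝ) : Bx n a b = Set.pi univ fun _ => Icc a b := by
  ext x
  simp only [Bx, mem_ofPred_eq, mem_univ_pi, mem_Icc]

theorem push_smul (n : ℕ) (c : ℝ≥0∞) (hc : c ≠ ⊤) (ρ : Measure ℝ) [IsFiniteMeasure ρ] :
    Measure.pi (fun _ : Fin n => c • ρ) = c ^ n • Measure.pi fun _ : Fin n => ρ := by
  have : IsFiniteMeasure (c • ρ) := Measure.smul_finite ρ hc
  refine (Measure.pi_eq fun s hs => ?_)
  rw [Measure.smul_apply, Measure.pi_pi, smul_eq_mul]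
  simp only [Measure.smul_apply, smul_eq_mul, Finset.prod_mul_distrib, Finset.prod_const,
    Finset.card_univ, Fintype.card_fin]

theorem t_PUSH (hP : S_PUSH1) : S_PUSH := by
  intro ν _ _ ε q h0 h1 hq n R G hG
  have hε : 0 < 1 - 2 * ε := by linarith
  set c : ℝ≥0∞ := (ENNReal.ofReal (1 - 2 * ε))⁻¹ with hc
  have hct : c ≠ ⊤ := by
    rw [hc, ENNReal.inv_ne_top, Ne, ENNReal.ofReal_eq_zero, not_le]
    exact hε
  have hcr : c.toReal = (1 - 2 * ε)⁻¹ := by
    rw [hc, ENNReal.toReal_inv, ENNReal.toReal_ofReal hε.le]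
  have hpush := hP ν ε q h0 h1 hq
  have hqm : Measurable q := hq.cont.measurable
  set Q : (Fin n → ℝ) → Fin n → ℝ := fun u a => q (u a) with hQ
  have hQc : Continuous Q := continuous_pi fun a => hq.cont.comp (continuous_apply a)
  have hCR : MeasurableSet (CR R) := (push_closed R).measurableSet
  set I : Set (Fin n → ℝ) := Set.pi univ fun _ => Icc (0 : ℝ) 1 with hI
  have hIm : MeasurableSet I := MeasurableSet.univ_pi fun _ => measurableSet_Icc
  have e0 : (volume : Measure (Fin n → ℝ)).restrict I =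
      Measure.pi fun _ => (volume : Measure ℝ).restrict (Icc (0 : ℝ) 1) := by
    rw [volume_pi, hI, Measure.restrict_pi_pi]
  have e1 : Measure.map Q ((volume : Measure (Fin n → ℝ)).restrict I) =
      c ^ n • (pw n ν).restrict (Bx n (q 0) (q 1)) := by
    rw [e0, hQ, Measure.pi_map_pi (fun _ => hqm.aemeasurable), hpush, push_smul n c hct, push_box,
      Measure.restrict_pi_pi]
  -- membership
  have hmem : ∀ u, u ∈ OPp R ↔ u ∈ I ∧ Q u ∈ CR R := by
    intro u
    constructor
    · rintro ⟨h2, h3⟩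
      refine ⟨fun i _ => h2 i, fun i j hij => ?_⟩
      exact hq.mono.monotoneOn (h2 i) (h2 j) (h3 i j hij)
    · rintro ⟨h2, h3⟩
      have h2' : ∀ i, u i ∈ Icc (0 : ℝ) 1 := fun i => h2 i (mem_univ i)
      refine ⟨h2', fun i j hij => ?_⟩
      exact (hq.mono.le_iff_le (h2' i) (h2' j)).1 (h3 i j hij)
  have e2 : OPp R = Q ⁻¹' (CR R) ∩ I := by
    ext u
    rw [hmem u]
    exact and_comm
  have hpre : MeasurableSet (Q ⁻¹' CR R) := hQc.measurable hCR
  have e3 : ∫ u in OPp R, G (Q u) = ∫ u in I, (CR R).indicator G (Q u) := by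
    rw [e2, ← Measure.restrict_restrict hpre, ← integral_indicator hpre]
    rfl
  have hGm : AEStronglyMeasurable ((CR R).indicator G)
      (Measure.map Q ((volume : Measure (Fin n → ℝ)).restrict I)) :=
    (hG.stronglyMeasurable.indicator hCR).aestronglyMeasurable
  show ∫ u in OPp R, G (Q u) = _
  rw [e3, ← integral_map hQc.measurable.aemeasurable hGm, e1, integral_smul_measure,
    integral_indicator hCR, Measure.restrict_restrict hCR, ENNReal.toReal_pow, hcr, smul_eq_mul]

end Pool.Agent.T2h95.OC
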