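import Pool.Agent.T2h95.OC.Stm

/-!
# Project OC, task PUSH1: the image of the uniform law under the quantile function
-/

set_option autoImplicit false

namespace Pool.Agent.T2h95.OC

open MeasureTheory Set Filter Topology
open scoped ENNReal

theorem push1_meas {ν : Measure ℝ} [IsProbabilityMeasure ν] [NullSingletonClass ν] {ε : ℝ}
    {q : ℝ → ℝ} (h0 : 0 < ε) (h1 : ε < 1 / 2) (hq : QF ν ε q) {u : ℝ} (hu : u ∈ Icc (0 : ℝ) 1) :
    ν (Icc (q 0) (q u)) = ENNReal.ofReal ((1 - 2 * ε) * u) := by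
  have hle : q 0 ≤ q u := hq.mono.monotoneOn (by simp) hu hu.1
  have e1 : Icc (q 0) (q u) = Iic (q u) \ Iio (q 0) := by
    ext x
    constructor
    · rintro ⟨h2, h3⟩
      exact ⟨h3, not_lt.2 h2⟩
    · rintro ⟨h2, h3⟩
      exact ⟨not_lt.1 h3, h2⟩
  have e2 : Iio (q 0) ⊆ Iic (q u) := fun x hx => (le_of_lt (mem_Iio.1 hx)).trans hle
  rw [e1, measure_sdiff e2 measurableSet_Iio.nullMeasurableSet
    (measure_ne_top _ _), Iio_ae_eq_Iic.measure_eq, hq.lvl u hu, hq.lvl 0 (by simp),
    ← ENNReal.ofReal_sub _ (by linarith)]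
  congr 1
  ring

theorem t_PUSH1 : S_PUSH1 := by
  intro ν _ _ ε q h0 h1 hq
  have hmono := hq.mono.monotoneOn
  have hε : 0 < 1 - 2 * ε := by linarith
  have hqm : Measurable q := hq.cont.measurable
  have hfin : IsFiniteMeasure (Measure.map q (volume.restrict (Icc (0 : ℝ) 1))) :=
    Measure.isFiniteMeasure_map _ _
  -- the two values
  have key : ∀ (t u : ℝ), u ∈ Icc (0 : ℝ) 1 →
      (∀ v ∈ Icc (0 : ℝ) 1, q v ≤ t ↔ v ≤ u) →
      (∀ x, (x ≤ t ∧ x ∈ Icc (q 0) (q 1)) ↔ x ∈ Icc (q 0) (q u)) →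
      (Measure.map q (volume.restrict (Icc (0 : ℝ) 1))) (Iic t) =
        ((ENNReal.ofReal (1 - 2 * ε))⁻¹ • ν.restrict (Icc (q 0) (q 1))) (Iic t) := by
    intro t u hu hv hx
    rw [Measure.map_apply hqm measurableSet_Iic, Measure.restrict_apply (hqm measurableSet_Iic),
      Measure.smul_apply, Measure.restrict_apply measurableSet_Iic, smul_eq_mul]
    have e1 : q ⁻¹' Iic t ∩ Icc 0 1 = Icc 0 u := by
      ext v
      constructor
      · rintro ⟨h2, h3⟩
        exact ⟨h3.1, (hv v h3).1 h2⟩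
      · rintro ⟨h2, h3⟩
        have h4 : v ∈ Icc (0 : ℝ) 1 := ⟨h2, h3.trans hu.2⟩
        exact ⟨(hv v h4).2 h3, h4⟩
    have e2 : Iic t ∩ Icc (q 0) (q 1) = Icc (q 0) (q u) := by
      ext x
      exact hx x
    rw [e1, e2, push1_meas h0 h1 hq hu, Real.volume_Icc, sub_zero,
      ENNReal.ofReal_mul hε.le, ← mul_assoc, ENNReal.inv_mul_cancel, one_mul]
    · rw [Ne, ENNReal.ofReal_eq_zero, not_le]
      exact hε
    · exact ENNReal.ofReal_ne_top
  refine Measure.ext_of_Iic _ _ fun t => ?_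
  rcases lt_or_ge t (q 0) with ht | ht
  · rw [Measure.map_apply hqm measurableSet_Iic, Measure.restrict_apply (hqm measurableSet_Iic),
      Measure.smul_apply, Measure.restrict_apply measurableSet_Iic, smul_eq_mul]
    have e1 : q ⁻¹' Iic t ∩ Icc 0 1 = ∅ := by
      ext v
      simp only [mem_inter_iff, mem_preimage, mem_Iic, mem_empty_iff_false, iff_false, not_and]
      intro h2 h3
      have h4 := hmono (by simp) h3 h3.1
      linarith
    have e2 : Iic t ∩ Icc (q 0) (q 1) = ∅ := by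
      ext x
      simp only [mem_inter_iff, mem_Iic, mem_Icc, mem_empty_iff_false, iff_false, not_and]
      intro h2 h3
      linarith
    rw [e1, e2]
    simp
  · rcases le_or_gt t (q 1) with ht1 | ht1
    · obtain ⟨u, hu, rfl⟩ := intermediate_value_Icc (zero_le_one' ℝ) hq.cont.continuousOn
        (show t ∈ Icc (q 0) (q 1) from ⟨ht, ht1⟩)
      refine key (q u) u hu (fun v hv => hq.mono.le_iff_le hv hu) fun x => ?_
      constructor
      · rintro ⟨h2, h3⟩
        exact ⟨h3.1, h2⟩
      · rintro ⟨h2, h3⟩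
        exact ⟨h3, h2, h3.trans ht1⟩
    · refine key t 1 (by simp) (fun v hv => ?_) fun x => ?_
      · have h2 := hmono hv (by simp) hv.2
        constructor
        · intro _
          exact hv.2
        · intro _
          linarith
      · constructor
        · rintro ⟨h2, h3⟩
          exact h3
        · rintro h3
          exact ⟨h3.2.trans ht1.le, h3⟩

end Pool.Agent.T2h95.OC
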