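import Pool.Agent.T2h95.OC.Stm

/-!
# Quantile functions (task QFE of project OC)
-/

set_option autoImplicit false

namespace Pool.Agent.T2h95.OC

open MeasureTheory Set Filter Topology
open scoped ENNReal

/-- the distribution function is injective where its values are in `(0, 1)` -/
theorem qfe_key (ν : Measure ℝ) [IsProbabilityMeasure ν] [NullSingletonClass ν] (τ : ℝ → ℝ)
    (hW : WP ν τ) (a b : ℝ) (hab : a < b) (h : ν (Iic a) = ν (Iic b)) (h0 : 0 < (ν (Iic a)).toReal)
    (h1 : (ν (Iic a)).toReal < 1) : False := by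
  have hIoc : ν (Ioc a b) = 0 := by
    have hd : Ioc a b = Iic b \ Iic a := by
      ext x; simp only [mem_Ioc, Set.mem_sdiff, mem_Iic]; constructor
      · rintro ⟨p, q⟩; exact ⟨q, by linarith⟩
      · rintro ⟨p, q⟩; exact ⟨not_le.1 q, p⟩
    rw [hd, measure_sdiff (Iic_subset_Iic.2 hab.le) measurableSet_Iic.nullMeasurableSet
      (measure_ne_top _ _), h, tsub_self]
  have hIcc : ν (Icc a b) = 0 := by
    have : Icc a b = {a} ∪ Ioc a b := by
      ext x; simp only [mem_Icc, mem_union, mem_singleton_iff, mem_Ioc]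
      constructor
      · rintro ⟨p, q⟩
        rcases eq_or_lt_of_le p with e | e
        · exact Or.inl e.symm
        · exact Or.inr ⟨e, q⟩
      · rintro (e | ⟨p, q⟩)
        · exact ⟨e.ge, e ▸ hab.le⟩
        · exact ⟨p.le, q⟩
    rw [this]
    exact measure_union_null (measure_singleton a) hIoc
  set g : ℝ → ℝ := fun x => Real.smoothTransition ((x - a) / (b - a)) with hg
  have hba : 0 < b - a := sub_pos.2 hab
  have gle : ∀ x, x ≤ a → g x = 0 := fun x hx =>
    Real.smoothTransition.zero_of_nonpos (div_nonpos_of_nonpos_of_nonneg (by linarith) hba.le)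
  have gge : ∀ x, b ≤ x → g x = 1 := fun x hx =>
    Real.smoothTransition.one_of_one_le (by rw [le_div_iff₀ hba]; linarith)
  have gc : ContDiff ℝ 1 g := by
    have h1 : ContDiff ℝ 1 Real.smoothTransition := Real.smoothTransition.contDiff (n := 1)
    exact h1.comp ((contDiff_id.sub contDiff_const).div_const _)
  have gs : ∀ x, x ∉ Icc a b → deriv g x = 0 := by
    intro x hx
    rw [mem_Icc, not_and_or, not_le, not_le] at hx
    rcases hx with hx | hx
    · have : g =ᶠ[𝓝 x] fun _ => 0 := by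
        filter_upwards [Iio_mem_nhds hx] with y hy using gle y (le_of_lt hy)
      rw [this.deriv_eq]; simp
    · have : g =ᶠ[𝓝 x] fun _ => 1 := by
        filter_upwards [Ioi_mem_nhds hx] with y hy using gge y (le_of_lt hy)
      rw [this.deriv_eq]; simp
  have hcs : HasCompactSupport (deriv g) :=
    HasCompactSupport.intro (isCompact_Icc (a := a) (b := b)) gs
  have hmain := hW g gc hcs
  have hne : ∀ᵐ x ∂ν, x ∉ Icc a b := measure_eq_zero_iff_ae_notMem.1 hIcc
  have hr : ∫ x, τ x * deriv g x ^ 2 ∂ν = 0 := by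
    rw [integral_congr_ae (g := fun _ => (0 : ℝ))]
    · simp
    · filter_upwards [hne] with x hx
      rw [gs x hx]; simp
  have hge : g =ᵐ[ν] (Ioi b).indicator fun _ => (1 : ℝ) := by
    filter_upwards [hne] with x hx
    rw [mem_Icc, not_and_or, not_le, not_le] at hx
    rcases hx with hx | hx
    · rw [gle x hx.le, indicator_of_notMem]
      simp only [mem_Ioi, not_lt]; linarith
    · rw [gge x hx.le, indicator_of_mem]
      exact hx
  have hi1 : ∫ x, g x ∂ν = (ν (Ioi b)).toReal := by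
    rw [integral_congr_ae hge, integral_indicator measurableSet_Ioi]; simp [Measure.real]
  have hi2 : ∫ x, g x ^ 2 ∂ν = (ν (Ioi b)).toReal := by
    have : (fun x => g x ^ 2) =ᵐ[ν] (Ioi b).indicator fun _ => (1 : ℝ) := by
      filter_upwards [hge] with x hx
      rw [hx]
      by_cases h : x ∈ Ioi b
      · simp [indicator_of_mem h]
      · simp [indicator_of_notMem h]
    rw [integral_congr_ae this, integral_indicator measurableSet_Ioi]; simp [Measure.real]
  have hp : (ν (Ioi b)).toReal = 1 - (ν (Iic a)).toReal := by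
    have h2 : Ioi b = (Iic b)ᶜ := by simp
    rw [h2, measure_compl measurableSet_Iic (measure_ne_top _ _), measure_univ, ← h,
      ENNReal.toReal_sub_of_le prob_le_one ENNReal.one_ne_top, ENNReal.toReal_one]
  rw [hr, hi1, hi2, hp] at hmain
  nlinarith

theorem t_QFE : S_QFE := by
  intro ν _ _ τ hW ε hε hε2
  -- the distribution function
  obtain ⟨F, hF⟩ : ∃ F : StieltjesFunction ℝ, F = ProbabilityTheory.cdf ν := ⟨_, rfl⟩
  have Fval : ∀ t, F t = (ν (Iic t)).toReal := fun t => by
    rw [hF, ProbabilityTheory.cdf_eq_real]; rfl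
  have Fmono : Monotone F := F.mono
  have Fcont : Continuous F := by
    rw [continuous_iff_continuousAt]
    intro x
    rw [Fmono.continuousAt_iff_leftLim_eq_rightLim, F.rightLim_eq]
    refine le_antisymm (Fmono.leftLim_le le_rfl) ?_
    have h1 := F.measure_singleton x
    rw [hF, ProbabilityTheory.measure_cdf, measure_singleton, ← hF] at h1
    have h2 := ENNReal.ofReal_eq_zero.1 h1.symm
    linarith
  have Fbot : Tendsto F atBot (𝓝 0) := hF ▸ ProbabilityTheory.tendsto_cdf_atBot ν
  have Ftop : Tendsto F atTop (𝓝 1) := hF ▸ ProbabilityTheory.tendsto_cdf_atTop ν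
  obtain ⟨A, hA⟩ : ∃ A, F A ≤ ε := by
    exact ((Fbot.eventually (gt_mem_nhds hε)).exists).imp fun _ h => le_of_lt h
  obtain ⟨B, hB⟩ : ∃ B, 1 - ε ≤ F B := by
    exact ((Ftop.eventually (lt_mem_nhds (show 1 - ε < 1 by linarith))).exists).imp
      fun _ h => le_of_lt h
  obtain ⟨a, ha⟩ : ε ∈ range F := mem_range_of_exists_le_of_exists_ge Fcont ⟨A, hA⟩
    ⟨B, by linarith⟩
  obtain ⟨b, hb⟩ : 1 - ε ∈ range F := mem_range_of_exists_le_of_exists_ge Fcont
    ⟨A, by linarith⟩ ⟨B, hB⟩
  have hab : a ≤ b := by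
    by_contra hc
    have := Fmono (le_of_not_ge hc)
    linarith
  have Fst : StrictMonoOn F (Icc a b) := by
    intro x hx y hy hxy
    refine lt_of_le_of_ne (Fmono hxy.le) fun he => ?_
    have hx0 : ε ≤ F x := ha ▸ Fmono hx.1
    have hx1 : F x ≤ 1 - ε := hb ▸ Fmono hx.2
    rw [Fval x] at hx0 hx1
    refine qfe_key ν τ hW x y hxy ?_ (lt_of_lt_of_le hε hx0) (lt_of_le_of_lt hx1 (by linarith))
    rw [Fval, Fval] at he
    exact (ENNReal.toReal_eq_toReal_iff' (measure_ne_top _ _) (measure_ne_top _ _)).1 he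
  -- order isomorphism
  let e0 : Icc a b → Icc ε (1 - ε) := fun x => ⟨F x, ha ▸ Fmono x.2.1, hb ▸ Fmono x.2.2⟩
  have e0m : StrictMono e0 := fun x y hxy => Fst x.2 y.2 hxy
  have e0s : Function.Surjective e0 := by
    rintro ⟨y, hy⟩
    obtain ⟨x, hx, hxy⟩ := intermediate_value_Icc hab Fcont.continuousOn
      (show y ∈ Icc (F a) (F b) by rw [ha, hb]; exact hy)
    exact ⟨⟨x, hx⟩, Subtype.ext hxy⟩
  let e := StrictMono.orderIsoOfSurjective e0 e0m e0s
  have hlev : ∀ u : Icc (0 : ℝ) 1, ε + (1 - 2 * ε) * u.1 ∈ Icc ε (1 - ε) := by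
    rintro ⟨u, hu0, hu1⟩
    have h2 : 0 < 1 - 2 * ε := by linarith
    constructor
    · simp only; nlinarith
    · simp only; nlinarith
  let p : ℝ → Icc (0 : ℝ) 1 := projIcc 0 1 zero_le_one
  refine ⟨fun u => (e.symm ⟨ε + (1 - 2 * ε) * (p u).1, hlev (p u)⟩ : Icc a b).1, ?_, ?_, ?_⟩
  · refine continuous_subtype_val.comp (e.symm.continuous.comp ?_)
    refine Continuous.subtype_mk ?_ _
    exact continuous_const.add (continuous_const.mul
      (continuous_subtype_val.comp continuous_projIcc))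
  · intro x hx y hy hxy
    refine e.symm.strictMono ?_
    rw [← Subtype.coe_lt_coe]
    simp only [p, projIcc_of_mem zero_le_one hx, projIcc_of_mem zero_le_one hy]
    have h2 : 0 < 1 - 2 * ε := by linarith
    nlinarith
  · intro u hu
    have h1 : e (e.symm ⟨ε + (1 - 2 * ε) * (p u).1, hlev (p u)⟩) =
      ⟨ε + (1 - 2 * ε) * (p u).1, hlev (p u)⟩ := e.apply_symm_apply _
    have h2 := congrArg Subtype.val h1
    have h3 : F (e.symm ⟨ε + (1 - 2 * ε) * (p u).1, hlev (p u)⟩ : Icc a b).1 =
      ε + (1 - 2 * ε) * (p u).1 := h2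
    have h4 : (p u).1 = u := by simp only [p, projIcc_of_mem zero_le_one hu]
    have h5 : ν (Iic (e.symm ⟨ε + (1 - 2 * ε) * (p u).1, hlev (p u)⟩ : Icc a b).1) =
      ENNReal.ofReal (F ((e.symm ⟨ε + (1 - 2 * ε) * (p u).1, hlev (p u)⟩ : Icc a b).1)) := by
      rw [Fval, ENNReal.ofReal_toReal (measure_ne_top _ _)]
    refine h5.trans ?_
    rw [h3, h4]

end Pool.Agent.T2h95.OC
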