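import Pool.Agent.T2h95.OC.Stm

/-!
# Task DG1 (helper49): monotone minimiser of the discrete Rayleigh quotient
-/

set_option autoImplicit false

namespace Pool.Agent.T2h95.OC

namespace DG1

/-- extension by zero of a vector -/
noncomputable def ext (N : ℕ) (g : Fin N → ℝ) (k : ℕ) : ℝ := if h : k < N then g ⟨k, h⟩ else 0

theorem ext_res (N : ℕ) (h : ℕ → ℝ) (k : ℕ) (hk : k < N) : ext N (fun i => h i) k = h k := by
  simp only [ext, dif_pos hk]

theorem EN_congr (N : ℕ) (w g h : ℕ → ℝ) (H : ∀ k, k < N → g k = h k) : EN N w g = EN N w h := by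
  unfold EN
  refine Finset.sum_congr rfl fun k hk => ?_
  rw [Finset.mem_range] at hk
  rw [H k (by omega), H (k + 1) (by omega)]

theorem VN_congr (N : ℕ) (g h : ℕ → ℝ) (H : ∀ k, k < N → g k = h k) : VN N g = VN N h := by
  unfold VN
  have h1 : ∑ k ∈ Finset.range N, g k ^ 2 = ∑ k ∈ Finset.range N, h k ^ 2 :=
    Finset.sum_congr rfl fun k hk => by rw [H k (Finset.mem_range.1 hk)]
  have h2 : ∑ k ∈ Finset.range N, g k = ∑ k ∈ Finset.range N, h k :=
    Finset.sum_congr rfl fun k hk => by rw [H k (Finset.mem_range.1 hk)]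
  rw [h1, h2]

theorem EN_nonneg (N : ℕ) (w g : ℕ → ℝ) (hw : ∀ k, k + 1 < N → 0 < w k) : 0 ≤ EN N w g := by
  refine Finset.sum_nonneg fun k hk => ?_
  rw [Finset.mem_range] at hk
  exact mul_nonneg (hw k (by omega)).le (sq_nonneg _)

theorem continuous_ext (N k : ℕ) : Continuous fun g : Fin N → ℝ => ext N g k := by
  unfold ext
  by_cases h : k < N
  · simp only [dif_pos h]
    exact continuous_apply _
  · simp only [dif_neg h]
    exact continuous_const

theorem continuous_EN (N : ℕ) (w : ℕ → ℝ) : Continuous fun g : Fin N → ℝ => EN N w (ext N g) := by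
  unfold EN
  refine continuous_finsetSum _ fun k _ => ?_
  exact continuous_const.mul (((continuous_ext N (k + 1)).sub (continuous_ext N k)).pow 2)

/-- the constraint set -/
def K (N : ℕ) : Set (Fin N → ℝ) := {g | ∑ i, g i = 0 ∧ ∑ i, g i ^ 2 = 1}

theorem isCompact_K (N : ℕ) : IsCompact (K N) := by
  apply Metric.isCompact_of_isClosed_isBounded
  · apply IsClosed.inter
    · exact isClosed_eq (continuous_finsetSum _ fun i _ => continuous_apply i) continuous_const
    · exact isClosed_eq (continuous_finsetSum _ fun i _ => (continuous_apply i).pow 2)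
        continuous_const
  · apply (Metric.isBounded_closedBall (x := (0 : Fin N → ℝ)) (r := 1)).subset
    intro g hg
    rw [mem_closedBall_zero_iff, pi_norm_le_iff_of_nonneg zero_le_one]
    intro i
    rw [Real.norm_eq_abs, ← sq_le_one_iff_abs_le_one, ← hg.2]
    exact Finset.single_le_sum (f := fun i => g i ^ 2) (fun j _ => sq_nonneg _) (Finset.mem_univ i)

/-- centred vectors can be normalised -/
theorem VN_sub (N : ℕ) (hN : 0 < N) (h : ℕ → ℝ) :
    ∑ k ∈ Finset.range N, (h k - (∑ i ∈ Finset.range N, h i) / N) ^ 2 = VN N h := by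
  have hN' : (N : ℝ) ≠ 0 := by positivity
  unfold VN
  simp only [sub_sq, Finset.sum_add_distrib, Finset.sum_sub_distrib, Finset.sum_const,
    Finset.card_range, nsmul_eq_mul, ← Finset.sum_mul, ← Finset.mul_sum]
  field_simp
  ring

theorem sum_sub (N : ℕ) (hN : 0 < N) (h : ℕ → ℝ) :
    ∑ k ∈ Finset.range N, (h k - (∑ i ∈ Finset.range N, h i) / N) = 0 := by
  have hN' : (N : ℝ) ≠ 0 := by positivity
  simp only [Finset.sum_sub_distrib, Finset.sum_const, Finset.card_range, nsmul_eq_mul]
  field_simp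
  ring

theorem normalise (N : ℕ) (hN : 0 < N) (h : ℕ → ℝ) (hV : 0 < VN N h) :
    (fun i : Fin N => (h i - (∑ i ∈ Finset.range N, h i) / N) / Real.sqrt (VN N h)) ∈ K N := by
  refine ⟨?_, ?_⟩
  · rw [Fin.sum_univ_eq_sum_range
      (fun i => (h i - (∑ i ∈ Finset.range N, h i) / N) / Real.sqrt (VN N h)), ← Finset.sum_div,
      sum_sub N hN, zero_div]
  · rw [Fin.sum_univ_eq_sum_range
      (fun i => ((h i - (∑ i ∈ Finset.range N, h i) / N) / Real.sqrt (VN N h)) ^ 2)]
    simp only [div_pow]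
    rw [← Finset.sum_div, VN_sub N hN, Real.sq_sqrt hV.le, div_self hV.ne']

theorem EN_scale (N : ℕ) (w h : ℕ → ℝ) (m s : ℝ) (hs : 0 ≤ s) :
    EN N w (fun k => (h k - m) / Real.sqrt s) = EN N w h / s := by
  unfold EN
  rw [Finset.sum_div]
  refine Finset.sum_congr rfl fun k _ => ?_
  rw [← sub_div, div_pow, Real.sq_sqrt hs]
  ring

theorem VN_pairs (N : ℕ) (hN : 0 < N) (h : ℕ → ℝ) :
    VN N h = (∑ i ∈ Finset.range N, ∑ j ∈ Finset.range N, (h i - h j) ^ 2) / (2 * N) := by
  have hN' : (N : ℝ) ≠ 0 := by positivity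
  unfold VN
  simp only [sub_sq, Finset.sum_add_distrib, Finset.sum_sub_distrib, Finset.sum_const,
    Finset.card_range, nsmul_eq_mul, ← Finset.sum_mul, ← Finset.mul_sum]
  field_simp
  ring

/-- variation of `g` up to `k` -/
noncomputable def G (g : ℕ → ℝ) (k : ℕ) : ℝ := ∑ i ∈ Finset.range k, |g (i + 1) - g i|

theorem G_succ (g : ℕ → ℝ) (k : ℕ) : G g (k + 1) = G g k + |g (k + 1) - g k| :=
  Finset.sum_range_succ _ _

theorem G_diff (g : ℕ → ℝ) (i d : ℕ) : |g (i + d) - g i| ≤ G g (i + d) - G g i := by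
  induction d with
  | zero => simp
  | succ d ih =>
    rw [← add_assoc, G_succ]
    have h1 : |g (i + d + 1) - g i| ≤ |g (i + d + 1) - g (i + d)| + |g (i + d) - g i| :=
      abs_sub_le _ _ _
    linarith

theorem G_sq (g : ℕ → ℝ) (i j : ℕ) : (g i - g j) ^ 2 ≤ (G g i - G g j) ^ 2 := by
  wlog hij : j ≤ i with H
  · have := H g j i (by omega)
    nlinarith
  · obtain ⟨d, rfl⟩ := Nat.exists_eq_add_of_le hij
    rw [← sq_abs (g (j + d) - g j)]
    exact pow_le_pow_left₀ (abs_nonneg _) (G_diff g j d) 2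

theorem EN_G (N : ℕ) (w g : ℕ → ℝ) : EN N w (G g) = EN N w g := by
  unfold EN
  refine Finset.sum_congr rfl fun k _ => ?_
  rw [G_succ, add_sub_cancel_left, sq_abs]

theorem const_of_EN (N : ℕ) (w g : ℕ → ℝ) (hw : ∀ k, k + 1 < N → 0 < w k) (h : EN N w g = 0)
    (k : ℕ) (hk : k + 1 < N) : g (k + 1) = g k := by
  unfold EN at h
  rw [Finset.sum_eq_zero_iff_of_nonneg] at h
  · have h1 := h k (Finset.mem_range.2 (by omega))
    rcases mul_eq_zero.1 h1 with h2 | h2
    · exact absurd h2 (hw k hk).ne'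
    · exact sub_eq_zero.1 (pow_eq_zero_iff (by norm_num) |>.1 h2)
  · intro i hi
    rw [Finset.mem_range] at hi
    exact mul_nonneg (hw i (by omega)).le (sq_nonneg _)

theorem const_all (N : ℕ) (w g : ℕ → ℝ) (hw : ∀ k, k + 1 < N → 0 < w k) (h : EN N w g = 0)
    (k : ℕ) (hk : k < N) : g k = g 0 := by
  induction k with
  | zero => rfl
  | succ k ih => rw [const_of_EN N w g hw h k hk, ih (by omega)]

theorem VN_const (N : ℕ) (hN : 0 < N) (g : ℕ → ℝ) (h : ∀ k, k < N → g k = g 0) : VN N g = 0 := by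
  rw [VN_pairs N hN]
  have : ∑ i ∈ Finset.range N, ∑ j ∈ Finset.range N, (g i - g j) ^ 2 = 0 := by
    refine Finset.sum_eq_zero fun i hi => Finset.sum_eq_zero fun j hj => ?_
    rw [h i (Finset.mem_range.1 hi), h j (Finset.mem_range.1 hj)]
    ring
  rw [this, zero_div]

theorem nonempty_K (N : ℕ) (hN : 2 ≤ N) : (K N).Nonempty := by
  refine ⟨_, normalise N (by omega) (fun k => if k = 0 then 1 else 0) ?_⟩
  rw [VN_pairs N (by omega)]
  have hN' : (0 : ℝ) < 2 * N := by
    have : (0 : ℝ) < N := by exact_mod_cast (by omega : 0 < N)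
    linarith
  apply div_pos _ hN'
  apply Finset.sum_pos' (fun i _ => Finset.sum_nonneg fun j _ => sq_nonneg _)
  refine ⟨0, Finset.mem_range.2 (by omega), ?_⟩
  apply Finset.sum_pos' (fun j _ => sq_nonneg _)
  refine ⟨1, Finset.mem_range.2 (by omega), ?_⟩
  norm_num

end DG1

open DG1 in
theorem t_DG1 : S_DG1 := by
  intro N w hN hw
  have hN0 : 0 < N := by omega
  obtain ⟨g0, hg0, hmin⟩ := (isCompact_K N).exists_isMinOn (nonempty_K N hN)
    (continuous_EN N w).continuousOn
  set g : ℕ → ℝ := ext N g0 with hg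
  have hres : ∀ i : Fin N, g i = g0 i := by
    intro i
    simp [hg, ext]
  have hsum : ∑ k ∈ Finset.range N, g k = 0 := by
    rw [← Fin.sum_univ_eq_sum_range, ← hg0.1]
    exact Finset.sum_congr rfl fun i _ => hres i
  have hsum2 : ∑ k ∈ Finset.range N, g k ^ 2 = 1 := by
    rw [← Fin.sum_univ_eq_sum_range (fun k => g k ^ 2), ← hg0.2]
    exact Finset.sum_congr rfl fun i _ => by rw [hres i]
  have hVg : VN N g = 1 := by
    unfold VN
    rw [hsum, hsum2]
    simp
  have hlam0 : EN N w g ≠ 0 := by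
    intro h0
    have := VN_const N hN0 g (const_all N w g hw h0)
    rw [hVg] at this
    exact one_ne_zero this
  have hlam : 0 < EN N w g := lt_of_le_of_ne (EN_nonneg N w g hw) (Ne.symm hlam0)
  have hall : ∀ h : ℕ → ℝ, EN N w g * VN N h ≤ EN N w h := by
    intro h
    rcases le_or_gt (VN N h) 0 with hV | hV
    · have h1 : EN N w g * VN N h ≤ 0 := mul_nonpos_of_nonneg_of_nonpos hlam.le hV
      exact h1.trans (EN_nonneg N w h hw)
    · have h1 := hmin (normalise N hN0 h hV)
      have h2 : EN N w (ext N fun i : Fin N =>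
          (h i - (∑ i ∈ Finset.range N, h i) / N) / Real.sqrt (VN N h)) = EN N w h / VN N h := by
        rw [← EN_scale N w h ((∑ i ∈ Finset.range N, h i) / N) (VN N h) hV.le]
        apply EN_congr
        intro k hk
        exact ext_res N (fun k => (h k - (∑ i ∈ Finset.range N, h i) / N) / Real.sqrt (VN N h)) k hk
      have h3 : EN N w g ≤ EN N w h / VN N h := by
        rw [← h2]
        exact h1
      exact (le_div_iff₀ hV).1 h3
  have hVG : 1 ≤ VN N (G g) := by
    rw [← hVg, VN_pairs N hN0, VN_pairs N hN0]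
    apply div_le_div_of_nonneg_right _ (by positivity)
    exact Finset.sum_le_sum fun i _ => Finset.sum_le_sum fun j _ => G_sq g i j
  refine ⟨EN N w g, G g, hlam, ?_, ?_, ?_, hall⟩
  · intro k _
    rw [G_succ]
    linarith [abs_nonneg (g (k + 1) - g k)]
  · by_contra hne
    push Not at hne
    apply hlam0
    unfold EN
    refine Finset.sum_eq_zero fun k hk => ?_
    rw [Finset.mem_range] at hk
    have h1 := hne k (by omega)
    rw [G_succ] at h1
    have h2 : |g (k + 1) - g k| = 0 := le_antisymm (by linarith) (abs_nonneg _)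
    rw [← sq_abs, h2]
    ring
  · have h1 := hall (G g)
    rw [EN_G] at h1 ⊢
    nlinarith

end Pool.Agent.T2h95.OC
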