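import Pool.Agent.T2h95.OC.Stm

/-!
# OC-UPQ: asymptotics of the energy of a placement, in quantile coordinates
-/

set_option autoImplicit false

namespace Pool.Agent.T2h95.OC

open MeasureTheory Set Filter Topology
open Pool.Agent.R972.OP (mv cfg QQ OPp lp adj pd WC S_LAT S_RS S_ADJ S_UPC S_SYM)

/-- a single null sequence of errors -/
theorem upq_err (P : ℕ → ℝ → Prop) (hmono : ∀ N ε ε', P N ε → ε ≤ ε' → P N ε')
    (hb : ∀ N, ∃ B, 0 ≤ B ∧ P N B) (hlim : ∀ ε : ℝ, 0 < ε → ∃ N0 : ℕ, ∀ N, N0 ≤ N → P N ε) :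
    ∃ err : ℕ → ℝ, Tendsto err atTop (𝓝 0) ∧ ∀ N, 0 ≤ err N ∧ P N (err N) := by
  let S : ℕ → Set ℝ := fun N => {ε | 0 ≤ ε ∧ P N ε}
  have hSb : ∀ N, BddBelow (S N) := fun N => ⟨0, fun x hx => hx.1⟩
  have hSne : ∀ N, (S N).Nonempty := fun N => by
    obtain ⟨B, h0, hB⟩ := hb N
    exact ⟨B, h0, hB⟩
  have hS0 : ∀ N, 0 ≤ sInf (S N) := fun N => le_csInf (hSne N) fun x hx => hx.1
  refine ⟨fun N => sInf (S N) + 1 / ((N : ℝ) + 1), ?_, fun N => ⟨?_, ?_⟩⟩
  · rw [Metric.tendsto_atTop]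
    intro ε hε
    obtain ⟨N0, hN0⟩ := hlim (ε / 2) (by positivity)
    obtain ⟨N1, hN1⟩ := exists_nat_gt (2 / ε)
    refine ⟨max N0 N1, fun N hN => ?_⟩
    have h1 : sInf (S N) ≤ ε / 2 :=
      csInf_le (hSb N) ⟨by positivity, hN0 N ((le_max_left _ _).trans hN)⟩
    have h2 : (N1 : ℝ) ≤ N := by exact_mod_cast (le_max_right _ _).trans hN
    have h3 : 1 / ((N : ℝ) + 1) < ε / 2 := by
      rw [div_lt_div_iff₀ (by positivity) (by norm_num)]
      rw [div_lt_iff₀ hε] at hN1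
      nlinarith
    have h4 : 0 < 1 / ((N : ℝ) + 1) := by positivity
    rw [Real.dist_eq, sub_zero, abs_of_nonneg (by have := hS0 N; positivity)]
    linarith
  · have := hS0 N
    positivity
  · have h1 : sInf (S N) < sInf (S N) + 1 / ((N : ℝ) + 1) := by
      have : 0 < 1 / ((N : ℝ) + 1) := by positivity
      linarith
    obtain ⟨e, he, he'⟩ := exists_lt_of_csInf_lt (hSne N) h1
    exact hmono N e _ he.2 he'.le

variable {n : ℕ} {f : (Fin n → ℝ) → ℝ}

theorem upq_pd_cont (hf : ContDiff ℝ 1 f) (a : Fin n) : Continuous (pd f a) :=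
  (hf.continuous_fderiv one_ne_zero).clm_apply continuous_const

/-- mean value -/
theorem upq_mvt (hf : ContDiff ℝ 1 f) {K : Set (Fin n → ℝ)} (hK : Convex ℝ K) (a : Fin n)
    {x : Fin n → ℝ} (t : ℝ) (hx : x ∈ K) (hx' : x + t • Pi.single a (1 : ℝ) ∈ K) :
    ∃ ξ ∈ K, dist ξ x ≤ |t| ∧
      f (x + t • Pi.single a (1 : ℝ)) - f x = t * pd f a ξ := by
  set v : Fin n → ℝ := t • Pi.single a (1 : ℝ) with hv
  have hd : ∀ s : ℝ, HasDerivAt (fun s : ℝ => f (x + s • v)) (t * pd f a (x + s • v)) s := by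
    intro s
    have h1 : HasDerivAt (fun s : ℝ => x + s • v) v s := by
      have := ((hasDerivAt_id s).smul_const v).const_add x
      simpa using this
    have h2 := (hf.differentiable one_ne_zero (x + s • v)).hasFDerivAt.comp_hasDerivAt s h1
    refine h2.congr_deriv ?_
    unfold pd
    rw [hv, map_smul, smul_eq_mul]
  obtain ⟨s, hs, he⟩ := exists_hasDerivAt_eq_slope (fun s : ℝ => f (x + s • v))
    (fun s => t * pd f a (x + s • v)) (zero_lt_one (α := ℝ))
    (fun s _ => (hd s).continuousAt.continuousWithinAt) (fun s _ => hd s)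
  simp only [one_smul, zero_smul, add_zero, sub_zero, div_one] at he
  refine ⟨x + s • v, ?_, ?_, he.symm⟩
  · exact hK.add_smul_mem hx hx' ⟨hs.1.le, hs.2.le⟩
  · rw [dist_eq_norm, add_sub_cancel_left, norm_smul, hv, norm_smul, Real.norm_eq_abs,
      Real.norm_eq_abs, abs_of_pos hs.1]
    have h4 : ‖(Pi.single a (1 : ℝ) : Fin n → ℝ)‖ ≤ 1 := by
      rw [pi_norm_le_iff_of_nonneg zero_le_one]
      intro b
      by_cases hb : b = a
      · subst hb; simp
      · simp [Pi.single_eq_of_ne hb]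
    have h5 : |t| * ‖(Pi.single a (1 : ℝ) : Fin n → ℝ)‖ ≤ |t| :=
      mul_le_of_le_one_right (abs_nonneg _) h4
    calc s * (|t| * ‖(Pi.single a (1 : ℝ) : Fin n → ℝ)‖) ≤ 1 * |t| :=
          mul_le_mul hs.2.le h5 (by positivity) zero_le_one
      _ = |t| := one_mul _

theorem upq_frac_mem {N k : ℕ} (hN : 0 < N) (hk : k ≤ N) : (k : ℝ) / N ∈ Icc (0 : ℝ) 1 := by
  have hN' : (0 : ℝ) < N := by exact_mod_cast hN
  constructor
  · positivity
  · rw [div_le_one hN']
    exact_mod_cast hk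

theorem upq_xq_mem {q : ℝ → ℝ} (hq : StrictMonoOn q (Icc 0 1)) {N k : ℕ} (hN : 0 < N)
    (hk : k ≤ N) : xq q N k ∈ Icc (q 0) (q 1) := by
  have h := upq_frac_mem hN hk
  exact ⟨hq.monotoneOn (left_mem_Icc.2 zero_le_one) h h.1,
    hq.monotoneOn h (right_mem_Icc.2 zero_le_one) h.2⟩

/-- the box -/
def upqBox (n : ℕ) (q : ℝ → ℝ) : Set (Fin n → ℝ) :=
  Icc (fun _ => q 0) (fun _ => q 1)

theorem upq_xg_mem {q : ℝ → ℝ} (hq : StrictMonoOn q (Icc 0 1)) {N : ℕ} {g : Fin n → ℕ}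
    (hN : 0 < N) (hg : ∀ a, g a ≤ N) : xg q N g ∈ upqBox n q :=
  ⟨fun a => (upq_xq_mem hq hN (hg a)).1, fun a => (upq_xq_mem hq hN (hg a)).2⟩

theorem upq_xg_up (q : ℝ → ℝ) {N : ℕ} (g : Fin n → ℕ) (a : Fin n) (j : ℕ) :
    xg q N (Function.update g a j) =
      xg q N g + (xq q N j - xq q N (g a)) • Pi.single a (1 : ℝ) := by
  funext b
  rw [Pi.add_apply, Pi.smul_apply, smul_eq_mul]
  unfold xg
  by_cases hb : b = a
  · subst hb
    rw [Function.update_self, Pi.single_eq_same]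
    ring
  · rw [Function.update_of_ne hb, Pi.single_eq_of_ne hb]
    ring

/-- the estimate which has to hold with an error `ε` -/
def UpqP (n : ℕ) (f : (Fin n → ℝ) → ℝ) (q τ : ℝ → ℝ) (N : ℕ) (ε : ℝ) : Prop :=
  0 < N → ∀ g : Fin n → ℕ, (∀ a, g a < N) → ∀ (a : Fin n) (j : ℕ), j ≤ N → j ≤ g a + 1 →
    g a ≤ j + 1 → ∀ (k : ℕ), k ≤ N → k ≤ g a + 1 → g a ≤ k + 1 → ∀ ξ ∈ upqBox n q,
    dist ξ (xg q N g) ≤ |xq q N k - xq q N (g a)| →
    τ (xq q N j) * pd f a ξ ^ 2 ≤ τ (xg q N g a) * pd f a (xg q N g) ^ 2 + ε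

theorem upq_bound (hf : ContDiff ℝ 1 f) {q τ : ℝ → ℝ} (hτ : Continuous τ) :
    ∃ T L : ℝ, 0 ≤ T ∧ 0 ≤ L ∧ (∀ t ∈ Icc (q 0) (q 1), τ t ≤ T) ∧
      (∀ x ∈ upqBox n q, ‖fderiv ℝ f x‖ ≤ L) ∧ ∀ a, ∀ x ∈ upqBox n q, pd f a x ^ 2 ≤ L ^ 2 := by
  obtain ⟨T, hT⟩ := (isCompact_Icc (a := q 0) (b := q 1)).exists_bound_of_continuousOn
    hτ.continuousOn
  obtain ⟨L, hL⟩ := (isCompact_Icc (a := (fun _ => q 0 : Fin n → ℝ))
    (b := fun _ => q 1)).exists_bound_of_continuousOn
    (hf.continuous_fderiv one_ne_zero).continuousOn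
  refine ⟨|T|, |L|, abs_nonneg _, abs_nonneg _, fun t ht => ?_, fun x hx => ?_,
    fun a x hx => ?_⟩
  · have := hT t ht
    rw [Real.norm_eq_abs] at this
    exact (le_abs_self _).trans (this.trans (le_abs_self _))
  · exact (hL x hx).trans (le_abs_self _)
  · have h1 : |pd f a x| ≤ |L| := by
      unfold pd
      rw [← Real.norm_eq_abs]
      refine ((fderiv ℝ f x).le_opNorm _).trans ?_
      have h4 : ‖(Pi.single a (1 : ℝ) : Fin n → ℝ)‖ ≤ 1 := by
        rw [pi_norm_le_iff_of_nonneg zero_le_one]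
        intro b
        by_cases hb : b = a
        · subst hb; simp
        · simp [Pi.single_eq_of_ne hb]
      exact (mul_le_of_le_one_right (norm_nonneg _) h4).trans ((hL x hx).trans (le_abs_self _))
    rw [← sq_abs]
    exact pow_le_pow_left₀ (abs_nonneg _) h1 2

theorem upq_P (hf : ContDiff ℝ 1 f) {q τ : ℝ → ℝ} (hqc : Continuous q)
    (hq : StrictMonoOn q (Icc 0 1)) (hτ : Continuous τ) (hτ0 : ∀ x, 0 ≤ τ x) :
    ∃ err : ℕ → ℝ, Tendsto err atTop (𝓝 0) ∧ ∀ N, 0 ≤ err N ∧ UpqP n f q τ N (err N) := by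
  apply upq_err
  · intro N ε ε' h hle hN g hg a j h1 h2 h3 k h4 h5 h6 ξ hξ hd
    exact (h hN g hg a j h1 h2 h3 k h4 h5 h6 ξ hξ hd).trans (by linarith)
  · intro N
    obtain ⟨T, L, hT0, hL0, hT, -, hL⟩ := upq_bound (n := n) (q := q) hf hτ
    refine ⟨T * L ^ 2, by positivity, ?_⟩
    intro hN g hg a j h1 h2 h3 k h4 h5 h6 ξ hξ hd
    have h7 : τ (xq q N j) * pd f a ξ ^ 2 ≤ T * L ^ 2 :=
      mul_le_mul (hT _ (upq_xq_mem hq hN h1)) (hL a ξ hξ) (sq_nonneg _) hT0
    have h8 : 0 ≤ τ (xg q N g a) * pd f a (xg q N g) ^ 2 := mul_nonneg (hτ0 _) (sq_nonneg _)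
    linarith
  · intro ε hε
    -- uniform continuity
    have hK : IsCompact (Icc (q 0) (q 1) ×ˢ upqBox n q) :=
      isCompact_Icc.prod isCompact_Icc
    set Φ : ℝ × (Fin n → ℝ) → (Fin n → ℝ) := fun z a => τ z.1 * pd f a z.2 ^ 2 with hΦ
    have hΦc : Continuous Φ := continuous_pi fun a =>
      (hτ.comp continuous_fst).mul (((upq_pd_cont hf a).comp continuous_snd).pow 2)
    have huc := hK.uniformContinuousOn_of_continuous hΦc.continuousOn
    rw [Metric.uniformContinuousOn_iff] at huc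
    obtain ⟨δ, hδ, huc⟩ := huc ε hε
    have hqu := (isCompact_Icc (a := (0 : ℝ)) (b := 1)).uniformContinuousOn_of_continuous
      hqc.continuousOn
    rw [Metric.uniformContinuousOn_iff] at hqu
    obtain ⟨η, hη, hqu⟩ := hqu δ hδ
    obtain ⟨N0, hN0⟩ := exists_nat_gt (1 / η)
    refine ⟨N0, fun N hNN hN g hg a j h1 h2 h3 k h4 h5 h6 ξ hξ hd => ?_⟩
    have hN' : (0 : ℝ) < N := by exact_mod_cast hN
    have hstep : ∀ i, i ≤ N → i ≤ g a + 1 → g a ≤ i + 1 →
        |xq q N i - xq q N (g a)| < δ := by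
      intro i hi hi1 hi2
      have h7 := hqu _ (upq_frac_mem hN hi) _ (upq_frac_mem hN (hg a).le) (by
        rw [Real.dist_eq, ← sub_div, abs_div, abs_of_pos hN', div_lt_iff₀ hN']
        have h8 : |(i : ℝ) - g a| ≤ 1 := by
          rw [abs_le]
          constructor
          · have : (g a : ℝ) ≤ (i : ℝ) + 1 := by exact_mod_cast hi2
            linarith
          · have : (i : ℝ) ≤ (g a : ℝ) + 1 := by exact_mod_cast hi1
            linarith
        have h9 : (N0 : ℝ) ≤ N := by exact_mod_cast hNN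
        have h10 : 1 < η * N := by
          rw [div_lt_iff₀ hη] at hN0
          nlinarith
        linarith)
      rw [Real.dist_eq] at h7
      exact h7
    have hA : dist (Φ (xq q N j, ξ)) (Φ (xg q N g a, xg q N g)) < ε := by
      apply huc
      · exact ⟨upq_xq_mem hq hN h1, hξ⟩
      · exact ⟨upq_xq_mem hq hN (hg a).le, upq_xg_mem hq hN fun b => (hg b).le⟩
      · rw [Prod.dist_eq]
        apply max_lt
        · rw [Real.dist_eq]
          exact hstep j h1 h2 h3
        · exact lt_of_le_of_lt hd (hstep k h4 h5 h6)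
    have hB := lt_of_le_of_lt (dist_le_pi_dist _ _ a) hA
    rw [Real.dist_eq] at hB
    have hC := (abs_lt.1 hB).2
    simp only [hΦ] at hC
    linarith

theorem t_UPQ : S_UPQ := by
  classical
  intro n f q τ hf hqc hq hτ hτ0
  obtain ⟨err, herr, hP⟩ := upq_P (n := n) hf hqc hq hτ hτ0
  obtain ⟨T, L, hT0, hL0, hT, hL, -⟩ := upq_bound (n := n) (q := q) hf hτ
  have hconv : Convex ℝ (upqBox n q) := convex_Icc _ _
  refine ⟨fun N => 2 * n * err N, T * L ^ 2, ?_, by positivity,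
    fun N g c θ hN hg hθ hc => ⟨?_, ?_⟩⟩
  · have := herr.const_mul (2 * (n : ℝ))
    rwa [mul_zero] at this
  · obtain ⟨he0, hPN⟩ := hP N
    have hx := upq_xg_mem (n := n) hq hN fun a => (hg a).le
    set A : Fin n → ℝ := fun a => τ (xg q N g a) * pd f a (xg q N g) ^ 2 with hA
    have hA0 : ∀ a, 0 ≤ θ * (A a + err N) := by
      intro a
      have : 0 ≤ A a := mul_nonneg (hτ0 _) (sq_nonneg _)
      positivity
    -- one move: the rate is `c i`, `i, i + 1` are the positions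
    have hterm : ∀ (a : Fin n) (i j : ℕ), i + 1 < N → (i = g a ∧ j = i + 1 ∨ j = i ∧ g a = i + 1) →
        c i * (f (xg q N (Function.update g a j)) - f (xg q N g)) ^ 2 ≤ θ * (A a + err N) := by
      intro a i j hi hij
      have hjN : j ≤ N := by omega
      have hj1 : j ≤ g a + 1 := by omega
      have hj2 : g a ≤ j + 1 := by omega
      have hmem : xg q N (Function.update g a j) ∈ upqBox n q := by
        apply upq_xg_mem hq hN
        intro b
        by_cases hb : b = a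
        · subst hb
          rw [Function.update_self]
          exact hjN
        · rw [Function.update_of_ne hb]
          exact (hg b).le
      rw [upq_xg_up] at hmem
      rw [upq_xg_up]
      obtain ⟨ξ, hξ, hd, he⟩ := upq_mvt hf hconv a _ hx hmem
      rw [he, mul_pow]
      have h1 : (xq q N j - xq q N (g a)) ^ 2 = (xq q N (i + 1) - xq q N i) ^ 2 := by
        rcases hij with ⟨h2, h3⟩ | ⟨h2, h3⟩
        · rw [h3, h2]
        · rw [h3, h2]
          ring
      have h4 := hPN hN g hg a i (by omega) (by omega) (by omega) j hjN hj1 hj2 ξ hξ hd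
      obtain ⟨h5, h6⟩ := hc i hi
      calc c i * ((xq q N j - xq q N (g a)) ^ 2 * pd f a ξ ^ 2)
          = c i * (xq q N (i + 1) - xq q N i) ^ 2 * pd f a ξ ^ 2 := by rw [h1]; ring
        _ ≤ θ * τ (xq q N i) * pd f a ξ ^ 2 := mul_le_mul_of_nonneg_right h6 (sq_nonneg _)
        _ = θ * (τ (xq q N i) * pd f a ξ ^ 2) := by ring
        _ ≤ θ * (A a + err N) := mul_le_mul_of_nonneg_left h4 hθ
    have hS : ∀ s : Fin n → ℝ, (∀ a, s a ≤ θ * (A a + err N)) →
        ∑ a, s a ≤ θ * (∑ a, A a + n * err N) := by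
      intro s hs
      refine (Finset.sum_le_sum fun a _ => hs a).trans (le_of_eq ?_)
      rw [← Finset.mul_sum, Finset.sum_add_distrib, Finset.sum_const, Finset.card_univ,
        Fintype.card_fin, nsmul_eq_mul]
    have h1 := hS (fun a => if g a + 1 < N then
      c (g a) * (f (xg q N (Function.update g a (g a + 1))) - f (xg q N g)) ^ 2 else 0) (by
        intro a
        split_ifs with h
        · exact hterm a (g a) (g a + 1) h (Or.inl ⟨rfl, rfl⟩)
        · exact hA0 a)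
    have h2 := hS (fun a => if 0 < g a then
      c (g a - 1) * (f (xg q N (Function.update g a (g a - 1))) - f (xg q N g)) ^ 2 else 0) (by
        intro a
        split_ifs with h
        · have := hg a
          exact hterm a (g a - 1) (g a - 1) (by omega) (Or.inr ⟨rfl, by omega⟩)
        · exact hA0 a)
    have h3 : θ * (2 * ∑ a, A a + 2 * n * err N) =
      θ * (∑ a, A a + n * err N) + θ * (∑ a, A a + n * err N) := by ring
    show _ ≤ θ * (2 * ∑ a, A a + 2 * n * err N)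
    rw [h3]
    exact add_le_add h1 h2
  · intro a b hab
    have hgb := hg b
    have hgN : g a + 1 < N := by omega
    obtain ⟨h5, h6⟩ := hc (g a) hgN
    have hmv : ∀ e, mv (g a) (g a + 1) g e < N := by
      intro e
      have h3 := hg e
      unfold mv
      rw [Equiv.swap_apply_def]
      split_ifs <;> omega
    have hx := upq_xg_mem (n := n) hq hN fun a => (hg a).le
    have hx' := upq_xg_mem (n := n) hq hN fun e => (hmv e).le
    have h1 := hconv.norm_image_sub_le_of_norm_fderiv_le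
      (𝕜 := ℝ) (f := f) (C := L) (fun x _ => (hf.differentiable one_ne_zero x))
      (fun x hx => hL x hx) hx hx'
    have h2 : ‖xg q N (mv (g a) (g a + 1) g) - xg q N g‖ ≤
        |xq q N (g a + 1) - xq q N (g a)| := by
      rw [pi_norm_le_iff_of_nonneg (abs_nonneg _)]
      intro e
      rw [Pi.sub_apply, Real.norm_eq_abs]
      unfold xg mv
      rw [Equiv.swap_apply_def]
      split_ifs with h3 h4
      · rw [h3]
      · rw [h4, abs_sub_comm]
      · simp
    have h3 : ‖f (xg q N (mv (g a) (g a + 1) g)) - f (xg q N g)‖ ≤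
        L * |xq q N (g a + 1) - xq q N (g a)| :=
      h1.trans (mul_le_mul_of_nonneg_left h2 hL0)
    rw [Real.norm_eq_abs] at h3
    have h4 : (f (xg q N (mv (g a) (g a + 1) g)) - f (xg q N g)) ^ 2 ≤
        L ^ 2 * (xq q N (g a + 1) - xq q N (g a)) ^ 2 := by
      rw [← sq_abs, ← sq_abs (xq q N (g a + 1) - xq q N (g a)), ← mul_pow]
      exact pow_le_pow_left₀ (abs_nonneg _) h3 2
    calc c (g a) * (f (xg q N (mv (g a) (g a + 1) g)) - f (xg q N g)) ^ 2
        ≤ c (g a) * (L ^ 2 * (xq q N (g a + 1) - xq q N (g a)) ^ 2) :=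
          mul_le_mul_of_nonneg_left h4 h5
      _ = c (g a) * (xq q N (g a + 1) - xq q N (g a)) ^ 2 * L ^ 2 := by ring
      _ ≤ θ * τ (xq q N (g a)) * L ^ 2 := mul_le_mul_of_nonneg_right h6 (sq_nonneg _)
      _ ≤ θ * T * L ^ 2 := by
          apply mul_le_mul_of_nonneg_right _ (sq_nonneg _)
          exact mul_le_mul_of_nonneg_left (hT _ (upq_xq_mem hq hN (hg a).le)) hθ
      _ = θ * (T * L ^ 2) := by ring

end Pool.Agent.T2h95.OC
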