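import Pool.Agent.T2h95.OC.Stm

/-!
# Task VLB (helper21)
-/

set_option autoImplicit false

namespace Pool.Agent.T2h95.OC

open MeasureTheory Set Filter Topology
open scoped ENNReal

namespace VLB

theorem bump_int (c r : ℝ) (hr : 0 ≤ r) :
    Integrable (fun x : ℝ => max (r ^ 2 - (x - c) ^ 2) 0) ∧
    ∫ x : ℝ, max (r ^ 2 - (x - c) ^ 2) 0 = 4 / 3 * r ^ 3 := by
  have e1 : (fun x : ℝ => max (r ^ 2 - (x - c) ^ 2) 0) =
      (Icc (c - r) (c + r)).indicator (fun x => r ^ 2 - (x - c) ^ 2) := by
    funext x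
    by_cases hx : x ∈ Icc (c - r) (c + r)
    · rw [indicator_of_mem hx, max_eq_left]
      have h1 : |x - c| ≤ r := by rw [abs_le]; constructor <;> linarith [hx.1, hx.2]
      have := sq_le_sq' (abs_le.1 h1).1 (abs_le.1 h1).2
      linarith
    · rw [indicator_of_notMem hx, max_eq_right]
      rw [mem_Icc, not_and_or, not_le, not_le] at hx
      rcases hx with hx | hx <;> nlinarith
  have hc : Continuous fun x : ℝ => r ^ 2 - (x - c) ^ 2 := by fun_prop
  constructor
  · rw [e1, integrable_indicator_iff measurableSet_Icc]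
    exact hc.continuousOn.integrableOn_compact isCompact_Icc
  · rw [e1, integral_indicator measurableSet_Icc, integral_Icc_eq_integral_Ioc,
      ← intervalIntegral.integral_of_le (by linarith)]
    rw [intervalIntegral.integral_comp_sub_right (fun y => r ^ 2 - y ^ 2) c]
    rw [intervalIntegral.integral_sub (by simp) (by simp)]
    rw [intervalIntegral.integral_const, integral_pow]
    simp only [smul_eq_mul]
    norm_num
    ring

end VLB

theorem t_VLB : S_VLB := by
  intro ρ M h0 hm h1 hM hle hL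
  have hprob : IsProbabilityMeasure (law ρ) := ⟨by
    rw [law, withDensity_apply _ MeasurableSet.univ, Measure.restrict_univ]
    exact h1⟩
  rw [ProbabilityTheory.variance_eq_integral aemeasurable_id']
  set c : ℝ := ∫ x, x ∂(law ρ) with hc
  set r : ℝ := 1 / (2 * M) with hr
  have hr0 : 0 < r := by positivity
  have hint : Integrable (fun x : ℝ => (x - c) ^ 2) (law ρ) :=
    (hL.sub (memLp_const c)).integrable_sq
  have hkm : Measurable fun x : ℝ => max (r ^ 2 - (x - c) ^ 2) 0 := by fun_prop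
  have hkint : Integrable (fun x : ℝ => max (r ^ 2 - (x - c) ^ 2) 0) (law ρ) := by
    refine Integrable.of_bound hkm.aestronglyMeasurable (r ^ 2) (ae_of_all _ fun x => ?_)
    rw [Real.norm_eq_abs, abs_of_nonneg (le_max_right _ _)]
    exact max_le (by nlinarith [sq_nonneg (x - c)]) (sq_nonneg r)
  have hk : ∫ x, max (r ^ 2 - (x - c) ^ 2) 0 ∂(law ρ) ≤ M * (4 / 3 * r ^ 3) := by
    have hnn : 0 ≤ᵐ[law ρ] fun x : ℝ => max (r ^ 2 - (x - c) ^ 2) 0 :=
      ae_of_all _ fun x => le_max_right _ _
    rw [integral_eq_lintegral_of_nonneg_ae hnn hkm.aestronglyMeasurable]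
    apply ENNReal.toReal_le_of_le_ofReal (by positivity)
    rw [law, lintegral_withDensity_eq_lintegral_mul _ hm.ennreal_ofReal hkm.ennreal_ofReal]
    calc ∫⁻ x, ((fun x => ENNReal.ofReal (ρ x)) *
          fun x => ENNReal.ofReal (max (r ^ 2 - (x - c) ^ 2) 0)) x
        ≤ ∫⁻ x, ENNReal.ofReal M * ENNReal.ofReal (max (r ^ 2 - (x - c) ^ 2) 0) := by
          refine lintegral_mono fun x => ?_
          exact mul_le_mul_left (ENNReal.ofReal_le_ofReal (hle x)) _
      _ = ENNReal.ofReal M * ∫⁻ x, ENNReal.ofReal (max (r ^ 2 - (x - c) ^ 2) 0) :=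
          lintegral_const_mul _ hkm.ennreal_ofReal
      _ = ENNReal.ofReal (M * (4 / 3 * r ^ 3)) := by
          rw [← ofReal_integral_eq_lintegral_ofReal (VLB.bump_int c r hr0.le).1
            (ae_of_all _ fun x => le_max_right _ _), (VLB.bump_int c r hr0.le).2,
            ← ENNReal.ofReal_mul hM.le]
  have h2 : ∫ x, (r ^ 2 - max (r ^ 2 - (x - c) ^ 2) 0) ∂(law ρ) ≤
      ∫ x, (x - c) ^ 2 ∂(law ρ) := by
    refine integral_mono ((integrable_const _).sub hkint) hint fun x => ?_
    have := le_max_left (r ^ 2 - (x - c) ^ 2) 0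
    show r ^ 2 - max (r ^ 2 - (x - c) ^ 2) 0 ≤ (x - c) ^ 2
    linarith
  rw [integral_sub (integrable_const _) hkint, integral_const, probReal_univ, one_smul] at h2
  have h3 : r ^ 2 - M * (4 / 3 * r ^ 3) = 1 / (12 * M ^ 2) := by
    rw [hr]
    field_simp
    norm_num
  linarith

end Pool.Agent.T2h95.OC
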