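import Pool.Agent.R972.OP.All
import Pool.Agent.T2h95.OC.DC
import Pool.Agent.T2h95.OC.DC1
import Pool.Agent.T2h95.OC.DC2
import Pool.Agent.T2h95.OC.DG
import Pool.Agent.T2h95.OC.T_DG1
import Pool.Agent.T2h95.OC.DG2
import Pool.Agent.T2h95.OC.EPS
import Pool.Agent.T2h95.OC.EXH
import Pool.Agent.T2h95.OC.EXT
import Pool.Agent.T2h95.OC.FIN1
import Pool.Agent.T2h95.OC.HAR
import Pool.Agent.T2h95.OC.LC
import Pool.Agent.T2h95.OC.LIM
import Pool.Agent.T2h95.OC.MAIN
import Pool.Agent.T2h95.OC.MAXD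
import Pool.Agent.T2h95.OC.MED
import Pool.Agent.T2h95.OC.MIL
import Pool.Agent.T2h95.OC.MM2
import Pool.Agent.T2h95.OC.MOD
import Pool.Agent.T2h95.OC.NRM
import Pool.Agent.T2h95.OC.OCI
import Pool.Agent.T2h95.OC.POS
import Pool.Agent.T2h95.OC.PUSH
import Pool.Agent.T2h95.OC.PUSH1
import Pool.Agent.T2h95.OC.QFE
import Pool.Agent.T2h95.OC.UPQ
import Pool.Agent.T2h95.OC.VLB

/-!
# Order-conditioned product measures: the parts of the proof, put together

Parts by helpers 2, 9, 21, 26, 33, 49, 56, 58, 97 (statements: helper95).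
-/

set_option autoImplicit false

namespace Pool.Agent.T2h95.OC

theorem dg_all : S_DG := t_DG t_DG1 t_DG2

theorem dc_all : S_DC := t_DC t_DC1 (t_DC2 t_EXT) t_MOD

theorem lim_all : S_LIM := t_LIM Pool.Agent.R972.OP.lat_all Pool.Agent.R364.OP.rs
  Pool.Agent.R372.OP.ADJ.main Pool.Agent.R972.OP.pieceUPC t_UPQ

theorem push_all : S_PUSH := t_PUSH t_PUSH1

theorem eps_all : S_EPS := t_EPS dg_all dc_all lim_all push_all

theorem main_all : S_MAIN := t_MAIN t_QFE eps_all t_EXH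

theorem fin1_all : S_FIN1 := t_FIN1 main_all t_OCI

theorem lc_all : S_LC := t_LC t_HAR t_MED t_MIL t_MAXD t_MM2 t_VLB

end Pool.Agent.T2h95.OC
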