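import Pool.Agent.T2h95.OC.Stm3

set_option autoImplicit false

namespace Pool.Agent.T2h95.OC

open MeasureTheory Set Filter Topology
open scoped ENNReal

theorem t_CNV (h1 : S_SSM) (h2 : S_SSG) : S_CNV := by
  intro ν _ _ n R C hn hne hP g hg hL hL'
  obtain ⟨a1, a2⟩ := h1 ν n R hne g hg.continuous hL
  obtain ⟨b1, b2, b3⟩ := h2 ν n R hne g hg hL'
  have := hP _ b1 a1 b2
  rw [a2, b3] at this
  have hn' : (0 : ℝ) < n := by exact_mod_cast hn
  have h3 : (n : ℝ) * ProbabilityTheory.variance g ν ≤ n * (C * ∫ x, ‖fderiv ℝ g x‖ ^ 2 ∂ν) := by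
    linarith
  exact le_of_mul_le_mul_left h3 hn'

end Pool.Agent.T2h95.OC
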