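import Pool.Agent.T2h95.OC.Stm3

/-! Project OC, task DIR: the direct part. -/

set_option autoImplicit false

namespace Pool.Agent.T2h95.OC

open MeasureTheory Set Filter Topology
open scoped ENNReal

namespace DIR

theorem nn (ν : Measure ℝ) [IsProbabilityMeasure ν] (C : ℝ) (h : Poin ν C) : 0 ≤ C := by
  by_contra hC
  push Not at hC
  have hd : ∀ x : ℝ, ‖fderiv ℝ Real.arctan x‖ = 1 / (1 + x ^ 2) := by
    intro x
    rw [← norm_deriv_eq_norm_fderiv, Real.deriv_arctan]
    exact abs_of_pos (by positivity)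
  have hb : ∀ x : ℝ, ‖Real.arctan x‖ ≤ Real.pi / 2 := by
    intro x
    rw [Real.norm_eq_abs, abs_le]
    exact ⟨(Real.neg_pi_div_two_lt_arctan x).le, (Real.arctan_lt_pi_div_two x).le⟩
  have hc : Continuous fun x : ℝ => ‖fderiv ℝ Real.arctan x‖ := by
    simp only [hd]
    exact continuous_const.div (by fun_prop) (fun x => by positivity)
  have hb2 : ∀ x : ℝ, ‖‖fderiv ℝ Real.arctan x‖‖ ≤ 1 := by
    intro x
    rw [norm_norm, hd]
    rw [div_le_one (by positivity)]
    nlinarith [sq_nonneg x]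
  have h1 := h Real.arctan Real.contDiff_arctan
    (MemLp.of_bound Real.continuous_arctan.aestronglyMeasurable _ (Eventually.of_forall hb))
    (MemLp.of_bound hc.aestronglyMeasurable _ (Eventually.of_forall hb2))
  have h2 := ProbabilityTheory.variance_nonneg Real.arctan ν
  have h3 : 0 < ∫ x, ‖fderiv ℝ Real.arctan x‖ ^ 2 ∂ν := by
    rw [integral_pos_iff_support_of_nonneg (fun x => sq_nonneg _)]
    · have : Function.support (fun x : ℝ => ‖fderiv ℝ Real.arctan x‖ ^ 2) = univ := by
        ext x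
        simp only [Function.mem_support, mem_univ, iff_true, hd]
        positivity
      rw [this, measure_univ]
      exact one_pos
    · have h4 : MemLp (fun x : ℝ => ‖fderiv ℝ Real.arctan x‖) 2 ν :=
        MemLp.of_bound hc.aestronglyMeasurable _ (Eventually.of_forall hb2)
      exact h4.integrable_sq
  nlinarith

theorem bdd (g : ℝ → ℝ) (hg : ContDiff ℝ 1 g) (hs : HasCompactSupport (deriv g)) :
    ∃ B : ℝ, ∀ x, ‖g x‖ ≤ B := by
  have hc : Continuous (deriv g) := hg.continuous_deriv le_rfl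
  have hi : Integrable (deriv g) := hc.integrable_of_hasCompactSupport hs
  refine ⟨‖g 0‖ + ∫ x, ‖deriv g x‖, fun x => ?_⟩
  have h1 : ∫ t in (0:ℝ)..x, deriv g t = g x - g 0 :=
    intervalIntegral.integral_deriv_eq_sub
      (fun t _ => (hg.differentiable one_ne_zero t)) (hc.intervalIntegrable _ _)
  have h2 : ‖∫ t in (0:ℝ)..x, deriv g t‖ ≤ ∫ t, ‖deriv g t‖ :=
    (intervalIntegral.norm_integral_le_integral_norm_uIoc).trans
      (setIntegral_le_integral hi.norm (Eventually.of_forall fun t => norm_nonneg _))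
  have h3 : g x = g 0 + (g x - g 0) := by ring
  calc ‖g x‖ = ‖g 0 + (g x - g 0)‖ := by rw [← h3]
    _ ≤ ‖g 0‖ + ‖g x - g 0‖ := norm_add_le _ _
    _ ≤ _ := by
      rw [← h1]
      exact add_le_add le_rfl h2

theorem wp (ν : Measure ℝ) [IsProbabilityMeasure ν] (C : ℝ) (h : Poin ν C) :
    WP ν (fun _ => C) := by
  intro g hg hs
  have hc : Continuous (deriv g) := hg.continuous_deriv le_rfl
  obtain ⟨B, hB⟩ := bdd g hg hs
  obtain ⟨B', hB'⟩ := hs.exists_bound_of_continuous hc
  have e : ∀ x, ‖fderiv ℝ g x‖ = ‖deriv g x‖ := fun x => (norm_deriv_eq_norm_fderiv).symm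
  have hL : MemLp g 2 ν :=
    MemLp.of_bound hg.continuous.aestronglyMeasurable _ (Eventually.of_forall hB)
  have hL2 : MemLp (fun x => ‖fderiv ℝ g x‖) 2 ν := by
    simp only [e]
    exact MemLp.of_bound hc.norm.aestronglyMeasurable B'
      (Eventually.of_forall fun x => by rw [norm_norm]; exact hB' x)
  have h1 := h g hg hL hL2
  rw [ProbabilityTheory.variance_eq_sub hL] at h1
  have h2 : ∫ x, C * deriv g x ^ 2 ∂ν = C * ∫ x, ‖fderiv ℝ g x‖ ^ 2 ∂ν := by
    rw [← integral_const_mul]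
    refine integral_congr_ae (Eventually.of_forall fun x => ?_)
    show C * deriv g x ^ 2 = C * ‖fderiv ℝ g x‖ ^ 2
    rw [e, Real.norm_eq_abs, sq_abs]
  rw [h2]
  exact h1

end DIR

/-- **DIR** -/
theorem t_DIR (hF : S_FIN1) (hN : S_NRM) : S_DIR := by
  intro ν _ _ n R C hC hP f hf hL hL2
  have h0 := DIR.nn ν C hP
  have hI : Integrable (fun x : Eu n => ∑ a, (fun _ : ℝ => C) (x a) *
      fderiv ℝ f x (EuclideanSpace.single a 1) ^ 2) (oc ν R) := by
    have e : (fun x : Eu n => ∑ a, (fun _ : ℝ => C) (x a) *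
        fderiv ℝ f x (EuclideanSpace.single a 1) ^ 2) = fun x => C * ‖fderiv ℝ f x‖ ^ 2 := by
      funext x
      rw [← hN n (fderiv ℝ f x), Finset.mul_sum]
    rw [e]
    exact hL2.integrable_sq.const_mul C
  have h1 := hF ν (fun _ => C) continuous_const (fun _ => h0) (DIR.wp ν C hP) n R hC f hf hL hI
  refine h1.trans (le_of_eq ?_)
  rw [← integral_const_mul]
  refine integral_congr_ae (Eventually.of_forall fun x => ?_)
  show ∑ a, C * fderiv ℝ f x (EuclideanSpace.single a 1) ^ 2 = C * ‖fderiv ℝ f x‖ ^ 2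
  rw [← hN n (fderiv ℝ f x), Finset.mul_sum]

end Pool.Agent.T2h95.OC
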