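import Pool.Agent.T2h95.OC.Stm3

/-! # KLD -/

set_option autoImplicit false

namespace Pool.Agent.T2h95.OC

open MeasureTheory Set Filter Topology
open scoped ENNReal

theorem t_KLD (h1 : S_LC) (h2 : S_FIN1) (h3 : S_NRM) (h4 : S_SSM) : S_KLD := by
  intro ρ hρ n R hn hC s hs f hf hf2 hfd
  obtain ⟨hp, hna, hm2, hwp⟩ := h1 ρ hρ
  have hV0 : 0 ≤ ProbabilityTheory.variance (fun x : ℝ => x) (law ρ) :=
    ProbabilityTheory.variance_nonneg _ _
  have hn0 : (0 : ℝ) < n := by exact_mod_cast hn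
  have hVs : ProbabilityTheory.variance (fun x : ℝ => x) (law ρ) ≤ s := by
    obtain ⟨θ, hθd⟩ : ∃ θ : Eu n, θ = WithLp.toLp 2 fun _ => (Real.sqrt n)⁻¹ := ⟨_, rfl⟩
    have hθ : ‖θ‖ = 1 := by
      rw [hθd, EuclideanSpace.norm_eq]
      simp only [Real.norm_eq_abs, sq_abs, inv_pow, Real.sq_sqrt hn0.le]
      rw [Finset.sum_const, Finset.card_univ, Fintype.card_fin, nsmul_eq_mul,
        mul_inv_cancel₀ hn0.ne', Real.sqrt_one]
    have e : (fun x : Eu n => inner ℝ x θ) = fun x => (Real.sqrt n)⁻¹ * ∑ i, x i := by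
      funext x
      rw [hθd, PiLp.inner_apply, Finset.mul_sum]
      refine Finset.sum_congr rfl fun i _ => ?_
      simp
    have h5 := hs θ hθ
    have h6 := (h4 (law ρ) n R hC (fun x => x) continuous_id hm2).2
    rw [e, ProbabilityTheory.variance_const_mul, h6, inv_pow, Real.sq_sqrt hn0.le, ← mul_assoc,
      inv_mul_cancel₀ hn0.ne', one_mul] at h5
    exact h5
  have hnrm : ∀ x : Eu n, ∑ a, 48 * ProbabilityTheory.variance (fun x : ℝ => x) (law ρ) *
      fderiv ℝ f x (EuclideanSpace.single a 1) ^ 2 =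
      48 * ProbabilityTheory.variance (fun x : ℝ => x) (law ρ) * ‖fderiv ℝ f x‖ ^ 2 := by
    intro x
    rw [← Finset.mul_sum, h3]
  have hint : Integrable (fun x : Eu n =>
      ∑ a, 48 * ProbabilityTheory.variance (fun x : ℝ => x) (law ρ) *
      fderiv ℝ f x (EuclideanSpace.single a 1) ^ 2) (oc (law ρ) R) := by
    simp_rw [hnrm]
    exact hfd.integrable_sq.const_mul _
  have h7 := h2 (law ρ) (fun _ => 48 * ProbabilityTheory.variance (fun x : ℝ => x) (law ρ))
    continuous_const (fun _ => by positivity) hwp n R hC f hf hf2 hint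
  simp_rw [hnrm] at h7
  rw [integral_const_mul] at h7
  refine h7.trans ?_
  have h8 : 0 ≤ ∫ x, ‖fderiv ℝ f x‖ ^ 2 ∂(oc (law ρ) R) := integral_nonneg fun _ => by positivity
  exact mul_le_mul_of_nonneg_right (by linarith) h8

end Pool.Agent.T2h95.OC
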