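import Pool.Agent.T2h95.OC.SSM

set_option autoImplicit false

namespace Pool.Agent.T2h95.OC

open MeasureTheory Set Filter Topology
open scoped ENNReal

theorem t_SSG (h1 : S_SYG) (h2 : S_OCI) (h3 : S_NRM) : S_SSG := by
  intro ν _ _ n R hne g hg hL
  have hdiff : ∀ t : ℝ, DifferentiableAt ℝ g t := fun t =>
    (hg.differentiable one_ne_zero) t
  have hF : ContDiff ℝ 1 (fun x : Eu n => ∑ i, g (x i)) := by
    refine ContDiff.sum fun i _ => hg.comp ?_
    exact (EuclideanSpace.proj (𝕜 := ℝ) i).contDiff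
  -- derivative
  have hd : ∀ x : Eu n, HasFDerivAt (fun x : Eu n => ∑ i, g (x i))
      (∑ i, (deriv g (x i)) • (EuclideanSpace.proj (𝕜 := ℝ) i : Eu n →L[ℝ] ℝ)) x := by
    intro x
    refine HasFDerivAt.fun_sum fun i _ => ?_
    have ha : HasDerivAt g (deriv g (x i)) (x i) := (hdiff (x i)).hasDerivAt
    have hb : HasFDerivAt (fun y : Eu n => y i)
        (EuclideanSpace.proj (𝕜 := ℝ) i : Eu n →L[ℝ] ℝ) x :=
      (EuclideanSpace.proj (𝕜 := ℝ) i : Eu n →L[ℝ] ℝ).hasFDerivAt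
    exact ha.comp_hasFDerivAt x hb
  have hnorm : ∀ x : Eu n, ‖fderiv ℝ (fun x : Eu n => ∑ i, g (x i)) x‖ ^ 2 =
      ∑ a, ‖fderiv ℝ g (x a)‖ ^ 2 := by
    intro x
    rw [(hd x).fderiv, ← h3]
    refine Finset.sum_congr rfl fun a _ => ?_
    have : ‖fderiv ℝ g (x a)‖ = ‖deriv g (x a)‖ := by
      rw [norm_deriv_eq_norm_fderiv]
    rw [this, Real.norm_eq_abs, sq_abs]
    congr 1
    rw [ContinuousLinearMap.sum_apply]
    rw [Finset.sum_eq_single a]
    · simp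
    · intro b _ hb
      simp [hb]
    · simp
  have hm : ∀ i : Fin n, Integrable (fun x : Fin n → ℝ => ‖fderiv ℝ g (x i)‖ ^ 2) (pw n ν) :=
    fun i => (hL.comp_measurePreserving
      (measurePreserving_eval (fun _ : Fin n => ν) i)).integrable_sq
  have hI : Integrable (fun x : Fin n → ℝ => ∑ i, ‖fderiv ℝ g (x i)‖ ^ 2) (pw n ν) :=
    integrable_finsetSum _ fun i _ => hm i
  obtain ⟨i1, e1⟩ := sym_oc h1 h2 ν n R hne (fun x : Eu n => ∑ i, ‖fderiv ℝ g (x i)‖ ^ 2) hI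
    (fun p x => Equiv.sum_comp p fun i => ‖fderiv ℝ g (x i)‖ ^ 2)
  have hfun : (fun x : Eu n => ‖fderiv ℝ (fun x : Eu n => ∑ i, g (x i)) x‖ ^ 2) =
      fun x : Eu n => ∑ i, ‖fderiv ℝ g (x i)‖ ^ 2 := funext hnorm
  have hcont : Continuous (fun x : Eu n => ‖fderiv ℝ (fun x : Eu n => ∑ i, g (x i)) x‖) :=
    (hF.continuous_fderiv one_ne_zero).norm
  refine ⟨hF, ?_, ?_⟩
  · rw [memLp_two_iff_integrable_sq hcont.aestronglyMeasurable, hfun]
    exact i1
  · rw [hfun, e1]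
    show ∫ x : Fin n → ℝ, ∑ i, ‖fderiv ℝ g (x i)‖ ^ 2 ∂(pw n ν) = _
    rw [integral_finsetSum _ fun i _ => hm i]
    have : ∀ i : Fin n, ∫ x : Fin n → ℝ, ‖fderiv ℝ g (x i)‖ ^ 2 ∂(pw n ν) =
        ∫ x, ‖fderiv ℝ g x‖ ^ 2 ∂ν := by
      intro i
      have hmp := measurePreserving_eval (fun _ : Fin n => ν) i
      have hc : Continuous fun t : ℝ => ‖fderiv ℝ g t‖ ^ 2 :=
        ((hg.continuous_fderiv one_ne_zero).norm).pow 2
      have := hmp.map_eq
      conv_rhs => rw [← this]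
      rw [integral_map hmp.measurable.aemeasurable hc.aestronglyMeasurable]
    rw [Finset.sum_congr rfl fun i _ => this i, Finset.sum_const, Finset.card_univ,
      Fintype.card_fin, nsmul_eq_mul]

end Pool.Agent.T2h95.OC
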