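import Pool.Agent.T2h95.OC.Stm3

set_option autoImplicit false

namespace Pool.Agent.T2h95.OC

open MeasureTheory Set Filter Topology
open scoped ENNReal

/-- symmetric integrable functions have the same integral for `oc ν R` and for `pw n ν` -/
theorem sym_oc (h1 : S_SYG) (h2 : S_OCI) (ν : Measure ℝ) [IsProbabilityMeasure ν]
    [NullSingletonClass ν] (n : ℕ) (R : Fin n → Fin n → Prop) (hne : pw n ν (CR R) ≠ 0)
    (h : Eu n → ℝ) (hi : Integrable (fun x : Fin n → ℝ => h (WithLp.toLp 2 x)) (pw n ν))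
    (hs : ∀ (p : Equiv.Perm (Fin n)) (x : Fin n → ℝ),
      h (WithLp.toLp 2 fun i => x (p i)) = h (WithLp.toLp 2 x)) :
    Integrable h (oc ν R) ∧
      ∫ x : Eu n, h x ∂(oc ν R) = ∫ x : Fin n → ℝ, h (WithLp.toLp 2 x) ∂(pw n ν) := by
  obtain ⟨hp, hG⟩ := h2 n ν R hne
  have hc : (pw n ν (CR R)).toReal ≠ 0 := ENNReal.toReal_ne_zero.mpr ⟨hne, measure_ne_top _ _⟩
  refine ⟨(hG h).1.mpr hi.integrableOn, ?_⟩
  rw [(hG h).2, h1 ν n R (fun x => h (WithLp.toLp 2 x)) hi hs, ← mul_assoc, inv_mul_cancel₀ hc,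
    one_mul]

theorem t_SSM (h1 : S_SYG) (h2 : S_OCI) : S_SSM := by
  intro ν _ _ n R hne g hg hL
  have hm : ∀ i : Fin n, MemLp (fun x : Fin n → ℝ => g (x i)) 2 (pw n ν) := fun i =>
    hL.comp_measurePreserving (measurePreserving_eval (fun _ : Fin n => ν) i)
  have hS : MemLp (fun x : Fin n → ℝ => ∑ i, g (x i)) 2 (pw n ν) := memLp_finsetSum _ fun i _ => hm i
  have hS1 : Integrable (fun x : Fin n → ℝ => ∑ i, g (x i)) (pw n ν) := hS.integrable (by norm_num)
  have hS2 : Integrable (fun x : Fin n → ℝ => (∑ i, g (x i)) ^ 2) (pw n ν) := hS.integrable_sq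
  have hsym : ∀ (p : Equiv.Perm (Fin n)) (x : Fin n → ℝ), ∑ i, g (x (p i)) = ∑ i, g (x i) :=
    fun p x => Equiv.sum_comp p fun i => g (x i)
  obtain ⟨i1, e1⟩ := sym_oc h1 h2 ν n R hne (fun x : Eu n => ∑ i, g (x i)) hS1 hsym
  obtain ⟨i2, e2⟩ := sym_oc h1 h2 ν n R hne (fun x : Eu n => (∑ i, g (x i)) ^ 2) hS2
    (fun p x => by
      show (∑ i, g (x (p i))) ^ 2 = (∑ i, g (x i)) ^ 2
      rw [hsym])
  have hcont : Continuous (fun x : Eu n => ∑ i, g (x i)) :=
    continuous_finsetSum _ fun i _ => hg.comp (by fun_prop)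
  have hE : MemLp (fun x : Eu n => ∑ i, g (x i)) 2 (oc ν R) := by
    rw [memLp_two_iff_integrable_sq hcont.aestronglyMeasurable]
    exact i2
  obtain ⟨hp, -⟩ := h2 n ν R hne
  refine ⟨hE, ?_⟩
  rw [ProbabilityTheory.variance_eq_sub hE]
  have hv : ProbabilityTheory.variance (fun x : Fin n → ℝ => ∑ i, g (x i)) (pw n ν) =
      n * ProbabilityTheory.variance g ν := by
    have := ProbabilityTheory.variance_sum_pi (μ := fun _ : Fin n => ν) (X := fun _ x => g x)
      fun _ => hL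
    rw [Finset.sum_const, Finset.card_univ, Fintype.card_fin, nsmul_eq_mul] at this
    rw [show ProbabilityTheory.variance g ν = ProbabilityTheory.variance (fun x => g x) ν from rfl,
      ← this]
    congr 1
    funext x
    rw [Finset.sum_apply]
  rw [← hv, ProbabilityTheory.variance_eq_sub hS]
  simp only [Pi.pow_apply]
  rw [e1, e2]

end Pool.Agent.T2h95.OC
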