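import Pool.Agent.T2h95.OC.Stm3

/-!
# Symmetric functions on the cone of a relation, every law without atoms (project OC, task SYG)
-/

set_option autoImplicit false

namespace Pool.Agent.T2h95.OC.SYG

open MeasureTheory Set Filter Topology

variable {n : ℕ}

theorem clK (R : Fin n → Fin n → Prop) : IsClosed (CR R) := by
  have h : CR R = ⋂ i, ⋂ j, ⋂ (_ : R i j), {x : Fin n → ℝ | x i ≤ x j} := by
    ext x; simp only [CR, mem_ofPred_eq, mem_iInter]
  rw [h]
  exact isClosed_iInter fun i => isClosed_iInter fun j => isClosed_iInter fun _ =>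
    isClosed_le (continuous_apply i) (continuous_apply j)

variable (ν : Measure ℝ) [IsProbabilityMeasure ν] [NullSingletonClass ν]

omit [NullSingletonClass ν] in
theorem perm (p : Equiv.Perm (Fin n)) :
    MeasurePreserving (fun (x : Fin n → ℝ) i => x (p i)) (pw n ν) (pw n ν) ∧
    ∀ H : (Fin n → ℝ) → ℝ, ∫ x : Fin n → ℝ, H (fun i => x (p i)) ∂pw n ν = ∫ x, H x ∂pw n ν := by
  have h := measurePreserving_piCongrLeft (fun _ : Fin n => ν) p.symm
  have e : (MeasurableEquiv.piCongrLeft (fun _ : Fin n => ℝ) p.symm : (Fin n → ℝ) → (Fin n → ℝ))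
      = fun x i => x (p i) := by
    funext x i
    rw [MeasurableEquiv.coe_piCongrLeft]
    have := Equiv.piCongrLeft_apply_apply (P := fun _ : Fin n => ℝ) p.symm x (p i)
    simpa using this
  constructor
  · rwa [e] at h
  · intro H
    have h2 := h.integral_comp' H
    rw [e] at h2
    exact h2

theorem ties : ∀ᵐ x : Fin n → ℝ ∂pw n ν, Function.Injective x := by
  have h : ∀ i j : Fin n, i ≠ j → ∀ᵐ x : Fin n → ℝ ∂pw n ν, x i ≠ x j := by
    intro i j hij
    have hI : ProbabilityTheory.iIndepFun (fun (i : Fin n) (x : Fin n → ℝ) => x i) (pw n ν) :=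
      ProbabilityTheory.iIndepFun_pi (X := fun _ : Fin n => (id : ℝ → ℝ))
        (fun _ => aemeasurable_id)
    have hJ := hI.indepFun hij
    rw [ProbabilityTheory.indepFun_iff_map_prod_eq_prod_map_map
      (measurable_pi_apply i).aemeasurable (measurable_pi_apply j).aemeasurable] at hJ
    have hi : (pw n ν).map (fun x => x i) = ν := (measurePreserving_eval (fun _ : Fin n => ν) i).map_eq
    have hj : (pw n ν).map (fun x => x j) = ν := (measurePreserving_eval (fun _ : Fin n => ν) j).map_eq
    rw [hi, hj] at hJ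
    have hD : MeasurableSet {z : ℝ × ℝ | z.1 = z.2} :=
      (isClosed_eq continuous_fst continuous_snd).measurableSet
    have h0 : (ν.prod ν) {z : ℝ × ℝ | z.1 = z.2} = 0 := by
      rw [Measure.measure_prod_null hD]
      refine Eventually.of_forall fun x => ?_
      have : Prod.mk x ⁻¹' {z : ℝ × ℝ | z.1 = z.2} = {x} := by
        ext y
        simp only [mem_preimage, mem_ofPred_eq, mem_singleton_iff]
        exact eq_comm
      show ν (Prod.mk x ⁻¹' {z : ℝ × ℝ | z.1 = z.2}) = 0
      rw [this]
      exact measure_singleton x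
    rw [← hJ, Measure.map_apply
      ((measurable_pi_apply i).prodMk (measurable_pi_apply j)) hD] at h0
    rw [ae_iff]
    refine measure_mono_null ?_ h0
    intro x hx
    simp only [ne_eq, not_not, mem_ofPred_eq] at hx
    exact hx
  have h2 : ∀ᵐ x : Fin n → ℝ ∂pw n ν, ∀ i j : Fin n, i ≠ j → x i ≠ x j := by
    rw [ae_all_iff]
    intro i
    rw [ae_all_iff]
    intro j
    by_cases hij : i = j
    · exact Eventually.of_forall fun x h => absurd hij h
    · filter_upwards [h i j hij] with x hx _
      exact hx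
  filter_upwards [h2] with x hx i j hij
  by_contra hne
  exact hx i j hne hij

open Classical in
/-- number of linear extensions -/
noncomputable def Lc (R : Fin n → Fin n → Prop) : ℕ :=
  (Finset.univ.filter fun q : Equiv.Perm (Fin n) => ∀ a b, R a b → q a ≤ q b).card

open Classical in
theorem cntL (R : Fin n → Fin n → Prop) (x : Fin n → ℝ) (hx : Function.Injective x) :
    (Finset.univ.filter fun p : Equiv.Perm (Fin n) => ∀ a b, R a b → x (p a) ≤ x (p b)).card
      = Lc R := by
  unfold Lc
  have hs : StrictMono (x ∘ Tuple.sort x) :=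
    (Tuple.monotone_sort x).strictMono_of_injective (hx.comp (Tuple.sort x).injective)
  have key : ∀ (p : Equiv.Perm (Fin n)) (a b : Fin n), x (p a) ≤ x (p b) ↔
      ((Tuple.sort x)⁻¹ * p) a ≤ ((Tuple.sort x)⁻¹ * p) b := by
    intro p a b
    rw [← hs.le_iff_le]
    simp [Equiv.Perm.mul_apply]
  apply Finset.card_bij (fun p _ => (Tuple.sort x)⁻¹ * p)
  · intro p hp
    rw [Finset.mem_filter] at hp ⊢
    exact ⟨Finset.mem_univ _, fun a b hab => (key p a b).1 (hp.2 a b hab)⟩
  · intro p _ q _ h
    exact mul_left_cancel h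
  · intro q hq
    rw [Finset.mem_filter] at hq
    refine ⟨Tuple.sort x * q, ?_, by simp⟩
    rw [Finset.mem_filter]
    refine ⟨Finset.mem_univ _, fun a b hab => (key _ a b).2 ?_⟩
    simpa using hq.2 a b hab

open Classical in
theorem pt (R : Fin n → Fin n → Prop) (G : (Fin n → ℝ) → ℝ)
    (hG : ∀ (p : Equiv.Perm (Fin n)) (x : Fin n → ℝ), G (fun i => x (p i)) = G x)
    (x : Fin n → ℝ) (hx : Function.Injective x) :
    ∑ p : Equiv.Perm (Fin n), (CR R).indicator G (fun i => x (p i)) = (Lc R : ℝ) * G x := by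
  have h1 : ∀ p : Equiv.Perm (Fin n), (CR R).indicator G (fun i => x (p i)) =
      if (∀ a b, R a b → x (p a) ≤ x (p b)) then G x else 0 := by
    intro p
    by_cases h : ∀ a b, R a b → x (p a) ≤ x (p b)
    · have hm : (fun i => x (p i)) ∈ CR R := h
      rw [indicator_of_mem hm, if_pos h, hG]
    · have hm : (fun i => x (p i)) ∉ CR R := fun hm => h hm
      rw [indicator_of_notMem hm, if_neg h]
  rw [Finset.sum_congr rfl (fun p _ => h1 p), ← Finset.sum_filter, Finset.sum_const, cntL R x hx,
    nsmul_eq_mul]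

theorem E1 (R : Fin n → Fin n → Prop) (G : (Fin n → ℝ) → ℝ) (hc : Integrable G (pw n ν))
    (hG : ∀ (p : Equiv.Perm (Fin n)) (x : Fin n → ℝ), G (fun i => x (p i)) = G x) :
    (Fintype.card (Equiv.Perm (Fin n)) : ℝ) * ∫ x in CR R, G x ∂pw n ν =
      (Lc R : ℝ) * ∫ x, G x ∂pw n ν := by
  have hint : Integrable ((CR R).indicator G) (pw n ν) := hc.indicator (clK R).measurableSet
  have h1 : ∀ p : Equiv.Perm (Fin n),
      Integrable (fun x : Fin n → ℝ => (CR R).indicator G (fun i => x (p i))) (pw n ν) := by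
    intro p
    exact ((perm ν p).1.integrable_comp hint.1).2 hint
  calc (Fintype.card (Equiv.Perm (Fin n)) : ℝ) * ∫ x in CR R, G x ∂pw n ν
      = ∑ _p : Equiv.Perm (Fin n), ∫ x in CR R, G x ∂pw n ν := by
        rw [Finset.sum_const, Finset.card_univ, nsmul_eq_mul]
    _ = ∑ p : Equiv.Perm (Fin n), ∫ x : Fin n → ℝ, (CR R).indicator G (fun i => x (p i)) ∂pw n ν := by
        apply Finset.sum_congr rfl
        intro p _
        rw [(perm ν p).2, integral_indicator (clK R).measurableSet]
    _ = ∫ x : Fin n → ℝ, ∑ p : Equiv.Perm (Fin n), (CR R).indicator G (fun i => x (p i)) ∂pw n ν := by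
        rw [integral_finsetSum _ (fun p _ => h1 p)]
    _ = ∫ x : Fin n → ℝ, (Lc R : ℝ) * G x ∂pw n ν := by
        apply integral_congr_ae
        filter_upwards [ties ν] with x hx
        exact pt R G hG x hx
    _ = (Lc R : ℝ) * ∫ x, G x ∂pw n ν := by
        rw [integral_const_mul]

end Pool.Agent.T2h95.OC.SYG

namespace Pool.Agent.T2h95.OC

open MeasureTheory Set Filter Topology SYG

theorem t_SYG : S_SYG := by
  intro ν _ _ n R h hi hG
  have e1 := E1 ν R h hi hG
  have e2 := E1 ν R (fun _ => 1) (integrable_const _) (fun _ _ => rfl)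
  have e3 : ∫ _x : Fin n → ℝ, (1 : ℝ) ∂pw n ν = 1 := by simp
  have e4 : ∫ _x in CR R, (1 : ℝ) ∂pw n ν = (pw n ν (CR R)).toReal := by
    simp [Measure.real]
  rw [e3, e4, mul_one] at e2
  rw [← e2] at e1
  have hpos : (Fintype.card (Equiv.Perm (Fin n)) : ℝ) ≠ 0 := by
    exact_mod_cast Fintype.card_ne_zero
  apply mul_left_cancel₀ hpos
  rw [e1]
  ring

end Pool.Agent.T2h95.OC
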