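import Pool.Agent.T2h95.OC.All
import Pool.Agent.T2h95.OC.SYG
import Pool.Agent.T2h95.OC.SSM
import Pool.Agent.T2h95.OC.SSG
import Pool.Agent.T2h95.OC.CNV
import Pool.Agent.T2h95.OC.DIR
import Pool.Agent.T2h95.OC.KLD

/-!
# Order-conditioned product measures: the Poincare constant (parts 1 and 3)
-/

set_option autoImplicit false

namespace Pool.Agent.T2h95.OC

theorem ssm_all : S_SSM := t_SSM t_SYG t_OCI

theorem cnv_all : S_CNV := t_CNV ssm_all (t_SSG t_SYG t_OCI t_NRM)

theorem dir_all : S_DIR := t_DIR fin1_all t_NRM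

theorem kld_all : S_KLD := t_KLD lc_all fin1_all t_NRM ssm_all

end Pool.Agent.T2h95.OC
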