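import Pool.Agent.T2h95.OC.Stm2

/-!
# Project OC, task BDE: the energy of the mean over the fibre
-/

set_option autoImplicit false

namespace Pool.Agent.T2h95.OC

open MeasureTheory Set Filter Topology
open scoped ENNReal
open Pool.Agent.R972.OP (OPp pd)

theorem bde_cu (n : ℕ) : IsCompact (cu n) ∧ volume (cu n) = 1 := by
  have e : cu n = Set.pi univ fun _ => Icc (0 : ℝ) 1 := by
    ext x
    simp only [cu, Bx, mem_ofPred_eq, mem_univ_pi, mem_Icc]
  rw [e]
  refine ⟨isCompact_univ_pi fun _ => isCompact_Icc, ?_⟩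
  rw [volume_pi, Measure.pi_pi]
  simp

theorem bde_jensen {Ω : Type*} [MeasurableSpace Ω] (μ : Measure Ω) [IsProbabilityMeasure μ]
    (φ : Ω → ℝ) (h1 : Integrable φ μ) (h2 : Integrable (fun x => φ x ^ 2) μ) :
    (∫ x, φ x ∂μ) ^ 2 ≤ ∫ x, φ x ^ 2 ∂μ := by
  set m := ∫ x, φ x ∂μ with hm
  have h3 : 0 ≤ ∫ x, (φ x - m) ^ 2 ∂μ := integral_nonneg fun x => sq_nonneg _
  have h4 : ∫ x, (φ x - m) ^ 2 ∂μ = (∫ x, φ x ^ 2 ∂μ) - m ^ 2 := by
    have e : ∀ x, (φ x - m) ^ 2 = (φ x ^ 2 - 2 * m * φ x) + m ^ 2 := fun x => by ring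
    have j : Integrable (fun x => φ x ^ 2 - 2 * m * φ x) μ := h2.sub (h1.const_mul _)
    rw [integral_congr_ae (Eventually.of_forall e), integral_add j (integrable_const _),
      integral_sub h2 (h1.const_mul _), integral_const_mul, integral_const, ← hm]
    simp
    ring
  linarith

theorem t_BDE (hG : S_GDF) : S_BDE := by
  intro n α β H c d a b f hαc hcd hdβ hH ha hb hda hdb hf x hx
  obtain ⟨hcu, hcu1⟩ := bde_cu n
  have hprob : IsProbabilityMeasure ((volume : Measure (Fin n → ℝ)).restrict (cu n)) := ⟨by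
    rw [Measure.restrict_apply_univ, hcu1]⟩
  obtain ⟨-, hpd⟩ := hG n a b f ha hb hf
  have hsvc : Continuous fun v : Fin n → ℝ => sv a b x v := by
    refine continuous_pi fun i => ?_
    exact continuous_const.add (continuous_const.mul (continuous_apply i))
  have hpc : Continuous fun v : Fin n → ℝ => (x, sv a b x v) := continuous_const.prodMk hsvc
  have hdX : ∀ i, Continuous fun v => dX f i (x, sv a b x v) := fun i =>
    (((hf.continuous_fderiv (by norm_num)).comp hpc).clm_apply continuous_const)
  have hdS : ∀ i, Continuous fun v => dS f i (x, sv a b x v) := fun i =>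
    (((hf.continuous_fderiv (by norm_num)).comp hpc).clm_apply continuous_const)
  have hint : ∀ φ : (Fin n → ℝ) → ℝ, Continuous φ → Integrable φ (volume.restrict (cu n)) :=
    fun φ hφ => hφ.continuousOn.integrableOn_compact hcu
  unfold fm Ga
  rw [integral_finsetSum _ fun i _ => hint _ (by
    exact (continuous_const.mul ((hdX i).pow 2)).add (continuous_const.mul ((hdS i).pow 2)))]
  refine Finset.sum_le_sum fun i _ => ?_
  have hxi := hx i
  have hxI : x i ∈ Icc c d := hxi
  -- distances
  set m : ℝ := min (x i - α) (β - x i) with hm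
  have hm0 : 0 < m := lt_min (by linarith [hxi.1]) (by linarith [hxi.2])
  have hds : ds α β (x i) = m := by
    unfold ds
    exact max_eq_right hm0.le
  have hml : m ≤ (β - α) / 2 := by
    have h1 : m ≤ x i - α := min_le_left _ _
    have h2 : m ≤ β - x i := min_le_right _ _
    linarith
  set w : (Fin n → ℝ) → ℝ := fun v => deriv a (x i) + (deriv b (x i) - deriv a (x i)) * v i with hw
  have hwc : Continuous w := continuous_const.add (continuous_const.mul (continuous_apply i))
  set φ : (Fin n → ℝ) → ℝ := fun v => dX f i (x, sv a b x v) + w v * dS f i (x, sv a b x v) with hφ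
  have hφc : Continuous φ := (hdX i).add (hwc.mul (hdS i))
  have hpdi : pd (fm a b f) i x = ∫ v in cu n, φ v := hpd i x
  have h1 : pd (fm a b f) i x ^ 2 ≤ ∫ v in cu n, φ v ^ 2 := by
    rw [hpdi]
    exact bde_jensen _ φ (hint _ hφc) (hint _ (hφc.pow 2))
  have hwb : ∀ v ∈ cu n, m * |w v| ≤ 2 * H := by
    intro v hv
    have hv0 : 0 ≤ v i := (hv i).1
    have hv1 : v i ≤ 1 := (hv i).2
    have e : w v = (1 - v i) * deriv a (x i) + v i * deriv b (x i) := by
      show deriv a (x i) + (deriv b (x i) - deriv a (x i)) * v i = _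
      ring
    have h2 : |w v| ≤ 2 * H / m := by
      rw [e]
      refine (abs_add_le _ _).trans ?_
      rw [abs_mul, abs_mul, abs_of_nonneg (by linarith : 0 ≤ 1 - v i), abs_of_nonneg hv0]
      have h3 := hda (x i) hxI
      have h4 := hdb (x i) hxI
      calc (1 - v i) * |deriv a (x i)| + v i * |deriv b (x i)|
          ≤ (1 - v i) * (2 * H / m) + v i * (2 * H / m) :=
            add_le_add (mul_le_mul_of_nonneg_left h3 (by linarith))
              (mul_le_mul_of_nonneg_left h4 hv0)
        _ = 2 * H / m := by ring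
    rw [le_div_iff₀ hm0] at h2
    linarith
  calc 16 * ds α β (x i) ^ 2 * pd (fm a b f) i x ^ 2
      ≤ 16 * m ^ 2 * ∫ v in cu n, φ v ^ 2 := by
        rw [hds]
        exact mul_le_mul_of_nonneg_left h1 (by positivity)
    _ = ∫ v in cu n, 16 * m ^ 2 * φ v ^ 2 := by rw [integral_const_mul]
    _ ≤ ∫ v in cu n, (8 * (β - α) ^ 2 * dX f i (x, sv a b x v) ^ 2 +
          128 * H ^ 2 * dS f i (x, sv a b x v) ^ 2) := by
        refine setIntegral_mono_on (hint _ (continuous_const.mul (hφc.pow 2))) (hint _
          ((continuous_const.mul ((hdX i).pow 2)).add (continuous_const.mul ((hdS i).pow 2))))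
          hcu.isClosed.measurableSet fun v hv => ?_
        show 16 * m ^ 2 * (dX f i (x, sv a b x v) + w v * dS f i (x, sv a b x v)) ^ 2 ≤ _
        set u := dX f i (x, sv a b x v)
        set z := dS f i (x, sv a b x v)
        have h5 : (u + w v * z) ^ 2 ≤ 2 * u ^ 2 + 2 * (w v ^ 2 * z ^ 2) := by
          nlinarith [sq_nonneg (u - w v * z)]
        have h6 : m ^ 2 * w v ^ 2 ≤ 4 * H ^ 2 := by
          have h7 := hwb v hv
          have h8 : 0 ≤ m * |w v| := by positivity
          have h9 := mul_self_le_mul_self h8 h7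
          have h10 : m * |w v| * (m * |w v|) = m ^ 2 * w v ^ 2 := by
            rw [← sq_abs (w v)]
            ring
          rw [h10] at h9
          linarith
        have h11 : m ^ 2 ≤ (β - α) ^ 2 / 4 := by
          have := mul_self_le_mul_self hm0.le hml
          nlinarith
        calc 16 * m ^ 2 * (u + w v * z) ^ 2
            ≤ 16 * m ^ 2 * (2 * u ^ 2 + 2 * (w v ^ 2 * z ^ 2)) :=
              mul_le_mul_of_nonneg_left h5 (by positivity)
          _ = 32 * (m ^ 2 * u ^ 2) + 32 * ((m ^ 2 * w v ^ 2) * z ^ 2) := by ring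
          _ ≤ 32 * ((β - α) ^ 2 / 4 * u ^ 2) + 32 * (4 * H ^ 2 * z ^ 2) := by
              have h12 := mul_le_mul_of_nonneg_right h11 (sq_nonneg u)
              have h13 := mul_le_mul_of_nonneg_right h6 (sq_nonneg z)
              linarith
          _ = _ := by ring

end Pool.Agent.T2h95.OC
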