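import Pool.Agent.T2h95.OC.CHE0
import Pool.Agent.R310.OP2.Body
import Pool.Agent.R656.OP2.Core

/-!
# From the Poincare inequality to the KLS inequality (task CHE of project OC)
-/

set_option autoImplicit false

namespace Pool.Agent.T2h95.OC

theorem t_CHE : S_CHE := che_of (Pool.Agent.R310.OP2.Body.bodl Pool.Agent.R656.OP2.t_corl)

end Pool.Agent.T2h95.OC
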