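import Pool.Agent.T2h95.OC.Stm2
import Pool.Agent.Y211.FF.Half
import Pool.Agent.W800.KH.Mink

/-!
# From the Poincare inequality to the KLS inequality (task CHE of project OC)
-/

set_option autoImplicit false

namespace Pool.Agent.T2h95.OC

open MeasureTheory Set Filter Topology
open scoped ENNReal InnerProductSpace
open Pool.Agent.R972.OP (S_BODL)
open Pool.Agent.W695.KH (EV VV Sm)

namespace CHE

variable {ι : Type} [Fintype ι]

theorem ung_prob {K : Set (EuclideanSpace ℝ ι)} (hc : IsCompact K) (hv : 0 < volume K) :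
    IsProbabilityMeasure (ung K) := by
  refine ⟨?_⟩
  unfold ung
  rw [Measure.smul_apply, Measure.restrict_apply_univ, smul_eq_mul]
  exact ENNReal.inv_mul_cancel hv.ne' hc.measure_lt_top.ne

theorem ung_int (K : Set (EuclideanSpace ℝ ι)) (v : EuclideanSpace ℝ ι → ℝ) : ∫ x, v x ∂(ung K) = EV K v := by
  unfold ung EV
  rw [integral_smul_measure, ENNReal.toReal_inv, smul_eq_mul, inv_mul_eq_div]

theorem ung_integrable {K : Set (EuclideanSpace ℝ ι)} (hc : IsCompact K) (hv : 0 < volume K)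
    (v : EuclideanSpace ℝ ι → ℝ) (h : Continuous v) : Integrable v (ung K) := by
  unfold ung
  exact (h.continuousOn.integrableOn_compact hc).smul_measure (ENNReal.inv_ne_top.2 hv.ne')

/-- all measurable sets -/
theorem sets (hB : S_BODL) {K : Set (EuclideanSpace ℝ ι)} (hc : IsCompact K) (hco : Convex ℝ K)
    (hv : 0 < volume K) (Cp : ℝ) (hCp : 0 < Cp)
    (hP : ∀ v : EuclideanSpace ℝ ι → ℝ, ContDiff ℝ 1 v → VV K v ≤ Cp * EV K fun x => ‖fderiv ℝ v x‖ ^ 2)
    (S : Set (EuclideanSpace ℝ ι)) (hS : MeasurableSet S) :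
    min (ung K S) (1 - ung K S) ≤ ENNReal.ofReal (8 * Real.sqrt Cp) * bdg (ung K) S := by
  have hprob := ung_prob hc hv
  have key : ung K S * (1 - ung K S) ≤ ENNReal.ofReal (4 * Real.sqrt Cp) * bdg (ung K) S := by
    refine Pool.Agent.W800.KH.t_mink ι K hc hco hv (4 * Real.sqrt Cp) (by positivity) ?_
      (ung K) rfl S hS
    intro f L M hf hb
    exact hB ι K hc hco hv Cp hCp hP f L M hf hb
  obtain ⟨I, hI⟩ : ∃ I : ℝ≥0∞, I = bdg (ung K) S := ⟨_, rfl⟩
  rw [← hI] at key ⊢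
  obtain ⟨a, ha⟩ : ∃ a : ℝ≥0∞, a = ung K S := ⟨_, rfl⟩
  rw [← ha] at key ⊢
  have ha1 : a ≤ 1 := by rw [ha]; exact prob_le_one
  have hadd : a + (1 - a) = 1 := add_tsub_cancel_of_le ha1
  have hmin : min a (1 - a) ≤ 2 * (a * (1 - a)) := by
    rcases le_total a (1 - a) with h1 | h1
    · have h2 : 1 ≤ 2 * (1 - a) := by
        calc (1 : ℝ≥0∞) = a + (1 - a) := hadd.symm
          _ ≤ (1 - a) + (1 - a) := by gcongr
          _ = 2 * (1 - a) := (two_mul _).symm
      calc min a (1 - a) ≤ a * 1 := by rw [mul_one]; exact min_le_left _ _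
        _ ≤ a * (2 * (1 - a)) := by gcongr
        _ = _ := by ring
    · have h2 : 1 ≤ 2 * a := by
        calc (1 : ℝ≥0∞) = a + (1 - a) := hadd.symm
          _ ≤ a + a := by gcongr
          _ = 2 * a := (two_mul _).symm
      calc min a (1 - a) ≤ 1 * (1 - a) := by rw [one_mul]; exact min_le_right _ _
        _ ≤ 2 * a * (1 - a) := by gcongr
        _ = _ := by ring
  calc min a (1 - a) ≤ 2 * (a * (1 - a)) := hmin
    _ ≤ 2 * (ENNReal.ofReal (4 * Real.sqrt Cp) * I) := by gcongr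
    _ = ENNReal.ofReal 2 * ENNReal.ofReal (4 * Real.sqrt Cp) * I := by
        rw [ENNReal.ofReal_ofNat, mul_assoc]
    _ = ENNReal.ofReal (8 * Real.sqrt Cp) * I := by
        rw [← ENNReal.ofReal_mul (by norm_num)]
        congr 2; ring

end CHE

open CHE in
theorem che_of (hB : S_BODL) : S_CHE := by
  obtain ⟨C, hC, HH⟩ := Pool.Agent.Y211.FF.half
  intro κ hκ
  refine ⟨1 / (8 * Real.sqrt (C * κ)), by positivity, ?_⟩
  intro ι _ K hc hco hi Cp θ hCp hθ hP hV t ht A hA
  have hv : 0 < volume K :=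
    lt_of_lt_of_le (isOpen_interior.measure_pos volume hi) (measure_mono interior_subset)
  have hprob := ung_prob hc hv
  have hθ0 : θ ≠ 0 := by
    rintro rfl
    simp at hθ
  obtain ⟨m, hm⟩ := HH ι K hc hco hi (ung K) rfl θ t hθ fun b => ht θ b hθ0
  have hcont : Continuous fun x : EuclideanSpace ℝ ι => (⟪θ, x⟫_ℝ - m) ^ 2 := by fun_prop
  rw [← ofReal_integral_eq_lintegral_ofReal (ung_integrable hc hv _ hcont)
    (Eventually.of_forall fun x => sq_nonneg _), ung_int] at hm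
  have h3 : Cp / κ ≤ EV K fun x => (⟪θ, x⟫_ℝ - m) ^ 2 := by
    rw [div_le_iff₀ hκ, mul_comm]
    exact hV m
  have h5 : t ^ 2 * ENNReal.ofReal (Cp / κ) ≤ ENNReal.ofReal C :=
    (mul_le_mul_right (ENNReal.ofReal_le_ofReal h3) _).trans hm
  have ht2 : t ^ 2 ≤ ENNReal.ofReal (C * κ / Cp) := by
    have e : ENNReal.ofReal (C * κ / Cp) = ENNReal.ofReal C * ENNReal.ofReal (κ / Cp) := by
      rw [← ENNReal.ofReal_mul hC.le, mul_div_assoc]
    rw [e]
    calc t ^ 2 = t ^ 2 * ENNReal.ofReal (Cp / κ) * ENNReal.ofReal (κ / Cp) := by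
          rw [mul_assoc, ← ENNReal.ofReal_mul (by positivity)]
          have : Cp / κ * (κ / Cp) = 1 := by field_simp
          rw [this]; simp
      _ ≤ _ := mul_le_mul_left h5 _
  have ht3 : t ≤ ENNReal.ofReal (Real.sqrt (C * κ / Cp)) := by
    have e : ENNReal.ofReal (C * κ / Cp) = ENNReal.ofReal (Real.sqrt (C * κ / Cp)) ^ 2 := by
      rw [← ENNReal.ofReal_pow (Real.sqrt_nonneg _), Real.sq_sqrt (by positivity)]
    rw [e] at ht2
    exact (ENNReal.pow_le_pow_left_iff two_ne_zero).1 ht2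
  have hset := sets hB hc hco hv Cp hCp hP A hA
  obtain ⟨I, hI⟩ : ∃ I : ℝ≥0∞, I = bdg (ung K) A := ⟨_, rfl⟩
  obtain ⟨M, hM⟩ : ∃ M : ℝ≥0∞, M = min (ung K A) (1 - ung K A) := ⟨_, rfl⟩
  rw [← hI, ← hM] at hset ⊢
  calc ENNReal.ofReal (1 / (8 * Real.sqrt (C * κ))) * t * M
      ≤ ENNReal.ofReal (1 / (8 * Real.sqrt (C * κ))) * ENNReal.ofReal (Real.sqrt (C * κ / Cp)) *
          (ENNReal.ofReal (8 * Real.sqrt Cp) * I) := by gcongr
    _ = (ENNReal.ofReal (1 / (8 * Real.sqrt (C * κ))) * ENNReal.ofReal (Real.sqrt (C * κ / Cp)) *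
          ENNReal.ofReal (8 * Real.sqrt Cp)) * I := by ring
    _ = I := by
        rw [← ENNReal.ofReal_mul (by positivity), ← ENNReal.ofReal_mul (by positivity)]
        have h7 : 0 < Real.sqrt Cp := Real.sqrt_pos.2 hCp
        have h8 : 0 < Real.sqrt (C * κ) := Real.sqrt_pos.2 (by positivity)
        have : 1 / (8 * Real.sqrt (C * κ)) * Real.sqrt (C * κ / Cp) * (8 * Real.sqrt Cp) = 1 := by
          rw [Real.sqrt_div (by positivity)]
          field_simp
        rw [this, ENNReal.ofReal_one, one_mul]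

end Pool.Agent.T2h95.OC
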