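import Pool.Agent.T2h95.OC.Stm2

/-! # CUB: variance over a fibre -/

set_option autoImplicit false

namespace Pool.Agent.T2h95.OC

open MeasureTheory Set Filter Topology
open scoped ENNReal BigOperators
open Pool.Agent.R972.OP (OPp pd S_SYM S_POB S_BODL)

namespace CUB

theorem opp_eq (n : ℕ) : OPp (fun _ _ : Fin n => False) = cu n := by
  ext x; simp [OPp, cu, Bx]

theorem cu_eq (n : ℕ) : cu n = Icc (0 : Fin n → ℝ) 1 := by
  ext x
  simp only [cu, Bx, mem_ofPred_eq, mem_Icc, Pi.le_def, Pi.zero_apply, Pi.one_apply]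
  exact ⟨fun h => ⟨fun i => (h i).1, fun i => (h i).2⟩, fun h i => ⟨h.1 i, h.2 i⟩⟩

theorem cu_vol (n : ℕ) : volume (cu n) = 1 := by
  rw [cu_eq, Real.volume_Icc_pi]
  simp

theorem cu_comp (n : ℕ) : IsCompact (cu n) := by
  rw [cu_eq]; exact isCompact_Icc

end CUB

theorem t_CUB (h1 : S_POB) : S_CUB := by
  intro α β lo H a b hP n f hf x
  -- the map of the fibre
  have hsv : ContDiff ℝ 1 fun v : Fin n → ℝ => (x, sv a b x v) := by
    refine contDiff_const.prodMk (contDiff_pi.2 fun i => ?_)
    exact contDiff_const.add (contDiff_const.mul (contDiff_apply ℝ ℝ i))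
  set F : (Fin n → ℝ) → ℝ := fun v => f (x, sv a b x v) with hF
  have hFc : ContDiff ℝ 1 F := hf.comp hsv
  have hp := h1 n (fun _ _ => False) (fun _ h => h) F hFc
  rw [CUB.opp_eq, CUB.cu_vol] at hp
  simp only [ENNReal.toReal_one, one_mul] at hp
  -- partial derivatives
  have hpd : ∀ (v : Fin n → ℝ) (i : Fin n),
      pd F i v = (b (x i) - a (x i)) * dS f i (x, sv a b x v) := by
    intro v i
    have hd1 : HasFDerivAt f (fderiv ℝ f (x, sv a b x v)) (x, sv a b x v) :=
      (hf.differentiable (by norm_num) _).hasFDerivAt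
    have hd2 : HasDerivAt (fun t : ℝ => (x, sv a b x (v + t • Pi.single i 1)))
        ((0, Pi.single i (b (x i) - a (x i))) : (Fin n → ℝ) × (Fin n → ℝ)) 0 := by
      refine HasDerivAt.prodMk (hasDerivAt_const _ _) ?_
      rw [hasDerivAt_pi]
      intro j
      unfold sv
      by_cases hj : j = i
      · subst hj
        simp only [Pi.add_apply, Pi.smul_apply, Pi.single_eq_same, smul_eq_mul, mul_one]
        have := (((hasDerivAt_id (0 : ℝ)).const_add (v j)).const_mul
          (b (x j) - a (x j))).const_add (a (x j))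
        simpa using this
      · simp only [Pi.add_apply, Pi.smul_apply, Pi.single_eq_of_ne hj, smul_eq_mul, mul_zero,
          add_zero]
        exact hasDerivAt_const _ _
    have hd3 : HasDerivAt (fun t : ℝ => F (v + t • Pi.single i 1))
        (fderiv ℝ f (x, sv a b x v) (0, Pi.single i (b (x i) - a (x i)))) 0 := by
      have hd1' : HasFDerivAt f (fderiv ℝ f (x, sv a b x v))
          ((fun t : ℝ => (x, sv a b x (v + t • Pi.single i 1))) 0) := by simpa using hd1
      exact hd1'.comp_hasDerivAt (0 : ℝ) hd2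
    have hd4 : HasDerivAt (fun t : ℝ => F (v + t • Pi.single i 1))
        (fderiv ℝ F v (Pi.single i 1)) 0 := by
      have hF' : HasFDerivAt F (fderiv ℝ F v) ((fun t : ℝ => v + t • Pi.single i 1) 0) := by
        simpa using (hFc.differentiable (by norm_num) v).hasFDerivAt
      have : HasDerivAt (fun t : ℝ => v + t • (Pi.single i 1 : Fin n → ℝ))
          (Pi.single i 1 : Fin n → ℝ) 0 := by
        simpa using ((hasDerivAt_id (0 : ℝ)).smul_const (Pi.single i 1 : Fin n → ℝ)).const_add v
      exact hF'.comp_hasDerivAt (0 : ℝ) this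
    have e1 : pd F i v = fderiv ℝ f (x, sv a b x v) (0, Pi.single i (b (x i) - a (x i))) :=
      hd4.unique hd3
    rw [e1]
    have e2 : ((0, Pi.single i (b (x i) - a (x i))) : (Fin n → ℝ) × (Fin n → ℝ)) =
        (b (x i) - a (x i)) • (0, Pi.single i 1) := by
      rw [Prod.smul_mk, smul_zero]
      congr 1
      rw [← Pi.single_smul, smul_eq_mul, mul_one]
    rw [e2, map_smul, smul_eq_mul]
    rfl
  have hcv : Continuous fun v : Fin n → ℝ => (x, sv a b x v) := hsv.continuous
  have hdS : ∀ i, Continuous (dS f i) := fun i => by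
    unfold dS
    exact (hf.continuous_fderiv (by norm_num)).clm_apply continuous_const
  have hi1 : IntegrableOn (fun v => ∑ i, pd F i v ^ 2) (cu n) := by
    have : Continuous fun v => ∑ i, pd F i v ^ 2 := by
      refine continuous_finsetSum _ fun i _ => ?_
      simp only [hpd]
      exact (continuous_const.mul ((hdS i).comp hcv)).pow 2
    exact this.continuousOn.integrableOn_compact (CUB.cu_comp n)
  have hi2 : IntegrableOn (fun v => ∑ i, H ^ 2 * dS f i (x, sv a b x v) ^ 2) (cu n) := by
    have : Continuous fun v => ∑ i, H ^ 2 * dS f i (x, sv a b x v) ^ 2 := by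
      refine continuous_finsetSum _ fun i _ => ?_
      exact continuous_const.mul (((hdS i).comp hcv).pow 2)
    exact this.continuousOn.integrableOn_compact (CUB.cu_comp n)
  have hle : ∫ v in cu n, ∑ i, pd F i v ^ 2 ≤
      ∫ v in cu n, ∑ i, H ^ 2 * dS f i (x, sv a b x v) ^ 2 := by
    refine integral_mono hi1 hi2 fun v => ?_
    refine Finset.sum_le_sum fun i _ => ?_
    rw [hpd, mul_pow]
    refine mul_le_mul_of_nonneg_right ?_ (sq_nonneg _)
    have hab := hP.ab (x i)
    have h3 := hP.lo_le (x i)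
    have h4 := hP.le_hi (x i)
    exact pow_le_pow_left₀ (by linarith) (by linarith) 2
  have h0 : 0 ≤ ∫ v in cu n, ∑ i, pd F i v ^ 2 :=
    integral_nonneg fun v => Finset.sum_nonneg fun i _ => sq_nonneg _
  have hpi : 1 / Real.pi ^ 2 ≤ 1 := by
    rw [div_le_one (by positivity)]
    have := Real.pi_gt_three
    nlinarith
  have h5 : 1 / Real.pi ^ 2 * ∫ v in cu n, ∑ i, pd F i v ^ 2 ≤
      1 * ∫ v in cu n, ∑ i, pd F i v ^ 2 := mul_le_mul_of_nonneg_right hpi h0
  have h6 : fm a b (fun p => f p ^ 2) x = ∫ v in cu n, F v ^ 2 := rfl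
  have h7 : fm a b f x = ∫ v in cu n, F v := rfl
  have h8 : fm a b (fun p => ∑ i, H ^ 2 * dS f i p ^ 2) x =
    ∫ v in cu n, ∑ i, H ^ 2 * dS f i (x, sv a b x v) ^ 2 := rfl
  rw [h6, h7, h8]
  linarith

end Pool.Agent.T2h95.OC
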