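import Pool.Agent.T2h95.OC.Stm2

/-! # EUC: coordinates on the Euclidean space -/

set_option autoImplicit false

namespace Pool.Agent.T2h95.OC

open MeasureTheory Set Filter Topology
open scoped ENNReal BigOperators

namespace EUC

/-- coordinates -/
noncomputable def E0 (n : ℕ) : ((Fin n → ℝ) × (Fin n → ℝ)) ≃ᵐ (Fin n × Fin 2 → ℝ) where
  toFun p z := ![p.1 z.1, p.2 z.1] z.2
  invFun y := (fun i => y (i, 0), fun i => y (i, 1))
  left_inv p := by simp
  right_inv y := by
    funext z
    obtain ⟨i, j⟩ := z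
    fin_cases j <;> simp
  measurable_toFun := by
    refine measurable_pi_lambda _ fun z => ?_
    obtain ⟨i, j⟩ := z
    fin_cases j
    · exact (measurable_pi_apply i).comp measurable_fst
    · exact (measurable_pi_apply i).comp measurable_snd
  measurable_invFun := by
    refine Measurable.prodMk ?_ ?_
    · exact measurable_pi_lambda _ fun i => measurable_pi_apply _
    · exact measurable_pi_lambda _ fun i => measurable_pi_apply _

theorem E0_mp (n : ℕ) : MeasurePreserving (E0 n) := by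
  refine ⟨(E0 n).measurable, ?_⟩
  rw [volume_pi]
  refine (Measure.pi_eq fun s hs => ?_).symm
  rw [Measure.map_apply (E0 n).measurable (MeasurableSet.univ_pi hs)]
  have hpre : (E0 n) ⁻¹' (univ.pi s) =
      (univ.pi fun i : Fin n => s (i, 0)) ×ˢ (univ.pi fun i : Fin n => s (i, 1)) := by
    ext p
    simp only [mem_preimage, mem_univ_pi, mem_prod]
    constructor
    · intro h
      exact ⟨fun i => h (i, 0), fun i => h (i, 1)⟩
    · rintro ⟨h0, h1⟩ ⟨i, j⟩
      fin_cases j
      · exact h0 i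
      · exact h1 i
  rw [hpre, Measure.volume_eq_prod, Measure.prod_prod, volume_pi_pi, volume_pi_pi,
    Fintype.prod_prod_type, ← Finset.prod_mul_distrib]
  refine Finset.prod_congr rfl fun i _ => ?_
  rw [Fin.prod_univ_two]

/-- coordinates, Euclidean -/
noncomputable def E1 (n : ℕ) : ((Fin n → ℝ) × (Fin n → ℝ)) ≃ᵐ
    EuclideanSpace ℝ (Fin n × Fin 2) :=
  (E0 n).trans (MeasurableEquiv.toLp 2 (Fin n × Fin 2 → ℝ))

theorem E1_mp (n : ℕ) : MeasurePreserving (E1 n) :=
  (PiLp.volume_preserving_toLp (Fin n × Fin 2)).comp (E0_mp n)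

theorem E1_eq {n : ℕ} (p : (Fin n → ℝ) × (Fin n → ℝ)) : E1 n p = pt p := rfl

theorem pre (n : ℕ) (D : Set (EuclideanSpace ℝ (Fin 2))) (R : Fin n → Fin n → Prop) :
    (E1 n) ⁻¹' (KK D R) = KP (DC D) R := by
  ext p
  simp only [mem_preimage, E1_eq, KK, KP, DC, CR, mem_ofPred_eq, pt]
  have e : ∀ i : Fin n, (fun j : Fin 2 => (![p.1 i, p.2 i] : Fin 2 → ℝ) j) = ![p.1 i, p.2 i] :=
    fun i => rfl
  simp only [Matrix.cons_val_zero, e]
  exact and_comm

end EUC

theorem t_EUC : S_EUC := by
  intro n D R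
  constructor
  · rw [← EUC.pre, (EUC.E1_mp n).measure_preimage_equiv]
  · intro G
    rw [← (EUC.E1_mp n).setIntegral_preimage_emb (EUC.E1 n).measurableEmbedding, EUC.pre]
    rfl

end Pool.Agent.T2h95.OC
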