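import Pool.Agent.T2h95.OC.Stm

set_option autoImplicit false

namespace Pool.Agent.T2h95.OC

open MeasureTheory Set Filter Topology
open scoped ENNReal

theorem t_FIN2 (h1 : S_SYV) (h2 : S_OCI) : S_FIN2 := by
  intro ν _ _ q hq hL n R hne
  obtain ⟨hp, hG⟩ := h2 n ν R hne
  have hm : ∀ i : Fin n, MemLp (fun x : Fin n → ℝ => x i) 2 (pw n ν) := fun i =>
    hL.comp_measurePreserving (measurePreserving_eval (fun _ : Fin n => ν) i)
  have hS : MemLp (fun x : Fin n → ℝ => ∑ i, x i) 2 (pw n ν) := memLp_finsetSum _ fun i _ => hm i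
  have hS1 : Integrable (fun x : Fin n → ℝ => ∑ i, x i) (pw n ν) := hS.integrable (by norm_num)
  have hS2 : Integrable (fun x : Fin n → ℝ => (∑ i, x i) ^ 2) (pw n ν) := hS.integrable_sq
  have hsym : ∀ (p : Equiv.Perm (Fin n)) (x : Fin n → ℝ), ∑ i, x (p i) = ∑ i, x i := fun p x =>
    Equiv.sum_comp p x
  have hc : (pw n ν (CR R)).toReal ≠ 0 := ENNReal.toReal_ne_zero.mpr ⟨hne, measure_ne_top _ _⟩
  have e1 : ∫ x : Eu n, ∑ i, x i ∂(oc ν R) = ∫ x : Fin n → ℝ, ∑ i, x i ∂(pw n ν) := by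
    have := h1 ν q hq n R (fun x => ∑ i, x i) (by fun_prop) hS1 hsym
    rw [(hG fun x => ∑ i, x i).2]
    simp only
    rw [this, ← mul_assoc, inv_mul_cancel₀ hc, one_mul]
  have e2 : ∫ x : Eu n, (∑ i, x i) ^ 2 ∂(oc ν R) = ∫ x : Fin n → ℝ, (∑ i, x i) ^ 2 ∂(pw n ν) := by
    have := h1 ν q hq n R (fun x => (∑ i, x i) ^ 2) (by fun_prop) hS2 (fun p x => by
      simp only [hsym])
    rw [(hG fun x => (∑ i, x i) ^ 2).2]
    simp only
    rw [this, ← mul_assoc, inv_mul_cancel₀ hc, one_mul]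
  have hE : MemLp (fun x : Eu n => ∑ i, x i) 2 (oc ν R) := by
    rw [memLp_two_iff_integrable_sq (Continuous.aestronglyMeasurable (by fun_prop))]
    rw [(hG fun x => (∑ i, x i) ^ 2).1]
    exact hS2.integrableOn
  rw [ProbabilityTheory.variance_eq_sub hE]
  have hv : ProbabilityTheory.variance (fun x : Fin n → ℝ => ∑ i, x i) (pw n ν) =
      n * ProbabilityTheory.variance (fun x : ℝ => x) ν := by
    have := ProbabilityTheory.variance_sum_pi (μ := fun _ : Fin n => ν) (X := fun _ x => x) fun _ => hL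
    rw [Finset.sum_const, Finset.card_univ, Fintype.card_fin, nsmul_eq_mul] at this
    rw [← this]
    congr 1
    funext x
    rw [Finset.sum_apply]
  rw [← hv, ProbabilityTheory.variance_eq_sub hS]
  simp only [Pi.pow_apply]
  rw [e1, e2]

end Pool.Agent.T2h95.OC
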