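import Pool.Agent.T2h95.OC.Stm2

/-! # FMC -/

set_option autoImplicit false

namespace Pool.Agent.T2h95.OC

open MeasureTheory Set Filter Topology

theorem cu_compact (n : ℕ) : IsCompact (cu n) := by
  have h : cu n = Set.pi Set.univ fun _ : Fin n => Icc (0 : ℝ) 1 := by
    ext x
    exact ⟨fun h i _ => h i, fun h i => h i trivial⟩
  rw [h]
  exact isCompact_univ_pi fun _ => isCompact_Icc

theorem t_FMC : S_FMC := by
  intro n a b F ha hb hF
  refine continuous_parametric_integral_of_continuous (f := fun x v => F (x, sv a b x v)) ?_
    (cu_compact n)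
  unfold Function.uncurry sv
  fun_prop

end Pool.Agent.T2h95.OC
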