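import Pool.Agent.T2h95.OC.Stm2

/-!
# Project OC, task FUB: integrals over the ordered tuples of points
-/

set_option autoImplicit false

namespace Pool.Agent.T2h95.OC

open MeasureTheory Set Filter Topology
open scoped ENNReal
open Pool.Agent.R972.OP (OPp pd)

theorem fub_closed {n : ℕ} (R : Fin n → Fin n → Prop) : IsClosed (CR R) := by
  have e : CR R = ⋂ (i : Fin n) (j : Fin n) (_ : R i j), {x : Fin n → ℝ | x i ≤ x j} := by
    ext x
    simp only [CR, mem_ofPred_eq, mem_iInter]
  rw [e]
  exact isClosed_iInter fun i => isClosed_iInter fun j => isClosed_iInter fun _ =>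
    isClosed_le (continuous_apply i) (continuous_apply j)

theorem fub_DD_closed {α β : ℝ} {a b : ℝ → ℝ} (ha : Continuous a) (hb : Continuous b) :
    IsClosed (DD α β a b) := by
  refine ((isClosed_le continuous_const continuous_fst).inter
    (isClosed_le continuous_fst continuous_const)).inter
    ((isClosed_le (ha.comp continuous_fst) continuous_snd).inter
      (isClosed_le continuous_snd (hb.comp continuous_fst)))

theorem fub_compact {n : ℕ} (R : Fin n → Fin n → Prop) {α β lo H : ℝ} {a b : ℝ → ℝ}
    (hP : PB α β lo H a b) : IsCompact (KP (n := n) (DD α β a b) R) := by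
  have hcl : IsClosed (KP (n := n) (DD α β a b) R) := by
    have e : KP (n := n) (DD α β a b) R = (Prod.fst ⁻¹' CR R) ∩
        ⋂ i : Fin n, (fun p : (Fin n → ℝ) × (Fin n → ℝ) => (p.1 i, p.2 i)) ⁻¹' DD α β a b := by
      ext p
      simp only [KP, mem_ofPred_eq, mem_inter_iff, mem_preimage, mem_iInter]
    rw [e]
    refine ((fub_closed R).preimage continuous_fst).inter (isClosed_iInter fun i => ?_)
    exact (fub_DD_closed hP.ca hP.cb).preimage
      (((continuous_apply i).comp continuous_fst).prodMk ((continuous_apply i).comp continuous_snd))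
  refine ((isCompact_univ_pi fun _ : Fin n => isCompact_Icc (a := α) (b := β)).prod
    (isCompact_univ_pi fun _ : Fin n => isCompact_Icc (a := lo) (b := lo + H))).of_isClosed_subset
    hcl ?_
  rintro p ⟨-, hp⟩
  refine ⟨fun i _ => (hp i).1, fun i _ => ⟨(hP.lo_le _).trans (hp i).2.1, (hp i).2.2.trans (hP.le_hi _)⟩⟩

theorem t_FUB (h1 : S_FUB1) (h2 : S_FUB2) (hW : S_WPD) : S_FUB := by
  classical
  intro α β lo H a b hP n R G hG
  obtain ⟨hA, hprob, -, -⟩ := hW α β lo H a b hP
  set A := AA α β a b with hAdef
  set ρ := rh α β a b with hρ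
  have hρ0 : ∀ x, 0 ≤ ρ x := by
    intro x
    rw [hρ]
    unfold rh
    refine indicator_nonneg (fun x _ => ?_) x
    exact div_nonneg (sub_nonneg.2 (hP.ab x)) hA.le
  have hρm : Measurable ρ := by
    rw [hρ]
    unfold rh
    exact (((hP.cb.sub hP.ca).div_const _).measurable).indicator measurableSet_Icc
  have hρ1 : ∫⁻ x, ENNReal.ofReal (ρ x) = 1 := by
    have := hprob.measure_univ
    unfold law at this
    rwa [withDensity_apply _ MeasurableSet.univ, Measure.restrict_univ] at this
  have hCm : MeasurableSet (CR R) := (fub_closed R).measurableSet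
  rw [h2 n ρ hρ0 hρm hρ1 (CR R) (fm a b G) hCm]
  -- Fubini
  have hK := fub_compact R hP
  have hKm : MeasurableSet (KP (n := n) (DD α β a b) R) := hK.isClosed.measurableSet
  have hint : Integrable ((KP (n := n) (DD α β a b) R).indicator G)
      ((volume : Measure (Fin n → ℝ)).prod (volume : Measure (Fin n → ℝ))) := by
    rw [integrable_indicator_iff hKm]
    exact hG.continuousOn.integrableOn_compact hK
  have e1 : ∫ p in KP (DD α β a b) R, G p =
      ∫ x : Fin n → ℝ, ∫ s : Fin n → ℝ, (KP (n := n) (DD α β a b) R).indicator G (x, s) := by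
    rw [← integral_indicator hKm]
    exact integral_prod _ hint
  rw [e1, ← integral_indicator hCm, ← integral_const_mul]
  refine integral_congr_ae (Eventually.of_forall fun x => ?_)
  show ∫ s : Fin n → ℝ, (KP (n := n) (DD α β a b) R).indicator G (x, s) =
    A ^ n * (CR R).indicator (fun x => (∏ i, ρ (x i)) * fm a b G x) x
  by_cases hx : x ∈ CR R ∧ ∀ i, α ≤ x i ∧ x i ≤ β
  · obtain ⟨hxC, hxI⟩ := hx
    rw [indicator_of_mem hxC]
    have hbox : MeasurableSet {s : Fin n → ℝ | ∀ i, a (x i) ≤ s i ∧ s i ≤ a (x i) + (b (x i) - a (x i))} := by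
      have e : {s : Fin n → ℝ | ∀ i, a (x i) ≤ s i ∧ s i ≤ a (x i) + (b (x i) - a (x i))} =
          Set.pi univ fun i => Icc (a (x i)) (a (x i) + (b (x i) - a (x i))) := by
        ext s
        simp only [mem_ofPred_eq, mem_univ_pi, mem_Icc]
      rw [e]
      exact MeasurableSet.univ_pi fun _ => measurableSet_Icc
    have e2 : ∀ s : Fin n → ℝ, (KP (n := n) (DD α β a b) R).indicator G (x, s) =
        {s : Fin n → ℝ | ∀ i, a (x i) ≤ s i ∧ s i ≤ a (x i) + (b (x i) - a (x i))}.indicator
          (fun s => G (x, s)) s := by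
      intro s
      have hiff : (x, s) ∈ KP (n := n) (DD α β a b) R ↔
          s ∈ {s : Fin n → ℝ | ∀ i, a (x i) ≤ s i ∧ s i ≤ a (x i) + (b (x i) - a (x i))} := by
        constructor
        · rintro ⟨-, hp⟩ i
          refine ⟨(hp i).2.1, ?_⟩
          rw [add_sub_cancel]
          exact (hp i).2.2
        · intro hs
          refine ⟨hxC, fun i => ⟨hxI i, (hs i).1, ?_⟩⟩
          have := (hs i).2
          rwa [add_sub_cancel] at this
      by_cases hs : (x, s) ∈ KP (n := n) (DD α β a b) R
      · rw [indicator_of_mem hs, indicator_of_mem (hiff.1 hs)]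
      · rw [indicator_of_notMem hs, indicator_of_notMem fun h => hs (hiff.2 h)]
    simp only [e2]
    rw [integral_indicator hbox, h1 n (fun i => a (x i)) (fun i => b (x i) - a (x i))
      (fun s => G (x, s)) (fun i => sub_nonneg.2 (hP.ab _))
      (hG.comp (continuous_const.prodMk continuous_id)), ← mul_assoc]
    congr 1
    have e3 : ∀ i : Fin n, A * ρ (x i) = b (x i) - a (x i) := by
      intro i
      have : ρ (x i) = (b (x i) - a (x i)) / A := by
        rw [hρ]
        unfold rh
        rw [indicator_of_mem (show x i ∈ Icc α β from hxI i)]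
      rw [this, mul_div_cancel₀ _ hA.ne']
    have e4 : A ^ n = ∏ _i : Fin n, A := by
      rw [Finset.prod_const, Finset.card_univ, Fintype.card_fin]
    rw [e4, ← Finset.prod_mul_distrib]
    exact Finset.prod_congr rfl fun i _ => (e3 i).symm
  · have e2 : ∀ s : Fin n → ℝ, (KP (n := n) (DD α β a b) R).indicator G (x, s) = 0 := by
      intro s
      have hns : (x, s) ∉ KP (n := n) (DD α β a b) R := fun hs => hx ⟨hs.1, fun i => (hs.2 i).1⟩
      exact indicator_of_notMem hns G
    simp only [e2]
    rw [integral_zero]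
    by_cases hxC : x ∈ CR R
    · rw [indicator_of_mem hxC]
      have hex : ∃ i, ¬ (α ≤ x i ∧ x i ≤ β) := by
        by_contra hcon
        push Not at hcon
        exact hx ⟨hxC, fun i => hcon i⟩
      obtain ⟨i, hi⟩ := hex
      have h0 : ρ (x i) = 0 := by
        rw [hρ]
        unfold rh
        have hi' : x i ∉ Icc α β := hi
        exact indicator_of_notMem hi' _
      rw [Finset.prod_eq_zero (Finset.mem_univ i) h0, zero_mul, mul_zero]
    · rw [indicator_of_notMem hxC, mul_zero]

end Pool.Agent.T2h95.OC
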