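import Pool.Agent.T2h95.OC.Stm2

/-! # FUB1: affine change of variables -/

set_option autoImplicit false

namespace Pool.Agent.T2h95.OC

open MeasureTheory Set Filter Topology
open scoped ENNReal BigOperators

theorem t_FUB1 : S_FUB1 := by
  intro n a h φ hh hφ
  set S : Set (Fin n → ℝ) := {s : Fin n → ℝ | ∀ i, a i ≤ s i ∧ s i ≤ a i + h i} with hS
  by_cases h0 : ∃ i, h i = 0
  · obtain ⟨i, hi⟩ := h0
    have e1 : volume S = 0 := by
      refine measure_mono_null (t := {s : Fin n → ℝ | s i = a i}) ?_ ?_
      · intro s hs
        have := hs i
        rw [hi, add_zero] at this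
        exact le_antisymm this.2 this.1
      · rw [volume_pi]
        exact Measure.pi_hyperplane (fun _ : Fin n => (volume : Measure ℝ)) i (a i)
    rw [Finset.prod_eq_zero (Finset.mem_univ i) hi, zero_mul, setIntegral_measure_zero _ e1]
  · push Not at h0
    have hpos : ∀ i, 0 < h i := fun i => lt_of_le_of_ne (hh i) (Ne.symm (h0 i))
    have hSc : IsClosed S := by
      have : S = ⋂ i, ({s : Fin n → ℝ | a i ≤ s i} ∩ {s : Fin n → ℝ | s i ≤ a i + h i}) := by
        ext s; simp [hS]
      rw [this]
      exact isClosed_iInter fun i => (isClosed_le continuous_const (continuous_apply i)).inter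
        (isClosed_le (continuous_apply i) continuous_const)
    have hCc : IsClosed (cu n) := by
      have : cu n = ⋂ i, ({s : Fin n → ℝ | 0 ≤ s i} ∩ {s : Fin n → ℝ | s i ≤ 1}) := by
        ext s; simp [cu, Bx]
      rw [this]
      exact isClosed_iInter fun i => (isClosed_le continuous_const (continuous_apply i)).inter
        (isClosed_le (continuous_apply i) continuous_const)
    have hdet : (Matrix.diagonal h).det ≠ 0 := by
      rw [Matrix.det_diagonal]
      exact Finset.prod_ne_zero_iff.2 fun i _ => h0 i
    have hmap := Real.smul_map_diagonal_volume_pi hdet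
    rw [Matrix.det_diagonal, abs_of_nonneg (Finset.prod_nonneg fun i _ => hh i)] at hmap
    rw [← integral_indicator hSc.measurableSet, ← integral_indicator hCc.measurableSet]
    have e1 : ∫ s, S.indicator φ s = ∫ s, S.indicator φ (a + s) :=
      (integral_add_left_eq_self (μ := (volume : Measure (Fin n → ℝ))) (S.indicator φ) a).symm
    rw [e1]
    have e2 : ∫ s, S.indicator φ (a + s) =
        ∫ s, S.indicator φ (a + s) ∂(ENNReal.ofReal (∏ i, h i) •
          Measure.map (Matrix.toLin' (Matrix.diagonal h)) (volume : Measure (Fin n → ℝ))) := by
      rw [hmap]
    rw [e2, integral_smul_measure, integral_map, ENNReal.toReal_ofReal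
      (Finset.prod_nonneg fun i _ => hh i), smul_eq_mul]
    · congr 1
      refine integral_congr_ae (Eventually.of_forall fun v => ?_)
      have e3 : a + Matrix.toLin' (Matrix.diagonal h) v = fun i => a i + h i * v i := by
        funext i
        simp [Matrix.mulVec_diagonal]
      beta_reduce
      rw [e3]
      by_cases hv : v ∈ cu n
      · rw [indicator_of_mem hv, indicator_of_mem]
        intro i
        have := hv i
        constructor
        · have := mul_nonneg (hh i) this.1
          linarith
        · have := mul_le_mul_of_nonneg_left this.2 (hh i)
          linarith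
      · rw [indicator_of_notMem hv, indicator_of_notMem]
        intro hc
        apply hv
        intro i
        have := hc i
        beta_reduce at this
        constructor
        · have h3 : 0 ≤ h i * v i := by linarith [this.1]
          exact (mul_nonneg_iff_of_pos_left (hpos i)).1 h3
        · have h3 : h i * v i ≤ h i * 1 := by linarith [this.2]
          exact (mul_le_mul_iff_right₀ (hpos i)).1 h3
    · exact (LinearMap.continuous_of_finiteDimensional _).measurable.aemeasurable
    · exact ((hφ.measurable.indicator hSc.measurableSet).comp
        (measurable_const_add a)).aestronglyMeasurable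

end Pool.Agent.T2h95.OC
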