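import Pool.Agent.T2h95.OC.Stm2

/-! # FUB2: products of densities -/

set_option autoImplicit false

namespace Pool.Agent.T2h95.OC

open MeasureTheory Set Filter Topology
open scoped ENNReal BigOperators

namespace FUB2

theorem lprod {n : ℕ} (μ : Fin n → Measure ℝ)
    [∀ i, SigmaFinite (μ i)] (f : Fin n → ℝ → ℝ≥0∞) (hf : ∀ i, Measurable (f i)) :
    ∫⁻ x : Fin n → ℝ, ∏ i, f i (x i) ∂(Measure.pi μ) = ∏ i, ∫⁻ x, f i x ∂(μ i) := by
  induction n with
  | zero => simp
  | succ n n_ih =>
      calc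
        _ = ∫⁻ x : ℝ × (Fin n → ℝ),
            f 0 x.1 * ∏ i : Fin n, f (Fin.succ i) (x.2 i)
            ∂((μ 0).prod (Measure.pi (fun i ↦ μ i.succ))) := by
          rw [← ((measurePreserving_piFinSuccAbove μ 0).symm).lintegral_comp_emb
            (MeasurableEquiv.measurableEmbedding _)]
          simp_rw [MeasurableEquiv.piFinSuccAbove_symm_apply, Fin.insertNthEquiv,
            Fin.prod_univ_succ, Fin.insertNth_zero, Equiv.coe_fn_mk, Fin.cons_succ,
            Fin.zero_succAbove, cast_eq, Fin.cons_zero]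
        _ = (∫⁻ x, f 0 x ∂μ 0)
            * ∏ i : Fin n, ∫⁻ (x : ℝ), f (Fin.succ i) x ∂(μ i.succ) := by
          rw [← n_ih (fun i => μ i.succ) (fun i => f i.succ) (fun i => hf _)]
          exact lintegral_prod_mul (hf 0).aemeasurable (Finset.measurable_prod _ (fun i _ =>
            (hf _).comp (measurable_pi_apply i))).aemeasurable
        _ = ∏ i, ∫⁻ x, f i x ∂(μ i) := by rw [Fin.prod_univ_succ]

theorem pid {n : ℕ} (g : ℝ → ℝ≥0∞) (hg : Measurable g)
    [SigmaFinite ((volume : Measure ℝ).withDensity g)] :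
    Measure.pi (fun _ : Fin n => (volume : Measure ℝ).withDensity g) =
      (volume : Measure (Fin n → ℝ)).withDensity (fun y => ∏ i, g (y i)) := by
  rw [volume_pi]
  apply Measure.pi_eq
  intro s hs
  rw [withDensity_apply _ (MeasurableSet.univ_pi hs), Measure.restrict_pi_pi,
    lprod _ (fun _ => g) fun _ => hg]
  apply Finset.prod_congr rfl
  intro i _
  rw [withDensity_apply _ (hs i)]

end FUB2

theorem t_FUB2 : S_FUB2 := by
  intro n ρ h0 hm h1 S φ hS
  have hg : Measurable fun x => ENNReal.ofReal (ρ x) := hm.ennreal_ofReal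
  haveI : IsFiniteMeasure ((volume : Measure ℝ).withDensity fun x => ENNReal.ofReal (ρ x)) :=
    isFiniteMeasure_withDensity (by rw [h1]; exact ENNReal.one_ne_top)
  have e1 : pw n (law ρ) = (volume : Measure (Fin n → ℝ)).withDensity
      (fun y => ∏ i, ENNReal.ofReal (ρ (y i))) := FUB2.pid _ hg
  have e2 : (fun y : Fin n → ℝ => ∏ i, ENNReal.ofReal (ρ (y i))) =
      fun y => ENNReal.ofReal (∏ i, ρ (y i)) := by
    funext y
    rw [ENNReal.ofReal_prod_of_nonneg fun i _ => h0 _]
  rw [e1, e2, setIntegral_withDensity_eq_setIntegral_toReal_smul₀ _ _ _ hS]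
  · refine setIntegral_congr_fun hS fun x _ => ?_
    simp only [smul_eq_mul]
    rw [ENNReal.toReal_ofReal (Finset.prod_nonneg fun i _ => h0 _)]
  · refine (Measurable.ennreal_ofReal ?_).aemeasurable
    exact Finset.measurable_prod _ fun i _ => hm.comp (measurable_pi_apply i)
  · exact Filter.Eventually.of_forall fun x => ENNReal.ofReal_lt_top

end Pool.Agent.T2h95.OC
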