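import Pool.Agent.T2h95.OC.Stm2

/-!
# Project OC, task GDF: differentiation of the mean over the fibre
-/

set_option autoImplicit false

namespace Pool.Agent.T2h95.OC

open MeasureTheory Set Filter Topology
open scoped ENNReal
open Pool.Agent.R972.OP (OPp pd)

theorem cu_compact (n : ℕ) : IsCompact (cu n) := by
  have e : cu n = Set.pi univ fun _ => Icc (0 : ℝ) 1 := by
    ext x
    simp only [cu, Bx, mem_ofPred_eq, mem_univ_pi, mem_Icc]
  rw [e]
  exact isCompact_univ_pi fun _ => isCompact_Icc

theorem gdf_contDiff {n : ℕ} {a b : ℝ → ℝ} (ha : ContDiff ℝ 1 a) (hb : ContDiff ℝ 1 b) :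
    ContDiff ℝ 1 fun p : (Fin n → ℝ) × (Fin n → ℝ) => (p.1, sv a b p.1 p.2) := by
  refine contDiff_fst.prodMk (contDiff_pi.2 fun i => ?_)
  have h1 : ContDiff ℝ 1 fun p : (Fin n → ℝ) × (Fin n → ℝ) => p.1 i :=
    (contDiff_apply ℝ ℝ i).comp contDiff_fst
  have h2 : ContDiff ℝ 1 fun p : (Fin n → ℝ) × (Fin n → ℝ) => p.2 i :=
    (contDiff_apply ℝ ℝ i).comp contDiff_snd
  exact (ha.comp h1).add (((hb.comp h1).sub (ha.comp h1)).mul h2)

theorem gdf_deriv {n : ℕ} {a b : ℝ → ℝ} (ha : ContDiff ℝ 1 a) (hb : ContDiff ℝ 1 b)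
    (x v : Fin n → ℝ) :
    HasFDerivAt (fun x : Fin n → ℝ => (x, sv a b x v))
      ((ContinuousLinearMap.id ℝ (Fin n → ℝ)).prod (ContinuousLinearMap.pi fun j =>
        (deriv a (x j) + (deriv b (x j) - deriv a (x j)) * v j) •
          (ContinuousLinearMap.proj j : (Fin n → ℝ) →L[ℝ] ℝ))) x := by
  refine (hasFDerivAt_id x).prodMk (hasFDerivAt_pi.2 fun j => ?_)
  have h1 : HasDerivAt (fun y => a y + (b y - a y) * v j)
      (deriv a (x j) + (deriv b (x j) - deriv a (x j)) * v j) (x j) := by
    have ha' := (ha.differentiable (by norm_num) (x j)).hasDerivAt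
    have hb' := (hb.differentiable (by norm_num) (x j)).hasDerivAt
    exact ha'.add ((hb'.sub ha').mul_const _)
  have h2 : HasFDerivAt (fun x : Fin n → ℝ => x j)
      (ContinuousLinearMap.proj j : (Fin n → ℝ) →L[ℝ] ℝ) x :=
    (ContinuousLinearMap.proj j : (Fin n → ℝ) →L[ℝ] ℝ).hasFDerivAt
  exact h1.comp_hasFDerivAt x h2

theorem t_GDF : S_GDF := by
  intro n a b f ha hb hf
  set Φ : (Fin n → ℝ) × (Fin n → ℝ) → ℝ := fun p => f (p.1, sv a b p.1 p.2) with hΦ
  have hΦc : ContDiff ℝ 1 Φ := hf.comp (gdf_contDiff ha hb)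
  have hcu := cu_compact n
  have hfin : IsFiniteMeasure ((volume : Measure (Fin n → ℝ)).restrict (cu n)) := ⟨by
    rw [Measure.restrict_apply_univ]
    exact hcu.measure_lt_top⟩
  set F' : (Fin n → ℝ) → (Fin n → ℝ) → (Fin n → ℝ) →L[ℝ] ℝ := fun x v =>
    (fderiv ℝ Φ (x, v)).comp (ContinuousLinearMap.inl ℝ (Fin n → ℝ) (Fin n → ℝ)) with hF'
  have hF'c : Continuous fun p : (Fin n → ℝ) × (Fin n → ℝ) => F' p.1 p.2 :=
    (hΦc.continuous_fderiv (by norm_num)).clm_comp continuous_const
  have hd : ∀ x v, HasFDerivAt (fun x => Φ (x, v)) (F' x v) x := by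
    intro x v
    have h1 := (hΦc.differentiable (by norm_num) (x, v)).hasFDerivAt
    exact HasFDerivAt.comp (g := Φ) (f := fun x : Fin n → ℝ => (x, v)) x h1
      (hasFDerivAt_prodMk_left x v)
  have hmain : ∀ x0, HasFDerivAt (fm a b f) (∫ v in cu n, F' x0 v) x0 := by
    intro x0
    obtain ⟨M, hM⟩ := ((isCompact_closedBall x0 1).prod hcu).exists_bound_of_continuousOn
      hF'c.continuousOn
    have hx : ∀ x : Fin n → ℝ, Continuous fun v => Φ (x, v) := fun x =>
      hΦc.continuous.comp (continuous_const.prodMk continuous_id)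
    refine hasFDerivAt_integral_of_dominated_of_fderiv_le (s := Metric.closedBall x0 1)
      (F := fun x v => Φ (x, v)) (F' := F') (bound := fun _ => M)
      (Metric.closedBall_mem_nhds x0 one_pos)
      (Eventually.of_forall fun x => (hx x).aestronglyMeasurable)
      ((hx x0).continuousOn.integrableOn_compact hcu)
      (hF'c.comp (continuous_const.prodMk continuous_id)).aestronglyMeasurable ?_
      (integrable_const _) (Eventually.of_forall fun v x _ => hd x v)
    filter_upwards [ae_restrict_mem hcu.isClosed.measurableSet] with v hv x hx'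
    exact hM (x, v) ⟨hx', hv⟩
  refine ⟨?_, fun i x => ?_⟩
  · rw [contDiff_one_iff_fderiv]
    refine ⟨fun x => (hmain x).differentiableAt, ?_⟩
    have e : fderiv ℝ (fm a b f) = fun x => ∫ v in cu n, F' x v := funext fun x => (hmain x).fderiv
    rw [e]
    exact continuous_parametric_integral_of_continuous hF'c hcu
  · unfold pd
    have hi : Integrable (fun v => F' x v) (volume.restrict (cu n)) :=
      (hF'c.comp (continuous_const.prodMk continuous_id)).continuousOn.integrableOn_compact hcu
    rw [(hmain x).fderiv, ContinuousLinearMap.integral_apply hi]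
    refine integral_congr_ae (Eventually.of_forall fun v => ?_)
    show F' x v (Pi.single i 1) = dX f i (x, sv a b x v) +
      (deriv a (x i) + (deriv b (x i) - deriv a (x i)) * v i) * dS f i (x, sv a b x v)
    have h1 : HasFDerivAt (fun x => Φ (x, v)) _ x :=
      (hf.differentiable (by norm_num) (x, sv a b x v)).hasFDerivAt.comp x (gdf_deriv ha hb x v)
    rw [(hd x v).unique h1]
    show fderiv ℝ f (x, sv a b x v) (Pi.single i 1, fun j =>
      (deriv a (x j) + (deriv b (x j) - deriv a (x j)) * v j) * (Pi.single i (1 : ℝ) : Fin n → ℝ) j) = _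
    have h2 : ((Pi.single i 1, fun j => (deriv a (x j) + (deriv b (x j) - deriv a (x j)) * v j) *
        (Pi.single i (1 : ℝ) : Fin n → ℝ) j) : (Fin n → ℝ) × (Fin n → ℝ)) =
        (Pi.single i 1, 0) + (deriv a (x i) + (deriv b (x i) - deriv a (x i)) * v i) •
          ((0, Pi.single i 1) : (Fin n → ℝ) × (Fin n → ℝ)) := by
      refine Prod.ext ?_ ?_
      · simp
      · funext j
        simp only [Prod.snd_add, Prod.smul_snd, zero_add, Pi.smul_apply, smul_eq_mul]
        by_cases hij : j = i
        · subst hij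
          rfl
        · rw [Pi.single_eq_of_ne hij]
          simp
    rw [h2, map_add, map_smul, smul_eq_mul]
    rfl

end Pool.Agent.T2h95.OC
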