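import Pool.Agent.T2h95.OC.Stm2

/-!
# Planar convex bodies between two graphs (task GEO1 of project OC)
-/

set_option autoImplicit false

namespace Pool.Agent.T2h95.OC

open MeasureTheory Set Filter Topology
open scoped ENNReal InnerProductSpace

namespace GEO1

/-- lower boundary -/
theorem low (E : Set (ℝ × ℝ)) (hE : Convex ℝ E) (hc : IsCompact E) (α β M : ℝ) (hM : 0 ≤ M)
    (hfib : ∀ x ∈ Icc α β, ∃ y, (x, y) ∈ E)
    (hbd : ∀ p ∈ E, ∀ r ∈ E, p.2 - r.2 ≤ M) :
    ∃ a : ℝ → ℝ, (∀ x ∈ Icc α β, (x, a x) ∈ E) ∧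
      (∀ x ∈ Icc α β, ∀ y, (x, y) ∈ E → a x ≤ y) ∧ ConvexOn ℝ (Icc α β) a ∧
      ContinuousOn a (Icc α β) := by
  have hmin : ∀ x ∈ Icc α β, ∃ y, (x, y) ∈ E ∧ ∀ y', (x, y') ∈ E → y ≤ y' := by
    intro x hx
    have h1 : IsCompact (E ∩ {p | p.1 = x}) :=
      hc.inter_right (isClosed_eq continuous_fst continuous_const)
    obtain ⟨y0, hy0⟩ := hfib x hx
    obtain ⟨p, hp, hpm⟩ := h1.exists_isMinOn ⟨(x, y0), hy0, rfl⟩ continuous_snd.continuousOn
    refine ⟨p.2, ?_, fun y' hy' => ?_⟩
    · have : p = (x, p.2) := Prod.ext hp.2 rfl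
      rw [← this]; exact hp.1
    · exact hpm (show (x, y') ∈ E ∩ {p | p.1 = x} from ⟨hy', rfl⟩)
  classical
  let a : ℝ → ℝ := fun x => if h : x ∈ Icc α β then (hmin x h).choose else 0
  have ha1 : ∀ x ∈ Icc α β, (x, a x) ∈ E := fun x hx => by
    simp only [a, dif_pos hx]; exact (hmin x hx).choose_spec.1
  have ha2 : ∀ x ∈ Icc α β, ∀ y, (x, y) ∈ E → a x ≤ y := fun x hx => by
    simp only [a, dif_pos hx]; exact (hmin x hx).choose_spec.2
  have hconv : ConvexOn ℝ (Icc α β) a := by
    refine ⟨convex_Icc α β, fun x hx y hy s t hs ht hst => ?_⟩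
    refine ha2 _ (convex_Icc α β hx hy hs ht hst) _ ?_
    have := hE (ha1 x hx) (ha1 y hy) hs ht hst
    simpa using this
  refine ⟨a, ha1, ha2, hconv, ?_⟩
  intro x hx
  rw [continuousWithinAt_iff_lower_upperSemicontinuousWithinAt]
  constructor
  · -- lower semicontinuity, by compactness
    intro y hy
    -- y < a x
    have hcl : IsClosed (Prod.fst '' (E ∩ {p | p.2 ≤ y})) :=
      ((hc.inter_right (isClosed_le continuous_snd continuous_const)).image
        continuous_fst).isClosed
    have hxn : x ∉ Prod.fst '' (E ∩ {p | p.2 ≤ y}) := by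
      rintro ⟨p, ⟨hp1, hp2⟩, hp3⟩
      have h1 : (x, p.2) ∈ E := by
        have : p = (x, p.2) := Prod.ext hp3 rfl
        rw [← this]; exact hp1
      have := ha2 x hx _ h1
      have hp2' : p.2 ≤ y := hp2
      linarith
    have hev : ∀ᶠ x' in 𝓝 x, x' ∉ Prod.fst '' (E ∩ {p | p.2 ≤ y}) :=
      hcl.isOpen_compl.mem_nhds hxn
    filter_upwards [mem_nhdsWithin_of_mem_nhds hev, self_mem_nhdsWithin] with x' h1 h2
    by_contra hcon
    exact h1 ⟨(x', a x'), ⟨ha1 x' h2, not_lt.1 hcon⟩, rfl⟩
  · intro y hy
    set e := y - a x with he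
    have hepos : 0 < e := sub_pos.2 hy
    -- the two distances
    set d1 : ℝ := if x < β then β - x else 1 with hd1
    set d2 : ℝ := if α < x then x - α else 1 with hd2
    have hd1p : 0 < d1 := by
      rw [hd1]; split_ifs with h <;> linarith
    have hd2p : 0 < d2 := by
      rw [hd2]; split_ifs with h <;> linarith
    have hM1 : 0 < M + 1 := by linarith
    have hδ : 0 < min d1 d2 * (e / (M + 1)) := by positivity
    have key : ∀ x' ∈ Icc α β, |x' - x| < min d1 d2 * (e / (M + 1)) → a x' < y := by
      intro x' hx' hlt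
      rcases lt_trichotomy x' x with h | h | h
      · have hαx : α < x := lt_of_le_of_lt hx'.1 h
        have hd : d2 = x - α := by rw [hd2, if_pos hαx]
        have hdp : 0 < x - α := by linarith
        set t := (x - x') / (x - α) with ht
        have ht0 : 0 ≤ t := div_nonneg (by linarith) hdp.le
        have ht1 : t ≤ 1 := by rw [ht, div_le_one hdp]; linarith [hx'.1]
        have hcomb : (1 - t) • x + t • α = x' := by
          simp only [smul_eq_mul]
          rw [ht]; field_simp; ring
        have h1 := hconv.2 hx (left_mem_Icc.2 (hx.1.trans hx.2)) (by linarith : 0 ≤ 1 - t) ht0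
          (by ring)
        rw [hcomb] at h1
        simp only [smul_eq_mul] at h1
        have h2 := hbd _ (ha1 α (left_mem_Icc.2 (hx.1.trans hx.2))) _ (ha1 x hx)
        simp only at h2
        have h3 : t * (M + 1) < e := by
          rw [ht, div_mul_eq_mul_div, div_lt_iff₀ hdp]
          have h4 : |x' - x| = x - x' := by rw [abs_of_neg (by linarith)]; ring
          rw [h4] at hlt
          have h5 : x - x' < d2 * (e / (M + 1)) :=
            lt_of_lt_of_le hlt (mul_le_mul_of_nonneg_right (min_le_right _ _) (by positivity))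
          rw [hd] at h5
          have h6 : (x - x') * (M + 1) < (x - α) * (e / (M + 1)) * (M + 1) :=
            mul_lt_mul_of_pos_right h5 hM1
          have h7 : (x - α) * (e / (M + 1)) * (M + 1) = (x - α) * e := by field_simp
          linarith
        nlinarith [mul_le_mul_of_nonneg_left h2 ht0]
      · rw [h]; exact hy
      · have hxβ : x < β := lt_of_lt_of_le h hx'.2
        have hd : d1 = β - x := by rw [hd1, if_pos hxβ]
        have hdp : 0 < β - x := by linarith
        set t := (x' - x) / (β - x) with ht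
        have ht0 : 0 ≤ t := div_nonneg (by linarith) hdp.le
        have ht1 : t ≤ 1 := by rw [ht, div_le_one hdp]; linarith [hx'.2]
        have hcomb : (1 - t) • x + t • β = x' := by
          simp only [smul_eq_mul]
          rw [ht]; field_simp; ring
        have h1 := hconv.2 hx (right_mem_Icc.2 (hx.1.trans hx.2)) (by linarith : 0 ≤ 1 - t) ht0
          (by ring)
        rw [hcomb] at h1
        simp only [smul_eq_mul] at h1
        have h2 := hbd _ (ha1 β (right_mem_Icc.2 (hx.1.trans hx.2))) _ (ha1 x hx)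
        simp only at h2
        have h3 : t * (M + 1) < e := by
          rw [ht, div_mul_eq_mul_div, div_lt_iff₀ hdp]
          have h4 : |x' - x| = x' - x := abs_of_pos (by linarith)
          rw [h4] at hlt
          have h5 : x' - x < d1 * (e / (M + 1)) :=
            lt_of_lt_of_le hlt (mul_le_mul_of_nonneg_right (min_le_left _ _) (by positivity))
          rw [hd] at h5
          have h6 : (x' - x) * (M + 1) < (β - x) * (e / (M + 1)) * (M + 1) :=
            mul_lt_mul_of_pos_right h5 hM1
          have h7 : (β - x) * (e / (M + 1)) * (M + 1) = (β - x) * e := by field_simp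
          linarith
        nlinarith [mul_le_mul_of_nonneg_left h2 ht0]
    filter_upwards [mem_nhdsWithin_of_mem_nhds (Metric.ball_mem_nhds x hδ),
      self_mem_nhdsWithin] with x' h1 h2
    exact key x' h2 (by simpa [Real.dist_eq] using h1)

/-- the coordinates -/
noncomputable def ph (p : ℝ × ℝ) : EuclideanSpace ℝ (Fin 2) := WithLp.toLp 2 ![p.1, p.2]

theorem ph_cont : Continuous ph := by
  refine (PiLp.continuous_toLp 2 _).comp (continuous_pi fun j => ?_)
  fin_cases j
  · exact continuous_fst
  · exact continuous_snd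

theorem ph_lin (s t : ℝ) (p r : ℝ × ℝ) : ph (s • p + t • r) = s • ph p + t • ph r := by
  ext j; fin_cases j <;> simp [ph]

theorem ph_inv (y : EuclideanSpace ℝ (Fin 2)) : ph (y 0, y 1) = y := by
  ext j; fin_cases j <;> simp [ph]

end GEO1

open GEO1 in
theorem t_GEO1 : S_GEO1 := by
  intro D hD hDc hDi
  have hDC : DC D = ph ⁻¹' D := rfl
  set E := DC D with hEdef
  have hEconv : Convex ℝ E := by
    intro p hp r hr s t hs ht hst
    rw [hDC, mem_preimage, ph_lin]
    exact hD hp hr hs ht hst
  have hEc : IsCompact E := by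
    have h1 : E = (fun y : EuclideanSpace ℝ (Fin 2) => (y 0, y 1)) '' D := by
      ext p
      constructor
      · intro hp
        exact ⟨ph p, hp, by simp [ph]⟩
      · rintro ⟨y, hy, rfl⟩
        rw [hDC, mem_preimage, ph_inv]; exact hy
    rw [h1]
    refine hDc.image (Continuous.prodMk ?_ ?_)
    · exact (continuous_apply (0 : Fin 2)).comp (PiLp.continuous_ofLp 2 _)
    · exact (continuous_apply (1 : Fin 2)).comp (PiLp.continuous_ofLp 2 _)
  -- an interior point
  obtain ⟨z, hz⟩ := hDi
  have hopen : IsOpen (ph ⁻¹' interior D) := isOpen_interior.preimage ph_cont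
  have hsub : ph ⁻¹' interior D ⊆ E := fun p hp =>
    show ph p ∈ D from interior_subset (show ph p ∈ interior D from hp)
  have hzE : (z 0, z 1) ∈ ph ⁻¹' interior D := by rw [mem_preimage, ph_inv]; exact hz
  obtain ⟨ρ, hρ, hball⟩ := Metric.isOpen_iff.1 hopen _ hzE
  set x0 := z 0 with hx0
  set y0 := z 1 with hy0
  have hbox : ∀ u v : ℝ, |u - x0| < ρ → |v - y0| < ρ → (u, v) ∈ E := by
    intro u v hu hv
    refine hsub (hball ?_)
    rw [Metric.mem_ball, Prod.dist_eq]
    exact max_lt (by simpa [Real.dist_eq] using hu) (by simpa [Real.dist_eq] using hv)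
  have hne : E.Nonempty := ⟨_, hsub hzE⟩
  -- extremal points
  obtain ⟨pα, hpα, hα⟩ := hEc.exists_isMinOn hne continuous_fst.continuousOn
  obtain ⟨pβ, hpβ, hβ⟩ := hEc.exists_isMaxOn hne continuous_fst.continuousOn
  obtain ⟨pl, hpl, hl⟩ := hEc.exists_isMinOn hne continuous_snd.continuousOn
  obtain ⟨pu, hpu, hu⟩ := hEc.exists_isMaxOn hne continuous_snd.continuousOn
  set α := pα.1 with hαd
  set β := pβ.1 with hβd
  set lo := pl.2 with hlod
  set hi := pu.2 with hhid
  have hα' : ∀ p ∈ E, α ≤ p.1 := fun p hp => hα hp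
  have hβ' : ∀ p ∈ E, p.1 ≤ β := fun p hp => hβ hp
  have hl' : ∀ p ∈ E, lo ≤ p.2 := fun p hp => hl hp
  have hu' : ∀ p ∈ E, p.2 ≤ hi := fun p hp => hu hp
  have hx0a : α < x0 := by
    have := hα' _ (hbox (x0 - ρ / 2) y0 (by rw [abs_lt]; constructor <;> linarith)
      (by simpa using hρ))
    simp only at this
    linarith
  have hx0b : x0 < β := by
    have := hβ' _ (hbox (x0 + ρ / 2) y0 (by rw [abs_lt]; constructor <;> linarith)
      (by simpa using hρ))
    simp only at this
    linarith
  have hlohi : lo < hi := by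
    have h1 := hl' _ (hbox x0 (y0 - ρ / 2) (by simpa using hρ)
      (by rw [abs_lt]; constructor <;> linarith))
    have h2 := hu' _ (hbox x0 (y0 + ρ / 2) (by simpa using hρ)
      (by rw [abs_lt]; constructor <;> linarith))
    simp only at h1 h2
    linarith
  have hab : α < β := hx0a.trans hx0b
  have hfib : ∀ x ∈ Icc α β, ∃ y, (x, y) ∈ E := by
    intro x hx
    have hdp : 0 < β - α := by linarith
    set t := (x - α) / (β - α) with ht
    have ht0 : 0 ≤ t := div_nonneg (by linarith [hx.1]) hdp.le
    have ht1 : t ≤ 1 := by rw [ht, div_le_one hdp]; linarith [hx.2]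
    have h1 := hEconv hpα hpβ (by linarith : 0 ≤ 1 - t) ht0 (by ring)
    refine ⟨((1 - t) • pα + t • pβ).2, ?_⟩
    have h2 : (x, ((1 - t) • pα + t • pβ).2) = (1 - t) • pα + t • pβ := by
      refine Prod.ext ?_ rfl
      simp only [Prod.fst_add, Prod.smul_fst, smul_eq_mul]
      rw [← hαd, ← hβd, ht]; field_simp; ring
    rw [h2]; exact h1
  obtain ⟨a, ha1, ha2, ha3, ha4⟩ := low E hEconv hEc α β (hi - lo) (by linarith) hfib
    (fun p hp r hr => by have := hu' p hp; have := hl' r hr; linarith)
  -- the reflected body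
  let refl : ℝ × ℝ → ℝ × ℝ := fun p => (p.1, -p.2)
  have hrc : Continuous refl := continuous_fst.prodMk continuous_snd.neg
  have hrr : ∀ p, refl (refl p) = p := fun p => by simp [refl]
  set E' := refl ⁻¹' E with hE'
  have hE'c : IsCompact E' := by
    have : E' = refl '' E := by
      ext p
      constructor
      · intro hp; exact ⟨refl p, hp, hrr p⟩
      · rintro ⟨q, hq, rfl⟩
        rw [hE', mem_preimage, hrr]; exact hq
    rw [this]; exact hEc.image hrc
  have hE'conv : Convex ℝ E' := by
    intro p hp r hr s t hs ht hst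
    rw [hE', mem_preimage]
    have h1 := hEconv hp hr hs ht hst
    have h2 : refl (s • p + t • r) = s • refl p + t • refl r := by
      refine Prod.ext ?_ ?_
      · simp [refl]
      · simp [refl]; ring
    rw [h2]; exact h1
  have hfib' : ∀ x ∈ Icc α β, ∃ y, (x, y) ∈ E' := by
    intro x hx
    obtain ⟨y, hy⟩ := hfib x hx
    exact ⟨-y, by rw [hE', mem_preimage]; simpa [refl] using hy⟩
  obtain ⟨b', hb1', hb2', hb3', hb4'⟩ := low E' hE'conv hE'c α β (hi - lo) (by linarith) hfib'
    (fun p hp r hr => by
      have h1 := hl' _ hp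
      have h2 := hu' _ hr
      simp only [refl] at h1 h2
      linarith)
  have hb1 : ∀ x ∈ Icc α β, (x, -b' x) ∈ E := fun x hx => hb1' x hx
  have hb2 : ∀ x ∈ Icc α β, ∀ y, (x, y) ∈ E → y ≤ -b' x := fun x hx y hy => by
    have := hb2' x hx (-y) (by rw [hE', mem_preimage]; simpa [refl] using hy)
    linarith
  -- clamping
  let cl : ℝ → ℝ := fun x => max α (min β x)
  have hclc : Continuous cl := continuous_const.max (continuous_const.min continuous_id)
  have hclm : ∀ x, cl x ∈ Icc α β := fun x =>
    ⟨le_max_left _ _, max_le hab.le (min_le_left _ _)⟩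
  have hcle : ∀ x ∈ Icc α β, cl x = x := fun x hx => by
    simp only [cl]; rw [min_eq_right hx.2, max_eq_right hx.1]
  refine ⟨α, β, lo, hi - lo, fun x => a (cl x), fun x => -b' (cl x), ?_, ?_, ?_, ?_⟩
  · refine ⟨hab, by linarith, ?_, ?_, ?_, ?_, ?_, ?_, ?_, ?_⟩
    · exact ha4.comp_continuous hclc hclm
    · exact (hb4'.comp_continuous hclc hclm).neg
    · exact ha3.congr fun x hx => by simp only [hcle x hx]
    · exact hb3'.neg.congr fun x hx => by simp only [hcle x hx, Pi.neg_apply]
    · intro x; exact hl' _ (ha1 _ (hclm x))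
    · intro x; exact hb2 _ (hclm x) _ (ha1 _ (hclm x))
    · intro x
      have := hu' _ (hb1 _ (hclm x))
      simp only at this
      linarith
    · intro x hx
      simp only [hcle x ⟨hx.1.le, hx.2.le⟩]
      -- combine the interior point with an end point
      have hx' : x ∈ Icc α β := ⟨hx.1.le, hx.2.le⟩
      have claim : ∃ (p : ℝ × ℝ) (t : ℝ), p ∈ E ∧ 0 ≤ t ∧ t < 1 ∧ (1 - t) * x0 + t * p.1 = x := by
        rcases le_total x x0 with h | h
        · refine ⟨pα, (x0 - x) / (x0 - α), hpα, div_nonneg (by linarith) (by linarith), ?_, ?_⟩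
          · rw [div_lt_one (by linarith)]; linarith [hx.1]
          · rw [← hαd]
            have : x0 - α ≠ 0 := by linarith
            field_simp; ring
        · refine ⟨pβ, (x - x0) / (β - x0), hpβ, div_nonneg (by linarith) (by linarith), ?_, ?_⟩
          · rw [div_lt_one (by linarith)]; linarith [hx.2]
          · rw [← hβd]
            have : β - x0 ≠ 0 := by linarith
            field_simp; ring
      obtain ⟨p, t, hp, ht0, ht1, hpx⟩ := claim
      have g1 : (x, (1 - t) * (y0 - ρ / 2) + t * p.2) ∈ E := by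
        have h1 := hEconv (hbox x0 (y0 - ρ / 2) (by simpa using hρ)
          (by rw [abs_lt]; constructor <;> linarith)) hp (by linarith : 0 ≤ 1 - t) ht0 (by ring)
        have h2 : (1 - t) • (x0, y0 - ρ / 2) + t • p = (x, (1 - t) * (y0 - ρ / 2) + t * p.2) := by
          refine Prod.ext ?_ ?_
          · simp [hpx]
          · simp
        rw [← h2]; exact h1
      have g2 : (x, (1 - t) * (y0 + ρ / 2) + t * p.2) ∈ E := by
        have h1 := hEconv (hbox x0 (y0 + ρ / 2) (by simpa using hρ)
          (by rw [abs_lt]; constructor <;> linarith)) hp (by linarith : 0 ≤ 1 - t) ht0 (by ring)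
        have h2 : (1 - t) • (x0, y0 + ρ / 2) + t • p = (x, (1 - t) * (y0 + ρ / 2) + t * p.2) := by
          refine Prod.ext ?_ ?_
          · simp [hpx]
          · simp
        rw [← h2]; exact h1
      have g3 := ha2 x hx' _ g1
      have g4 := hb2 x hx' _ g2
      have : 0 < (1 - t) * ρ := mul_pos (by linarith) hρ
      nlinarith
  · ext p
    constructor
    · intro hp
      have h1 : p.1 ∈ Icc α β := ⟨hα' p hp, hβ' p hp⟩
      refine ⟨h1, ?_, ?_⟩
      · simp only [hcle _ h1]; exact ha2 _ h1 _ hp
      · simp only [hcle _ h1]; exact hb2 _ h1 _ hp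
    · rintro ⟨h1, h2, h3⟩
      have h1' : p.1 ∈ Icc α β := h1
      simp only [hcle _ h1'] at h2 h3
      -- between two points of the fibre
      have hA := ha1 _ h1'
      have hB := hb1 _ h1'
      have hle : a p.1 ≤ -b' p.1 := h2.trans h3
      rcases eq_or_lt_of_le hle with he | hlt
      · have : p = (p.1, a p.1) := Prod.ext rfl (le_antisymm (he ▸ h3) h2)
        rw [this]; exact hA
      · set w := -b' p.1 - a p.1 with hw
        have hwp : 0 < w := by linarith
        set t := (p.2 - a p.1) / w with ht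
        have ht0 : 0 ≤ t := div_nonneg (by linarith) hwp.le
        have ht1 : t ≤ 1 := by rw [ht, div_le_one hwp]; linarith
        have h4 := hEconv hA hB (by linarith : 0 ≤ 1 - t) ht0 (by ring)
        have h5 : (1 - t) • (p.1, a p.1) + t • (p.1, -b' p.1) = p := by
          refine Prod.ext ?_ ?_
          · simp; ring
          · simp only [Prod.snd_add, Prod.smul_snd, smul_eq_mul]
            have : (1 - t) * a p.1 + t * -b' p.1 = a p.1 + t * w := by rw [hw]; ring
            rw [this, ht]; field_simp; ring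
        rw [← h5]; exact h4
  · exact ⟨pl, hpl, rfl⟩
  · exact ⟨pu, hpu, by rw [← hhid]; ring⟩

end Pool.Agent.T2h95.OC
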