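import Pool.Agent.T2h95.OC.Stm2

/-! # GRD -/

set_option autoImplicit false

namespace Pool.Agent.T2h95.OC

open MeasureTheory Set Filter Topology

/-- `pt` as a linear map -/
noncomputable def ptl (n : ℕ) :
    ((Fin n → ℝ) × (Fin n → ℝ)) →ₗ[ℝ] EuclideanSpace ℝ (Fin n × Fin 2) where
  toFun := pt
  map_add' p q := by
    ext ⟨i, j⟩
    fin_cases j <;> simp [pt]
  map_smul' c p := by
    ext ⟨i, j⟩
    fin_cases j <;> simp [pt]

theorem norm_sq_dual {ι : Type} [Fintype ι] [DecidableEq ι] (L : EuclideanSpace ℝ ι →L[ℝ] ℝ) :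
    ‖L‖ ^ 2 = ∑ z, L (EuclideanSpace.single z 1) ^ 2 := by
  have h1 : ‖L‖ = ‖(InnerProductSpace.toDual ℝ (EuclideanSpace ℝ ι)).symm L‖ := by simp
  rw [h1, EuclideanSpace.real_norm_sq_eq]
  refine Finset.sum_congr rfl fun z _ => ?_
  congr 1
  have h2 := InnerProductSpace.toDual_symm_apply (𝕜 := ℝ) (x := EuclideanSpace.single z (1 : ℝ))
    (y := L)
  rw [← h2, EuclideanSpace.inner_single_right]
  simp

theorem t_GRD : S_GRD := by
  intro n f hf
  have e : (fun p : (Fin n → ℝ) × (Fin n → ℝ) => f (pt p)) =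
      f ∘ (LinearMap.toContinuousLinearMap (ptl n)) := rfl
  refine ⟨?_, fun p => ?_⟩
  · rw [e]
    exact hf.comp (ContinuousLinearMap.contDiff _)
  · have hd : HasFDerivAt (fun p : (Fin n → ℝ) × (Fin n → ℝ) => f (pt p))
        ((fderiv ℝ f (pt p)).comp (LinearMap.toContinuousLinearMap (ptl n))) p := by
      rw [e]
      have h1 : HasFDerivAt f (fderiv ℝ f (pt p)) (LinearMap.toContinuousLinearMap (ptl n) p) :=
        ((hf.differentiable one_ne_zero) (pt p)).hasFDerivAt
      exact h1.comp p (ContinuousLinearMap.hasFDerivAt _)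
    have hX : ∀ i, dX (fun p : (Fin n → ℝ) × (Fin n → ℝ) => f (pt p)) i p =
        fderiv ℝ f (pt p) (EuclideanSpace.single (i, 0) 1) := by
      intro i
      unfold dX
      rw [hd.fderiv]
      show fderiv ℝ f (pt p) (pt (Pi.single i 1, 0)) = _
      congr 1
      ext ⟨k, j⟩
      by_cases hk : k = i
      · subst hk
        fin_cases j <;> simp [pt, EuclideanSpace.single_apply]
      · fin_cases j <;> simp [pt, EuclideanSpace.single_apply, hk]
    have hS : ∀ i, dS (fun p : (Fin n → ℝ) × (Fin n → ℝ) => f (pt p)) i p =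
        fderiv ℝ f (pt p) (EuclideanSpace.single (i, 1) 1) := by
      intro i
      unfold dS
      rw [hd.fderiv]
      show fderiv ℝ f (pt p) (pt (0, Pi.single i 1)) = _
      congr 1
      ext ⟨k, j⟩
      by_cases hk : k = i
      · subst hk
        fin_cases j <;> simp [pt, EuclideanSpace.single_apply]
      · fin_cases j <;> simp [pt, EuclideanSpace.single_apply, hk]
    rw [norm_sq_dual, Fintype.sum_prod_type]
    refine Finset.sum_congr rfl fun i _ => ?_
    rw [hX, hS, Fin.sum_univ_two]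

end Pool.Agent.T2h95.OC
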