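import Pool.Agent.T2h95.OC.Stm2

/-!
# Variances from below: HOM
-/

set_option autoImplicit false

namespace Pool.Agent.T2h95.OC

open MeasureTheory Set Filter Topology
open scoped ENNReal

namespace Hom

theorem one (D : Set (ℝ × ℝ)) (φ : ℝ × ℝ →L[ℝ] ℝ) (p : ℝ × ℝ) (l c : ℝ) (hconv : Convex ℝ D)
    (hcomp : IsCompact D) (hp : p ∈ D) (hl : 0 ≤ l) (hz : ∀ z ∈ D, φ z ≤ φ p + l)
    (hc : φ p + l / 2 ≤ c) : (volume D).toReal * (l ^ 2 / 256) ≤ ∫ z in D, (φ z - c) ^ 2 := by
  set D' : Set (ℝ × ℝ) := AffineMap.homothety p (1 / 4 : ℝ) '' D with hD'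
  have hcont : Continuous (AffineMap.homothety p (1 / 4 : ℝ)) := AffineMap.homothety_continuous p _
  have hsub : D' ⊆ D := by
    rintro _ ⟨z, hz', rfl⟩
    rw [AffineMap.homothety_apply]
    simp only [vsub_eq_sub, vadd_eq_add, smul_eq_mul]
    have := hconv hp hz' (by norm_num : (0 : ℝ) ≤ 3 / 4) (by norm_num : (0 : ℝ) ≤ 1 / 4) (by norm_num)
    convert this using 1
    module
  have hDm : MeasurableSet D := hcomp.isClosed.measurableSet
  have hD'c : IsCompact D' := hcomp.image hcont
  have hD'm : MeasurableSet D' := hD'c.isClosed.measurableSet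
  have hvol : (volume D').toReal = (volume D).toReal / 16 := by
    rw [hD', Measure.addHaar_image_homothety, ENNReal.toReal_mul,
      ENNReal.toReal_ofReal (abs_nonneg _)]
    have : Module.finrank ℝ (ℝ × ℝ) = 2 := by simp
    rw [this]
    norm_num
    ring
  have hcontφ : Continuous fun z : ℝ × ℝ => (φ z - c) ^ 2 := by fun_prop
  have hint : IntegrableOn (fun z : ℝ × ℝ => (φ z - c) ^ 2) D volume :=
    hcontφ.continuousOn.integrableOn_compact hcomp
  have h1 : ∫ z in D', (φ z - c) ^ 2 ≤ ∫ z in D, (φ z - c) ^ 2 :=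
    setIntegral_mono_set hint (ae_of_all _ fun z => sq_nonneg _) (HasSubset.Subset.eventuallyLE hsub)
  have h2 : (volume D').toReal * (l ^ 2 / 16) ≤ ∫ z in D', (φ z - c) ^ 2 := by
    have h3 : ∫ z in D', (l ^ 2 / 16 : ℝ) = (volume D').toReal * (l ^ 2 / 16) := by
      rw [setIntegral_const]
      simp [Measure.real, smul_eq_mul]
    rw [← h3]
    refine setIntegral_mono_on ?_ (hint.mono_set hsub) hD'm ?_
    · exact continuous_const.continuousOn.integrableOn_compact hD'c
    · rintro _ ⟨z, hz', rfl⟩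
      have h4 : φ (AffineMap.homothety p (1 / 4 : ℝ) z) ≤ φ p + l / 4 := by
        rw [AffineMap.homothety_apply]
        simp only [vsub_eq_sub, vadd_eq_add, map_add, map_smul, map_sub, smul_eq_mul]
        have := hz z hz'
        linarith
      have h5 : l / 4 ≤ c - φ (AffineMap.homothety p (1 / 4 : ℝ) z) := by linarith
      nlinarith [h5, hl]
  rw [hvol] at h2
  calc (volume D).toReal * (l ^ 2 / 256) = (volume D).toReal / 16 * (l ^ 2 / 16) := by ring
    _ ≤ _ := h2.trans h1

end Hom

theorem t_HOM : S_HOM := by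
  intro D φ p r l hconv hcomp hp hr hl hrp hz c
  rcases le_total (φ p + l / 2) c with h | h
  · exact Hom.one D φ p l c hconv hcomp hp hl (fun z hz' => by linarith [(hz z hz').2]) h
  · have h1 := Hom.one D (-φ) r l (-c) hconv hcomp hr hl (fun z hz' => by
      simp only [ContinuousLinearMap.neg_apply]
      linarith [(hz z hz').1]) (by
      simp only [ContinuousLinearMap.neg_apply]
      linarith)
    refine h1.trans (le_of_eq ?_)
    refine integral_congr_ae (ae_of_all _ fun z => ?_)
    simp only [ContinuousLinearMap.neg_apply]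
    ring

end Pool.Agent.T2h95.OC
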