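import Pool.Agent.T2h95.OC.Stm2

set_option autoImplicit false

namespace Pool.Agent.T2h95.OC

open MeasureTheory Set Filter Topology
open scoped ENNReal

namespace INT

theorem isCompact_Bx (n : ℕ) (a b : ℝ) : IsCompact (Bx n a b) := by
  have h : Bx n a b = Icc (fun _ => a) (fun _ => b) := by
    ext x
    simp only [Bx, mem_setOf_eq, mem_Icc, Pi.le_def]
    exact forall_and
  rw [h]
  exact isCompact_Icc

theorem law_compl (α β : ℝ) (a b : ℝ → ℝ) : law (rh α β a b) (Icc α β)ᶜ = 0 := by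
  unfold law
  rw [withDensity_apply _ measurableSet_Icc.compl]
  rw [setLIntegral_congr_fun (g := fun _ => 0) measurableSet_Icc.compl]
  · simp
  · intro x hx
    simp only [rh]
    rw [Set.indicator_of_notMem hx]
    simp

theorem ae_box (n : ℕ) (ν : Measure ℝ) [SigmaFinite ν] {α β : ℝ} (h : ν (Icc α β)ᶜ = 0) :
    ∀ᵐ x ∂pw n ν, x ∈ Bx n α β := by
  have h1 : ∀ i : Fin n, ∀ᵐ x ∂pw n ν, x i ∈ Icc α β := fun i =>
    (Measure.tendsto_eval_ae_ae (i := i)).eventually (show ∀ᵐ y ∂ν, y ∈ Icc α β from h)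
  filter_upwards [eventually_all.2 h1] with x hx
  exact fun i => hx i

theorem integrable_of_box (n : ℕ) (ν : Measure ℝ) [IsProbabilityMeasure ν] {α β : ℝ}
    (h : ν (Icc α β)ᶜ = 0) (G : (Fin n → ℝ) → ℝ) (hG : Continuous G) : Integrable G (pw n ν) := by
  have h1 : IntegrableOn G (Bx n α β) (pw n ν) :=
    hG.continuousOn.integrableOn_compact (isCompact_Bx n α β)
  unfold IntegrableOn at h1
  rwa [Measure.restrict_eq_self_of_ae_mem (ae_box n ν h)] at h1

end INT

theorem t_INT (h1 : S_WPD) : S_INT := by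
  intro α β lo H a b hP n h hh
  haveI := (h1 α β lo H a b hP).2.1
  exact INT.integrable_of_box n _ (INT.law_compl α β a b) h hh

end Pool.Agent.T2h95.OC
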