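import Pool.Agent.T2h95.OC.Stm2

set_option autoImplicit false

namespace Pool.Agent.T2h95.OC

open MeasureTheory Set Filter Topology
open scoped ENNReal
open Pool.Agent.R972.OP (pd)

namespace LVB

theorem isCompact_Bx (n : ℕ) (a b : ℝ) : IsCompact (Bx n a b) := by
  have h : Bx n a b = Icc (fun _ => a) (fun _ => b) := by
    ext x
    simp only [Bx, mem_setOf_eq, mem_Icc, Pi.le_def]
    exact forall_and
  rw [h]
  exact isCompact_Icc

theorem vol_cu (n : ℕ) : volume (cu n) = 1 := by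
  have h : cu n = Icc (fun _ => 0) (fun _ => 1) := by
    ext x
    simp only [cu, Bx, mem_setOf_eq, mem_Icc, Pi.le_def]
    exact forall_and
  rw [h, Real.volume_Icc_pi]
  simp

theorem continuous_sv {n : ℕ} {a b : ℝ → ℝ} (ha : Continuous a) (hb : Continuous b) :
    Continuous (fun z : (Fin n → ℝ) × (Fin n → ℝ) => sv a b z.1 z.2) := by
  unfold sv
  fun_prop

theorem fm_cont {n : ℕ} {a b : ℝ → ℝ} {F : (Fin n → ℝ) × (Fin n → ℝ) → ℝ} (ha : Continuous a)
    (hb : Continuous b) (hF : Continuous F) : Continuous (fm a b F) := by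
  unfold fm
  refine continuous_parametric_integral_of_continuous ?_ (isCompact_Bx n 0 1)
  exact hF.comp (continuous_fst.prodMk (continuous_sv ha hb))

theorem sv_mem {n : ℕ} {a b : ℝ → ℝ} {lo H : ℝ} (ha : ∀ x, lo ≤ a x ∧ a x ≤ lo + H)
    (hb : ∀ x, lo ≤ b x ∧ b x ≤ lo + H) (x : Fin n → ℝ) {v : Fin n → ℝ} (hv : v ∈ cu n) :
    sv a b x v ∈ Bx n lo (lo + H) := by
  intro i
  obtain ⟨h0, h1⟩ := hv i
  obtain ⟨a0, a1⟩ := ha (x i)
  obtain ⟨b0, b1⟩ := hb (x i)
  simp only [sv]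
  constructor
  · nlinarith [mul_nonneg h0 (sub_nonneg.2 b0), mul_nonneg (sub_nonneg.2 h1) (sub_nonneg.2 a0)]
  · nlinarith [mul_nonneg h0 (sub_nonneg.2 b1), mul_nonneg (sub_nonneg.2 h1) (sub_nonneg.2 a1)]

theorem exists_bound {n : ℕ} {F : (Fin n → ℝ) × (Fin n → ℝ) → ℝ} (hF : Continuous F)
    (c d lo hi : ℝ) : ∃ M : ℝ, 0 ≤ M ∧ ∀ x ∈ Bx n c d, ∀ s ∈ Bx n lo hi, |F (x, s)| ≤ M := by
  obtain ⟨M, hM⟩ := ((isCompact_Bx n c d).prod (isCompact_Bx n lo hi)).exists_bound_of_continuousOn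
    hF.continuousOn
  exact ⟨max M 0, le_max_right _ _, fun x hx s hs => (hM (x, s) ⟨hx, hs⟩).trans (le_max_left _ _)⟩

theorem fm_bound {n : ℕ} {a b : ℝ → ℝ} {F : (Fin n → ℝ) × (Fin n → ℝ) → ℝ} {lo H c d M : ℝ}
    (ha : ∀ x, lo ≤ a x ∧ a x ≤ lo + H) (hb : ∀ x, lo ≤ b x ∧ b x ≤ lo + H)
    (hM : ∀ x ∈ Bx n c d, ∀ s ∈ Bx n lo (lo + H), |F (x, s)| ≤ M) {x : Fin n → ℝ}
    (hx : x ∈ Bx n c d) : |fm a b F x| ≤ M := by
  unfold fm
  have h := norm_setIntegral_le_of_norm_le_const (μ := volume) (s := cu n)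
    (f := fun v => F (x, sv a b x v)) (C := M) (by rw [vol_cu]; exact ENNReal.one_lt_top)
    (fun v hv => hM x hx _ (sv_mem ha hb x hv))
  rwa [Measure.real, vol_cu, ENNReal.toReal_one, mul_one] at h

theorem fm_lim {n : ℕ} {a b : ℝ → ℝ} {A B : ℕ → ℝ → ℝ} {F : (Fin n → ℝ) × (Fin n → ℝ) → ℝ}
    {lo H c d : ℝ} (hF : Continuous F) (hAc : ∀ m, Continuous (A m)) (hBc : ∀ m, Continuous (B m))
    (hA : ∀ m x, lo ≤ A m x ∧ A m x ≤ lo + H) (hB : ∀ m x, lo ≤ B m x ∧ B m x ≤ lo + H)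
    (hAl : ∀ x, Tendsto (fun m => A m x) atTop (𝓝 (a x)))
    (hBl : ∀ x, Tendsto (fun m => B m x) atTop (𝓝 (b x))) {x : Fin n → ℝ} (hx : x ∈ Bx n c d) :
    Tendsto (fun m => fm (A m) (B m) F x) atTop (𝓝 (fm a b F x)) := by
  obtain ⟨M, hM0, hM⟩ := exists_bound hF c d lo (lo + H)
  have hfin : volume (cu n) < ⊤ := by rw [vol_cu]; exact ENNReal.one_lt_top
  unfold fm
  refine tendsto_integral_of_dominated_convergence (fun _ => M) ?_ ?_ ?_ ?_
  · intro m
    refine Continuous.aestronglyMeasurable ?_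
    exact hF.comp (continuous_const.prodMk
      ((continuous_sv (hAc m) (hBc m)).comp (continuous_const.prodMk continuous_id)))
  · exact integrableOn_const hfin.ne
  · intro m
    filter_upwards [ae_restrict_mem (isCompact_Bx n 0 1).measurableSet] with v hv
    exact hM x hx _ (sv_mem (hA m) (hB m) x hv)
  · refine Eventually.of_forall fun v => ?_
    refine (hF.tendsto _).comp ?_
    refine Tendsto.prodMk_nhds tendsto_const_nhds ?_
    rw [tendsto_pi_nhds]
    intro i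
    simp only [sv]
    exact (hAl (x i)).add (((hBl (x i)).sub (hAl (x i))).mul tendsto_const_nhds)

theorem int_lim {n : ℕ} {a b : ℝ → ℝ} {A B : ℕ → ℝ → ℝ} {F : (Fin n → ℝ) × (Fin n → ℝ) → ℝ}
    {lo H c d : ℝ} (hF : Continuous F) (hAc : ∀ m, Continuous (A m)) (hBc : ∀ m, Continuous (B m))
    (hA : ∀ m x, lo ≤ A m x ∧ A m x ≤ lo + H) (hB : ∀ m x, lo ≤ B m x ∧ B m x ≤ lo + H)
    (hAl : ∀ x, Tendsto (fun m => A m x) atTop (𝓝 (a x)))
    (hBl : ∀ x, Tendsto (fun m => B m x) atTop (𝓝 (b x))) (μ : Measure (Fin n → ℝ))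
    [IsFiniteMeasure μ] (X : Set (Fin n → ℝ)) (hX : X ⊆ Bx n c d) (hXm : MeasurableSet X)
    (ψ : ℝ → ℝ) (hψ : Continuous ψ) :
    Tendsto (fun m => ∫ x in X, ψ (fm (A m) (B m) F x) ∂μ) atTop
      (𝓝 (∫ x in X, ψ (fm a b F x) ∂μ)) := by
  obtain ⟨M, hM0, hM⟩ := exists_bound hF c d lo (lo + H)
  obtain ⟨C, hC⟩ := (isCompact_Icc (a := -M) (b := M)).exists_bound_of_continuousOn
    hψ.continuousOn
  refine tendsto_integral_of_dominated_convergence (fun _ => C) ?_ ?_ ?_ ?_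
  · intro m
    exact (hψ.comp (fm_cont (hAc m) (hBc m) hF)).aestronglyMeasurable
  · exact integrable_const _
  · intro m
    filter_upwards [ae_restrict_mem hXm] with x hx
    exact hC _ (abs_le.1 (fm_bound (hA m) (hB m) hM (hX hx)))
  · filter_upwards [ae_restrict_mem hXm] with x hx
    exact (hψ.tendsto _).comp (fm_lim hF hAc hBc hA hB hAl hBl (hX hx))

theorem law_compl (α β : ℝ) (a b : ℝ → ℝ) : law (rh α β a b) (Icc α β)ᶜ = 0 := by
  unfold law
  rw [withDensity_apply _ measurableSet_Icc.compl]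
  rw [setLIntegral_congr_fun (g := fun _ => 0) measurableSet_Icc.compl]
  · simp
  · intro x hx
    simp only [rh]
    rw [Set.indicator_of_notMem hx]
    simp

theorem isClosed_CR {n : ℕ} (R : Fin n → Fin n → Prop) : IsClosed (CR R) := by
  have h : CR R = ⋂ (i : Fin n) (j : Fin n) (_ : R i j), {x : Fin n → ℝ | x i ≤ x j} := by
    ext x
    simp [CR]
  rw [h]
  exact isClosed_iInter fun i => isClosed_iInter fun j => isClosed_iInter fun _ =>
    isClosed_le (continuous_apply i) (continuous_apply j)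

theorem continuous_Ga {n : ℕ} (l H : ℝ) {f : (Fin n → ℝ) × (Fin n → ℝ) → ℝ}
    (hf : ContDiff ℝ 1 f) : Continuous (Ga l H f) := by
  unfold Ga
  exact continuous_finset_sum _ fun i _ =>
    (continuous_const.mul (((hf.continuous_fderiv (by norm_num)).clm_apply
      continuous_const).pow 2)).add
      (continuous_const.mul (((hf.continuous_fderiv (by norm_num)).clm_apply
      continuous_const).pow 2))

theorem continuous_ds (α β : ℝ) : Continuous (ds α β) := by
  unfold ds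
  fun_prop

end LVB

theorem t_LVB (hE : S_EPS) (hW : S_WPD) (hS : S_SMA) (hG : S_GDF) (hB : S_BDE) : S_LVB := by
  intro α β lo H a b hP ε q hε hε2 hq n R f hf
  obtain ⟨-, h1, h2, h3⟩ := hW α β lo H a b hP
  set ν : Measure ℝ := law (rh α β a b) with hν
  have hcompl : ν (Icc α β)ᶜ = 0 := LVB.law_compl α β a b
  have hαc : α < q 0 := by
    by_contra hc
    push Not at hc
    have h4 := hq.lvl 0 ⟨le_rfl, zero_le_one⟩
    rw [mul_zero, add_zero] at h4
    have h5 : Iic (q 0) ⊆ (Icc α β)ᶜ ∪ {α} := by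
      intro x hx
      by_cases hxa : x = α
      · exact Or.inr hxa
      · refine Or.inl fun h => hxa (le_antisymm (le_trans hx hc) h.1)
    have h6 : ν (Iic (q 0)) = 0 := by
      refine measure_mono_null h5 ?_
      rw [measure_union_null_iff]
      exact ⟨hcompl, measure_singleton α⟩
    rw [h6] at h4
    have := ENNReal.ofReal_pos.2 hε
    rw [← h4] at this
    exact lt_irrefl _ this
  have hdβ : q 1 < β := by
    by_contra hc
    push Not at hc
    have h4 := hq.lvl 1 ⟨zero_le_one, le_rfl⟩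
    have h5 : (Iic (q 1))ᶜ ⊆ (Icc α β)ᶜ := by
      refine compl_subset_compl.2 fun x hx => le_trans hx.2 hc
    have h6 : ν (Iic (q 1))ᶜ = 0 := measure_mono_null h5 hcompl
    have h7 : ν (Iic (q 1)) = 1 := by
      rw [← prob_compl_eq_zero_iff measurableSet_Iic]
      exact h6
    rw [h7] at h4
    have h8 : ENNReal.ofReal (ε + (1 - 2 * ε) * 1) < ENNReal.ofReal 1 :=
      (ENNReal.ofReal_lt_ofReal_iff one_pos).2 (by linarith)
    rw [← h4, ENNReal.ofReal_one] at h8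
    exact lt_irrefl _ h8
  have hcd : q 0 < q 1 := hq.mono ⟨le_rfl, zero_le_one⟩ ⟨zero_le_one, le_rfl⟩ zero_lt_one
  obtain ⟨A, hA1, hA2, hA3, hA4⟩ := hS α β lo H a hP.lt hP.hpos hP.ca hP.conv
    (fun x => ⟨hP.lo_le x, (hP.ab x).trans (hP.le_hi x)⟩) (q 0) (q 1) hαc hcd.le hdβ
  obtain ⟨T, hT1, hT2, hT3, hT4⟩ := hS α β (-lo - H) H (fun x => -b x) hP.lt hP.hpos hP.cb.neg
    hP.conc.neg
    (fun x => ⟨by linarith [hP.le_hi x], by linarith [(hP.lo_le x).trans (hP.ab x)]⟩)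
    (q 0) (q 1) hαc hcd.le hdβ
  set B : ℕ → ℝ → ℝ := fun m x => -T m x with hBdef
  have hB1 : ∀ m, ContDiff ℝ 1 (B m) := fun m => (hT1 m).neg
  have hB2 : ∀ m x, lo ≤ B m x ∧ B m x ≤ lo + H := by
    intro m x
    obtain ⟨h4, h5⟩ := hT2 m x
    exact ⟨by simp only [hBdef]; linarith, by simp only [hBdef]; linarith⟩
  have hB3 : ∀ m, ∀ x ∈ Icc (q 0) (q 1), |deriv (B m) x| ≤ 2 * H / min (x - α) (β - x) := by
    intro m x hx
    have h4 : deriv (B m) x = - deriv (T m) x := by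
      simp only [hBdef]
      exact deriv.fun_neg
    rw [h4, abs_neg]
    exact hT3 m x hx
  have hB4 : ∀ x, Tendsto (fun m => B m x) atTop (𝓝 (b x)) := by
    intro x
    have h4 := (hT4 x).neg
    rw [neg_neg] at h4
    exact h4
  set X : Set (Fin n → ℝ) := CR R ∩ Bx n (q 0) (q 1) with hX
  have hXm : MeasurableSet X :=
    (LVB.isClosed_CR R).measurableSet.inter (LVB.isCompact_Bx n _ _).measurableSet
  have hXs : X ⊆ Bx n (q 0) (q 1) := inter_subset_right
  have hGac := LVB.continuous_Ga (β - α) H hf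
  have hτc : Continuous (fun x => 16 * ds α β x ^ 2) :=
    continuous_const.mul ((LVB.continuous_ds α β).pow 2)
  have hint : ∀ G : (Fin n → ℝ) → ℝ, Continuous G → IntegrableOn G X (pw n ν) := fun G hG =>
    (hG.continuousOn.integrableOn_compact (LVB.isCompact_Bx n (q 0) (q 1))).mono_set hXs
  have hstep : ∀ m, (pw n ν X).toReal * (∫ x in X, fm (A m) (B m) f x ^ 2 ∂pw n ν) -
      (∫ x in X, fm (A m) (B m) f x ∂pw n ν) ^ 2 ≤
      (pw n ν X).toReal * ∫ x in X, fm (A m) (B m) (Ga (β - α) H f) x ∂pw n ν := by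
    intro m
    have hg := (hG n (A m) (B m) f (hA1 m) (hB1 m) hf).1
    refine (hE ν (fun x => 16 * ds α β x ^ 2) hτc (fun x => by positivity) h3 ε q hε hε2 hq n R
      (fm (A m) (B m) f) hg).trans ?_
    refine mul_le_mul_of_nonneg_left ?_ ENNReal.toReal_nonneg
    refine setIntegral_mono_on ?_ ?_ hXm ?_
    · refine hint _ (continuous_finset_sum _ fun i _ => ?_)
      refine (hτc.comp (continuous_apply i)).mul (Continuous.pow ?_ 2)
      exact (hg.continuous_fderiv (by norm_num)).clm_apply continuous_const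
    · exact hint _ (LVB.fm_cont (hA1 m).continuous (hB1 m).continuous hGac)
    · intro x hx
      exact hB n α β H (q 0) (q 1) (A m) (B m) f hαc hcd.le hdβ hP.hpos (hA1 m) (hB1 m) (hA3 m)
        (hB3 m) hf x (hXs hx)
  have hlim : ∀ (F : (Fin n → ℝ) × (Fin n → ℝ) → ℝ), Continuous F → ∀ ψ : ℝ → ℝ, Continuous ψ →
      Tendsto (fun m => ∫ x in X, ψ (fm (A m) (B m) F x) ∂pw n ν) atTop
      (𝓝 (∫ x in X, ψ (fm a b F x) ∂pw n ν)) := fun F hF ψ hψ =>
    LVB.int_lim hF (fun m => (hA1 m).continuous) (fun m => (hB1 m).continuous) hA2 hB2 hA4 hB4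
      (pw n ν) X hXs hXm ψ hψ
  have l1 := hlim f hf.continuous (fun y => y ^ 2) (continuous_pow 2)
  have l2 := hlim f hf.continuous (fun y => y) continuous_id
  have l3 := hlim _ hGac (fun y => y) continuous_id
  exact le_of_tendsto_of_tendsto' ((l1.const_mul _).sub (l2.pow 2)) (l3.const_mul _) hstep

end Pool.Agent.T2h95.OC
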