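import Pool.Agent.T2h95.OC.Stm2

set_option autoImplicit false

namespace Pool.Agent.T2h95.OC

open MeasureTheory Set Filter Topology
open scoped ENNReal

namespace LVC

theorem continuous_dX {n : ℕ} {f : (Fin n → ℝ) × (Fin n → ℝ) → ℝ} (hf : ContDiff ℝ 1 f)
    (i : Fin n) : Continuous (dX f i) :=
  (hf.continuous_fderiv (by norm_num)).clm_apply continuous_const

theorem continuous_dS {n : ℕ} {f : (Fin n → ℝ) × (Fin n → ℝ) → ℝ} (hf : ContDiff ℝ 1 f)
    (i : Fin n) : Continuous (dS f i) :=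
  (hf.continuous_fderiv (by norm_num)).clm_apply continuous_const

theorem continuous_Ga {n : ℕ} (l H : ℝ) {f : (Fin n → ℝ) × (Fin n → ℝ) → ℝ}
    (hf : ContDiff ℝ 1 f) : Continuous (Ga l H f) := by
  unfold Ga
  exact continuous_finset_sum _ fun i _ =>
    (continuous_const.mul ((continuous_dX hf i).pow 2)).add
      (continuous_const.mul ((continuous_dS hf i).pow 2))

end LVC

theorem t_LVC (hQ : S_QFE) (hW : S_WPD) (hL : S_LVB) (hI : S_INT) (hF : S_FMC) (hE : S_EXH) :
    S_LVC := by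
  intro α β lo H a b hP n R f hf
  obtain ⟨-, h1, h2, h3⟩ := hW α β lo H a b hP
  set ν : Measure ℝ := law (rh α β a b) with hν
  have he : ∀ m : ℕ, 0 < 1 / ((m : ℝ) + 3) ∧ 1 / ((m : ℝ) + 3) < 1 / 2 := by
    intro m
    have hm : (0 : ℝ) ≤ m := Nat.cast_nonneg m
    refine ⟨by positivity, ?_⟩
    rw [div_lt_div_iff₀ (by positivity) (by norm_num)]
    linarith
  have hq : ∀ m : ℕ, ∃ q : ℝ → ℝ, QF ν (1 / ((m : ℝ) + 3)) q := fun m =>
    hQ ν (fun x => 16 * ds α β x ^ 2) h3 _ (he m).1 (he m).2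
  choose q hq using hq
  have hfc : Continuous (fm a b f) := hF n a b f hP.ca hP.cb hf.continuous
  have hgc : Continuous (fm a b (Ga (β - α) H f)) :=
    hF n a b _ hP.ca hP.cb (LVC.continuous_Ga _ _ hf)
  have hlim : ∀ h : (Fin n → ℝ) → ℝ, Continuous h →
      Tendsto (fun m => ∫ x in CR R ∩ Bx n (q m 0) (q m 1), h x ∂pw n ν) atTop
        (𝓝 (∫ x in CR R, h x ∂pw n ν)) := fun h hh =>
    hE ν q hq n R h (hI α β lo H a b hP n h hh).integrableOn
  have h0 := hlim (fun _ => 1) continuous_const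
  have hone : ∀ S : Set (Fin n → ℝ), ∫ x in S, (1 : ℝ) ∂pw n ν = (pw n ν S).toReal := by
    intro S
    simp [Measure.real]
  simp only [hone] at h0
  have hA := hlim (fun x => fm a b f x ^ 2) (hfc.pow 2)
  have hB := hlim (fun x => fm a b f x) hfc
  have hC := hlim (fun x => fm a b (Ga (β - α) H f) x) hgc
  exact le_of_tendsto_of_tendsto' ((h0.mul hA).sub (hB.pow 2)) (h0.mul hC) fun m =>
    hL α β lo H a b hP _ (q m) (he m).1 (he m).2 (hq m) n R f hf

end Pool.Agent.T2h95.OC
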