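import Pool.Agent.T2h95.OC.Stm

/-!
Task MAXD of project OC (helper33).
-/

set_option autoImplicit false

namespace Pool.Agent.T2h95.OC

open MeasureTheory Set Filter Topology

namespace MAXDaux

lemma LCD.integrable {ρ : ℝ → ℝ} (h : LCD ρ) : Integrable ρ := by
  refine ⟨h.meas.aestronglyMeasurable, ?_⟩
  rw [hasFiniteIntegral_iff_ofReal (ae_of_all _ h.nonneg), h.one]
  exact ENNReal.one_lt_top

lemma LCD.neg {ρ : ℝ → ℝ} (h : LCD ρ) : LCD (fun x => ρ (-x)) where
  nonneg := fun x => h.nonneg _
  meas := h.meas.comp measurable_neg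
  logc := fun x y t h0 h1 => by
    have := h.logc (-x) (-y) t h0 h1
    rwa [show (1 - t) * -x + t * -y = -((1 - t) * x + t * y) by ring] at this
  one := by
    have h1 := (Measure.measurePreserving_neg (volume : Measure ℝ)).lintegral_comp
      (f := fun x => ENNReal.ofReal (ρ x)) h.meas.ennreal_ofReal
    rw [← h.one, ← h1]

/-- the case `y > m` -/
lemma right {ρ : ℝ → ℝ} {m : ℝ} (h : LCD ρ) (hm : 0 < ρ m) (hr : ∫ y in Ioi m, ρ y = 1 / 2)
    (hl : ∫ y in Iio m, ρ y = 1 / 2) (y : ℝ) (hy : m < y) : ρ y ≤ 2 * ρ m := by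
  by_contra hlt
  push Not at hlt
  have hint := LCD.integrable h
  have hy0 : 0 < ρ y := by linarith
  set d := y - m with hd
  have hdpos : 0 < d := by rw [hd]; linarith
  set L := Real.log (ρ y) - Real.log (ρ m) with hL
  have hLpos : 0 < L := by
    have : Real.log (ρ m) < Real.log (ρ y) := Real.log_lt_log hm (by linarith)
    rw [hL]; linarith
  set c := L / d with hc
  have hcpos : 0 < c := div_pos hLpos hdpos
  -- bound on the left
  have hleft : ∀ x ∈ Iio m, ρ x ≤ ρ m * Real.exp (c * (x - m)) := by
    intro x hx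
    have hx' : x < m := hx
    rcases (h.nonneg x).eq_or_lt with h0 | h0
    · rw [← h0]; positivity
    · have hden : 0 < y - x := by linarith
      have ht0 : 0 < (m - x) / (y - x) := div_pos (by linarith) hden
      have ht1 : (m - x) / (y - x) < 1 := by rw [div_lt_one hden]; linarith
      have h1 := h.logc x y ((m - x) / (y - x)) ht0 ht1
      have h2 : (1 - (m - x) / (y - x)) * x + (m - x) / (y - x) * y = m := by
        field_simp
        ring
      rw [h2] at h1
      have h3 := Real.log_le_log (mul_pos (Real.rpow_pos_of_pos h0 _) (Real.rpow_pos_of_pos hy0 _)) h1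
      rw [Real.log_mul (Real.rpow_pos_of_pos h0 _).ne' (Real.rpow_pos_of_pos hy0 _).ne',
        Real.log_rpow h0, Real.log_rpow hy0] at h3
      have h4 : Real.log (ρ x) ≤ Real.log (ρ m) + c * (x - m) := by
        have h5 : (1 - (m - x) / (y - x)) * Real.log (ρ x) + (m - x) / (y - x) * Real.log (ρ y) -
            Real.log (ρ m) = (d * (Real.log (ρ x) - Real.log (ρ m)) + (m - x) * L) / (y - x) := by
          rw [hL, hd]
          field_simp
          ring
        have h6 : (d * (Real.log (ρ x) - Real.log (ρ m)) + (m - x) * L) / (y - x) ≤ 0 := by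
          rw [← h5]; linarith
        have h7 : d * (Real.log (ρ x) - Real.log (ρ m)) + (m - x) * L ≤ 0 := by
          by_contra hcon
          push Not at hcon
          exact absurd h6 (not_le.2 (div_pos hcon hden))
        have h8 : c * (x - m) = ((x - m) * L) / d := by rw [hc]; ring
        rw [h8]
        have h9 : Real.log (ρ x) - Real.log (ρ m) ≤ (x - m) * L / d := by
          rw [le_div_iff₀ hdpos]; linarith
        linarith
      calc ρ x = Real.exp (Real.log (ρ x)) := (Real.exp_log h0).symm
        _ ≤ Real.exp (Real.log (ρ m) + c * (x - m)) := Real.exp_le_exp.2 h4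
        _ = ρ m * Real.exp (c * (x - m)) := by rw [Real.exp_add, Real.exp_log hm]
  -- bound on the right
  have hright : ∀ x ∈ Ioo m y, ρ m * Real.exp (c * (x - m)) ≤ ρ x := by
    intro x hx
    have ht0 : 0 < (x - m) / d := div_pos (by linarith [hx.1]) hdpos
    have ht1 : (x - m) / d < 1 := by rw [div_lt_one hdpos, hd]; linarith [hx.2]
    have h1 := h.logc m y ((x - m) / d) ht0 ht1
    have h2 : (1 - (x - m) / d) * m + (x - m) / d * y = x := by
      rw [hd]
      have : y - m ≠ 0 := by linarith
      field_simp
      ring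
    rw [h2] at h1
    refine le_trans (le_of_eq ?_) h1
    rw [Real.rpow_def_of_pos hm, Real.rpow_def_of_pos hy0]
    nth_rw 1 [← Real.exp_log hm]
    rw [← Real.exp_add, ← Real.exp_add]
    congr 1
    rw [hc, hL]
    field_simp
    ring
  -- the integrals
  have hfun : (fun x => ρ m * Real.exp (c * (x - m))) =
      fun x => (ρ m * Real.exp (-(c * m))) * Real.exp (c * x) := by
    funext x
    rw [mul_assoc, ← Real.exp_add]
    congr 2
    ring
  have hexpint : IntegrableOn (fun x => ρ m * Real.exp (c * (x - m))) (Iic m) := by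
    rw [hfun]
    exact (integrableOn_exp_mul_Iic hcpos m).const_mul _
  have hI1 : ∫ x in Iio m, ρ m * Real.exp (c * (x - m)) = ρ m / c := by
    rw [← integral_Iic_eq_integral_Iio, hfun, integral_const_mul, integral_exp_mul_Iic hcpos]
    rw [mul_assoc, mul_div_assoc', ← Real.exp_add]
    simp
    ring
  have h1 : (1 : ℝ) / 2 ≤ ρ m / c := by
    rw [← hl, ← hI1]
    refine setIntegral_mono_on hint.integrableOn (hexpint.mono_set Iio_subset_Iic_self)
      measurableSet_Iio hleft
  have hI2 : ∫ x in Ioc m y, ρ m * Real.exp (c * (x - m)) = ρ m * (Real.exp L - 1) / c := by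
    rw [← intervalIntegral.integral_of_le hy.le]
    have hder : ∀ x ∈ uIcc m y, HasDerivAt (fun x => ρ m * Real.exp (c * (x - m)) / c)
        (ρ m * Real.exp (c * (x - m))) x := by
      intro x _
      have h1 : HasDerivAt (fun x => c * (x - m)) c x := by
        simpa using ((hasDerivAt_id x).sub_const m).const_mul c
      have h2 := ((h1.exp).const_mul (ρ m)).div_const c
      refine h2.congr_deriv ?_
      field_simp
    rw [intervalIntegral.integral_eq_sub_of_hasDerivAt hder]
    · have : c * (y - m) = L := by rw [hc, ← hd]; field_simp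
      rw [this]
      simp
      ring
    · apply Continuous.intervalIntegrable
      fun_prop
  have h2 : ρ m * (Real.exp L - 1) / c ≤ 1 / 2 := by
    rw [← hI2, ← hr, integral_Ioc_eq_integral_Ioo]
    calc ∫ x in Ioo m y, ρ m * Real.exp (c * (x - m)) ≤ ∫ x in Ioo m y, ρ x := by
          refine setIntegral_mono_on ?_ hint.integrableOn measurableSet_Ioo hright
          apply IntegrableOn.mono_set _ Ioo_subset_Icc_self
          exact (by fun_prop : Continuous fun x => ρ m * Real.exp (c * (x - m))).continuousOn.integrableOn_Icc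
      _ ≤ ∫ x in Ioi m, ρ x := setIntegral_mono_set hint.integrableOn
          (ae_of_all _ h.nonneg) (Ioo_subset_Ioi_self.eventuallyLE)
  have h3 : Real.exp L = ρ y / ρ m := by
    rw [hL, Real.exp_sub, Real.exp_log hy0, Real.exp_log hm]
  have h4 : 1 < Real.exp L - 1 := by
    rw [h3]
    have : 2 < ρ y / ρ m := by rw [lt_div_iff₀ hm]; linarith
    linarith
  have h5 : ρ m * (Real.exp L - 1) / c = (Real.exp L - 1) * (ρ m / c) := by ring
  rw [h5] at h2
  nlinarith

end MAXDaux

open MAXDaux

theorem t_MAXD : S_MAXD := by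
  intro ρ m h hm hr hl y
  rcases lt_trichotomy m y with hy | hy | hy
  · exact right h hm hr hl y hy
  · rw [← hy]; linarith
  · have h1 := right (ρ := fun x => ρ (-x)) (m := -m) (LCD.neg h) (by simpa using hm) ?_ ?_ (-y)
      (by linarith)
    · simpa using h1
    · have := integral_comp_neg_Ioi (-m) ρ
      rw [this, neg_neg, integral_Iic_eq_integral_Iio, hl]
    · have := integral_comp_neg_Iic (-m) ρ
      rw [← integral_Iic_eq_integral_Iio, this, neg_neg, hr]

end Pool.Agent.T2h95.OC
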