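import Pool.Agent.T2h95.OC.Stm2

set_option autoImplicit false

namespace Pool.Agent.T2h95.OC

open MeasureTheory Set Filter Topology
open scoped ENNReal

namespace POI2

theorem continuous_dX {n : ℕ} {f : (Fin n → ℝ) × (Fin n → ℝ) → ℝ} (hf : ContDiff ℝ 1 f)
    (i : Fin n) : Continuous (dX f i) :=
  (hf.continuous_fderiv (by norm_num)).clm_apply continuous_const

theorem continuous_dS {n : ℕ} {f : (Fin n → ℝ) × (Fin n → ℝ) → ℝ} (hf : ContDiff ℝ 1 f)
    (i : Fin n) : Continuous (dS f i) :=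
  (hf.continuous_fderiv (by norm_num)).clm_apply continuous_const

theorem isCompact_Bx (n : ℕ) (a b : ℝ) : IsCompact (Bx n a b) := by
  have h : Bx n a b = Icc (fun _ => a) (fun _ => b) := by
    ext x
    simp only [Bx, mem_setOf_eq, mem_Icc, Pi.le_def]
    exact forall_and
  rw [h]
  exact isCompact_Icc

theorem vol_cu (n : ℕ) : volume (cu n) = 1 := by
  have h : cu n = Icc (fun _ => 0) (fun _ => 1) := by
    ext x
    simp only [cu, Bx, mem_setOf_eq, mem_Icc, Pi.le_def]
    exact forall_and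
  rw [h, Real.volume_Icc_pi]
  simp

theorem continuous_sv {n : ℕ} (a b : ℝ → ℝ) (x : Fin n → ℝ) : Continuous (sv a b x) := by
  unfold sv
  fun_prop

theorem integrableOn_fibre {n : ℕ} (a b : ℝ → ℝ) {F : (Fin n → ℝ) × (Fin n → ℝ) → ℝ}
    (hF : Continuous F) (x : Fin n → ℝ) :
    IntegrableOn (fun v => F (x, sv a b x v)) (cu n) volume := by
  refine Continuous.continuousOn ?_ |>.integrableOn_compact (isCompact_Bx n 0 1)
  exact hF.comp (continuous_const.prodMk (continuous_sv a b x))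

theorem fm_add {n : ℕ} (a b : ℝ → ℝ) {F G : (Fin n → ℝ) × (Fin n → ℝ) → ℝ}
    (hF : Continuous F) (hG : Continuous G) (x : Fin n → ℝ) :
    fm a b (fun p => F p + G p) x = fm a b F x + fm a b G x := by
  unfold fm
  exact integral_add (integrableOn_fibre a b hF x) (integrableOn_fibre a b hG x)

theorem fm_one {n : ℕ} (a b : ℝ → ℝ) (x : Fin n → ℝ) : fm a b (fun _ => 1) x = 1 := by
  unfold fm
  simp [Measure.real, vol_cu]

end POI2

theorem t_POI2 (hL : S_LVC) (hC : S_CUB) (hFu : S_FUB) (hI : S_INT) (hF : S_FMC) (hW : S_WPD) :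
    S_POI2 := by
  intro α β lo H a b hP n R f hf
  obtain ⟨hA, h1, h2, h3⟩ := hW α β lo H a b hP
  have hlvc := hL α β lo H a b hP n R f hf
  set ν : Measure ℝ := law (rh α β a b) with hν
  set A : ℝ := AA α β a b with hAdef
  have hfc := hf.continuous
  set E2 : (Fin n → ℝ) × (Fin n → ℝ) → ℝ := fun p => ∑ i, H ^ 2 * dS f i p ^ 2 with hE2
  have hE2c : Continuous E2 :=
    continuous_finset_sum _ fun i _ => continuous_const.mul ((POI2.continuous_dS hf i).pow 2)
  have hGac : Continuous (Ga (β - α) H f) := by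
    unfold Ga
    exact continuous_finset_sum _ fun i _ =>
      (continuous_const.mul ((POI2.continuous_dX hf i).pow 2)).add
        (continuous_const.mul ((POI2.continuous_dS hf i).pow 2))
  have hone : ∀ S : Set (Fin n → ℝ), ∫ x in S, (1 : ℝ) ∂pw n ν = (pw n ν S).toReal := by
    intro S
    simp [Measure.real]
  set w : ℝ := (pw n ν (CR R)).toReal with hw
  have hwn : 0 ≤ w := ENNReal.toReal_nonneg
  have hvol : (volume (KP (DD α β a b) R)).toReal = A ^ n * w := by
    have h4 := hFu α β lo H a b hP n R (fun _ => 1) continuous_const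
    have h5 : ∫ x in CR R, fm a b (fun _ => (1 : ℝ)) x ∂pw n ν = w := by
      rw [hw, ← hone]
      congr 1
      ext x
      exact POI2.fm_one a b x
    rw [h5] at h4
    rw [← h4]
    simp [Measure.real]
  have hQ2 := hFu α β lo H a b hP n R (fun p => f p ^ 2) (hfc.pow 2)
  have hQ1 := hFu α β lo H a b hP n R f hfc
  have hEn : ∫ p in KP (DD α β a b) R,
      ∑ i, (8 * (β - α) ^ 2 * dX f i p ^ 2 + 129 * H ^ 2 * dS f i p ^ 2) =
      A ^ n * (∫ x in CR R, fm a b (Ga (β - α) H f) x ∂pw n ν +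
        ∫ x in CR R, fm a b E2 x ∂pw n ν) := by
    have h4 : (fun p => ∑ i, (8 * (β - α) ^ 2 * dX f i p ^ 2 + 129 * H ^ 2 * dS f i p ^ 2)) =
        fun p => Ga (β - α) H f p + E2 p := by
      funext p
      simp only [Ga, hE2]
      rw [← Finset.sum_add_distrib]
      refine Finset.sum_congr rfl fun i _ => ?_
      ring
    rw [h4]
    rw [hFu α β lo H a b hP n R (fun p => Ga (β - α) H f p + E2 p) (hGac.add hE2c)]
    congr 1
    rw [← integral_add
      (hI α β lo H a b hP n _ (hF n a b _ hP.ca hP.cb hGac)).integrableOn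
      (hI α β lo H a b hP n _ (hF n a b _ hP.ca hP.cb hE2c)).integrableOn]
    congr 1
    ext x
    exact POI2.fm_add a b hGac hE2c x
  have hcub : ∫ x in CR R, fm a b (fun p => f p ^ 2) x ∂pw n ν ≤
      ∫ x in CR R, fm a b f x ^ 2 ∂pw n ν + ∫ x in CR R, fm a b E2 x ∂pw n ν := by
    have i1 : IntegrableOn (fun x => fm a b f x ^ 2) (CR R) (pw n ν) :=
      (hI α β lo H a b hP n _ ((hF n a b _ hP.ca hP.cb hfc).pow 2)).integrableOn
    have i2 : IntegrableOn (fun x => fm a b E2 x) (CR R) (pw n ν) :=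
      (hI α β lo H a b hP n _ (hF n a b _ hP.ca hP.cb hE2c)).integrableOn
    have i3 : IntegrableOn (fun x => fm a b (fun p => f p ^ 2) x) (CR R) (pw n ν) :=
      (hI α β lo H a b hP n _ (hF n a b _ hP.ca hP.cb (hfc.pow 2))).integrableOn
    rw [← integral_add i1 i2]
    exact integral_mono i3 (i1.add i2) fun x => hC α β lo H a b hP n f hf x
  rw [hvol, hQ2, hQ1, hEn]
  have hAn : 0 ≤ A ^ n * A ^ n := by positivity
  have key : w * (∫ x in CR R, fm a b (fun p => f p ^ 2) x ∂pw n ν) -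
      (∫ x in CR R, fm a b f x ∂pw n ν) ^ 2 ≤
      w * (∫ x in CR R, fm a b (Ga (β - α) H f) x ∂pw n ν +
        ∫ x in CR R, fm a b E2 x ∂pw n ν) := by
    have h6 := mul_le_mul_of_nonneg_left hcub hwn
    have h7 : w * (∫ x in CR R, fm a b f x ^ 2 ∂pw n ν) - (∫ x in CR R, fm a b f x ∂pw n ν) ^ 2 ≤
      w * ∫ x in CR R, fm a b (Ga (β - α) H f) x ∂pw n ν := hlvc
    nlinarith [h6, h7]
  have := mul_le_mul_of_nonneg_left key hAn
  nlinarith [this]

end Pool.Agent.T2h95.OC
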