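import Pool.Agent.T2h95.OC.Stm2

/-! # SMA -/

set_option autoImplicit false

namespace Pool.Agent.T2h95.OC

open MeasureTheory Set Filter Topology

theorem t_SMA : S_SMA := by
  intro α β lo H a hαβ hH ha hc hb c d hαc hcd hdβ
  have hd0 : 0 < β - d := by linarith
  obtain ⟨A, hAd⟩ : ∃ A : ℝ → ℝ, A = fun x => ∫ t in (0 : ℝ)..x, a t := ⟨_, rfl⟩
  have hA : ∀ x, HasDerivAt A (a x) x := by
    intro x
    rw [hAd]
    exact (ha.integral_hasStrictDerivAt 0 x).hasDerivAt
  have hAi : ∀ x y, ∫ t in x..y, a t = A y - A x := by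
    intro x y
    rw [hAd]
    exact (intervalIntegral.integral_interval_sub_left (ha.intervalIntegrable _ _)
      (ha.intervalIntegrable _ _)).symm
  obtain ⟨δ, hδ⟩ : ∃ δ : ℕ → ℝ, δ = fun m : ℕ => (β - d) / (2 * ((m : ℝ) + 1)) := ⟨_, rfl⟩
  have hδ0 : ∀ m, 0 < δ m := by
    intro m
    rw [hδ]
    positivity
  have hδ1 : ∀ m, δ m ≤ (β - d) / 2 := by
    intro m
    rw [hδ]
    have : (0 : ℝ) ≤ m := Nat.cast_nonneg m
    apply div_le_div_of_nonneg_left hd0.le (by norm_num)
    linarith
  have hs : ∀ m x, HasDerivAt (fun x => (A (x + δ m) - A x) / δ m)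
      ((a (x + δ m) - a x) / δ m) x := by
    intro m x
    have h1 : HasDerivAt (fun x => A (x + δ m)) (a (x + δ m)) x := (hA (x + δ m)).comp_add_const x _
    exact (h1.sub (hA x)).div_const _
  refine ⟨fun m x => (A (x + δ m) - A x) / δ m, ?_, ?_, ?_, ?_⟩
  · intro m
    rw [contDiff_one_iff_deriv]
    refine ⟨fun x => (hs m x).differentiableAt, ?_⟩
    have : deriv (fun x => (A (x + δ m) - A x) / δ m) = fun x => (a (x + δ m) - a x) / δ m :=
      funext fun x => (hs m x).deriv
    rw [this]
    fun_prop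
  · intro m x
    have hx : x ≤ x + δ m := by linarith [hδ0 m]
    have h1 : ∫ t in x..(x + δ m), lo ≤ ∫ t in x..(x + δ m), a t :=
      intervalIntegral.integral_mono_on hx (by simp) (ha.intervalIntegrable _ _)
        fun t _ => (hb t).1
    have h2 : ∫ t in x..(x + δ m), a t ≤ ∫ t in x..(x + δ m), (lo + H) :=
      intervalIntegral.integral_mono_on hx (ha.intervalIntegrable _ _) (by simp)
        fun t _ => (hb t).2
    rw [intervalIntegral.integral_const, hAi, smul_eq_mul] at h1
    rw [intervalIntegral.integral_const, hAi, smul_eq_mul] at h2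
    constructor
    · show lo ≤ (A (x + δ m) - A x) / δ m
      rw [le_div_iff₀ (hδ0 m)]
      linarith
    · show (A (x + δ m) - A x) / δ m ≤ lo + H
      rw [div_le_iff₀ (hδ0 m)]
      linarith
  · intro m x hx
    rw [(hs m x).deriv]
    have hxα : 0 < x - α := by linarith [hx.1]
    have hxβ : 0 < β - x := by linarith [hx.2]
    have hm : 0 < min (x - α) (β - x) := lt_min hxα hxβ
    have e1 : x + δ m < β := by linarith [hδ0 m, hδ1 m, hx.2]
    have e2 : (β - x) / 2 ≤ β - (x + δ m) := by linarith [hδ1 m, hx.2]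
    have hαm : α ∈ Icc α β := ⟨le_rfl, hαβ.le⟩
    have hβm : β ∈ Icc α β := ⟨hαβ.le, le_rfl⟩
    have hxm : x ∈ Icc α β := ⟨by linarith, by linarith⟩
    have hxδm : x + δ m ∈ Icc α β := ⟨by linarith [hδ0 m], e1.le⟩
    have s1 := hc.slope_mono_adjacent hxm hβm (by linarith [hδ0 m] : x < x + δ m) e1
    have s2 := hc.slope_mono_adjacent hαm hxδm (by linarith : α < x)
      (by linarith [hδ0 m] : x < x + δ m)
    rw [add_sub_cancel_left] at s1 s2
    have t1 : (a β - a (x + δ m)) / (β - (x + δ m)) ≤ H / (β - (x + δ m)) := by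
      apply div_le_div_of_nonneg_right _ (by linarith)
      linarith [(hb β).2, (hb (x + δ m)).1]
    have t2 : H / (β - (x + δ m)) ≤ H / ((β - x) / 2) :=
      div_le_div_of_nonneg_left hH.le (by linarith) e2
    have t3 : H / ((β - x) / 2) = 2 * H / (β - x) := by
      field_simp
    have t4 : 2 * H / (β - x) ≤ 2 * H / min (x - α) (β - x) :=
      div_le_div_of_nonneg_left (by linarith) hm (min_le_right _ _)
    have t5 : -(H / (x - α)) ≤ (a x - a α) / (x - α) := by
      rw [← neg_div]
      apply div_le_div_of_nonneg_right _ hxα.le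
      linarith [(hb x).1, (hb α).2]
    have t6 : H / (x - α) ≤ 2 * H / min (x - α) (β - x) :=
      div_le_div₀ (by linarith) (by linarith) hm (min_le_left _ _)
    rw [abs_le]
    constructor
    · linarith
    · linarith
  · intro x
    have h1 := (hasDerivAt_iff_tendsto_slope_zero.1 (hA x))
    have h2 : Tendsto δ atTop (𝓝[≠] 0) := by
      rw [tendsto_nhdsWithin_iff]
      refine ⟨?_, Eventually.of_forall fun m => (hδ0 m).ne'⟩
      have h3 : Tendsto (fun m : ℕ => ((β - d) / 2) * (1 / ((m : ℝ) + 1))) atTop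
          (𝓝 (((β - d) / 2) * 0)) := tendsto_one_div_add_atTop_nhds_zero_nat.const_mul _
      rw [mul_zero] at h3
      refine h3.congr fun m => ?_
      rw [hδ]
      have : (0 : ℝ) < (m : ℝ) + 1 := by positivity
      field_simp
    refine (h1.comp h2).congr fun m => ?_
    simp only [Function.comp_apply, smul_eq_mul]
    rw [div_eq_inv_mul]

end Pool.Agent.T2h95.OC
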