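import Pool.Agent.T2h95.OC.Stm2

/-! # SYK: symmetric functions on `KP` -/

set_option autoImplicit false

namespace Pool.Agent.T2h95.OC

open MeasureTheory Set Filter Topology
open scoped ENNReal BigOperators
open Pool.Agent.R972.OP (OPp pd S_SYM S_POB S_BODL)

namespace SYK

theorem cu_vol (n : ℕ) : volume (cu n) = 1 := by
  have : cu n = Icc (0 : Fin n → ℝ) 1 := by
    ext x
    simp only [cu, Bx, mem_ofPred_eq, mem_Icc, Pi.le_def, Pi.zero_apply, Pi.one_apply]
    exact ⟨fun h => ⟨fun i => (h i).1, fun i => (h i).2⟩, fun h i => ⟨h.1 i, h.2 i⟩⟩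
  rw [this, Real.volume_Icc_pi]
  simp

theorem cu_meas (n : ℕ) : MeasurableSet (cu n) := by
  have : cu n = Icc (0 : Fin n → ℝ) 1 := by
    ext x
    simp only [cu, Bx, mem_ofPred_eq, mem_Icc, Pi.le_def, Pi.zero_apply, Pi.one_apply]
    exact ⟨fun h => ⟨fun i => (h i).1, fun i => (h i).2⟩, fun h i => ⟨h.1 i, h.2 i⟩⟩
  rw [this]
  exact measurableSet_Icc

/-- permutation invariance of the integral over the cube -/
theorem perm {n : ℕ} (p : Equiv.Perm (Fin n)) (φ : (Fin n → ℝ) → ℝ) :
    ∫ v in cu n, φ v = ∫ v in cu n, φ fun i => v (p i) := by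
  have hmp := volume_measurePreserving_piCongrLeft (fun _ : Fin n => ℝ) p.symm
  have he : ∀ v : Fin n → ℝ, MeasurableEquiv.piCongrLeft (fun _ : Fin n => ℝ) p.symm v =
      fun i => v (p i) := by
    intro v
    funext i
    have := MeasurableEquiv.piCongrLeft_apply_apply (β := fun _ : Fin n => ℝ) p.symm v (p i)
    simpa using this
  have h := hmp.setIntegral_preimage_emb
    (MeasurableEquiv.piCongrLeft (fun _ : Fin n => ℝ) p.symm).measurableEmbedding φ (cu n)
  rw [← h]
  have hpre : (MeasurableEquiv.piCongrLeft (fun _ : Fin n => ℝ) p.symm) ⁻¹' (cu n) = cu n := by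
    ext v
    simp only [mem_preimage, he]
    constructor
    · intro hv i
      have := hv (p.symm i)
      simpa using this
    · intro hv i
      exact hv (p i)
  rw [hpre]
  refine setIntegral_congr_fun (cu_meas n) fun v _ => ?_
  rw [he]

end SYK

theorem t_SYK (h1 : S_SYV) (h2 : S_QFE) (h3 : S_FUB) (h4 : S_FMC) (h5 : S_INT) (h6 : S_WPD) :
    S_SYK := by
  intro α β lo H a b hP n R G hG hsym
  obtain ⟨hA, hpr, hna, hwp⟩ := h6 α β lo H a b hP
  have hε : ∀ m : ℕ, ∃ q : ℝ → ℝ, QF (law (rh α β a b)) (1 / ((m : ℝ) + 3)) q := by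
    intro m
    refine h2 _ _ hwp _ (by positivity) ?_
    have : (0 : ℝ) ≤ m := Nat.cast_nonneg m
    rw [div_lt_div_iff₀ (by positivity) (by norm_num)]
    linarith
  choose q hq using hε
  have hfG : Continuous (fm a b G) := h4 n a b G hP.ca hP.cb hG
  have hfs : ∀ (p : Equiv.Perm (Fin n)) (x : Fin n → ℝ),
      fm a b G (fun i => x (p i)) = fm a b G x := by
    intro p x
    unfold fm
    rw [SYK.perm p]
    refine setIntegral_congr_fun (SYK.cu_meas n) fun v _ => ?_
    have := hsym p (x, sv a b x v)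
    rw [← this]
    rfl
  have hv := h1 (law (rh α β a b)) q hq n R (fm a b G) hfG (h5 α β lo H a b hP n _ hfG) hfs
  have hU : CR (fun _ _ : Fin n => False) = univ := by
    ext x; simp [CR]
  -- volumes
  have hvol : ∀ R' : Fin n → Fin n → Prop, (volume (KP (DD α β a b) R')).toReal =
      AA α β a b ^ n * (pw n (law (rh α β a b)) (CR R')).toReal := by
    intro R'
    have e1 := h3 α β lo H a b hP n R' (fun _ => (1 : ℝ)) continuous_const
    have e2 : fm a b (fun _ : (Fin n → ℝ) × (Fin n → ℝ) => (1 : ℝ)) = fun _ => 1 := by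
      funext x
      unfold fm
      simp [SYK.cu_vol, Measure.real]
    rw [e2] at e1
    simpa [Measure.real] using e1
  rw [hvol, hvol, h3 α β lo H a b hP n R G hG, h3 α β lo H a b hP n (fun _ _ => False) G hG, hU,
    hv]
  simp only [Measure.restrict_univ, measure_univ, ENNReal.toReal_one]
  ring

end Pool.Agent.T2h95.OC
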