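import Pool.Agent.T2h95.OC.Stm

/-! # SYV: symmetric functions on the cone -/

set_option autoImplicit false

namespace Pool.Agent.T2h95.OC

open MeasureTheory Set Filter Topology
open scoped ENNReal
open Pool.Agent.R972.OP (OPp S_SYM)

theorem t_SYV (h1 : S_SYM) (h2 : S_PUSH) (h3 : S_EXH) : S_SYV := by
  intro ν _ _ q hq n R h hc hi hs
  have hε0 : ∀ m : ℕ, 0 < 1 / ((m : ℝ) + 3) := fun m => by positivity
  have hε1 : ∀ m : ℕ, 1 / ((m : ℝ) + 3) < 1 / 2 := fun m => by
    have : (0 : ℝ) ≤ m := Nat.cast_nonneg m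
    rw [div_lt_div_iff₀ (by positivity) (by norm_num)]
    linarith
  -- identity at level m
  have hlev : ∀ m : ℕ, ((1 - 2 * (1 / ((m : ℝ) + 3)))⁻¹) ^ n *
      ∫ x in CR R ∩ Bx n (q m 0) (q m 1), h x ∂pw n ν =
      (((1 - 2 * (1 / ((m : ℝ) + 3)))⁻¹) ^ n *
        ∫ _x in CR R ∩ Bx n (q m 0) (q m 1), (1 : ℝ) ∂pw n ν) *
      (((1 - 2 * (1 / ((m : ℝ) + 3)))⁻¹) ^ n *
        ∫ x in CR (fun _ _ : Fin n => False) ∩ Bx n (q m 0) (q m 1), h x ∂pw n ν) := by
    intro m
    have e1 := h2 ν _ (q m) (hε0 m) (hε1 m) (hq m) n R h hc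
    have e2 := h2 ν _ (q m) (hε0 m) (hε1 m) (hq m) n R (fun _ => (1 : ℝ)) continuous_const
    have e3 := h2 ν _ (q m) (hε0 m) (hε1 m) (hq m) n (fun _ _ : Fin n => False) h hc
    rw [← e1, ← e2, ← e3]
    have hcG : Continuous fun u : Fin n → ℝ => h fun a => q m (u a) :=
      hc.comp (continuous_pi fun a => (hq m).cont.comp (continuous_apply a))
    have e4 := h1 n R (fun u : Fin n → ℝ => h fun a => q m (u a)) hcG
      (fun p x => hs p fun a => q m (x a))
    rw [e4]
    congr 1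
    simp [Measure.real]
  have hk : Tendsto (fun m : ℕ => ((1 - 2 * (1 / ((m : ℝ) + 3)))⁻¹) ^ n) atTop (𝓝 1) := by
    have h0 : Tendsto (fun m : ℕ => 1 / ((m : ℝ) + 3)) atTop (𝓝 0) := by
      have : Tendsto (fun m : ℕ => (m : ℝ) + 3) atTop atTop :=
        tendsto_atTop_add_const_right _ _ tendsto_natCast_atTop_atTop
      have h' := this.inv_tendsto_atTop
      refine h'.congr fun m => ?_
      simp
    have h1' : Tendsto (fun m : ℕ => 1 - 2 * (1 / ((m : ℝ) + 3))) atTop (𝓝 (1 - 2 * 0)) :=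
      tendsto_const_nhds.sub (h0.const_mul 2)
    have h2' := (h1'.inv₀ (by norm_num)).pow n
    simpa using h2'
  have l1 := h3 ν q hq n R h hi.integrableOn
  have l2 := h3 ν q hq n R (fun _ => (1 : ℝ)) (integrable_const _).integrableOn
  have l3 := h3 ν q hq n (fun _ _ : Fin n => False) h hi.integrableOn
  have L := hk.mul l1
  have Rr := (hk.mul l2).mul (hk.mul l3)
  have hEq := tendsto_nhds_unique (L.congr fun m => hlev m) Rr
  have hU : CR (fun _ _ : Fin n => False) = univ := by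
    ext x; simp [CR]
  rw [hU] at hEq
  simp only [one_mul, Measure.restrict_univ] at hEq
  rw [hEq]
  congr 1
  simp [Measure.real]

end Pool.Agent.T2h95.OC
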