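import Pool.Agent.R972.OP.Stm

/-!
# Order-conditioned product measures: statements (project OC)

`ν` a law on the line without atoms which satisfies the weighted Poincare inequality
`Var_ν g ≤ ∫ τ g'² dν`, `R` a partial order on `Fin n`. The law `μ` = `ν^n` conditioned on
`x_i ≤ x_j` for `R i j` satisfies `Var_μ f ≤ ∫ ∑ τ(x_a) (∂_a f)² dμ`, and symmetric functions have the
same means under `μ` and `ν^n`.

Plan: (1) `DG`: the minimiser of the discrete Rayleigh quotient on `N` points gives rates `c` with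
`WC N W c m`; (2) `DC`: the discrete weighted Poincare inequality at the quantiles of `ν`;
(3) `LIM`: path coupling (`S_LAT`, proved in `R972.OP`) and the limit `N → ∞`, in quantile
coordinates; (4) `PUSH`, `EXH`: back to `ν^n`; (5) packaging, log-concave laws.
-/

set_option autoImplicit false

namespace Pool.Agent.T2h95.OC

open MeasureTheory Set Filter Topology
open scoped ENNReal
open Pool.Agent.R972.OP (mv cfg QQ OPp lp adj pd WC S_LAT S_RS S_ADJ S_UPC S_SYM)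

/-! ### 1. the discrete Rayleigh quotient -/

/-- discrete energy with weights `w_k` on the edges `k, k + 1` -/
noncomputable def EN (N : ℕ) (w g : ℕ → ℝ) : ℝ :=
  ∑ k ∈ Finset.range (N - 1), w k * (g (k + 1) - g k) ^ 2

/-- `∑ g² - (∑ g)² / N` -/
noncomputable def VN (N : ℕ) (g : ℕ → ℝ) : ℝ :=
  ∑ k ∈ Finset.range N, g k ^ 2 - (∑ k ∈ Finset.range N, g k) ^ 2 / N

/-- **DG1** (monotone minimiser). Proof. On the compact set `{g : Fin N → ℝ | ∑ g = 0, ∑ g² = 1}`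
(nonempty for `N ≥ 2`) the continuous function `EN` has a minimum `lam` at some `g`; `lam > 0`
because `EN g = 0` forces `g` constant (`w > 0`), hence `0`. By scaling and subtraction of the mean
(`EN`, `VN` do not change under `g ↦ g + const`, are homogeneous of degree 2 and `VN g = ∑ g²` when
`∑ g = 0`) `lam * VN N h ≤ EN N w h` for all `h`. Let `G k = ∑_{i < k} |g (i+1) - g i|`. Then `G` is
nondecreasing on `0..N-1`, `EN G = EN g`, and `VN G ≥ VN g` since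
`VN h = (1/(2N)) ∑_{i,j} (h i - h j)²` and `|G i - G j| ≥ |g i - g j|`. So
`EN G = EN g = lam VN g ≤ lam VN G ≤ EN G`, equality. Some increment of `G` is positive, otherwise
`EN g = 0`. -/
def S_DG1 : Prop := ∀ (N : ℕ) (w : ℕ → ℝ), 2 ≤ N → (∀ k, k + 1 < N → 0 < w k) →
  ∃ (lam : ℝ) (G : ℕ → ℝ), 0 < lam ∧ (∀ k, k + 1 < N → G k ≤ G (k + 1)) ∧
    (∃ k, k + 1 < N ∧ G k < G (k + 1)) ∧ EN N w G = lam * VN N G ∧
    ∀ h : ℕ → ℝ, lam * VN N h ≤ EN N w h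

/-- **DG2** (Euler-Lagrange equation). Proof. For all `h` and real `t`,
`0 ≤ EN (G + t h) - lam VN (G + t h)`, a quadratic polynomial in `t` which vanishes at `t = 0`, so
its linear coefficient vanishes: `∑_{k<N-1} w k (G(k+1) - G k)(h(k+1) - h k) =
lam (∑ G h - (∑ G)(∑ h)/N)`. With `h = 1_{j}` and `m = (∑ G)/N`:
`[0<j] w(j-1)(G j - G(j-1)) - [j+1<N] w j (G(j+1) - G j) = lam (G j - m)`, which is `WC.eq` for the
rates `c = w/lam`. Strict monotonicity: summing `WC.eq` over `j ≤ k` (telescoping), `k + 1 < N`: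
`c k (G(k+1) - G k) = ∑_{j≤k} (m - G j) =: S k`. The numbers `m - G j` are nonincreasing in `j`, have
sum `0` over `j < N` and are not all equal (`G` is not constant), so `m - G 0 > 0 > m - G (N-1)`, and
`S k > 0` for `k + 1 < N`: if `m - G k ≥ 0` all terms of `S k` are `≥ 0` and the first is positive;
if `m - G k < 0` then `S k = -∑_{k<j<N} (m - G j) > 0`. -/
def S_DG2 : Prop := ∀ (N : ℕ) (w G : ℕ → ℝ) (lam : ℝ), 2 ≤ N → (∀ k, k + 1 < N → 0 < w k) →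
  0 < lam → (∀ k, k + 1 < N → G k ≤ G (k + 1)) → (∃ k, k + 1 < N ∧ G k < G (k + 1)) →
  EN N w G = lam * VN N G → (∀ h : ℕ → ℝ, lam * VN N h ≤ EN N w h) →
  ∃ m : ℝ, WC N G (fun k => w k / lam) m

/-- **DG**. Proof. `N = 0`: trivial. `N = 1`: `W = 0`, `c = 0`, `m = 0`. `N ≥ 2`: `DG1`, `DG2`; the
hypothesis for `G` gives `VN G ≤ EN G = lam VN G`, and `VN G > 0` (`lam VN G = EN G > 0`), so
`1 ≤ lam` and `c k = w k / lam ≤ w k`. -/
def S_DG : Prop := ∀ (N : ℕ) (w : ℕ → ℝ), (∀ k, k + 1 < N → 0 < w k) →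
  (∀ g : ℕ → ℝ, VN N g ≤ EN N w g) →
  ∃ (W c : ℕ → ℝ) (m : ℝ), WC N W c m ∧ ∀ k, k + 1 < N → c k ≤ w k

/-! ### 2. the line -/

/-- weighted Poincare inequality `Var_ν g ≤ ∫ τ g'² dν` for `C¹` functions which are constant near
`-∞` and near `∞` -/
def WP (ν : Measure ℝ) (τ : ℝ → ℝ) : Prop :=
  ∀ g : ℝ → ℝ, ContDiff ℝ 1 g → HasCompactSupport (deriv g) →
    ∫ x, g x ^ 2 ∂ν - (∫ x, g x ∂ν) ^ 2 ≤ ∫ x, τ x * deriv g x ^ 2 ∂ν

/-- `q` on `[0, 1]` is the quantile function of `ν` between the levels `ε` and `1 - ε` -/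
structure QF (ν : Measure ℝ) (ε : ℝ) (q : ℝ → ℝ) : Prop where
  cont : Continuous q
  mono : StrictMonoOn q (Icc 0 1)
  lvl : ∀ u ∈ Icc (0 : ℝ) 1, ν (Iic (q u)) = ENNReal.ofReal (ε + (1 - 2 * ε) * u)

/-- **QFE** (quantile functions). Proof. `F t = ν (Iic t)` is continuous (no atoms), nondecreasing,
with limits `0` and `1`. If `F a = F b ∈ (0, 1)`, `a < b`, take `g` smooth, `0` on `(-∞, a']`, `1` on
`[b', ∞)`, `a < a' < b' < b` (`Real.smoothTransition`): the right side of `WP` is `0` because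
`ν (Ioc a b) = 0`, the left side is `F a (1 - F a) > 0`. So `F` is strictly increasing where
`0 < F < 1`; `q` = inverse function of `F` at `ε + (1 - 2ε) u`, `u` clamped to `[0, 1]`; the inverse
of a strictly increasing continuous function on an interval is continuous. -/
def S_QFE : Prop := ∀ (ν : Measure ℝ) [IsProbabilityMeasure ν] [NullSingletonClass ν] (τ : ℝ → ℝ),
  WP ν τ → ∀ ε : ℝ, 0 < ε → ε < 1 / 2 → ∃ q : ℝ → ℝ, QF ν ε q

/-- **EXT** (right-continuous derivatives). Proof. `G t = ∫_a^t D`. For `0 < δ ≤ 1` let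
`D_δ t = (1/δ) ∫_t^{t+δ} D = (G (t+δ) - G t)/δ`: continuous, `|D_δ| ≤ B`, zero outside `[a-1, b]`,
`D_δ → D` pointwise as `δ → 0+` (right continuity). `G_δ t = ∫_a^t D_δ` is `C¹` with derivative `D_δ`
(compact support), `|G_δ| ≤ B (b - a + 1)`, `G_δ → G` pointwise (dominated convergence). Apply `WP`
to `G_δ` and let `δ = 1/(m+1) → 0`, dominated convergence in the three integrals with respect to the
probability `ν` (`τ` is bounded on `[a-1, b]`). -/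
def S_EXT : Prop := ∀ (ν : Measure ℝ) [IsProbabilityMeasure ν] (τ : ℝ → ℝ), Continuous τ →
  (∀ x, 0 ≤ τ x) → WP ν τ → ∀ (D : ℝ → ℝ) (a b B : ℝ), a ≤ b → Measurable D →
  (∀ t, |D t| ≤ B) → (∀ t, t < a ∨ b < t → D t = 0) →
  (∀ t, ContinuousWithinAt D (Ici t) t) →
  ∫ t, (∫ s in a..t, D s) ^ 2 ∂ν - (∫ t, (∫ s in a..t, D s) ∂ν) ^ 2 ≤ ∫ t, τ t * D t ^ 2 ∂ν

/-- **DC2** (piecewise linear interpolation). Proof from `EXT`. `d_k = (g(k+1) - g k)/(x(k+1) - x k)`,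
`D = d_k` on `[x k, x(k+1))` for `k + 1 < N`, zero elsewhere; `G t = g 0 + ∫_{x 0}^t D`: it is the
piecewise linear interpolation of `g` at the points `x`, constant outside. `|G t - g k| =
|d_k| (t - x k) ≤ |g(k+1) - g k|` on `[x k, x(k+1))`. Adding the constant `g 0` does not change the
variance (`ν` is a probability, `G` is bounded), and `∫ τ D² dν = ∑ d_k² ∫_{[x k, x(k+1))} τ dν`
(disjoint intervals). -/
def S_DC2 : Prop := ∀ (ν : Measure ℝ) [IsProbabilityMeasure ν] (τ : ℝ → ℝ), Continuous τ →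
  (∀ x, 0 ≤ τ x) → WP ν τ → ∀ (N : ℕ) (x g : ℕ → ℝ), 1 ≤ N →
  (∀ k, k + 1 < N → x k < x (k + 1)) →
  ∃ G : ℝ → ℝ, Continuous G ∧ (∃ B, ∀ t, |G t| ≤ B) ∧
    (∀ k, k + 1 < N → ∀ t ∈ Ico (x k) (x (k + 1)), |G t - g k| ≤ |g (k + 1) - g k|) ∧
    (∀ t, x (N - 1) ≤ t → G t = g (N - 1)) ∧
    ∫ t, G t ^ 2 ∂ν - (∫ t, G t ∂ν) ^ 2 ≤ ∑ k ∈ Finset.range (N - 1),
      ((g (k + 1) - g k) / (x (k + 1) - x k)) ^ 2 * ∫ t in Ico (x k) (x (k + 1)), τ t ∂ν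

/-- **DC1** (step functions). Proof. Let `c = ∫ G dν`. `VN N g ≤ ∑_{k<N} (g k - c)²` and
`p (g k - c)² = ∫_{I_k} (g k - c)² dν ≤ ∫_{I_k} ((1+s)(G - c)² + (1+1/s)(e k)²) dν`,
`I_k = [x k, x(k+1))`. The `I_k` are disjoint, so
`p ∑ (g k - c)² ≤ (1+s) ∫ (G - c)² dν + (1+1/s) p ∑ (e k)²`, and `∫ (G-c)² = ∫ G² - c² ≤ V`. -/
def S_DC1 : Prop := ∀ (ν : Measure ℝ) [IsProbabilityMeasure ν] (N : ℕ) (x g e : ℕ → ℝ)
  (G : ℝ → ℝ) (p V s : ℝ), 1 ≤ N → (∀ k, k < N → x k < x (k + 1)) → 0 < p → 0 < s →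
  (∀ k, k < N → ν (Ico (x k) (x (k + 1))) = ENNReal.ofReal p) →
  Continuous G → (∃ B, ∀ t, |G t| ≤ B) →
  (∀ k, k < N → ∀ t ∈ Ico (x k) (x (k + 1)), |G t - g k| ≤ e k) →
  ∫ t, G t ^ 2 ∂ν - (∫ t, G t ∂ν) ^ 2 ≤ V →
  VN N g ≤ (1 + s) * V / p + (1 + 1 / s) * ∑ k ∈ Finset.range N, e k ^ 2

/-- **MOD** (modulus of continuity). Proof. `φ` is uniformly continuous on `[0, 1]`;
`δ N = 1/(N+1) + sup {|φ u - φ v| : u, v ∈ [0,1], |u - v| ≤ 1/N}`. -/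
def S_MOD : Prop := ∀ φ : ℝ → ℝ, Continuous φ → ∃ δ : ℕ → ℝ, (∀ N, 0 < δ N) ∧
  Tendsto δ atTop (𝓝 0) ∧ ∀ N : ℕ, 1 ≤ N → ∀ u ∈ Icc (0 : ℝ) 1, ∀ v ∈ Icc (0 : ℝ) 1,
    |u - v| ≤ 1 / (N : ℝ) → |φ u - φ v| ≤ δ N

/-- the discrete points -/
noncomputable def xq (q : ℝ → ℝ) (N k : ℕ) : ℝ := q ((k : ℝ) / N)

/-- **DC** (discrete inequality at the quantiles). Proof from `DC1`, `DC2`, `MOD`. `x k = xq q N k`,
`k ≤ N`; `ν [x k, x(k+1)) = (1-2ε)/N =: p` (no atoms). `δ`, `ω` = moduli of `q`, `τ ∘ q` (`MOD`),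
`τ ≥ η > 0` on `q [0,1]`. `DC2` and `τ ≤ τ(x k) + ω N ≤ (1 + ω N/η) τ(x k)` on `I_k`:
`V ≤ p (1 + ω/η) E`, `E = ∑_{k<N-1} τ(x k) (Δg/Δx)²`. `DC1` with `e k = |g(k+1) - g k| =
|d_k| Δx_k ≤ |d_k| δ N` for `k + 1 < N`, `e (N-1) = 0`: `∑ e² ≤ δ² ∑ d_k² ≤ δ²/η E`; `s = δ N`:
`VN N g ≤ θ_N E` with `θ_N = (1+δ)(1+ω/η) + (1 + 1/δ) δ²/η → 1`. -/
def S_DC : Prop := ∀ (ν : Measure ℝ) [IsProbabilityMeasure ν] [NullSingletonClass ν] (τ : ℝ → ℝ),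
  Continuous τ → (∀ x, 0 < τ x) → WP ν τ → ∀ (ε : ℝ) (q : ℝ → ℝ), 0 < ε → ε < 1 / 2 → QF ν ε q →
  ∃ θ : ℕ → ℝ, Tendsto θ atTop (𝓝 1) ∧ (∀ N, 0 < θ N) ∧ ∀ N : ℕ, 1 ≤ N → ∀ g : ℕ → ℝ,
    VN N g ≤ EN N (fun k => θ N * τ (xq q N k) / (xq q N (k + 1) - xq q N k) ^ 2) g

/-! ### 3. the limit -/

/-- placement to point -/
noncomputable def xg {n : ℕ} (q : ℝ → ℝ) (N : ℕ) (g : Fin n → ℕ) : Fin n → ℝ := fun a => xq q N (g a)

/-- **UPQ** (asymptotics of the energy of a placement). Proof. Adapt `R874.OP.upb`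
(`Pool/Agent/R874/OP/Upb.lean`): `xg q N (update g a (g a + 1)) = xg q N g + Δ e_a`,
`Δ = xq q N (g a + 1) - xq q N (g a)`; mean value theorem `f(y + Δ e_a) - f(y) = Δ ∂_a f(ξ)` on the
segment; `c (g a) Δ² ≤ θ τ(xq q N (g a))`. For the move down
`c (g a - 1) Δ'² ≤ θ τ(xq q N (g a - 1))`. The function `(t, y) ↦ τ(t) (∂_a f(y))²` is uniformly
continuous on the compact set `[q 0, q 1] × [q 0, q 1]^n`, all `xq q N k`, `k ≤ N`, are in
`[q 0, q 1]` and consecutive ones have distance `→ 0` uniformly (`MOD`), so both terms are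
`≤ θ (τ(x_a) (∂_a f(x))² + err)`. Exchange: `xg q N (mv (g a) (g a + 1) g)` differs from `xg q N g`
in at most the two coordinates `a, b`, by `Δ`, so `|F(mv) - F| ≤ L Δ` in the sup norm (`L` = bound of
`‖fderiv f‖` on the box) and `c Δ² L² ≤ θ sup τ L²`. -/
def S_UPQ : Prop := ∀ (n : ℕ) (f : (Fin n → ℝ) → ℝ) (q τ : ℝ → ℝ), ContDiff ℝ 1 f →
  Continuous q → StrictMonoOn q (Icc 0 1) → Continuous τ → (∀ x, 0 ≤ τ x) →
  ∃ (err : ℕ → ℝ) (C : ℝ), Tendsto err atTop (𝓝 0) ∧ 0 ≤ C ∧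
  ∀ (N : ℕ) (g : Fin n → ℕ) (c : ℕ → ℝ) (θ : ℝ), 0 < N → (∀ a, g a < N) →
  0 ≤ θ → (∀ k, k + 1 < N → 0 ≤ c k ∧
    c k * (xq q N (k + 1) - xq q N k) ^ 2 ≤ θ * τ (xq q N k)) →
  (∑ a, (if g a + 1 < N then
      c (g a) * (f (xg q N (Function.update g a (g a + 1))) - f (xg q N g)) ^ 2 else 0) +
    ∑ a, (if 0 < g a then
      c (g a - 1) * (f (xg q N (Function.update g a (g a - 1))) - f (xg q N g)) ^ 2 else 0) ≤
    θ * (2 * ∑ a, τ (xg q N g a) * pd f a (xg q N g) ^ 2 + err N)) ∧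
  ∀ a b, g b = g a + 1 →
    c (g a) * (f (xg q N (mv (g a) (g a + 1) g)) - f (xg q N g)) ^ 2 ≤ θ * C

/-- **LIM**. Proof. As in `R874.OP.Pob.pob` (`Pool/Agent/R874/OP/Pob.lean`), with the function
`g ↦ f (xg q N g)`, `xg q N g = fun a => q (lp N g a)`, so that Riemann sums (`S_RS`) are applied to
`u ↦ f (fun a => q (u a))` etc., and with the energy bounded by `UPQ` (`θ N → 1`); `S_UPC` for the
kinds of exchanges; `S_LAT` for the lattice inequality; `S_ADJ` for the adjacent labels. -/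
def S_LIM : Prop := ∀ (n : ℕ) (R : Fin n → Fin n → Prop) (q τ : ℝ → ℝ) (θ : ℕ → ℝ)
  (f : (Fin n → ℝ) → ℝ), (∀ a, ¬ R a a) →
  Continuous q → StrictMonoOn q (Icc 0 1) → Continuous τ → (∀ x, 0 ≤ τ x) →
  Tendsto θ atTop (𝓝 1) → (∀ N, 0 < θ N) →
  (∀ N : ℕ, 1 ≤ N → ∃ (W c : ℕ → ℝ) (m : ℝ), WC N W c m ∧
    ∀ k, k + 1 < N → c k ≤ θ N * τ (xq q N k) / (xq q N (k + 1) - xq q N k) ^ 2) →
  ContDiff ℝ 1 f →
  (volume (OPp R)).toReal * (∫ u in OPp R, f (fun a => q (u a)) ^ 2) -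
    (∫ u in OPp R, f fun a => q (u a)) ^ 2 ≤
  (volume (OPp R)).toReal * ∫ u in OPp R, ∑ a, τ (q (u a)) * pd f a (fun b => q (u b)) ^ 2

/-! ### 4. back to the product measure -/

section

variable {n : ℕ}

/-- the cone of the relation -/
def CR (R : Fin n → Fin n → Prop) : Set (Fin n → ℝ) := {x | ∀ i j, R i j → x i ≤ x j}

/-- box -/
def Bx (n : ℕ) (a b : ℝ) : Set (Fin n → ℝ) := {x | ∀ i, a ≤ x i ∧ x i ≤ b}

/-- product measure -/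
noncomputable abbrev pw (n : ℕ) (ν : Measure ℝ) : Measure (Fin n → ℝ) := Measure.pi fun _ => ν

end

/-- **PUSH1**. Proof. Both sides are finite measures; compare on `Iic t` (`Measure.ext_of_Iic`).
`t < q 0`: both `0`. `q 0 ≤ t ≤ q 1`: `t = q u` for some `u ∈ [0, 1]` (intermediate values),
`{v ∈ [0,1] | q v ≤ q u} = [0, u]` has volume `u`, and
`ν (Icc (q 0) (q u)) = F(q u) - F(q 0) = (1 - 2ε) u` (no atoms). `t > q 1`: as for `t = q 1`. -/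
def S_PUSH1 : Prop := ∀ (ν : Measure ℝ) [IsProbabilityMeasure ν] [NullSingletonClass ν] (ε : ℝ) (q : ℝ → ℝ),
  0 < ε → ε < 1 / 2 → QF ν ε q →
  (volume.restrict (Icc (0 : ℝ) 1)).map q =
    (ENNReal.ofReal (1 - 2 * ε))⁻¹ • ν.restrict (Icc (q 0) (q 1))

/-- **PUSH**. Proof from `PUSH1`. `volume.restrict [0,1]^n = Measure.pi (volume.restrict [0,1])`
(`Measure.restrict_pi_pi`), its image under `u ↦ q ∘ u` is the product of the images
(`Measure.pi_map_pi`), `= c^n • (pw n ν).restrict (Bx n (q 0) (q 1))`, `c = (1 - 2ε)⁻¹`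
(`Measure.pi_eq` or `restrict_pi_pi` for the smul). Since `q` is strictly increasing on `[0, 1]`, for
`u ∈ [0,1]^n`: `u ∈ OPp R ↔ (q ∘ u) ∈ CR R`. Integrate `1_{CR R} G`. -/
def S_PUSH : Prop := ∀ (ν : Measure ℝ) [IsProbabilityMeasure ν] [NullSingletonClass ν] (ε : ℝ) (q : ℝ → ℝ),
  0 < ε → ε < 1 / 2 → QF ν ε q → ∀ (n : ℕ) (R : Fin n → Fin n → Prop) (G : (Fin n → ℝ) → ℝ),
  Continuous G → ∫ u in OPp R, G (fun a => q (u a)) =
    ((1 - 2 * ε)⁻¹) ^ n * ∫ x in CR R ∩ Bx n (q 0) (q 1), G x ∂pw n ν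

/-- **EPS** (inequality at level `ε`). Proof from `QFE`... : replace `R` by `R a b ∧ a ≠ b` (same
sets `OPp`, `CR`). For `η > 0` the function `τ + η` is positive and `WP ν (τ + η)` holds, so
`DC`, `DG` (with `w k = θ N (τ + η)(x k) / Δx²`), `LIM` and `PUSH` (with `G = 1, f, f², ...`) give the
inequality with `τ + η`; multiply by `(1 - 2ε)^{2n}`; let `η → 0`. -/
def S_EPS : Prop := ∀ (ν : Measure ℝ) [IsProbabilityMeasure ν] [NullSingletonClass ν] (τ : ℝ → ℝ),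
  Continuous τ → (∀ x, 0 ≤ τ x) → WP ν τ → ∀ (ε : ℝ) (q : ℝ → ℝ), 0 < ε → ε < 1 / 2 → QF ν ε q →
  ∀ (n : ℕ) (R : Fin n → Fin n → Prop) (f : (Fin n → ℝ) → ℝ), ContDiff ℝ 1 f →
  (pw n ν (CR R ∩ Bx n (q 0) (q 1))).toReal * (∫ x in CR R ∩ Bx n (q 0) (q 1), f x ^ 2 ∂pw n ν) -
    (∫ x in CR R ∩ Bx n (q 0) (q 1), f x ∂pw n ν) ^ 2 ≤
  (pw n ν (CR R ∩ Bx n (q 0) (q 1))).toReal *
    ∫ x in CR R ∩ Bx n (q 0) (q 1), ∑ a, τ (x a) * pd f a x ^ 2 ∂pw n ν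

/-- **EXH** (exhaustion). Proof. The complement of `Bx n (q m 0) (q m 1)` has measure at most
`∑_i (ν (Iio (q m 0)) + ν (Ioi (q m 1))) ≤ 2 n ε_m → 0`, and
`∫_{CR ∩ Bx} h = ∫_{CR} h - ∫_{CR \ Bx} h`, `Integrable.tendsto_setIntegral_nhds_zero`. -/
def S_EXH : Prop := ∀ (ν : Measure ℝ) [IsProbabilityMeasure ν] (q : ℕ → ℝ → ℝ),
  (∀ m : ℕ, QF ν (1 / ((m : ℝ) + 3)) (q m)) → ∀ (n : ℕ) (R : Fin n → Fin n → Prop)
  (h : (Fin n → ℝ) → ℝ), IntegrableOn h (CR R) (pw n ν) →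
  Tendsto (fun m => ∫ x in CR R ∩ Bx n (q m 0) (q m 1), h x ∂pw n ν) atTop
    (𝓝 (∫ x in CR R, h x ∂pw n ν))

/-- **MAIN** (inequality on the cone). Proof from `QFE`, `EPS`, `EXH`: limit `m → ∞`. -/
def S_MAIN : Prop := ∀ (ν : Measure ℝ) [IsProbabilityMeasure ν] [NullSingletonClass ν] (τ : ℝ → ℝ),
  Continuous τ → (∀ x, 0 ≤ τ x) → WP ν τ → ∀ (n : ℕ) (R : Fin n → Fin n → Prop)
  (f : (Fin n → ℝ) → ℝ), ContDiff ℝ 1 f → IntegrableOn f (CR R) (pw n ν) →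
  IntegrableOn (fun x => f x ^ 2) (CR R) (pw n ν) →
  IntegrableOn (fun x => ∑ a, τ (x a) * pd f a x ^ 2) (CR R) (pw n ν) →
  (pw n ν (CR R)).toReal * (∫ x in CR R, f x ^ 2 ∂pw n ν) - (∫ x in CR R, f x ∂pw n ν) ^ 2 ≤
  (pw n ν (CR R)).toReal * ∫ x in CR R, ∑ a, τ (x a) * pd f a x ^ 2 ∂pw n ν

/-- **SYV** (symmetric functions). Proof from `S_SYM` (`R972.OP`), `PUSH`, `EXH`, `QFE`: for each `m`
apply `S_SYM` to `u ↦ h (q m ∘ u)` (symmetric, continuous) and to the constant `1`, translate by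
`PUSH` (also for the empty relation `fun _ _ => False`, `CR = univ`):
`∫_{CR ∩ Bx} h = (pw (CR ∩ Bx)) ((1-2ε)⁻¹)^n ∫_{Bx} h`; let `m → ∞` (`EXH` for `h`, `1`, both
relations). -/
def S_SYV : Prop := ∀ (ν : Measure ℝ) [IsProbabilityMeasure ν] [NullSingletonClass ν] (q : ℕ → ℝ → ℝ),
  (∀ m : ℕ, QF ν (1 / ((m : ℝ) + 3)) (q m)) → ∀ (n : ℕ) (R : Fin n → Fin n → Prop)
  (h : (Fin n → ℝ) → ℝ), Continuous h → Integrable h (pw n ν) →
  (∀ (p : Equiv.Perm (Fin n)) (x : Fin n → ℝ), h (fun i => x (p i)) = h x) →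
  ∫ x in CR R, h x ∂pw n ν = (pw n ν (CR R)).toReal * ∫ x, h x ∂pw n ν

/-! ### 5. Euclidean space -/

/-- Euclidean space -/
abbrev Eu (n : ℕ) : Type := EuclideanSpace ℝ (Fin n)

/-- `ν^n` conditioned on the order, in Euclidean space -/
noncomputable def oc {n : ℕ} (ν : Measure ℝ) (R : Fin n → Fin n → Prop) : Measure (Eu n) :=
  ProbabilityTheory.cond ((Measure.pi fun _ : Fin n => ν).map (WithLp.toLp 2))
    {x : Eu n | ∀ i j, R i j → x i ≤ x j}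

/-- **OCI** (translation). Proof. `∫ G d(oc ν R) = (∫_{CR R} G(toLp x) dν^n) / ν^n(CR R)`:
`WithLp.toLp 2` is a measurable equivalence (`MeasurableEquiv.toLp`), `cond` is the normalised
restriction. -/
def S_OCI : Prop := ∀ (n : ℕ) (ν : Measure ℝ) [IsProbabilityMeasure ν] (R : Fin n → Fin n → Prop),
  pw n ν (CR R) ≠ 0 → IsProbabilityMeasure (oc ν R) ∧ ∀ G : Eu n → ℝ,
    (Integrable G (oc ν R) ↔ IntegrableOn (fun x => G (WithLp.toLp 2 x)) (CR R) (pw n ν)) ∧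
    ∫ x, G x ∂(oc ν R) =
      (pw n ν (CR R)).toReal⁻¹ * ∫ x in CR R, G (WithLp.toLp 2 x) ∂pw n ν

/-- **FIN1** (the theorem in Euclidean space). Proof from `MAIN`, `OCI`: with
`F x = f (toLp 2 x)`, `pd F a x = fderiv f (toLp 2 x) (single a 1)`; `variance_eq_sub` /
`MemLp.integrable_sq`. -/
def S_FIN1 : Prop := ∀ (ν : Measure ℝ) [IsProbabilityMeasure ν] [NullSingletonClass ν] (τ : ℝ → ℝ),
  Continuous τ → (∀ x, 0 ≤ τ x) → WP ν τ → ∀ (n : ℕ) (R : Fin n → Fin n → Prop),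
  pw n ν (CR R) ≠ 0 → ∀ f : Eu n → ℝ, ContDiff ℝ 1 f → MemLp f 2 (oc ν R) →
  Integrable (fun x : Eu n => ∑ a, τ (x a) * fderiv ℝ f x (EuclideanSpace.single a 1) ^ 2)
    (oc ν R) →
  ProbabilityTheory.variance f (oc ν R) ≤
    ∫ x : Eu n, ∑ a, τ (x a) * fderiv ℝ f x (EuclideanSpace.single a 1) ^ 2 ∂(oc ν R)

/-- **NRM**: `∑_a (∂_a f)² = ‖fderiv f‖²`. -/
def S_NRM : Prop := ∀ (n : ℕ) (L : Eu n →L[ℝ] ℝ),
  ∑ a, L (EuclideanSpace.single a 1) ^ 2 = ‖L‖ ^ 2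

/-- **FIN2** (variance of the sum). Proof from `QFE` (as a hypothesis on `q`), `SYV`, `OCI`: `∑ x_i`
and `(∑ x_i)²` are symmetric and integrable, so mean and second moment of `∑ x_i` are the same as
for `ν^n`; there `ProbabilityTheory.variance_sum_pi`. -/
def S_FIN2 : Prop := ∀ (ν : Measure ℝ) [IsProbabilityMeasure ν] [NullSingletonClass ν] (q : ℕ → ℝ → ℝ),
  (∀ m : ℕ, QF ν (1 / ((m : ℝ) + 3)) (q m)) → MemLp (fun x : ℝ => x) 2 ν →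
  ∀ (n : ℕ) (R : Fin n → Fin n → Prop), pw n ν (CR R) ≠ 0 →
  ProbabilityTheory.variance (fun x : Eu n => ∑ i, x i) (oc ν R) =
    n * ProbabilityTheory.variance (fun x : ℝ => x) ν

/-- **POS** (partial orders have cones of positive measure). Proof. `R` antisymmetric (`R a b → R b a
→ a = b`) and transitive has a linear extension: a permutation `σ` of `Fin n` with
`R a b → σ a ≤ σ b` (e.g. `extend_partialOrder`, or `Pool/Agent/R609/OP/Geo.lean` for a strictly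
monotone real function). `CR R ⊇ {x | x_a ≤ x_b if σ a ≤ σ b}`, and the `n!` sets of this kind cover
the space and have the same measure (`measurePreserving_piCongrLeft`), so it is at least `1/n!`. -/
def S_POS : Prop := ∀ (n : ℕ) (ν : Measure ℝ) [IsProbabilityMeasure ν]
  (R : Fin n → Fin n → Prop), (∀ a b, R a b → R b a → a = b) → (∀ a b c, R a b → R b c → R a c) →
  pw n ν (CR R) ≠ 0

/-! ### 6. log-concave laws -/

/-- log-concave probability density on the line -/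
structure LCD (ρ : ℝ → ℝ) : Prop where
  nonneg : ∀ x, 0 ≤ ρ x
  meas : Measurable ρ
  logc : ∀ x y t : ℝ, 0 < t → t < 1 → ρ x ^ (1 - t) * ρ y ^ t ≤ ρ ((1 - t) * x + t * y)
  one : ∫⁻ x, ENNReal.ofReal (ρ x) = 1

/-- the law with density `ρ` -/
noncomputable def law (ρ : ℝ → ℝ) : Measure ℝ := volume.withDensity fun x => ENNReal.ofReal (ρ x)

/-- **HAR** (Hardy's inequality). Proof. `G = g - g m`, `G' = g'` has compact support, `G` bounded.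
For `x ≥ m`: `G(x)² = ∫_m^x 2 G G'`, so by Fubini
`∫_{x>m} G² ρ = ∫_{y>m} 2 G(y) G'(y) (∫_{x>y} ρ) dy ≤ ∫_{y>m} 2 |G| |G'| θ ρ ≤
(1/2) ∫_{y>m} G² ρ + 2 ∫_{y>m} G'² θ² ρ`, hence `∫_{x>m} G² ρ ≤ 4 ∫_{x>m} θ² G'² ρ`; the same on the
left. `Var g ≤ ∫ G² ρ`. -/
def S_HAR : Prop := ∀ (ρ θ : ℝ → ℝ) (m : ℝ), (∀ x, 0 ≤ ρ x) → Measurable ρ →
  ∫⁻ x, ENNReal.ofReal (ρ x) = 1 → Continuous θ → (∀ x, 0 ≤ θ x) →
  (∀ x, m ≤ x → ∫ y in Ioi x, ρ y ≤ θ x * ρ x) →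
  (∀ x, x ≤ m → ∫ y in Iio x, ρ y ≤ θ x * ρ x) → WP (law ρ) fun x => 4 * θ x ^ 2

/-- **MED** (median). Proof. `x ↦ ∫_{y<x} ρ` is continuous with limits `0`, `1`. `ρ m > 0`: otherwise
by log-concavity `ρ = 0` on one side of `m` (if `ρ x > 0` and `ρ y > 0`, `x < m < y`, then `ρ m > 0`),
contradiction to the value `1/2` of the integrals. -/
def S_MED : Prop := ∀ ρ : ℝ → ℝ, LCD ρ → ∃ m : ℝ, 0 < ρ m ∧ ∫ y in Ioi m, ρ y = 1 / 2 ∧
  ∫ y in Iio m, ρ y = 1 / 2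

/-- **MIL** (Mills ratio). Proof. Four points: for `x ≥ m`, `s ≥ 0`, log-concavity gives
`ρ m * ρ (x + s) ≤ ρ x * ρ (m + s)` (`x` and `m + s` are between `m` and `x + s`, with
complementary weights). Integrate over `s > 0`: `ρ m * ∫_{y>x} ρ ≤ ρ x * ∫_{y>m} ρ = ρ x / 2`. The
same on the left. -/
def S_MIL : Prop := ∀ (ρ : ℝ → ℝ) (m : ℝ), LCD ρ → 0 < ρ m → ∫ y in Ioi m, ρ y = 1 / 2 →
  ∫ y in Iio m, ρ y = 1 / 2 → (∀ x, m ≤ x → ∫ y in Ioi x, ρ y ≤ 1 / (2 * ρ m) * ρ x) ∧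
  ∀ x, x ≤ m → ∫ y in Iio x, ρ y ≤ 1 / (2 * ρ m) * ρ x

/-- **MAXD** (the density at the median). Proof. Let `y > m`, `A = ρ y / ρ m > 1`, `L = log A`,
`d = y - m`. On `[m, y]`: `ρ(m + s) ≥ ρ m A^{s/d}`; for `s ≥ 0`: `ρ(m - s) ≤ ρ m A^{-s/d}` (otherwise
log-concavity at `m` between `m - s` and `y` fails). So `1/2 = ∫_{y<m} ρ ≤ ρ m d / L` and
`1/2 ≥ ∫_m^y ρ ≥ ρ m (A - 1) d / L`, so `A - 1 ≤ 1`. The same for `y < m`. -/
def S_MAXD : Prop := ∀ (ρ : ℝ → ℝ) (m : ℝ), LCD ρ → 0 < ρ m → ∫ y in Ioi m, ρ y = 1 / 2 →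
  ∫ y in Iio m, ρ y = 1 / 2 → ∀ y, ρ y ≤ 2 * ρ m

/-- **MM2** (second moment). Proof. By `MIL`, `T x = ∫_{y>x} ρ` satisfies `T x ≤ ρ x / (2 ρ m)` for
`x ≥ m`. Simplest: `log ρ` concave and `∫ ρ < ∞` force exponential decay: there is `y > m` with
`ρ y < ρ m` (otherwise `ρ ≥ ρ m` on `[m, ∞)`, not integrable), and then for `x > y`:
`ρ x ≤ ρ y (ρ y / ρ m)^{(x - y)/(y - m)}` (or `ρ x = 0`), an exponential with base `< 1`. The same on
the left; `ρ ≤ 2 ρ m` is not needed on the middle part since `∫ ρ = 1` and `x²` is bounded there. -/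
def S_MM2 : Prop := ∀ ρ : ℝ → ℝ, LCD ρ → (∃ m, 0 < ρ m) → MemLp (fun x : ℝ => x) 2 (law ρ)

/-- **VLB** (variance from below). Proof. With `r = 1/(2M)` and any `c`:
`((x-c)² - r²) (ρ x - M 1_{|x-c| ≤ r}) ≥ 0` pointwise, and `∫ (ρ - M 1_{|x-c|≤r}) = 0`, so
`∫ (x-c)² ρ ≥ M ∫_{-r}^{r} s² ds = 2 M r³/3 = 1/(12 M²)`; take `c` = mean. -/
def S_VLB : Prop := ∀ (ρ : ℝ → ℝ) (M : ℝ), (∀ x, 0 ≤ ρ x) → Measurable ρ →
  ∫⁻ x, ENNReal.ofReal (ρ x) = 1 → 0 < M → (∀ x, ρ x ≤ M) → MemLp (fun x : ℝ => x) 2 (law ρ) →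
  1 / (12 * M ^ 2) ≤ ProbabilityTheory.variance (fun x : ℝ => x) (law ρ)

/-- **LC** (log-concave laws). Proof from `MED`, `MIL`, `HAR` (with the constant
`θ = 1/(2 ρ m)`), `MAXD`, `MM2`, `VLB` (`M = 2 ρ m`): `WP (law ρ) (1/ρ(m)²)` and
`1/(48 ρ(m)²) ≤ Var`. -/
def S_LC : Prop := ∀ ρ : ℝ → ℝ, LCD ρ → IsProbabilityMeasure (law ρ) ∧ NullSingletonClass (law ρ) ∧
  MemLp (fun x : ℝ => x) 2 (law ρ) ∧
  WP (law ρ) fun _ => 48 * ProbabilityTheory.variance (fun x : ℝ => x) (law ρ)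

end Pool.Agent.T2h95.OC
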