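import Pool.Agent.T2h95.OC.Stm
import Pool.Agent.R972.OP.Stm3
import Pool.Agent.Y211.FF.Half

/-!
# Ordered tuples of points of a planar convex body: statements (project OC, part 2)

`D` a planar convex body, `R` a partial order on `Fin n`,
`K = {y ∈ D^n | x(y_i) ≤ x(y_j) if R i j}`, `x` the first coordinate. `K` satisfies the KLS inequality
with an absolute constant. In coordinates `(x, s)`: `D = {α ≤ x ≤ β, a(x) ≤ s ≤ b(x)}`, `a` convex,
`b` concave.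

Proof. Let `ν` be the law of `x` under `D` (density `ρ = (b - a)/A`), `g(x) = ∫ f(x, s(x, v)) dv` the
mean of `f` over the fibre, `s(x, v)_i = a(x_i) + (b(x_i) - a(x_i)) v_i`, `v ∈ [0,1]^n`. The mean over
`K` of `f` is the mean of `g` over `ν^n` conditioned on the order (`FUB`). `Var_K f` = mean of the
variance over the fibres (`≤ H²/π²` times the energy, `CUB`) + `Var g`. By part 1 (level `ε`, `EPS`)
`Var g ≤ E ∑ τ(x_i) (∂_i g)²` with `τ = 16 dist(x, {α, β})²` (`WPD`: Hardy); the slopes of `a`, `b` are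
at most `2H/dist`, so `τ (∂_i g)²` is bounded by `8 (β-α)² (∂_{x_i} f)² + 128 H² (∂_{s_i} f)²` in
the mean over the fibre. `a`, `b` are not differentiable: use their averages `s_m` (`SMA`).
-/

set_option autoImplicit false

namespace Pool.Agent.T2h95.OC

open MeasureTheory Set Filter Topology
open scoped ENNReal InnerProductSpace
open Pool.Agent.R972.OP (OPp pd S_SYM S_POB S_BODL)

/-- planar body between the graph of a convex function `a` and a concave function `b` on `[α, β]`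
(both continuous on the line), of height at most `H` -/
structure PB (α β lo H : ℝ) (a b : ℝ → ℝ) : Prop where
  lt : α < β
  hpos : 0 < H
  ca : Continuous a
  cb : Continuous b
  conv : ConvexOn ℝ (Icc α β) a
  conc : ConcaveOn ℝ (Icc α β) b
  lo_le : ∀ x, lo ≤ a x
  ab : ∀ x, a x ≤ b x
  le_hi : ∀ x, b x ≤ lo + H
  pos : ∀ x ∈ Ioo α β, a x < b x

/-- the body -/
def DD (α β : ℝ) (a b : ℝ → ℝ) : Set (ℝ × ℝ) := {p | (α ≤ p.1 ∧ p.1 ≤ β) ∧ a p.1 ≤ p.2 ∧ p.2 ≤ b p.1}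

/-- its area -/
noncomputable def AA (α β : ℝ) (a b : ℝ → ℝ) : ℝ := ∫ x in Icc α β, (b x - a x)

/-- the density of the first coordinate -/
noncomputable def rh (α β : ℝ) (a b : ℝ → ℝ) : ℝ → ℝ :=
  (Icc α β).indicator fun x => (b x - a x) / AA α β a b

/-- the distance of `x ∈ [α, β]` to the end points -/
noncomputable def ds (α β x : ℝ) : ℝ := max 0 (min (x - α) (β - x))

/-- **WPD**. Proof. `0 < AA` (continuous, positive inside), `∫ ρ = 1`. `WP` by `HAR` with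
`m = (α+β)/2`, `θ = 2 ds`: for `m ≤ x ≤ y ≤ β`, `h = b - a` concave, nonnegative:
`h x ≥ ((x-α)/(y-α)) h y ≥ h y/2`, so `∫_{y>x} ρ ≤ 2 (β - x) ρ x`; symmetric on the left; for
`x > β` both sides are `0`. -/
def S_WPD : Prop := ∀ (α β lo H : ℝ) (a b : ℝ → ℝ), PB α β lo H a b →
  0 < AA α β a b ∧ IsProbabilityMeasure (law (rh α β a b)) ∧
  NullSingletonClass (law (rh α β a b)) ∧
  WP (law (rh α β a b)) fun x => 16 * ds α β x ^ 2

/-- **SMA** (smoothing a convex function). Proof. `s m x = (1/δ) ∫_x^{x+δ} a`,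
`δ = (β - d)/(2 (m+1))`. `C¹` with derivative `(a (x+δ) - a x)/δ`. For `x ∈ [c, d]`, `δ ≤ (β-x)/2`:
slopes of a convex function increase, so
`(a(x+δ) - a x)/δ ≤ (a β - a(x+δ))/(β-x-δ) ≤ H/(β-x-δ) ≤ 2H/(β-x)` and
`≥ (a x - a α)/(x - α) ≥ -H/(x-α)`. -/
def S_SMA : Prop := ∀ (α β lo H : ℝ) (a : ℝ → ℝ), α < β → 0 < H → Continuous a →
  ConvexOn ℝ (Icc α β) a → (∀ x, lo ≤ a x ∧ a x ≤ lo + H) → ∀ c d : ℝ, α < c → c ≤ d → d < β →
  ∃ s : ℕ → ℝ → ℝ, (∀ m, ContDiff ℝ 1 (s m)) ∧ (∀ m x, lo ≤ s m x ∧ s m x ≤ lo + H) ∧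
    (∀ m, ∀ x ∈ Icc c d, |deriv (s m) x| ≤ 2 * H / min (x - α) (β - x)) ∧
    ∀ x, Tendsto (fun m => s m x) atTop (𝓝 (a x))

section

variable {n : ℕ}

/-- the cube `[0, 1]^n` -/
def cu (n : ℕ) : Set (Fin n → ℝ) := Bx n 0 1

/-- the point of the fibre with parameter `v` -/
noncomputable def sv (a b : ℝ → ℝ) (x v : Fin n → ℝ) : Fin n → ℝ :=
  fun i => a (x i) + (b (x i) - a (x i)) * v i

/-- mean over the fibre -/
noncomputable def fm (a b : ℝ → ℝ) (F : (Fin n → ℝ) × (Fin n → ℝ) → ℝ) (x : Fin n → ℝ) : ℝ :=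
  ∫ v in cu n, F (x, sv a b x v)

/-- derivative in the direction of `x_i` -/
noncomputable def dX (f : (Fin n → ℝ) × (Fin n → ℝ) → ℝ) (i : Fin n)
    (p : (Fin n → ℝ) × (Fin n → ℝ)) : ℝ := fderiv ℝ f p (Pi.single i 1, 0)

/-- derivative in the direction of `s_i` -/
noncomputable def dS (f : (Fin n → ℝ) × (Fin n → ℝ) → ℝ) (i : Fin n)
    (p : (Fin n → ℝ) × (Fin n → ℝ)) : ℝ := fderiv ℝ f p (0, Pi.single i 1)

/-- ordered tuples, in coordinates -/
def KP (D : Set (ℝ × ℝ)) (R : Fin n → Fin n → Prop) : Set ((Fin n → ℝ) × (Fin n → ℝ)) :=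
  {p | p.1 ∈ CR R ∧ ∀ i, (p.1 i, p.2 i) ∈ D}

/-- energy density -/
noncomputable def Ga (l H : ℝ) (f : (Fin n → ℝ) × (Fin n → ℝ) → ℝ)
    (p : (Fin n → ℝ) × (Fin n → ℝ)) : ℝ :=
  ∑ i, (8 * l ^ 2 * dX f i p ^ 2 + 128 * H ^ 2 * dS f i p ^ 2)

end

/-- **FMC** (means over fibres are continuous). Proof. Dominated convergence / continuity of
parametric integrals over the compact cube. -/
def S_FMC : Prop := ∀ (n : ℕ) (a b : ℝ → ℝ) (F : (Fin n → ℝ) × (Fin n → ℝ) → ℝ), Continuous a →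
  Continuous b → Continuous F → Continuous (fm a b F)

/-- **GDF** (differentiation of the mean over the fibre). Proof. `(x, v) ↦ F (x, sv a b x v)` is `C¹`,
so its integral over the compact cube is `C¹` with the integral of the derivative
(`hasFDerivAt_integral_of_dominated_of_fderiv_le` on balls, or
`hasDerivAt_integral_of_dominated_loc_of_deriv_le` for partial derivatives); chain rule: the
derivative of `x ↦ (x, sv a b x v)` in the direction `e_i` is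
`(e_i, (a'(x_i) + (b'(x_i) - a'(x_i)) v_i) e_i)`. -/
def S_GDF : Prop := ∀ (n : ℕ) (a b : ℝ → ℝ) (f : (Fin n → ℝ) × (Fin n → ℝ) → ℝ), ContDiff ℝ 1 a →
  ContDiff ℝ 1 b → ContDiff ℝ 1 f → ContDiff ℝ 1 (fm a b f) ∧ ∀ (i : Fin n) (x : Fin n → ℝ),
    pd (fm a b f) i x = ∫ v in cu n, (dX f i (x, sv a b x v) +
      (deriv a (x i) + (deriv b (x i) - deriv a (x i)) * v i) * dS f i (x, sv a b x v))

/-- **BDE**. Proof from `GDF`. `(∫_cube φ)² ≤ ∫_cube φ²` (volume 1), `(u + w z)² ≤ 2 u² + 2 w² z²` with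
`|w| = |(1 - v) a' + v b'| ≤ 2H/min(x_i-α, β-x_i)`, `16 ds² · 2 ≤ 8 (β-α)²` since
`ds ≤ (β-α)/2`, `16 ds² · 2 · 4H²/ds² = 128 H²`. -/
def S_BDE : Prop := ∀ (n : ℕ) (α β H c d : ℝ) (a b : ℝ → ℝ)
  (f : (Fin n → ℝ) × (Fin n → ℝ) → ℝ), α < c → c ≤ d → d < β → 0 < H → ContDiff ℝ 1 a →
  ContDiff ℝ 1 b → (∀ x ∈ Icc c d, |deriv a x| ≤ 2 * H / min (x - α) (β - x)) →
  (∀ x ∈ Icc c d, |deriv b x| ≤ 2 * H / min (x - α) (β - x)) → ContDiff ℝ 1 f →
  ∀ x ∈ Bx n c d, ∑ i, 16 * ds α β (x i) ^ 2 * pd (fm a b f) i x ^ 2 ≤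
    fm a b (Ga (β - α) H f) x

/-- **LVB** (level `ε`). Proof from `EPS`, `WPD`, `SMA`, `GDF`, `BDE`. `c = q 0`, `d = q 1` are in
`(α, β)` (the levels are in `(0, 1)` and `law` lives on `[α, β]`). Apply `SMA` to `a` and to `-b`
(with `-lo-H`), get `a_m`, `b_m`; `EPS` for `G_m = fm a_m b_m f`, bound the right side by `BDE`;
`m → ∞` by dominated convergence twice (`sv a_m b_m x v → sv a b x v` pointwise, all arguments stay
in the compact set `Bx c d × Bx (lo-H) (lo+2H)`, `f`, `Ga f` continuous). -/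
def S_LVB : Prop := ∀ (α β lo H : ℝ) (a b : ℝ → ℝ), PB α β lo H a b → ∀ (ε : ℝ) (q : ℝ → ℝ),
  0 < ε → ε < 1 / 2 → QF (law (rh α β a b)) ε q → ∀ (n : ℕ) (R : Fin n → Fin n → Prop)
  (f : (Fin n → ℝ) × (Fin n → ℝ) → ℝ), ContDiff ℝ 1 f →
  (pw n (law (rh α β a b)) (CR R ∩ Bx n (q 0) (q 1))).toReal *
      (∫ x in CR R ∩ Bx n (q 0) (q 1), fm a b f x ^ 2 ∂pw n (law (rh α β a b))) -
    (∫ x in CR R ∩ Bx n (q 0) (q 1), fm a b f x ∂pw n (law (rh α β a b))) ^ 2 ≤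
  (pw n (law (rh α β a b)) (CR R ∩ Bx n (q 0) (q 1))).toReal *
    ∫ x in CR R ∩ Bx n (q 0) (q 1), fm a b (Ga (β - α) H f) x ∂pw n (law (rh α β a b))

/-- **INT** (continuous functions are integrable: the law lives on the compact cube `[α, β]^n`). -/
def S_INT : Prop := ∀ (α β lo H : ℝ) (a b : ℝ → ℝ), PB α β lo H a b → ∀ (n : ℕ)
  (h : (Fin n → ℝ) → ℝ), Continuous h → Integrable h (pw n (law (rh α β a b)))

/-- **LVC** (on the cone). Proof from `QFE`, `WPD`, `LVB`, `INT`, `FMC`, `EXH`: limit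
`m → ∞` as in `MAIN`. -/
def S_LVC : Prop := ∀ (α β lo H : ℝ) (a b : ℝ → ℝ), PB α β lo H a b →
  ∀ (n : ℕ) (R : Fin n → Fin n → Prop)
  (f : (Fin n → ℝ) × (Fin n → ℝ) → ℝ), ContDiff ℝ 1 f →
  (pw n (law (rh α β a b)) (CR R)).toReal *
      (∫ x in CR R, fm a b f x ^ 2 ∂pw n (law (rh α β a b))) -
    (∫ x in CR R, fm a b f x ∂pw n (law (rh α β a b))) ^ 2 ≤
  (pw n (law (rh α β a b)) (CR R)).toReal *
    ∫ x in CR R, fm a b (Ga (β - α) H f) x ∂pw n (law (rh α β a b))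

/-- **CUB** (variance over a fibre). Proof from `S_POB` (`R972.OP`) for the empty relation
(`OPp (fun _ _ => False) = cu n`, volume 1) applied to `v ↦ f (x, sv a b x v)`, whose partial
derivatives are `(b(x_i) - a(x_i)) dS f i`, of square `≤ H² (dS f i)²`, and `1/π² ≤ 1`. -/
def S_CUB : Prop := ∀ (α β lo H : ℝ) (a b : ℝ → ℝ), PB α β lo H a b → ∀ (n : ℕ)
  (f : (Fin n → ℝ) × (Fin n → ℝ) → ℝ), ContDiff ℝ 1 f → ∀ x : Fin n → ℝ,
  fm a b (fun p => f p ^ 2) x ≤ fm a b f x ^ 2 + fm a b (fun p => ∑ i, H ^ 2 * dS f i p ^ 2) x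

/-- **FUB1** (affine change of variables). Proof. `v ↦ (a_i + h_i v_i)` is a diagonal linear map and a
translation; if some `h_i = 0` both sides are `0` (the box is a null set). Or by `Measure.pi_map_pi`
from dimension one. -/
def S_FUB1 : Prop := ∀ (n : ℕ) (a h : Fin n → ℝ) (φ : (Fin n → ℝ) → ℝ), (∀ i, 0 ≤ h i) →
  Continuous φ → ∫ s in {s : Fin n → ℝ | ∀ i, a i ≤ s i ∧ s i ≤ a i + h i}, φ s =
    (∏ i, h i) * ∫ v in cu n, φ fun i => a i + h i * v i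

/-- **FUB2** (product of densities). Proof. `Measure.pi (law ρ) = volume.withDensity (∏ ρ(x_i))`
(`Measure.pi_eq` + `lintegral_fintype_prod_eq_prod` or similar, or a library lemma), then
`integral_withDensity_eq_integral_toReal_smul`. -/
def S_FUB2 : Prop := ∀ (n : ℕ) (ρ : ℝ → ℝ), (∀ x, 0 ≤ ρ x) → Measurable ρ →
  ∫⁻ x, ENNReal.ofReal (ρ x) = 1 → ∀ (S : Set (Fin n → ℝ)) (φ : (Fin n → ℝ) → ℝ),
  MeasurableSet S → ∫ x in S, φ x ∂pw n (law ρ) = ∫ x in S, (∏ i, ρ (x i)) * φ x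

/-- **FUB**. Proof from `FUB1`, `FUB2`. `KP (DD α β a b) R` is compact; Fubini
(`setIntegral_prod`/`integral_prod` for the indicator, integrable because continuous on a compact
set): `∫_{KP} G = ∫_{x ∈ CR R ∩ [α,β]^n} ∫_{a(x_i) ≤ s_i ≤ b(x_i)} G(x, s) ds dx =
∫_{x ∈ CR R ∩ [α,β]^n} ∏ (b(x_i) - a(x_i)) fm a b G x dx`, and `∏ (b - a) = A^n ∏ ρ(x_i)` there. -/
def S_FUB : Prop := ∀ (α β lo H : ℝ) (a b : ℝ → ℝ), PB α β lo H a b → ∀ (n : ℕ)
  (R : Fin n → Fin n → Prop) (G : (Fin n → ℝ) × (Fin n → ℝ) → ℝ), Continuous G →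
  ∫ p in KP (DD α β a b) R, G p =
    AA α β a b ^ n * ∫ x in CR R, fm a b G x ∂pw n (law (rh α β a b))

/-- **POI** (Poincare inequality on `KP`). Proof from `LVC`, `CUB`, `FUB`, `INT`, `FMC`: `|KP| = A^n w`,
`w = ν^n(CR R)` (`FUB` for `G = 1`). `∫_{KP} f² = A^n ∫ fm f² ≤ A^n (∫ (fm f)² + ∫ fm(∑ H² dS²))`,
and `w ∫ (fm f)² - (∫ fm f)² ≤ w ∫ fm Ga`. -/
def S_POI2 : Prop := ∀ (α β lo H : ℝ) (a b : ℝ → ℝ), PB α β lo H a b → ∀ (n : ℕ)
  (R : Fin n → Fin n → Prop) (f : (Fin n → ℝ) × (Fin n → ℝ) → ℝ), ContDiff ℝ 1 f →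
  (volume (KP (DD α β a b) R)).toReal * (∫ p in KP (DD α β a b) R, f p ^ 2) -
    (∫ p in KP (DD α β a b) R, f p) ^ 2 ≤
  (volume (KP (DD α β a b) R)).toReal * ∫ p in KP (DD α β a b) R,
    ∑ i, (8 * (β - α) ^ 2 * dX f i p ^ 2 + 129 * H ^ 2 * dS f i p ^ 2)

/-- **SYK** (symmetric functions). Proof from `SYV` (with `QFE` for `q`), `FUB`, `FMC`, `INT`, `WPD`:
`fm a b G` is symmetric if `G` is (permute `v`; `cu n` is invariant), so
`∫_{CR R} fm G = ν^n(CR R) ∫ fm G`, and `CR (fun _ _ => False) = univ`. -/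
def S_SYK : Prop := ∀ (α β lo H : ℝ) (a b : ℝ → ℝ), PB α β lo H a b → ∀ (n : ℕ)
  (R : Fin n → Fin n → Prop) (G : (Fin n → ℝ) × (Fin n → ℝ) → ℝ), Continuous G →
  (∀ (p : Equiv.Perm (Fin n)) (z : (Fin n → ℝ) × (Fin n → ℝ)),
    G (fun i => z.1 (p i), fun i => z.2 (p i)) = G z) →
  (∫ p in KP (DD α β a b) R, G p) * (volume (KP (DD α β a b) fun _ _ : Fin n => False)).toReal =
    (volume (KP (DD α β a b) R)).toReal * ∫ p in KP (DD α β a b) fun _ _ : Fin n => False, G p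

/-- **HOM** (variances from below). Proof. Let `c ≥ (φ p + φ r)/2` (the other case is symmetric, with
`r`). The homothetic copy `D' = p + (D - p)/4 ⊆ D` (convexity) has volume `|D|/16` and on it
`φ ≤ φ p + l/4`, so `|φ - c| ≥ l/4`. -/
def S_HOM : Prop := ∀ (D : Set (ℝ × ℝ)) (φ : ℝ × ℝ →L[ℝ] ℝ) (p r : ℝ × ℝ) (l : ℝ), Convex ℝ D →
  IsCompact D → p ∈ D → r ∈ D → 0 ≤ l → φ r = φ p + l → (∀ z ∈ D, φ p ≤ φ z ∧ φ z ≤ φ r) →
  ∀ c : ℝ, (volume D).toReal * (l ^ 2 / 256) ≤ ∫ z in D, (φ z - c) ^ 2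

/-- **VSM** (sums over independent points of `D`). Proof. Under the measure preserving equivalence
`(Fin n → ℝ) × (Fin n → ℝ) ≃ (Fin n → ℝ × ℝ)` the set `KP D False` is the product set `∏ D`, its
uniform measure is the product of the uniform measures `u` of `D`;
`∫ (∑ φ(z_i) - c)² ≥ Var = n Var_u φ ≥ n l²/256` (`variance_sum_pi`; `Var_u φ = ∫ (φ - mean)² du`),
or directly with `m` = mean of `φ`: `∫ (∑ φ - c)² = n Var_u φ + (n m - c)²`. -/
def S_VSM : Prop := ∀ (D : Set (ℝ × ℝ)) (φ : ℝ × ℝ →L[ℝ] ℝ) (κ : ℝ), MeasurableSet D →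
  0 < volume D → IsCompact D → (∀ c : ℝ, (volume D).toReal * κ ≤ ∫ z in D, (φ z - c) ^ 2) →
  ∀ (n : ℕ) (c : ℝ), (volume (KP D fun _ _ : Fin n => False)).toReal * (n * κ) ≤
    ∫ p in KP D fun _ _ : Fin n => False, (∑ i, φ (p.1 i, p.2 i) - c) ^ 2

/-! ### Euclidean space -/

/-- ordered tuples of points of `D ⊆ ℝ²` -/
def KK {n : ℕ} (D : Set (EuclideanSpace ℝ (Fin 2))) (R : Fin n → Fin n → Prop) :
    Set (EuclideanSpace ℝ (Fin n × Fin 2)) :=
  {y | (∀ i, WithLp.toLp 2 (fun j => y (i, j)) ∈ D) ∧ ∀ i j, R i j → y (i, 0) ≤ y (j, 0)}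

/-- a planar set in coordinates -/
def DC (D : Set (EuclideanSpace ℝ (Fin 2))) : Set (ℝ × ℝ) := {p | WithLp.toLp 2 ![p.1, p.2] ∈ D}

/-- the point with coordinates `x`, `s` -/
noncomputable def pt {n : ℕ} (p : (Fin n → ℝ) × (Fin n → ℝ)) : EuclideanSpace ℝ (Fin n × Fin 2) :=
  WithLp.toLp 2 fun z => ![p.1 z.1, p.2 z.1] z.2

/-- **EUC** (translation). Proof. `pt` is a linear equivalence which preserves the volume (compose
the volume preserving equivalences of `WithLp`, currying `Fin n × Fin 2 → ℝ` and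
`(Fin n → Fin 2 → ℝ) ≃ (Fin n → ℝ) × (Fin n → ℝ)`), and `pt ⁻¹' KK D R = KP (DC D) R`. -/
def S_EUC : Prop := ∀ (n : ℕ) (D : Set (EuclideanSpace ℝ (Fin 2))) (R : Fin n → Fin n → Prop),
  volume (KK D R) = volume (KP (DC D) R) ∧
  ∀ G : EuclideanSpace ℝ (Fin n × Fin 2) → ℝ, ∫ y in KK D R, G y = ∫ p in KP (DC D) R, G (pt p)

/-- **GRD** (the gradient). Proof. Chain rule with the linear map `pt`;
`∑_z L(e_z)² = ‖L‖²` on Euclidean space. -/
def S_GRD : Prop := ∀ (n : ℕ) (f : EuclideanSpace ℝ (Fin n × Fin 2) → ℝ), ContDiff ℝ 1 f →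
  ContDiff ℝ 1 (fun p : (Fin n → ℝ) × (Fin n → ℝ) => f (pt p)) ∧
  ∀ p : (Fin n → ℝ) × (Fin n → ℝ),
    ∑ i, (dX (fun p : (Fin n → ℝ) × (Fin n → ℝ) => f (pt p)) i p ^ 2 +
      dS (fun p : (Fin n → ℝ) × (Fin n → ℝ) => f (pt p)) i p ^ 2) = ‖fderiv ℝ f (pt p)‖ ^ 2

/-- **GEO1** (graphs). Proof. `DC D` is compact, convex, with interior points. `[α, β]` = projection
to the first coordinate; `a`, `b` = min and max of the fibre for `x ∈ [α, β]`, extended to the line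
by `x ↦ a (max α (min β x))`; `a` is convex on `[α, β]` (convexity of `D`) and lower semicontinuous
(compactness), hence continuous on `[α, β]` (a convex function on a closed interval is upper
semicontinuous at the end points: on `[α, x₀]` it is below the chord); `lo` = min of `s`, `lo + H` =
max of `s` over `D`, attained. `a < b` inside: an interior point of `D` and convexity. -/
def S_GEO1 : Prop := ∀ D : Set (EuclideanSpace ℝ (Fin 2)), Convex ℝ D → IsCompact D →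
  (interior D).Nonempty → ∃ (α β lo H : ℝ) (a b : ℝ → ℝ), PB α β lo H a b ∧
    DC D = DD α β a b ∧ (∃ p ∈ DC D, p.2 = lo) ∧ ∃ r ∈ DC D, r.2 = lo + H

/-- **GEO2** (`K` is a convex body). Proof. Closed, bounded, convex. Interior: a disc of radius `r`
around `z ∈ D`; a strict linear extension (as in `Pool/Agent/R609/OP/Geo.lean`) gives
`e : Fin n → ℝ` with values in `(0, r/4)` and `e i < e j` for `R i j`, `i ≠ j`; the point
`y_i = z + (e i, 0)` is interior. -/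
def S_GEO2 : Prop := ∀ (n : ℕ) (D : Set (EuclideanSpace ℝ (Fin 2))) (R : Fin n → Fin n → Prop),
  Convex ℝ D → IsCompact D → (interior D).Nonempty → (∀ a b, R a b → R b a → a = b) →
  (∀ a b c, R a b → R b c → R a c) →
  IsCompact (KK D R) ∧ Convex ℝ (KK D R) ∧ (interior (KK D R)).Nonempty

/-- uniform probability measure -/
noncomputable def ung {κ : Type} [Fintype κ] (K : Set (EuclideanSpace ℝ κ)) :
    Measure (EuclideanSpace ℝ κ) := (volume K)⁻¹ • volume.restrict K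

/-- Minkowski boundary measure -/
noncomputable def bdg {κ : Type} [Fintype κ] (μ : Measure (EuclideanSpace ℝ κ))
    (A : Set (EuclideanSpace ℝ κ)) : ℝ≥0∞ :=
  liminf (fun ε : ℝ => (μ (Metric.thickening ε A) - μ A) / ENNReal.ofReal ε) (𝓝[>] 0)

/-- the KLS inequality in Cheeger form with constant `c` for the body `K` -/
def KLSg {κ : Type} [Fintype κ] (c : ℝ) (K : Set (EuclideanSpace ℝ κ)) : Prop :=
  ∀ t : ℝ≥0∞, (∀ (u : EuclideanSpace ℝ κ) (b : ℝ), u ≠ 0 →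
      t * min (ung K {x | inner ℝ u x ≤ b}) (1 - ung K {x | inner ℝ u x ≤ b}) ≤
        bdg (ung K) {x | inner ℝ u x ≤ b}) →
    ∀ A : Set (EuclideanSpace ℝ κ), MeasurableSet A →
      ENNReal.ofReal c * t * min (ung K A) (1 - ung K A) ≤ bdg (ung K) A

/-- **CHE** (from Poincare to KLS, for bodies). Proof as `Fin.lean`, `All2.lean` in `R972.OP`: `S_BODL`
and `Pool.Agent.W695.KH.mink` give `min(μ A, 1 - μ A) ≤ 8 √Cp μ⁺(A)` from the Poincare inequality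
with constant `Cp` (`sets`); `Pool.Agent.Y211.FF.half` gives `t² Var(⟪θ, x⟫) ≤ C` for the unit vector
`θ` (`half_form`), so `t² ≤ C/v ≤ C κ / Cp`. -/
def S_CHE : Prop := ∀ κ : ℝ, 0 < κ → ∃ c : ℝ, 0 < c ∧ ∀ (ι : Type) [Fintype ι]
  (K : Set (EuclideanSpace ℝ ι)), IsCompact K → Convex ℝ K → (interior K).Nonempty →
  ∀ (Cp : ℝ) (θ : EuclideanSpace ℝ ι), 0 < Cp → ‖θ‖ = 1 →
  (∀ v : EuclideanSpace ℝ ι → ℝ, ContDiff ℝ 1 v →
    Pool.Agent.W695.KH.VV K v ≤ Cp * Pool.Agent.W695.KH.EV K fun x => ‖fderiv ℝ v x‖ ^ 2) →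
  (∀ m : ℝ, Cp ≤ κ * Pool.Agent.W695.KH.EV K fun x => (⟪θ, x⟫_ℝ - m) ^ 2) → KLSg c K

/-- **THM** (the theorem). Proof from `POI2`, `SYK`, `HOM`, `VSM`, `EUC`, `GRD`, `GEO1`, `GEO2`,
`WPD`, `CHE`. `l = β - α`. By `POI2`, `EUC`, `GRD` the Poincare inequality holds with
`Cp = 137 max(l, H)²`. Let `θ` be the unit vector `(1, 0, 1, 0, ...)/√n` if `l ≥ H`, else
`(0, 1, 0, 1, ...)/√n`; `⟪θ, pt p⟫ = (∑ φ(p_i))/√n` with `φ` = first or second coordinate; the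
function `(∑ φ/√n - m)²` is symmetric, so its mean over `K` is the one over `D^n` (`SYK`), at
least `max(l, H)²/256` (`VSM`, `HOM`; `α`, `β` and `lo`, `lo + H` are attained). `κ = 137 · 256`. -/
def S_THM : Prop := ∃ c : ℝ, 0 < c ∧ ∀ (n : ℕ) (D : Set (EuclideanSpace ℝ (Fin 2)))
  (R : Fin n → Fin n → Prop), 1 ≤ n → Convex ℝ D → IsCompact D → (interior D).Nonempty →
  (∀ a b, R a b → R b a → a = b) → (∀ a b c, R a b → R b c → R a c) → KLSg c (KK D R)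

end Pool.Agent.T2h95.OC
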