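import Pool.Agent.T2h95.OC.Stm

/-!
# The converse: sums of functions of single coordinates (project OC, part 3)
-/

set_option autoImplicit false

namespace Pool.Agent.T2h95.OC

open MeasureTheory Set Filter Topology
open scoped ENNReal

/-- Poincare inequality with constant `C` -/
def Poin {E : Type} [NormedAddCommGroup E] [NormedSpace ℝ E] [MeasurableSpace E] (μ : Measure E)
    (C : ℝ) : Prop :=
  ∀ f : E → ℝ, ContDiff ℝ 1 f → MemLp f 2 μ → MemLp (fun x => ‖fderiv ℝ f x‖) 2 μ →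
    ProbabilityTheory.variance f μ ≤ C * ∫ x, ‖fderiv ℝ f x‖ ^ 2 ∂μ

/-- **SYG** (symmetric functions, every law without atoms). Proof. For a permutation `σ` let
`C σ = {x | Monotone fun i => x (σ i)}`. Off the null set where two coordinates agree
(`(pw n ν) {x | x i = x j} = 0` for `i ≠ j`: no atoms, Fubini) every `x` is in exactly one `C σ`, and
then `x ∈ CR R ↔ σ` is a linear extension of `R` (for all `i j`, `R (σ i) (σ j) → i ≤ j`). So
`∫_{CR R} h = ∑_{σ ∈ LE} ∫_{C σ} h` and `∫_{C σ} h = ∫_{C 1} h` (`measurePreserving_piCongrLeft` and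
the symmetry of `h`) `= (1/n!) ∫ h`. The same with `h = 1`: `ν^n (CR R) = |LE|/n!`. (If `R a a` is
required: harmless.) For Lebesgue measure see `Pool/Agent/R372/OP/SYM.lean`. -/
def S_SYG : Prop := ∀ (ν : Measure ℝ) [IsProbabilityMeasure ν] [NullSingletonClass ν]
  (n : ℕ) (R : Fin n → Fin n → Prop) (h : (Fin n → ℝ) → ℝ), Integrable h (pw n ν) →
  (∀ (p : Equiv.Perm (Fin n)) (x : Fin n → ℝ), h (fun i => x (p i)) = h x) →
  ∫ x in CR R, h x ∂pw n ν = (pw n ν (CR R)).toReal * ∫ x, h x ∂pw n ν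

/-- **SSM** (variance of a sum). Proof from `SYG`, `OCI`. `∑ g(x_i)` and its square are symmetric and
integrable for `pw n ν`, so they have the same integrals for `oc ν R` (`OCI`, `SYG`); for `pw n ν`:
`ProbabilityTheory.variance_sum_pi`. -/
def S_SSM : Prop := ∀ (ν : Measure ℝ) [IsProbabilityMeasure ν] [NullSingletonClass ν]
  (n : ℕ) (R : Fin n → Fin n → Prop), pw n ν (CR R) ≠ 0 → ∀ g : ℝ → ℝ, Continuous g →
  MemLp g 2 ν → MemLp (fun x : Eu n => ∑ i, g (x i)) 2 (oc ν R) ∧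
  ProbabilityTheory.variance (fun x : Eu n => ∑ i, g (x i)) (oc ν R) =
    n * ProbabilityTheory.variance g ν

/-- **SSG** (energy of a sum). Proof from `SYG`, `OCI`, `NRM`. For `f x = ∑ g(x_i)`:
`fderiv f x (single a 1) = deriv g (x a)`, so `‖fderiv f x‖² = ∑_a (deriv g (x a))²` (`NRM`), symmetric
and integrable; its integral for `pw n ν` is `n ∫ (deriv g)² dν`. -/
def S_SSG : Prop := ∀ (ν : Measure ℝ) [IsProbabilityMeasure ν] [NullSingletonClass ν]
  (n : ℕ) (R : Fin n → Fin n → Prop), pw n ν (CR R) ≠ 0 → ∀ g : ℝ → ℝ, ContDiff ℝ 1 g →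
  MemLp (fun x => ‖fderiv ℝ g x‖) 2 ν → ContDiff ℝ 1 (fun x : Eu n => ∑ i, g (x i)) ∧
  MemLp (fun x : Eu n => ‖fderiv ℝ (fun x : Eu n => ∑ i, g (x i)) x‖) 2 (oc ν R) ∧
  ∫ x, ‖fderiv ℝ (fun x : Eu n => ∑ i, g (x i)) x‖ ^ 2 ∂(oc ν R) =
    n * ∫ x, ‖fderiv ℝ g x‖ ^ 2 ∂ν

/-- **CNV** (converse). Proof from `SSM`, `SSG`: test `∑ g(x_i)`, divide by `n`. -/
def S_CNV : Prop := ∀ (ν : Measure ℝ) [IsProbabilityMeasure ν] [NullSingletonClass ν]
  (n : ℕ) (R : Fin n → Fin n → Prop) (C : ℝ), 1 ≤ n → pw n ν (CR R) ≠ 0 →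
  Poin (oc ν R) C → Poin ν C

/-- **DIR** (direct part). Proof from `FIN1`, `NRM`: `Poin ν C` implies `WP ν (fun _ => C)` (`g` with
compactly supported derivative is bounded, so both `MemLp` hold; `variance = ∫ g² - (∫ g)²`) and
`τ = C ≥ 0` (otherwise replace `C`: if `C < 0`, `WP` for a smooth step function gives variance `≤ 0`
... easier: `Poin ν C` with `C < 0` contradicts `NullSingletonClass`: a law for which every smooth
step function has variance `≤ 0` is a point mass). -/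
def S_DIR : Prop := ∀ (ν : Measure ℝ) [IsProbabilityMeasure ν] [NullSingletonClass ν]
  (n : ℕ) (R : Fin n → Fin n → Prop) (C : ℝ), pw n ν (CR R) ≠ 0 →
  Poin ν C → Poin (oc ν R) C

/-- **KLD** (KLS, Poincare form, for log-concave factors). Proof from `LC`, `FIN1`, `NRM`, `SSM`:
`FIN1` with `τ = 48 Var ν`; `θ = (1, ..., 1)/√n` is a unit vector and
`Var ⟪x, θ⟫ = (1/n) Var (∑ x_i) = Var ν ≤ s` (`SSM` for `g = id`). -/
def S_KLD : Prop := ∀ ρ : ℝ → ℝ, LCD ρ → ∀ (n : ℕ) (R : Fin n → Fin n → Prop), 1 ≤ n →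
  pw n (law ρ) (CR R) ≠ 0 → ∀ s : ℝ, (∀ θ : Eu n, ‖θ‖ = 1 →
    ProbabilityTheory.variance (fun x : Eu n => inner ℝ x θ) (oc (law ρ) R) ≤ s) →
  Poin (oc (law ρ) R) (48 * s)

end Pool.Agent.T2h95.OC
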