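import Pool.Agent.T2h95.OC.Stm2

set_option autoImplicit false

namespace Pool.Agent.T2h95.OC

open MeasureTheory Set Filter Topology
open scoped ENNReal InnerProductSpace

namespace THM

theorem isCompact_Bx (n : ℕ) (a b : ℝ) : IsCompact (Bx n a b) := by
  have h : Bx n a b = Icc (fun _ => a) (fun _ => b) := by
    ext x
    simp only [Bx, mem_setOf_eq, mem_Icc, Pi.le_def]
    exact forall_and
  rw [h]
  exact isCompact_Icc

theorem convex_DC {D : Set (EuclideanSpace ℝ (Fin 2))} (hD : Convex ℝ D) : Convex ℝ (DC D) := by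
  intro p hp r hr s t hs ht hst
  have h := hD hp hr hs ht hst
  have e : (WithLp.toLp 2 ![(s • p + t • r).1, (s • p + t • r).2] : EuclideanSpace ℝ (Fin 2)) =
      s • WithLp.toLp 2 ![p.1, p.2] + t • WithLp.toLp 2 ![r.1, r.2] := by
    ext i
    fin_cases i <;> simp
  change (WithLp.toLp 2 ![(s • p + t • r).1, (s • p + t • r).2] : EuclideanSpace ℝ (Fin 2)) ∈ D
  rw [e]
  exact h

variable {α β lo H : ℝ} {a b : ℝ → ℝ}

theorem DD_sub (hP : PB α β lo H a b) : DD α β a b ⊆ Icc α β ×ˢ Icc lo (lo + H) := by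
  rintro ⟨x, s⟩ ⟨h1, h2, h3⟩
  exact ⟨h1, (hP.lo_le x).trans h2, h3.trans (hP.le_hi x)⟩

theorem isCompact_DD (hP : PB α β lo H a b) : IsCompact (DD α β a b) := by
  refine (isCompact_Icc.prod isCompact_Icc).of_isClosed_subset ?_ (DD_sub hP)
  have hca := hP.ca
  have hcb := hP.cb
  have h : DD α β a b = {p : ℝ × ℝ | α ≤ p.1} ∩ {p | p.1 ≤ β} ∩ {p | a p.1 ≤ p.2} ∩
      {p | p.2 ≤ b p.1} := by
    ext p
    simp only [DD, mem_setOf_eq, mem_inter_iff]
    tauto
  rw [h]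
  exact (((isClosed_le continuous_const continuous_fst).inter
    (isClosed_le continuous_fst continuous_const)).inter
    (isClosed_le (hca.comp continuous_fst) continuous_snd)).inter
    (isClosed_le continuous_snd (hcb.comp continuous_fst))

theorem vol_DD (hP : PB α β lo H a b) : 0 < volume (DD α β a b) := by
  have hca := hP.ca
  have hcb := hP.cb
  set U : Set (ℝ × ℝ) := {p : ℝ × ℝ | α < p.1} ∩ {p | p.1 < β} ∩ {p | a p.1 < p.2} ∩
      {p | p.2 < b p.1} with hU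
  have hUo : IsOpen U :=
    (((isOpen_lt continuous_const continuous_fst).inter
    (isOpen_lt continuous_fst continuous_const)).inter
    (isOpen_lt (hca.comp continuous_fst) continuous_snd)).inter
    (isOpen_lt continuous_snd (hcb.comp continuous_fst))
  have hlt := hP.lt
  have hpos := hP.pos ((α + β) / 2) ⟨by linarith, by linarith⟩
  have hne : U.Nonempty := by
    refine ⟨((α + β) / 2, (a ((α + β) / 2) + b ((α + β) / 2)) / 2), ⟨⟨?_, ?_⟩, ?_⟩, ?_⟩
    · change α < (α + β) / 2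
      linarith
    · change (α + β) / 2 < β
      linarith
    · change a ((α + β) / 2) < (a ((α + β) / 2) + b ((α + β) / 2)) / 2
      linarith
    · change (a ((α + β) / 2) + b ((α + β) / 2)) / 2 < b ((α + β) / 2)
      linarith
  have hsub : U ⊆ DD α β a b := by
    rintro p ⟨⟨⟨h1, h2⟩, h3⟩, h4⟩
    exact ⟨⟨le_of_lt h1, le_of_lt h2⟩, le_of_lt h3, le_of_lt h4⟩
  exact (hUo.measure_pos volume hne).trans_le (measure_mono hsub)

theorem KP_sub (hP : PB α β lo H a b) {n : ℕ} (R : Fin n → Fin n → Prop) :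
    KP (DD α β a b) R ⊆ Bx n α β ×ˢ Bx n lo (lo + H) := by
  rintro p ⟨-, h⟩
  exact ⟨fun i => (DD_sub hP (h i)).1, fun i => (DD_sub hP (h i)).2⟩

theorem KP_int (hP : PB α β lo H a b) {n : ℕ} (R : Fin n → Fin n → Prop)
    {G : (Fin n → ℝ) × (Fin n → ℝ) → ℝ} (hG : Continuous G) :
    IntegrableOn G (KP (DD α β a b) R) volume :=
  (hG.continuousOn.integrableOn_compact ((isCompact_Bx n α β).prod
    (isCompact_Bx n lo (lo + H)))).mono_set (KP_sub hP R)

theorem KP_fin (hP : PB α β lo H a b) {n : ℕ} (R : Fin n → Fin n → Prop) :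
    volume (KP (DD α β a b) R) < ⊤ :=
  (measure_mono (KP_sub hP R)).trans_lt
    ((isCompact_Bx n α β).prod (isCompact_Bx n lo (lo + H))).measure_lt_top

/-- the unit vector -/
noncomputable def th (n : ℕ) (j : Fin 2) : EuclideanSpace ℝ (Fin n × Fin 2) :=
  WithLp.toLp 2 fun z => if z.2 = j then (√n)⁻¹ else 0

theorem norm_th {n : ℕ} (hn : 1 ≤ n) (j : Fin 2) : ‖th n j‖ = 1 := by
  have hn0 : (0 : ℝ) < n := by exact_mod_cast hn
  have h : ∑ z : Fin n × Fin 2, ‖th n j z‖ ^ 2 = 1 := by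
    rw [Fintype.sum_prod_type]
    have h1 : ∀ i : Fin n, ∑ k : Fin 2, ‖th n j (i, k)‖ ^ 2 = (n : ℝ)⁻¹ := by
      intro i
      simp only [th]
      have h2 : ∀ k : Fin 2, ‖(if k = j then (√(n : ℝ))⁻¹ else 0)‖ ^ 2 =
          if k = j then (n : ℝ)⁻¹ else 0 := by
        intro k
        split_ifs with hk
        · rw [Real.norm_eq_abs, sq_abs, inv_pow, Real.sq_sqrt hn0.le]
        · simp
      simp only [h2]
      simp
    simp only [h1]
    rw [Finset.sum_const, Finset.card_univ, Fintype.card_fin, nsmul_eq_mul]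
    field_simp
  rw [EuclideanSpace.norm_eq, h, Real.sqrt_one]

theorem inner_th {n : ℕ} (j : Fin 2) (p : (Fin n → ℝ) × (Fin n → ℝ)) :
    ⟪th n j, pt p⟫_ℝ = (√n)⁻¹ * ∑ i, ![p.1 i, p.2 i] j := by
  rw [PiLp.inner_apply, Fintype.sum_prod_type, Finset.mul_sum]
  refine Finset.sum_congr rfl fun i _ => ?_
  rw [Fin.sum_univ_two]
  simp only [th, pt]
  fin_cases j <;> simp [mul_comm]

/-- the lower bound for the variance -/
theorem lower (h2 : S_SYK) (h3 : S_HOM) (h4 : S_VSM) (h5 : S_EUC) (hP : PB α β lo H a b) {n : ℕ}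
    (hn : 1 ≤ n)
    {D : Set (EuclideanSpace ℝ (Fin 2))} (R : Fin n → Fin n → Prop) (hD : Convex ℝ D)
    (hDC : DC D = DD α β a b) (hpos : 0 < volume (KP (DD α β a b) R)) (j : Fin 2)
    (φ : ℝ × ℝ →L[ℝ] ℝ) (hφ : ∀ x y, φ (x, y) = ![x, y] j) (p r : ℝ × ℝ) (l : ℝ)
    (hp : p ∈ DD α β a b) (hr : r ∈ DD α β a b) (hl : 0 ≤ l) (hpr : φ r = φ p + l)
    (hz : ∀ z ∈ DD α β a b, φ p ≤ φ z ∧ φ z ≤ φ r) (m : ℝ) :
    l ^ 2 / 256 ≤ Pool.Agent.W695.KH.EV (KK D R) fun x => (⟪th n j, x⟫_ℝ - m) ^ 2 := by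
  have hn0 : (0 : ℝ) < n := by exact_mod_cast hn
  obtain ⟨e1, e2⟩ := h5 n D R
  have hcv : Convex ℝ (DD α β a b) := hDC ▸ convex_DC hD
  have hcp := isCompact_DD hP
  have hhom := h3 (DD α β a b) φ p r l hcv hcp hp hr hl hpr hz
  have hvsm := h4 (DD α β a b) φ (l ^ 2 / 256) hcp.isClosed.measurableSet (vol_DD hP) hcp hhom n
    (√n * m)
  set G : (Fin n → ℝ) × (Fin n → ℝ) → ℝ := fun q =>
    ((√n)⁻¹ * ∑ i, φ (q.1 i, q.2 i) - m) ^ 2 with hG
  have hGc : Continuous G := by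
    have : ∀ i : Fin n, Continuous fun q : (Fin n → ℝ) × (Fin n → ℝ) => φ (q.1 i, q.2 i) := by
      intro i
      exact φ.continuous.comp (((continuous_apply i).comp continuous_fst).prodMk
        ((continuous_apply i).comp continuous_snd))
    exact ((continuous_const.mul (continuous_finset_sum _ fun i _ => this i)).sub
      continuous_const).pow 2
  have hGs : ∀ (σ : Equiv.Perm (Fin n)) (z : (Fin n → ℝ) × (Fin n → ℝ)),
      G (fun i => z.1 (σ i), fun i => z.2 (σ i)) = G z := by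
    intro σ z
    simp only [hG]
    rw [Equiv.sum_comp σ (fun i => φ (z.1 i, z.2 i))]
  have hsy := h2 α β lo H a b hP n R G hGc hGs
  set V : ℝ := (volume (KP (DD α β a b) R)).toReal with hV
  set V0 : ℝ := (volume (KP (DD α β a b) fun _ _ : Fin n => False)).toReal with hV0
  have hVpos : 0 < V := ENNReal.toReal_pos hpos.ne' (KP_fin hP R).ne
  have hV0pos : 0 < V0 := by
    refine ENNReal.toReal_pos (ne_of_gt (hpos.trans_le (measure_mono ?_))) (KP_fin hP _).ne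
    rintro q ⟨-, hq⟩
    exact ⟨fun i j hij => hij.elim, hq⟩
  have hsc : ∀ q : (Fin n → ℝ) × (Fin n → ℝ), G q =
      (n : ℝ)⁻¹ * (∑ i, φ (q.1 i, q.2 i) - √n * m) ^ 2 := by
    intro q
    simp only [hG]
    have hs : (√(n : ℝ)) ^ 2 = n := Real.sq_sqrt hn0.le
    have hs0 : √(n : ℝ) ≠ 0 := (Real.sqrt_pos.2 hn0).ne'
    rw [← hs]
    field_simp
    rw [Real.sqrt_sq (Real.sqrt_nonneg _)]
  have hlow : V0 * (l ^ 2 / 256) ≤ ∫ q in KP (DD α β a b) fun _ _ : Fin n => False, G q := by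
    simp only [hsc]
    rw [integral_const_mul]
    have := mul_le_mul_of_nonneg_left hvsm (inv_nonneg.2 hn0.le)
    refine le_trans (le_of_eq ?_) this
    field_simp
  have hmain : V * (l ^ 2 / 256) ≤ ∫ q in KP (DD α β a b) R, G q := by
    have h6 : V * (V0 * (l ^ 2 / 256)) ≤ (∫ q in KP (DD α β a b) R, G q) * V0 := by
      rw [hsy]
      exact mul_le_mul_of_nonneg_left hlow hVpos.le
    have h7 : (V * (l ^ 2 / 256)) * V0 ≤ (∫ q in KP (DD α β a b) R, G q) * V0 := by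
      calc (V * (l ^ 2 / 256)) * V0 = V * (V0 * (l ^ 2 / 256)) := by ring
        _ ≤ _ := h6
    exact le_of_mul_le_mul_right h7 hV0pos
  have hEV : (Pool.Agent.W695.KH.EV (KK D R) fun x => (⟪th n j, x⟫_ℝ - m) ^ 2) =
      (∫ q in KP (DD α β a b) R, G q) / V := by
    unfold Pool.Agent.W695.KH.EV
    rw [e1, e2, hDC]
    congr 1
    congr 1
    ext q
    rw [inner_th]
    simp only [hG, hφ]
  rw [hEV, le_div_iff₀ hVpos]
  calc l ^ 2 / 256 * V = V * (l ^ 2 / 256) := by ring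
    _ ≤ _ := hmain

/-- the Poincare inequality -/
theorem poincare (h1 : S_POI2) (h5 : S_EUC) (h6 : S_GRD) (hP : PB α β lo H a b) {n : ℕ}
    {D : Set (EuclideanSpace ℝ (Fin 2))} (R : Fin n → Fin n → Prop)
    (hDC : DC D = DD α β a b) (hpos : 0 < volume (KP (DD α β a b) R)) (L : ℝ)
    (hL1 : β - α ≤ L) (hL2 : H ≤ L)
    (v : EuclideanSpace ℝ (Fin n × Fin 2) → ℝ) (hv : ContDiff ℝ 1 v) :
    Pool.Agent.W695.KH.VV (KK D R) v ≤
      137 * L ^ 2 * Pool.Agent.W695.KH.EV (KK D R) fun x => ‖fderiv ℝ v x‖ ^ 2 := by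
  obtain ⟨e1, e2⟩ := h5 n D R
  obtain ⟨g1, g2⟩ := h6 n v hv
  set f : (Fin n → ℝ) × (Fin n → ℝ) → ℝ := fun p => v (pt p) with hf
  have hpoi := h1 α β lo H a b hP n R f g1
  set V : ℝ := (volume (KP (DD α β a b) R)).toReal with hV
  have hVpos : 0 < V := ENNReal.toReal_pos hpos.ne' (KP_fin hP R).ne
  have hlt := hP.lt
  have hHp := hP.hpos
  have hdX : ∀ i : Fin n, Continuous (dX f i) := fun i =>
    (g1.continuous_fderiv (by norm_num)).clm_apply continuous_const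
  have hdS : ∀ i : Fin n, Continuous (dS f i) := fun i =>
    (g1.continuous_fderiv (by norm_num)).clm_apply continuous_const
  have hle : ∫ p in KP (DD α β a b) R,
      ∑ i, (8 * (β - α) ^ 2 * dX f i p ^ 2 + 129 * H ^ 2 * dS f i p ^ 2) ≤
      ∫ p in KP (DD α β a b) R, 137 * L ^ 2 * ‖fderiv ℝ v (pt p)‖ ^ 2 := by
    have hR : (fun p : (Fin n → ℝ) × (Fin n → ℝ) => 137 * L ^ 2 * ‖fderiv ℝ v (pt p)‖ ^ 2) =
        fun p => 137 * L ^ 2 * ∑ i, (dX f i p ^ 2 + dS f i p ^ 2) := by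
      funext p
      rw [g2 p]
    rw [hR]
    refine integral_mono ?_ ?_ ?_
    · refine KP_int hP R (continuous_finset_sum _ fun i _ => ?_)
      exact (continuous_const.mul ((hdX i).pow 2)).add (continuous_const.mul ((hdS i).pow 2))
    · refine KP_int hP R (continuous_const.mul (continuous_finset_sum _ fun i _ => ?_))
      exact ((hdX i).pow 2).add ((hdS i).pow 2)
    · intro p
      simp only
      rw [Finset.mul_sum]
      refine Finset.sum_le_sum fun i _ => ?_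
      have hb1 : (β - α) ^ 2 ≤ L ^ 2 := pow_le_pow_left₀ (by linarith) hL1 2
      have hb2 : H ^ 2 ≤ L ^ 2 := pow_le_pow_left₀ hHp.le hL2 2
      have hL0 : 0 ≤ L ^ 2 := sq_nonneg L
      have i1 := mul_le_mul_of_nonneg_right hb1 (sq_nonneg (dX f i p))
      have i2 := mul_le_mul_of_nonneg_right hb2 (sq_nonneg (dS f i p))
      have i3 := mul_nonneg hL0 (sq_nonneg (dX f i p))
      have i4 := mul_nonneg hL0 (sq_nonneg (dS f i p))
      nlinarith [i1, i2, i3, i4]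
  have hfin : V * (∫ p in KP (DD α β a b) R, f p ^ 2) - (∫ p in KP (DD α β a b) R, f p) ^ 2 ≤
      V * (137 * L ^ 2 * ∫ p in KP (DD α β a b) R, ‖fderiv ℝ v (pt p)‖ ^ 2) := by
    rw [← integral_const_mul (137 * L ^ 2)]
    exact hpoi.trans (mul_le_mul_of_nonneg_left hle hVpos.le)
  unfold Pool.Agent.W695.KH.VV Pool.Agent.W695.KH.EV
  rw [e1, e2, e2, e2, hDC, ← hV]
  change (∫ p in KP (DD α β a b) R, f p ^ 2) / V - ((∫ p in KP (DD α β a b) R, f p) / V) ^ 2 ≤
    137 * L ^ 2 * ((∫ p in KP (DD α β a b) R, ‖fderiv ℝ v (pt p)‖ ^ 2) / V)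
  have hV2 : 0 < V ^ 2 := by positivity
  have e3 : (∫ p in KP (DD α β a b) R, f p ^ 2) / V - ((∫ p in KP (DD α β a b) R, f p) / V) ^ 2 =
      (V * (∫ p in KP (DD α β a b) R, f p ^ 2) - (∫ p in KP (DD α β a b) R, f p) ^ 2) / V ^ 2 := by
    field_simp
  have e4 : 137 * L ^ 2 * ((∫ p in KP (DD α β a b) R, ‖fderiv ℝ v (pt p)‖ ^ 2) / V) =
      (V * (137 * L ^ 2 * ∫ p in KP (DD α β a b) R, ‖fderiv ℝ v (pt p)‖ ^ 2)) / V ^ 2 := by
    field_simp
  rw [e3, e4]
  exact div_le_div_of_nonneg_right hfin hV2.le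

end THM

open THM in
theorem t_THM (h1 : S_POI2) (h2 : S_SYK) (h3 : S_HOM) (h4 : S_VSM) (h5 : S_EUC) (h6 : S_GRD)
    (h7 : S_GEO1) (h8 : S_GEO2) (_h9 : S_WPD) (h10 : S_CHE) : S_THM := by
  obtain ⟨c, hc, hche⟩ := h10 (137 * 256) (by norm_num)
  refine ⟨c, hc, ?_⟩
  intro n D R hn hD hDk hDi hR1 hR2
  obtain ⟨α, β, lo, H, a, b, hP, hDC, ⟨p, hp, hp2⟩, ⟨r, hr, hr2⟩⟩ := h7 D hD hDk hDi
  obtain ⟨k1, k2, k3⟩ := h8 n D R hD hDk hDi hR1 hR2
  rw [hDC] at hp hr
  have hlt := hP.lt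
  have hHp := hP.hpos
  have hpos : 0 < volume (KP (DD α β a b) R) := by
    rw [← hDC, ← (h5 n D R).1]
    exact (isOpen_interior.measure_pos volume k3).trans_le (measure_mono interior_subset)
  rcases le_total H (β - α) with hHl | hHl
  · refine hche (Fin n × Fin 2) (KK D R) k1 k2 k3 (137 * (β - α) ^ 2) (th n 0) (by
      have : 0 < β - α := by linarith
      positivity) (norm_th hn 0)
      (fun v hv => poincare h1 h5 h6 hP R hDC hpos (β - α) le_rfl hHl v hv) ?_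
    intro m
    have h := lower h2 h3 h4 h5 hP hn R hD hDC hpos 0 (ContinuousLinearMap.fst ℝ ℝ ℝ)
      (fun x y => rfl) (α, a α) (β, a β) (β - α) ⟨⟨le_rfl, hlt.le⟩, le_rfl, hP.ab α⟩
      ⟨⟨hlt.le, le_rfl⟩, le_rfl, hP.ab β⟩ (by linarith)
      (by change β = α + (β - α); ring)
      (fun z hz => ⟨hz.1.1, hz.1.2⟩) m
    calc 137 * (β - α) ^ 2 = 137 * 256 * ((β - α) ^ 2 / 256) := by ring
      _ ≤ _ := mul_le_mul_of_nonneg_left h (by norm_num)
  · refine hche (Fin n × Fin 2) (KK D R) k1 k2 k3 (137 * H ^ 2) (th n 1) (by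
      positivity) (norm_th hn 1)
      (fun v hv => poincare h1 h5 h6 hP R hDC hpos H hHl le_rfl v hv) ?_
    intro m
    have h := lower h2 h3 h4 h5 hP hn R hD hDC hpos 1 (ContinuousLinearMap.snd ℝ ℝ ℝ)
      (fun x y => rfl) p r H hp hr hHp.le
      (by change r.2 = p.2 + H; rw [hp2, hr2])
      (fun z hz => by
        have h9 := (DD_sub hP hz).2
        change p.2 ≤ z.2 ∧ z.2 ≤ r.2
        rw [hp2, hr2]
        exact ⟨h9.1, h9.2⟩) m
    calc 137 * H ^ 2 = 137 * 256 * (H ^ 2 / 256) := by ring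
      _ ≤ _ := mul_le_mul_of_nonneg_left h (by norm_num)

end Pool.Agent.T2h95.OC
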