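import Pool.Agent.T2h95.OC.Stm2

set_option autoImplicit false

namespace Pool.Agent.T2h95.OC

open MeasureTheory Set Filter Topology ProbabilityTheory
open scoped ENNReal

namespace VSM

/-- products of scaled measures -/
lemma pi_smul_meas {n : ℕ} {α : Type} [MeasurableSpace α] (u : Measure α) [IsFiniteMeasure u]
    (V : ℝ≥0∞) (hV : V ≠ ∞) :
    Measure.pi (fun _ : Fin n => V • u) = V ^ n • Measure.pi (fun _ : Fin n => u) := by
  have : IsFiniteMeasure (V • u) := Measure.smul_finite u hV
  refine Measure.pi_eq fun s _ => ?_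
  simp only [Measure.smul_apply, smul_eq_mul, Measure.pi_pi, Finset.prod_mul_distrib,
    Finset.prod_const, Finset.card_univ, Fintype.card_fin]

lemma key {n : ℕ} {α : Type} [MeasurableSpace α] (u : Measure α) [IsProbabilityMeasure u]
    (φ : α → ℝ) (hφ : MemLp φ 2 u) (κ : ℝ) (hκ : ∀ c : ℝ, κ ≤ ∫ z, (φ z - c) ^ 2 ∂u) (c : ℝ) :
    n * κ ≤ ∫ y, (∑ i, φ (y i) - c) ^ 2 ∂Measure.pi (fun _ : Fin n => u) := by
  have h1 : Var[∑ i : Fin n, fun ω : Fin n → α ↦ φ (ω i); Measure.pi (fun _ : Fin n => u)] =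
      ∑ i : Fin n, Var[φ; u] := variance_sum_pi (X := fun _ : Fin n => φ) fun i => hφ
  have h2 : κ ≤ Var[φ; u] := by
    rw [variance_eq_integral hφ.aestronglyMeasurable.aemeasurable]
    exact hκ _
  have hS : AEStronglyMeasurable (∑ i : Fin n, fun ω : Fin n → α ↦ φ (ω i))
      (Measure.pi (fun _ : Fin n => u)) := by
    refine Finset.aestronglyMeasurable_sum _ fun i _ => ?_
    exact hφ.aestronglyMeasurable.comp_measurePreserving (measurePreserving_eval _ i)
  have h3 : Var[fun ω => (∑ i : Fin n, fun ω : Fin n → α ↦ φ (ω i)) ω - c;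
      Measure.pi (fun _ : Fin n => u)] =
      Var[∑ i : Fin n, fun ω : Fin n → α ↦ φ (ω i); Measure.pi (fun _ : Fin n => u)] :=
    variance_sub_const hS c
  have h4 := variance_le_expectation_sq (μ := Measure.pi (fun _ : Fin n => u))
    (X := fun ω => (∑ i : Fin n, fun ω : Fin n → α ↦ φ (ω i)) ω - c) (hS.sub aestronglyMeasurable_const)
  rw [h3, h1] at h4
  have h5 : (n : ℝ) * κ ≤ ∑ i : Fin n, Var[φ; u] := by
    simp only [Finset.sum_const, Finset.card_univ, Fintype.card_fin, nsmul_eq_mul]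
    exact mul_le_mul_of_nonneg_left h2 (Nat.cast_nonneg n)
  refine h5.trans (h4.trans (le_of_eq ?_))
  refine integral_congr_ae (Eventually.of_forall fun ω => ?_)
  simp only [Pi.pow_apply, Finset.sum_apply]

end VSM

theorem t_VSM : S_VSM := by
  intro D φ κ hDm hD0 hDc hκ n c
  set V : ℝ≥0∞ := volume D with hV
  have hVt : V ≠ ∞ := hDc.measure_lt_top.ne
  have hV0 : V ≠ 0 := hD0.ne'
  set u : Measure (ℝ × ℝ) := V⁻¹ • volume.restrict D with hu
  have : IsFiniteMeasure (volume.restrict D) := ⟨by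
    rw [Measure.restrict_apply_univ]; exact hDc.measure_lt_top⟩
  have hup : IsProbabilityMeasure u := ⟨by
    rw [hu, Measure.smul_apply, Measure.restrict_apply_univ, smul_eq_mul,
      ENNReal.inv_mul_cancel hV0 hVt]⟩
  have hru : volume.restrict D = V • u := by
    rw [hu, smul_smul, ENNReal.mul_inv_cancel hV0 hVt, one_smul]
  have hVr : 0 < V.toReal := ENNReal.toReal_pos hV0 hVt
  -- the preimage
  set e := MeasurableEquiv.arrowProdEquivProdArrow ℝ ℝ (Fin n) with he
  have hmp : MeasurePreserving e volume volume :=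
    volume_measurePreserving_arrowProdEquivProdArrow ℝ ℝ (Fin n)
  have hpre : e ⁻¹' (KP D fun _ _ : Fin n => False) = Set.univ.pi fun _ => D := by
    ext y
    constructor
    · intro h i _
      exact h.2 i
    · intro h
      exact ⟨fun i j hij => hij.elim, fun i => h i (mem_univ i)⟩
  have hKm : MeasurableSet (KP D fun _ _ : Fin n => False) := by
    rw [← e.measurableSet_preimage, hpre]
    exact MeasurableSet.univ_pi fun _ => hDm
  have hvol : volume (KP D fun _ _ : Fin n => False) = V ^ n := by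
    rw [← hmp.measure_preimage hKm.nullMeasurableSet, hpre, volume_pi, Measure.pi_pi]
    simp [hV]
  have hint : ∫ p in KP D fun _ _ : Fin n => False, (∑ i, φ (p.1 i, p.2 i) - c) ^ 2 =
      V.toReal ^ n * ∫ y, (∑ i, φ (y i) - c) ^ 2 ∂Measure.pi (fun _ : Fin n => u) := by
    have h1 := hmp.setIntegral_preimage_emb e.measurableEmbedding
      (fun p => (∑ i, φ (p.1 i, p.2 i) - c) ^ 2) (KP D fun _ _ : Fin n => False)
    rw [← h1, hpre, volume_pi, Measure.restrict_pi_pi, hru, VSM.pi_smul_meas u V hVt,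
      integral_smul_measure, ENNReal.toReal_pow, smul_eq_mul]
    rfl
  have hφ : MemLp (fun z => φ z) 2 u := by
    have h1 : MemLp (fun z => φ z) 2 (volume.restrict D) := by
      have h2 : IntegrableOn (fun z => φ z ^ 2) D volume :=
        (φ.continuous.pow 2).continuousOn.integrableOn_compact hDc
      exact (memLp_two_iff_integrable_sq φ.continuous.aestronglyMeasurable).2 h2
    rw [hu]
    exact h1.smul_measure (ENNReal.inv_ne_top.2 hV0)
  have hκ' : ∀ c : ℝ, κ ≤ ∫ z, (φ z - c) ^ 2 ∂u := by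
    intro c
    have h1 := hκ c
    rw [hu, integral_smul_measure, ENNReal.toReal_inv, smul_eq_mul]
    calc κ = V.toReal⁻¹ * (V.toReal * κ) := by field_simp
      _ ≤ _ := mul_le_mul_of_nonneg_left h1 (inv_nonneg.2 hVr.le)
  rw [hint, hvol, ENNReal.toReal_pow]
  exact mul_le_mul_of_nonneg_left (VSM.key u (fun z => φ z) hφ κ hκ' c) (pow_nonneg hVr.le n)

end Pool.Agent.T2h95.OC
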