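import Pool.Agent.T2h95.OC.Stm2

set_option autoImplicit false

namespace Pool.Agent.T2h95.OC

open MeasureTheory Set Filter Topology
open scoped ENNReal

/-- half of the interval: a nonnegative function `h` on `[α, β]` with `h y ≤ 2 h x` -/
theorem half_right (α β x A : ℝ) (h : ℝ → ℝ) (hA : 0 < A) (hx : α ≤ x) (hx' : x ≤ β)
    (hc : Continuous h) (h2 : ∀ y, x ≤ y → y ≤ β → h y ≤ 2 * h x) :
    ∫ y in Ioi x, (Icc α β).indicator (fun y => h y / A) y ≤
      2 * (β - x) * (h x / A) := by
  have e1 : ∫ y in Ioi x, (Icc α β).indicator (fun y => h y / A) y =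
      ∫ y in x..β, h y / A := by
    rw [setIntegral_indicator measurableSet_Icc, intervalIntegral.integral_of_le hx']
    congr 2
    ext y
    simp only [mem_inter_iff, mem_Ioi, mem_Icc, mem_Ioc]
    constructor
    · rintro ⟨a, b, c⟩; exact ⟨a, c⟩
    · rintro ⟨a, c⟩; exact ⟨a, by linarith, c⟩
  rw [e1]
  have e2 : ∫ y in x..β, h y / A ≤ ∫ _y in x..β, 2 * h x / A := by
    apply intervalIntegral.integral_mono_on hx'
    · exact (hc.div_const A).intervalIntegrable _ _
    · exact continuous_const.intervalIntegrable _ _
    · intro y hy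
      exact div_le_div_of_nonneg_right (h2 y hy.1 hy.2) hA.le
  refine e2.trans (le_of_eq ?_)
  rw [intervalIntegral.integral_const, smul_eq_mul]
  ring

theorem half_left (α β x A : ℝ) (h : ℝ → ℝ) (hA : 0 < A) (hx : α ≤ x) (hx' : x ≤ β)
    (hc : Continuous h) (h2 : ∀ y, α ≤ y → y ≤ x → h y ≤ 2 * h x) :
    ∫ y in Iio x, (Icc α β).indicator (fun y => h y / A) y ≤
      2 * (x - α) * (h x / A) := by
  have e1 : ∫ y in Iio x, (Icc α β).indicator (fun y => h y / A) y =
      ∫ y in α..x, h y / A := by
    rw [setIntegral_indicator measurableSet_Icc, intervalIntegral.integral_of_le hx,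
      ← integral_Ico_eq_integral_Ioc]
    congr 2
    ext y
    simp only [mem_inter_iff, mem_Iio, mem_Icc, mem_Ico]
    constructor
    · rintro ⟨a, b, c⟩; exact ⟨b, a⟩
    · rintro ⟨a, c⟩; exact ⟨c, a, by linarith⟩
  rw [e1]
  have e2 : ∫ y in α..x, h y / A ≤ ∫ _y in α..x, 2 * h x / A := by
    apply intervalIntegral.integral_mono_on hx
    · exact (hc.div_const A).intervalIntegrable _ _
    · exact continuous_const.intervalIntegrable _ _
    · intro y hy
      exact div_le_div_of_nonneg_right (h2 y hy.1 hy.2) hA.le
  refine e2.trans (le_of_eq ?_)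
  rw [intervalIntegral.integral_const, smul_eq_mul]
  ring

theorem t_WPD (h1 : S_HAR) : S_WPD := by
  intro α β lo H a b hP
  have hlt := hP.lt
  set h : ℝ → ℝ := fun x => b x - a x with hh
  have hc : Continuous h := hP.cb.sub hP.ca
  have h0 : ∀ x, 0 ≤ h x := fun x => sub_nonneg.mpr (hP.ab x)
  have hconc : ConcaveOn ℝ (Icc α β) h := hP.conc.sub hP.conv
  have eA : AA α β a b = ∫ x in α..β, h x := by
    rw [AA, intervalIntegral.integral_of_le hlt.le, integral_Icc_eq_integral_Ioc]
  have hA : 0 < AA α β a b := by
    rw [eA]
    exact intervalIntegral.intervalIntegral_pos_of_pos_on (hc.intervalIntegrable _ _)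
      (fun x hx => sub_pos.mpr (hP.pos x hx)) hlt
  set A := AA α β a b with hAd
  have hρ : rh α β a b = (Icc α β).indicator (fun x => h x / A) := rfl
  have hρ0 : ∀ x, 0 ≤ rh α β a b x := fun x => by
    rw [hρ]
    exact indicator_nonneg (fun y _ => div_nonneg (h0 y) hA.le) x
  have hρm : Measurable (rh α β a b) := by
    rw [hρ]
    exact (hc.div_const A).measurable.indicator measurableSet_Icc
  have hρi : Integrable (rh α β a b) := by
    rw [hρ, integrable_indicator_iff measurableSet_Icc]
    exact (hc.div_const A).continuousOn.integrableOn_compact isCompact_Icc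
  have hρ1 : ∫⁻ x, ENNReal.ofReal (rh α β a b x) = 1 := by
    rw [← ofReal_integral_eq_lintegral_ofReal hρi (Eventually.of_forall hρ0), hρ,
      integral_indicator measurableSet_Icc, integral_div]
    have : ∫ x in Icc α β, h x = A := rfl
    rw [this, div_self hA.ne', ENNReal.ofReal_one]
  refine ⟨hA, ⟨?_⟩, ?_, ?_⟩
  · rw [law, withDensity_apply _ MeasurableSet.univ, Measure.restrict_univ]
    exact hρ1
  · exact ⟨fun x => (withDensity_absolutelyContinuous _ _) (measure_singleton x)⟩
  · have key := h1 (rh α β a b) (fun x => 2 * ds α β x) ((α + β) / 2) hρ0 hρm hρ1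
      (by unfold ds; fun_prop) (fun x => by
        have : 0 ≤ ds α β x := le_max_left _ _
        positivity) ?_ ?_
    · have e : (fun x => 4 * (2 * ds α β x) ^ 2) = fun x => 16 * ds α β x ^ 2 := by
        funext x; ring
      rw [e] at key
      exact key
    · intro x hx
      by_cases hxb : x ≤ β
      · have hxa : α ≤ x := by linarith
        have hv : rh α β a b x = h x / A := by
          rw [hρ, indicator_of_mem (show x ∈ Icc α β from ⟨hxa, hxb⟩)]
        have hds : ds α β x = β - x := by
          unfold ds
          rw [min_eq_right (by linarith), max_eq_right (by linarith)]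
        rw [hv, hds, hρ]
        refine half_right α β x A h hA hxa hxb hc fun y hy1 hy2 => ?_
        -- concavity
        rcases eq_or_lt_of_le hy1 with rfl | hlt'
        · linarith [h0 x]
        have hay : 0 < y - α := by linarith
        have ht1 : 0 ≤ (x - α) / (y - α) := by
          apply div_nonneg <;> linarith
        have ht2 : (x - α) / (y - α) ≤ 1 := by
          rw [div_le_one hay]; linarith
        have ht3 : 1 / 2 ≤ (x - α) / (y - α) := by
          rw [div_le_div_iff₀ (by norm_num) hay]; linarith
        have := hconc.2 (show α ∈ Icc α β from ⟨le_refl _, hlt.le⟩)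
          (show y ∈ Icc α β from ⟨by linarith, hy2⟩) (sub_nonneg.mpr ht2) ht1 (by ring)
        rw [smul_eq_mul, smul_eq_mul, smul_eq_mul, smul_eq_mul] at this
        have ex : (1 - (x - α) / (y - α)) * α + (x - α) / (y - α) * y = x := by
          field_simp
          ring
        rw [ex] at this
        have h3 : (1 : ℝ) / 2 * h y ≤ (x - α) / (y - α) * h y :=
          mul_le_mul_of_nonneg_right ht3 (h0 y)
        have h4 : 0 ≤ (1 - (x - α) / (y - α)) * h α :=
          mul_nonneg (sub_nonneg.mpr ht2) (h0 α)
        linarith
      · have hxb' : β < x := lt_of_not_ge hxb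
        have hz : ∀ y ∈ Ici x, rh α β a b y = 0 := by
          intro y hy
          rw [hρ, indicator_of_notMem]
          rintro ⟨-, h5⟩
          exact absurd h5 (not_le.mpr (lt_of_lt_of_le hxb' hy))
        have : ∫ y in Ioi x, rh α β a b y = 0 := by
          rw [setIntegral_congr_fun measurableSet_Ioi
            (fun y hy => hz y (Ioi_subset_Ici_self hy))]
          simp
        rw [this, hz x (mem_Ici.mpr le_rfl)]
        simp
    · intro x hx
      by_cases hxb : α ≤ x
      · have hxa : x ≤ β := by linarith
        have hv : rh α β a b x = h x / A := by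
          rw [hρ, indicator_of_mem (show x ∈ Icc α β from ⟨hxb, hxa⟩)]
        have hds : ds α β x = x - α := by
          unfold ds
          rw [min_eq_left (by linarith), max_eq_right (by linarith)]
        rw [hv, hds, hρ]
        refine half_left α β x A h hA hxb hxa hc fun y hy1 hy2 => ?_
        rcases eq_or_lt_of_le hy2 with rfl | hlt'
        · linarith [h0 y]
        have hay : 0 < β - y := by linarith
        have ht1 : 0 ≤ (β - x) / (β - y) := by
          apply div_nonneg <;> linarith
        have ht2 : (β - x) / (β - y) ≤ 1 := by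
          rw [div_le_one hay]; linarith
        have ht3 : 1 / 2 ≤ (β - x) / (β - y) := by
          rw [div_le_div_iff₀ (by norm_num) hay]; linarith
        have := hconc.2 (show β ∈ Icc α β from ⟨hlt.le, le_refl _⟩)
          (show y ∈ Icc α β from ⟨hy1, by linarith⟩) (sub_nonneg.mpr ht2) ht1 (by ring)
        rw [smul_eq_mul, smul_eq_mul, smul_eq_mul, smul_eq_mul] at this
        have ex : (1 - (β - x) / (β - y)) * β + (β - x) / (β - y) * y = x := by
          field_simp
          ring
        rw [ex] at this
        have h3 : (1 : ℝ) / 2 * h y ≤ (β - x) / (β - y) * h y :=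
          mul_le_mul_of_nonneg_right ht3 (h0 y)
        have h4 : 0 ≤ (1 - (β - x) / (β - y)) * h β :=
          mul_nonneg (sub_nonneg.mpr ht2) (h0 β)
        linarith
      · have hxb' : x < α := lt_of_not_ge hxb
        have hz : ∀ y ∈ Iic x, rh α β a b y = 0 := by
          intro y hy
          rw [hρ, indicator_of_notMem]
          rintro ⟨h5, -⟩
          exact absurd h5 (not_le.mpr (lt_of_le_of_lt hy hxb'))
        have : ∫ y in Iio x, rh α β a b y = 0 := by
          rw [setIntegral_congr_fun measurableSet_Iio
            (fun y hy => hz y (Iio_subset_Iic_self hy))]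
          simp
        rw [this, hz x (mem_Iic.mpr le_rfl)]
        simp

end Pool.Agent.T2h95.OC
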